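import Pool.Agent.Helper93.NP.Kos

/-! Statements of the parts of the proof (MP_16deda_ag). Every `St...` is a proposition that is
proved in its own module. -/

namespace Pool.Agent.Helper93.NP

open MvPolynomial

/-- The quotient ideal `(J : f)`. -/
def qt {R : Type} [CommRing R] (J : Ideal R) (f : R) : Ideal R :=
  Submodule.comap (LinearMap.mulLeft R f) J

theorem mem_qt {R : Type} [CommRing R] {J : Ideal R} {f g : R} : g ∈ qt J f ↔ f * g ∈ J :=
  Iff.rfl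

/-- Integer combinations of iterated differences. -/
def app {ι : Type} [DecidableEq ι] (W : List (ℤ × List ι)) (F : (ι → ℕ) → ℤ) (α : ι → ℕ) : ℤ :=
  (W.map fun p => p.1 * difs p.2 F α).sum

/-- The types of the variables of `K[x, y, c]` with six variables `c`. -/
def tau3 : (Fin 3 ⊕ Fin 15) ⊕ Fin 6 → Fin 3 :=
  Sum.elim (Sum.elim (fun _ => 0) (fun _ => 1)) (fun _ => 2)

/-- The types of the variables of `K[x, y, s₀, s₁]`. -/
def tau4 : (Fin 3 ⊕ Fin 15) ⊕ Fin 2 → Fin 3 :=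
  Sum.elim (Sum.elim (fun _ => 0) (fun _ => 1)) (fun _ => 2)

/-! ### General facts on Hilbert functions -/

/-- The exact sequence of multiplication by a homogeneous element. -/
def StExact : Prop :=
  ∀ (K σ ι : Type) [Field K] [Fintype σ] [Fintype ι] [DecidableEq ι] (τ : σ → ι)
    (J : Ideal (MvPolynomial σ K)), IsHom τ J → ∀ (f : MvPolynomial σ K) (δ : ι → ℕ),
    f ∈ Comp K τ δ → ∀ α : ι → ℕ,
      HF τ J (α + δ) = HF τ (qt J f) α + HF τ (J ⊔ Ideal.span {f}) (α + δ)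

/-- Basic operations on multihomogeneous ideals. -/
def StHomOps : Prop :=
  ∀ (K σ ι : Type) [Field K] [Fintype σ] [Fintype ι] [DecidableEq ι] (τ : σ → ι),
    IsHom τ (⊤ : Ideal (MvPolynomial σ K)) ∧ IsHom τ (⊥ : Ideal (MvPolynomial σ K)) ∧
    (∀ S : Set (MvPolynomial σ K), (∀ f ∈ S, ∃ δ : ι → ℕ, f ∈ Comp K τ δ) →
      IsHom τ (Ideal.span S)) ∧
    (∀ I J : Ideal (MvPolynomial σ K), IsHom τ I → IsHom τ J → IsHom τ (I ⊔ J)) ∧
    (∀ (J : Ideal (MvPolynomial σ K)) (f : MvPolynomial σ K) (δ : ι → ℕ), IsHom τ J →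
      f ∈ Comp K τ δ → IsHom τ (qt J f))

/-- Basic properties of Hilbert functions. -/
def StHFBasic : Prop :=
  ∀ (K σ ι : Type) [Field K] [Fintype σ] [Fintype ι] [DecidableEq ι] (τ : σ → ι),
    (∀ J J' : Ideal (MvPolynomial σ K), J ≤ J' → ∀ α, HF τ J' α ≤ HF τ J α) ∧
    (∀ α, HF τ (⊤ : Ideal (MvPolynomial σ K)) α = 0) ∧
    (∀ (J J' : Ideal (MvPolynomial σ K)) (α : ι → ℕ),
      (∀ f ∈ Comp K τ α, f ∈ J ↔ f ∈ J') → HF τ J α = HF τ J' α) ∧
    (∀ (J : Ideal (MvPolynomial σ K)) (i : ι), (∀ s, τ s = i → X s ∈ J) →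
      ∀ α : ι → ℕ, 1 ≤ α i → HF τ J α = 0) ∧
    (∀ (J : Ideal (MvPolynomial σ K)) (α : ι → ℕ),
      HF τ J α + (Module.finrank K ((Comp K τ α ⊓ J.restrictScalars K : Submodule K
        (MvPolynomial σ K))) : ℤ) = (Module.finrank K (Comp K τ α) : ℤ))

/-- Homogeneous ideals that are prime for homogeneous elements are prime. -/
def StPrime : Prop :=
  ∀ (K σ ι : Type) [Field K] [Fintype σ] [Fintype ι] [DecidableEq ι] (τ : σ → ι)
    (J : Ideal (MvPolynomial σ K)), IsHom τ J → J ≠ ⊤ →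
    (∀ (d e : ι → ℕ) (f g : MvPolynomial σ K), f ∈ Comp K τ d → g ∈ Comp K τ e →
      f * g ∈ J → f ∈ J ∨ g ∈ J) → J.IsPrime

/-- The induction principle for homogeneous ideals. -/
def StInd : Prop :=
  ∀ (K σ ι : Type) [Field K] [Fintype σ] [Fintype ι] [DecidableEq ι] (τ : σ → ι)
    (Good : Ideal (MvPolynomial σ K) → Prop), Good ⊤ →
    (∀ P : Ideal (MvPolynomial σ K), P.IsPrime → IsHom τ P →
      (∀ J, IsHom τ J → P < J → Good J) → Good P) →
    (∀ J : Ideal (MvPolynomial σ K), IsHom τ J → ∀ (f : MvPolynomial σ K) (δ : ι → ℕ),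
      f ∈ Comp K τ δ → J < qt J f → J < J ⊔ Ideal.span {f} →
      Good (qt J f) → Good (J ⊔ Ideal.span {f}) → Good J) →
    ∀ J : Ideal (MvPolynomial σ K), IsHom τ J → Good J

/-- Hilbert functions are eventually polynomial. -/
def StHS : Prop :=
  ∀ (K σ ι : Type) [Field K] [Fintype σ] [Fintype ι] [DecidableEq ι] (τ : σ → ι)
    (J : Ideal (MvPolynomial σ K)), IsHom τ J → ∃ m, DegLT m (HF τ J)

/-- Top constants of Hilbert functions are nonnegative. -/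
def StNN : Prop :=
  ∀ (K σ ι : Type) [Field K] [Fintype σ] [Fintype ι] [DecidableEq ι] (τ : σ → ι)
    (J : Ideal (MvPolynomial σ K)), IsHom τ J → ∀ m : ℕ, DegLT (m + 1) (HF τ J) →
    ∀ l : List ι, l.length = m → ∀ c : ℤ, HasC l (HF τ J) c → 0 ≤ c

/-- There is no cancellation in the exact sequence. -/
def StNC : Prop :=
  ∀ (K σ ι : Type) [Field K] [Fintype σ] [Fintype ι] [DecidableEq ι] (τ : σ → ι)
    (J : Ideal (MvPolynomial σ K)), IsHom τ J → ∀ (f : MvPolynomial σ K) (δ : ι → ℕ),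
    f ∈ Comp K τ δ → ∀ m : ℕ, DegLT m (HF τ J) →
      DegLT m (HF τ (qt J f)) ∧ DegLT m (HF τ (J ⊔ Ideal.span {f}))

/-- Devissage: linear inequalities between top constants can be checked on primes. -/
def StDV : Prop :=
  ∀ (K σ ι : Type) [Field K] [Fintype σ] [Fintype ι] [DecidableEq ι] (τ : σ → ι)
    (I₀ : Ideal (MvPolynomial σ K)) (m : ℕ) (W : List (ℤ × List ι)),
    (∀ p ∈ W, p.2.length = m) →
    (∀ P : Ideal (MvPolynomial σ K), P.IsPrime → IsHom τ P → I₀ ≤ P →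
      DegLT (m + 1) (HF τ P) → Ev (fun α => 0 ≤ app W (HF τ P) α)) →
    ∀ J : Ideal (MvPolynomial σ K), IsHom τ J → I₀ ≤ J → DegLT (m + 1) (HF τ J) →
      Ev (fun α => 0 ≤ app W (HF τ J) α)

/-! ### Growth -/

/-- Growth in one direction bounds the number of differences in this direction. -/
def StGrow : Prop :=
  ∀ (ι : Type) [Fintype ι] [DecidableEq ι] (F G : (ι → ℕ) → ℤ) (i : ι) (e : ℕ),
    (∀ α, 0 ≤ F α) → Ev (fun α => F α ≤ G α) →
    Ev (fun α => difs (List.replicate (e + 1) i) G α = 0) →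
    ∀ (l : List ι) (c : ℤ), HasC l F c → e < l.count i → c = 0

/-- The Hilbert function of the polynomial ring. -/
def StBot : Prop :=
  ∀ (K : Type) [Field K] (N : ℕ), 1 ≤ N → ∀ α : Fin 2 → ℕ,
    HF (tau N) (⊥ : Ideal (MvPolynomial (Fin 3 ⊕ Fin N) K)) α =
      (((α 0 + 2).choose 2 * (α 1 + (N - 1)).choose (N - 1) : ℕ) : ℤ)

def StG3 : Prop :=
  ∀ (K : Type) [Field K] (N : ℕ) (J : Ideal (MvPolynomial (Fin 3 ⊕ Fin N) K)),
    ∀ (l : List (Fin 2)) (c : ℤ), HasC l (HF (tau N) J) c → 3 ≤ l.count 0 → c = 0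

def StG2 : Prop :=
  ∀ (K : Type) [Field K] (N : ℕ) (J : Ideal (MvPolynomial (Fin 3 ⊕ Fin N) K))
    (p : ℕ) (F : MvPolynomial (Fin 3 ⊕ Fin N) K), F ∈ Comp K (tau N) ![p, 0] → F ≠ 0 → F ∈ J →
    ∀ (l : List (Fin 2)) (c : ℤ), HasC l (HF (tau N) J) c → 2 ≤ l.count 0 → c = 0

/-- The linear form vanishing at `u` and `v`. -/
noncomputable def lam {K : Type} [Field K] {N : ℕ} (u v : Fin 3 → K) :
    MvPolynomial (Fin 3 ⊕ Fin N) K :=
  C (u 1 * v 2 - u 2 * v 1) * X (Sum.inl 0) + C (u 2 * v 0 - u 0 * v 2) * X (Sum.inl 1) +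
    C (u 0 * v 1 - u 1 * v 0) * X (Sum.inl 2)

def StG1 : Prop :=
  ∀ (K : Type) [Field K] (N : ℕ) (J : Ideal (MvPolynomial (Fin 3 ⊕ Fin N) K))
    (u v : Fin 3 → K), LinearIndependent K ![u, v] → lam u v ∈ J →
    ∀ (p : ℕ) (F : MvPolynomial (Fin 3 ⊕ Fin N) K), F ∈ Comp K (tau N) ![p, 0] → F ∈ J →
    eval (Sum.elim v 0) F ≠ 0 →
    ∀ (l : List (Fin 2)) (c : ℤ), HasC l (HF (tau N) J) c → 1 ≤ l.count 0 → c = 0

/-- Ideals of one dimensional Hilbert function are killed by a form in `x` up to a power of the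
`y`. -/
def StTor : Prop :=
  ∀ (K : Type) [Field K] (N : ℕ) (J : Ideal (MvPolynomial (Fin 3 ⊕ Fin N) K)),
    IsHom (tau N) J → DegLT 2 (HF (tau N) J) →
    ∃ (p : ℕ) (F : MvPolynomial (Fin 3 ⊕ Fin N) K), F ∈ Comp K (tau N) ![p, 0] ∧ F ≠ 0 ∧
      ∃ n : ℕ, ∀ g ∈ Comp K (tau N) ![0, n], F * g ∈ J

/-! ### The catalecticant matrix -/

/-- The value of the generic quartic at `u`. -/
noncomputable def Gq {K : Type} [Field K] (u : Fin 3 → K) : MvPolynomial (Fin 3 ⊕ Fin 15) K :=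
  ∑ a : Fin 3, ∑ b : Fin 3, ∑ c : Fin 3, ∑ d : Fin 3,
    C (u a * u b * u c * u d) * X (Sum.inr (ix a b c d))

/-- `M0` and `M1` over a field. -/
def M0K (K : Type) [Field K] (l : Fin 10) (k : Fin 15) (i : Fin 3) : K := (M0 l k i : K)

def M1K (K : Type) [Field K] (l : Fin 10) (k : Fin 15) (i : Fin 3) : K := (M1 l k i : K)

def StGq : Prop :=
  ∀ (K : Type) [Field K] [CharZero K] (J : Ideal (MvPolynomial (Fin 3 ⊕ Fin 15) K)),
    (∀ u : Fin 3 → K, Gq u ∈ J) → ∀ k : Fin 15, X (Sum.inr k) ∈ J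

/-- The basic inequality over a line. -/
def StRatio : Prop :=
  ∀ (K : Type) [Field K] (Q : Ideal (MvPolynomial (Fin 3 ⊕ Fin 15) K)), Q.IsPrime →
    IsHom (tau 15) Q → IM (M0K K) ≤ Q → ∀ u v : Fin 3 → K, LinearIndependent K ![u, v] →
    lam u v ∈ Q → Gq u ∉ Q →
    ∀ a b : ℕ, HF (tau 15) Q ![a + 4, b] ≤ HF (tau 15) Q ![a, b + 1]

/-- Part I: `h ξ - 4 h²` is nonnegative on surfaces. -/
def StPartI : Prop :=
  ∀ (K : Type) [Field K] [CharZero K] (J : Ideal (MvPolynomial (Fin 3 ⊕ Fin 15) K)),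
    IsHom (tau 15) J → IM (M0K K) ≤ J → DegLT 3 (HF (tau 15) J) →
    Ev (fun α => 0 ≤ app [(1, [0, 1]), (-4, [0, 0])] (HF (tau 15) J) α)

def StBundle0 : Prop := ∀ (K : Type) [Field K], IsBundle (M0K K)

/-! ### The kernel of six quintics -/

/-- Forms of degree at least seven in `x` are combinations of the quintics. -/
def StSur : Prop :=
  ∀ (K : Type) [Field K] [CharZero K] (a b : ℕ), 2 ≤ a →
    ∀ f ∈ Comp K (tau 15) ![a + 5, b], ∃ h : Fin 6 → MvPolynomial (Fin 3 ⊕ Fin 15) K,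
      (∀ j, h j ∈ Comp K (tau 15) ![a, b]) ∧
      f = ∑ j, h j * gv (fun i => X (Sum.inl i)) j

/-- Exactness at points. -/
def StPoint : Prop :=
  ∀ (L : Type) [Field L] [CharZero L] (x : Fin 3 → L), x ≠ 0 → ∀ y : Fin 15 → L,
    (∀ l, row1 x y l = 0) → ∃ c : Fin 6 → L, ∀ k, y k = ∑ j, Yv x k j * c j

/-- The data lifting the generic point of a subvariety. -/
structure Lift (K : Type) [Field K] (P : Ideal (MvPolynomial (Fin 3 ⊕ Fin 15) K)) where
  p : ℕ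
  q : ℕ
  n : Fin 6 → MvPolynomial (Fin 3 ⊕ Fin 15) K
  mu : MvPolynomial (Fin 3 ⊕ Fin 15) K
  e : MvPolynomial (Fin 3 ⊕ Fin 15) K
  hn : ∀ j, n j ∈ Comp K (tau 15) ![p + 5, q + 1]
  hmu : mu ∈ Comp K (tau 15) ![p + 8, q]
  hmuP : mu ∉ P
  he : e ∈ Comp K (tau 15) ![p, q + 1]
  heP : e ∉ P
  eq : ∀ k, ∑ j, Yv (fun i => X (Sum.inl i)) k j * n j - mu * X (Sum.inr k) ∈ P

def StLift : Prop :=
  ∀ (K : Type) [Field K] [CharZero K] (P : Ideal (MvPolynomial (Fin 3 ⊕ Fin 15) K)),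
    P.IsPrime → IsHom (tau 15) P → IM (M1K K) ≤ P → (∃ i, X (Sum.inl i) ∉ P) →
    (∃ k, X (Sum.inr k) ∉ P) → Nonempty (Lift K P)

/-- The extension of `P` to `K[x, y, s₀, s₁]`. -/
noncomputable def extP {K : Type} [Field K] (P : Ideal (MvPolynomial (Fin 3 ⊕ Fin 15) K)) :
    Ideal (MvPolynomial ((Fin 3 ⊕ Fin 15) ⊕ Fin 2) K) :=
  Ideal.map (rename (Sum.inl : Fin 3 ⊕ Fin 15 → (Fin 3 ⊕ Fin 15) ⊕ Fin 2)).toRingHom P

/-- The homomorphism `c_j ↦ s₀ u_j + s₁ v_j`. -/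
noncomputable def phi {K : Type} [Field K] (u v : Fin 6 → MvPolynomial (Fin 3 ⊕ Fin 15) K) :
    MvPolynomial ((Fin 3 ⊕ Fin 15) ⊕ Fin 6) K →ₐ[K]
      MvPolynomial ((Fin 3 ⊕ Fin 15) ⊕ Fin 2) K :=
  aeval (Sum.elim (fun s => X (Sum.inl s))
    (fun j => X (Sum.inr 0) * rename Sum.inl (u j) + X (Sum.inr 1) * rename Sum.inl (v j)))

/-- The ideal of the cone over the subvariety of `P`. -/
noncomputable def coneP {K : Type} [Field K] (P : Ideal (MvPolynomial (Fin 3 ⊕ Fin 15) K))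
    (u v : Fin 6 → MvPolynomial (Fin 3 ⊕ Fin 15) K) :
    Ideal (MvPolynomial ((Fin 3 ⊕ Fin 15) ⊕ Fin 6) K) :=
  Ideal.comap (phi u v).toRingHom (extP P)

/-- The six quintics in `K[x, y]`. -/
noncomputable def gx (K : Type) [Field K] (j : Fin 6) : MvPolynomial (Fin 3 ⊕ Fin 15) K :=
  gv (fun i => X (Sum.inl i)) j

/-- The linear forms `(Y c)_k` in `K[x, y, c]`. -/
noncomputable def yc (K : Type) [Field K] (k : Fin 15) :
    MvPolynomial ((Fin 3 ⊕ Fin 15) ⊕ Fin 6) K :=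
  ∑ j, Yv (fun i => X (Sum.inl (Sum.inl i))) k j * X (Sum.inr j)

/-- Gradings pulled back along a homomorphism. -/
def StComap : Prop :=
  ∀ (K σ σ' ι ι' : Type) [Field K] [Fintype σ] [Fintype σ'] [Fintype ι] [Fintype ι']
    [DecidableEq ι] [DecidableEq ι'] (τ : σ → ι) (τ' : σ' → ι')
    (ψ : (ι → ℕ) →+ (ι' → ℕ)) (φ : MvPolynomial σ K →ₐ[K] MvPolynomial σ' K),
    Function.Injective ψ → (∀ s, φ (X s) ∈ Comp K τ' (ψ (Pi.single (τ s) 1))) →
    (∀ d, ∀ f ∈ Comp K τ d, φ f ∈ Comp K τ' (ψ d)) ∧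
    ∀ J : Ideal (MvPolynomial σ' K), IsHom τ' J → IsHom τ (Ideal.comap φ.toRingHom J)

/-- Hilbert functions of inverse images. -/
def StHFComap : Prop :=
  ∀ (K σ σ' ι : Type) [Field K] [Fintype σ] [Fintype σ'] [Fintype ι] [DecidableEq ι]
    (τ : σ → ι) (φ : MvPolynomial σ K →ₐ[K] MvPolynomial σ' K)
    (J : Ideal (MvPolynomial σ' K)) (d : ι → ℕ),
    HF τ (Ideal.comap φ.toRingHom J) d =
      (Module.finrank K ((Comp K τ d).map
        ((Ideal.Quotient.mkₐ K J).toLinearMap ∘ₗ φ.toLinearMap)) : ℤ)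

/-- The ideals `extP P`. -/
def StExt : Prop :=
  ∀ (K : Type) [Field K] (P : Ideal (MvPolynomial (Fin 3 ⊕ Fin 15) K)), P.IsPrime →
    IsHom (tau 15) P → (extP P).IsPrime ∧ IsHom tau4 (extP P) ∧
    (∀ f, rename Sum.inl f ∈ extP P ↔ f ∈ P) ∧
    (∀ (n : ℕ) (f : MvPolynomial (Fin 3 ⊕ Fin 15) K),
      X (Sum.inr 1) ^ n * rename Sum.inl f ∈ extP P → f ∈ P) ∧
    X (Sum.inr 0) ∉ extP P ∧ X (Sum.inr 1) ∉ extP P

/-- The cone is a prime ideal, its part of degree zero in `c`. -/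
def StCone : Prop :=
  ∀ (K : Type) [Field K] (P : Ideal (MvPolynomial (Fin 3 ⊕ Fin 15) K)), P.IsPrime →
    IsHom (tau 15) P → ∀ (p q : ℕ) (u v : Fin 6 → MvPolynomial (Fin 3 ⊕ Fin 15) K),
    (∀ j, u j ∈ Comp K (tau 15) ![p, q]) → (∀ j, v j ∈ Comp K (tau 15) ![p, q]) →
    (coneP P u v).IsPrime ∧ IsHom tau3 (coneP P u v) ∧
    ∀ a b : ℕ, HF tau3 (coneP P u v) ![a, b, 0] = HF (tau 15) P ![a, b]

/-- First step: the ideal generated by the `(Y c)_k`. -/
def StCone1 : Prop :=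
  ∀ (K : Type) [Field K] (P : Ideal (MvPolynomial (Fin 3 ⊕ Fin 15) K)), P.IsPrime →
    IsHom (tau 15) P → ∀ T : Lift K P, ∀ a b m : ℕ,
      HF tau3 (coneP P T.n (fun j => T.e * gx K j)) ![a + 3, b, m + 1] =
        HF tau3 (coneP P T.n (fun j => T.e * gx K j)) ![a, b + 1, m] +
        HF tau3 (coneP P T.n (fun j => T.e * gx K j) ⊔ Ideal.span (Set.range (yc K)))
          ![a + 3, b, m + 1]

/-- Second step: this ideal agrees with the ideal of the section in large `x`-degrees. -/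
def StCone2 : Prop :=
  ∀ (K : Type) [Field K] [CharZero K] (P : Ideal (MvPolynomial (Fin 3 ⊕ Fin 15) K)),
    P.IsPrime → IsHom (tau 15) P → ∀ T : Lift K P, ∃ a₀ : ℕ, ∀ a b m : ℕ, a₀ ≤ a →
      HF tau3 (coneP P T.n (fun j => T.e * gx K j) ⊔ Ideal.span (Set.range (yc K)))
          ![a, b, m] = HF tau3 (coneP P 0 (gx K)) ![a, b, m]

/-- Third step: the ideal of the section. -/
def StCone3 : Prop :=
  ∀ (K : Type) [Field K] [CharZero K] (P : Ideal (MvPolynomial (Fin 3 ⊕ Fin 15) K)),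
    P.IsPrime → IsHom (tau 15) P → ∀ a b m : ℕ, 2 ≤ a →
      HF tau3 (coneP P 0 (gx K)) ![a, b, m] = HF (tau 15) P ![a + 5 * m, b]

/-- The numerical deduction. -/
def StNumeric : Prop :=
  ∀ (F : (Fin 3 → ℕ) → ℤ) (H : (Fin 2 → ℕ) → ℤ), (∃ m, DegLT m F) →
    (∀ m : ℕ, DegLT (m + 1) F → ∀ l : List (Fin 3), l.length = m → ∀ c, HasC l F c → 0 ≤ c) →
    DegLT 5 H → (∀ (l : List (Fin 2)) (c : ℤ), HasC l H c → 3 ≤ l.count 0 → c = 0) →
    (∀ a b : ℕ, F ![a, b, 0] = H ![a, b]) →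
    (∃ a₀ : ℕ, ∀ a b m : ℕ, a₀ ≤ a →
      F ![a + 3, b, m + 1] = F ![a, b + 1, m] + H ![a + 3 + 5 * (m + 1), b]) →
    Ev (fun α => 0 ≤ app [(1, [1, 1, 1, 1]), (-7, [0, 1, 1, 1]), (34, [0, 0, 1, 1])] H α)

/-- Part II: `Ψ = D₀ - 7 D₁ + 34 D₂` is nonnegative on fourfolds. -/
def StPartII : Prop :=
  ∀ (K : Type) [Field K] [CharZero K] (J : Ideal (MvPolynomial (Fin 3 ⊕ Fin 15) K)),
    IsHom (tau 15) J → IM (M1K K) ≤ J → DegLT 5 (HF (tau 15) J) →
    Ev (fun α => 0 ≤ app [(1, [1, 1, 1, 1]), (-7, [0, 1, 1, 1]), (34, [0, 0, 1, 1])]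
      (HF (tau 15) J) α)

/-! ### Specialisation -/

/-- Valuation rings of the complex numbers at which a transcendental number specialises to a
given integer. -/
def StVal : Prop :=
  ∀ (t : ℂ), Transcendental ℚ t → ∀ c : ℤ, ∃ V : ValuationSubring ℂ,
    CharZero (IsLocalRing.ResidueField V) ∧
    ∃ t' : V, (t' : ℂ) = t ∧ IsLocalRing.residue V t' = (c : IsLocalRing.ResidueField V)

/-- Reduction of a subspace preserves the dimension. -/
def StRed : Prop :=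
  ∀ (K : Type) [Field K] (V : ValuationSubring K) (n : Type) [Fintype n]
    (U : Submodule K (n → K)),
    Module.finrank (IsLocalRing.ResidueField V)
      (Submodule.span (IsLocalRing.ResidueField V)
        {w : n → IsLocalRing.ResidueField V | ∃ u : n → V, (fun i => ((u i : V) : K)) ∈ U ∧
          ∀ i, IsLocalRing.residue V (u i) = w i}) = Module.finrank K U

/-- The specialisation of an ideal. -/
noncomputable def spec {K : Type} [Field K] {σ : Type} (V : ValuationSubring K)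
    (P : Ideal (MvPolynomial σ K)) : Ideal (MvPolynomial σ (IsLocalRing.ResidueField V)) :=
  Ideal.map (MvPolynomial.map (IsLocalRing.residue V))
    (Ideal.comap (MvPolynomial.map (V.subtype)) P)

def StSpec : Prop :=
  ∀ (K σ ι : Type) [Field K] [Fintype σ] [Fintype ι] [DecidableEq ι] (τ : σ → ι)
    (V : ValuationSubring K) (P : Ideal (MvPolynomial σ K)), IsHom τ P →
    IsHom τ (spec V P) ∧ ∀ d, HF τ (spec V P) d = HF τ P d

def StSpecIM : Prop :=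
  ∀ (K : Type) [Field K] (V : ValuationSubring K) (a N : ℕ)
    (M : Fin a → Fin N → Fin 3 → V) (P : Ideal (MvPolynomial (Fin 3 ⊕ Fin N) K)),
    IM (fun l k i => ((M l k i : V) : K)) ≤ P →
    IM (fun l k i => IsLocalRing.residue V (M l k i)) ≤ spec V P

def StSpecBundle : Prop :=
  ∀ (K : Type) [Field K] (V : ValuationSubring K) (a N : ℕ)
    (M : Fin a → Fin N → Fin 3 → V),
    IsBundle (fun l k i => IsLocalRing.residue V (M l k i)) →
    IsBundle (fun l k i => ((M l k i : V) : K))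

/-! ### The numbers of the bundle -/

/-- The linear forms generate up to a power of a maximal minor. -/
def StMinor : Prop :=
  ∀ (K : Type) [Field K] (N l : ℕ) (M : Fin (l + 1) → Fin N → Fin 3 → K)
    (s : Fin (l + 1) → Fin N), Function.Injective s →
    ∀ (b : Fin 2 → ℕ) (g : MvPolynomial (Fin 3 ⊕ Fin N) K), g ∈ Comp K (tau N) b →
    fM M (Fin.last l) * g ∈ IM (fun j : Fin l => M j.castSucc) →
    Matrix.det (Matrix.of fun (j j' : Fin (l + 1)) =>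
      ∑ i, (C (M j (s j') i) * X (Sum.inl i) : MvPolynomial (Fin 3 ⊕ Fin N) K)) ≠ 0 →
    (Matrix.det (Matrix.of fun (j j' : Fin (l + 1)) =>
      ∑ i, (C (M j (s j') i) * X (Sum.inl i) : MvPolynomial (Fin 3 ⊕ Fin N) K))) ^ (b 1) * g ∈
      IM (fun j : Fin l => M j.castSucc)

/-- The maximal minors generate an ideal containing a power of the irrelevant ideal. -/
def StNull : Prop :=
  ∀ (K : Type) [Field K] [IsAlgClosed K] (N l : ℕ) (M : Fin (l + 1) → Fin N → Fin 3 → K),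
    IsBundle M → ∃ n : ℕ, ∀ i : Fin 3,
      (X (Sum.inl i) : MvPolynomial (Fin 3 ⊕ Fin N) K) ^ n ∈
        Ideal.span {d | ∃ s : Fin (l + 1) → Fin N, Function.Injective s ∧
          d = Matrix.det (Matrix.of fun (j j' : Fin (l + 1)) =>
            ∑ i, (C (M j (s j') i) * X (Sum.inl i) : MvPolynomial (Fin 3 ⊕ Fin N) K))}

/-- Two ideals which agree up to powers of the `x` agree in large `x`-degrees. -/
def StSat : Prop :=
  ∀ (K σ ι : Type) [Field K] [Fintype σ] [Fintype ι] [DecidableEq ι] (τ : σ → ι) (i : ι)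
    (I J : Ideal (MvPolynomial σ K)), IsHom τ I → IsHom τ J → I ≤ J →
    (∀ (d : ι → ℕ) (f : MvPolynomial σ K), f ∈ Comp K τ d → f ∈ J →
      ∃ n : ℕ, ∀ s, τ s = i → X s ^ n * f ∈ I) →
    ∃ a₀ : ℕ, ∀ α : ι → ℕ, a₀ ≤ α i → HF τ J α = HF τ I α

def StReg : Prop :=
  ∀ (K : Type) [Field K] [IsAlgClosed K] (N l : ℕ) (M : Fin (l + 1) → Fin N → Fin 3 → K),
    IsBundle M → ∃ a₀ : ℕ, ∀ α : Fin 2 → ℕ, a₀ ≤ α 0 →
      HF (tau N) (qt (IM (fun j : Fin l => M j.castSucc)) (fM M (Fin.last l))) α =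
        HF (tau N) (IM (fun j : Fin l => M j.castSucc)) α

/-- The intersection numbers of the bundle. -/
def StNumbers : Prop :=
  ∀ (K : Type) [Field K] [IsAlgClosed K] (M : Fin 10 → Fin 15 → Fin 3 → K), IsBundle M →
    HasNumbers (IM M) 6 (fun j => if j = 0 then 45 else if j = 1 then 10 else
      if j = 2 then 1 else 0)

end Pool.Agent.Helper93.NP
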