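import Pool.Agent.Helper93.NP.Pos
import Pool.Agent.Helper93.NP.St

/-! Assembly. -/

namespace Pool.Agent.Helper93.NP

open MvPolynomial

theorem exists_transcendental : ∃ t : ℂ, Transcendental ℚ t := by
  have h : Transcendental ℤ (liouvilleNumber 2) := transcendental_liouvilleNumber (le_refl 2)
  refine ⟨((liouvilleNumber 2 : ℝ) : ℂ), ?_⟩
  intro hal
  have h1 : IsAlgebraic ℤ (((liouvilleNumber 2 : ℝ) : ℂ)) := by
    exact (IsFractionRing.isAlgebraic_iff ℤ ℚ ℂ).2 hal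
  have h2 : IsAlgebraic ℤ (liouvilleNumber 2 : ℝ) :=
    (isAlgebraic_algebraMap_iff (A := ℂ) (algebraMap ℝ ℂ).injective).1 h1
  exact h h2

/-- The pencil. -/
noncomputable def Mt {A : Type} [CommRing A] (t : A) (l : Fin 10) (k : Fin 15) (i : Fin 3) : A :=
  (1 - t) * (M0 l k i : A) + t * (M1 l k i : A)

theorem degLT_of_HF_eq {K K' : Type} [Field K] [Field K'] {N : ℕ}
    {J : Ideal (MvPolynomial (Fin 3 ⊕ Fin N) K)} {J' : Ideal (MvPolynomial (Fin 3 ⊕ Fin N) K')}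
    (h : ∀ d, HF (tau N) J' d = HF (tau N) J d) : HF (tau N) J' = HF (tau N) J := funext h

theorem final (hPI : StPartI) (hPII : StPartII) (hB0 : StBundle0) (hVal : StVal)
    (hSpec : StSpec) (hIM : StSpecIM) (hSB : StSpecBundle) (hNum : StNumbers) :
    ∃ M : Fin 10 → Fin 15 → Fin 3 → ℂ, IsBundle M ∧ (∃ s, HasNumbers (IM M) 6 s) ∧
      IsNef M 2 ![0, 1, -4] ∧ ¬ IsPsef M 6 2 ![0, 1, -4] := by
  obtain ⟨t, ht⟩ := exists_transcendental
  obtain ⟨V0, hV0, t0, ht0, hr0⟩ := hVal t ht 0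
  obtain ⟨V1, hV1, t1, ht1, hr1⟩ := hVal t ht 1
  have hM0 : (fun l k i => ((Mt t0 l k i : V0) : ℂ)) = Mt t := by
    funext l k i
    simp [Mt, ht0]
  have hM1 : (fun l k i => ((Mt t1 l k i : V1) : ℂ)) = Mt t := by
    funext l k i
    simp [Mt, ht1]
  have hR0 : (fun l k i => IsLocalRing.residue V0 (Mt t0 l k i)) =
      M0K (IsLocalRing.ResidueField V0) := by
    funext l k i
    simp [Mt, hr0, M0K]
  have hR1 : (fun l k i => IsLocalRing.residue V1 (Mt t1 l k i)) =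
      M1K (IsLocalRing.ResidueField V1) := by
    funext l k i
    simp [Mt, hr1, M1K]
  have hbun : IsBundle (Mt t) := by
    rw [← hM0]
    apply hSB ℂ V0 10 15 (Mt t0)
    rw [hR0]
    exact hB0 _
  refine ⟨Mt t, hbun, ⟨_, hNum ℂ (Mt t) hbun⟩, ?_, ?_⟩
  · intro P D hP
    have hle : IM (M0K (IsLocalRing.ResidueField V0)) ≤ spec V0 P := by
      rw [← hR0]
      apply hIM ℂ V0 10 15 (Mt t0) P
      rw [hM0]
      exact hP.le
    obtain ⟨hhom, hHF⟩ := hSpec ℂ (Fin 3 ⊕ Fin 15) (Fin 2) (tau 15) V0 P hP.hom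
    have hHF' : HF (tau 15) (spec V0 P) = HF (tau 15) P := funext hHF
    have h1 := hPI (IsLocalRing.ResidueField V0) (spec V0 P) hhom hle
      (by rw [hHF']; exact hP.numbers.1)
    rw [hHF'] at h1
    have hD1 := hP.numbers.2 1 (by norm_num)
    have hD2 := hP.numbers.2 2 (by norm_num)
    obtain ⟨α, h2, h3, h4⟩ := (Ev.and3 h1 hD1 hD2).exists
    have e1 : (List.replicate 1 (0 : Fin 2) ++ List.replicate (2 - 1) 1) = [0, 1] := rfl
    have e2 : (List.replicate 2 (0 : Fin 2) ++ List.replicate (2 - 2) 1) = [0, 0] := rfl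
    rw [e1] at h3
    rw [e2] at h4
    simp only [app, List.map_cons, List.map_nil, List.sum_cons, List.sum_nil] at h2
    rw [h3, h4] at h2
    have h5 : 0 ≤ D 1 - 4 * D 2 := by linarith
    have h6 : (0 : ℝ) ≤ (D 1 : ℝ) - 4 * (D 2 : ℝ) := by exact_mod_cast h5
    simp only [Fin.sum_univ_three, Matrix.cons_val_zero, Matrix.cons_val_one,
      Matrix.cons_val_two, Fin.val_zero, Fin.val_one, Fin.val_two, Matrix.head_cons,
      Matrix.tail_cons, Matrix.cons_val]
    linarith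
  · rintro ⟨s, hs, hmem⟩
    have hs1 : s 1 = 10 := (hs.2 1 (by norm_num)).unique
      ((hNum ℂ (Mt t) hbun).2 1 (by norm_num))
    have hs2 : s 2 = 1 := (hs.2 2 (by norm_num)).unique
      ((hNum ℂ (Mt t) hbun).2 2 (by norm_num))
    have hs3 : s 3 = 0 := (hs.2 3 (by norm_num)).unique
      ((hNum ℂ (Mt t) hbun).2 3 (by norm_num))
    have hs4 : s 4 = 0 := (hs.2 4 (by norm_num)).unique
      ((hNum ℂ (Mt t) hbun).2 4 (by norm_num))
    let Ψ : (Fin 3 → ℝ) → ℝ := fun v => v 0 - 7 * v 1 + 34 * v 2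
    have hΨc : Continuous Ψ := by
      show Continuous (fun v : Fin 3 → ℝ => v 0 - 7 * v 1 + 34 * v 2)
      fun_prop
    have hcl : IsClosed {v : Fin 3 → ℝ | 0 ≤ Ψ v} := isClosed_le continuous_const hΨc
    have hgen : ∀ v ∈ subvarietyClasses (Mt t) 4, 0 ≤ Ψ v := by
      rintro v ⟨P, D, hP, hv⟩
      have hle : IM (M1K (IsLocalRing.ResidueField V1)) ≤ spec V1 P := by
        rw [← hR1]
        apply hIM ℂ V1 10 15 (Mt t1) P
        rw [hM1]
        exact hP.le
      obtain ⟨hhom, hHF⟩ := hSpec ℂ (Fin 3 ⊕ Fin 15) (Fin 2) (tau 15) V1 P hP.hom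
      have hHF' : HF (tau 15) (spec V1 P) = HF (tau 15) P := funext hHF
      have h1 := hPII (IsLocalRing.ResidueField V1) (spec V1 P) hhom hle
        (by rw [hHF']; exact hP.numbers.1)
      rw [hHF'] at h1
      have hD0 := hP.numbers.2 0 (by norm_num)
      have hD1 := hP.numbers.2 1 (by norm_num)
      have hD2 := hP.numbers.2 2 (by norm_num)
      obtain ⟨α, h2, h3, h4, h5⟩ := (Ev.and h1 (Ev.and3 hD0 hD1 hD2)).exists
      have e0 : (List.replicate 0 (0 : Fin 2) ++ List.replicate (4 - 0) 1) = [1, 1, 1, 1] := rfl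
      have e1 : (List.replicate 1 (0 : Fin 2) ++ List.replicate (4 - 1) 1) = [0, 1, 1, 1] := rfl
      have e2 : (List.replicate 2 (0 : Fin 2) ++ List.replicate (4 - 2) 1) = [0, 0, 1, 1] := rfl
      rw [e0] at h3
      rw [e1] at h4
      rw [e2] at h5
      simp only [app, List.map_cons, List.map_nil, List.sum_cons, List.sum_nil] at h2
      rw [h3, h4, h5] at h2
      have h6 : 0 ≤ D 0 - 7 * D 1 + 34 * D 2 := by linarith
      have h7 : (0 : ℝ) ≤ (D 0 : ℝ) - 7 * (D 1 : ℝ) + 34 * (D 2 : ℝ) := by exact_mod_cast h6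
      show 0 ≤ v 0 - 7 * v 1 + 34 * v 2
      rw [hv 0, hv 1, hv 2]
      exact h7
    have hspan : ∀ v ∈ (Submodule.span NNReal (subvarietyClasses (Mt t) 4) :
        Set (Fin 3 → ℝ)), 0 ≤ Ψ v := by
      intro v hv
      refine Submodule.span_induction (p := fun v _ => 0 ≤ Ψ v) (fun v hv => hgen v hv) ?_ ?_ ?_ hv
      · show (0 : ℝ) ≤ (0 : Fin 3 → ℝ) 0 - 7 * (0 : Fin 3 → ℝ) 1 + 34 * (0 : Fin 3 → ℝ) 2
        simp
      · intro x y _ _ hx hy
        have : Ψ (x + y) = Ψ x + Ψ y := by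
          show (x + y) 0 - 7 * (x + y) 1 + 34 * (x + y) 2 =
            (x 0 - 7 * x 1 + 34 * x 2) + (y 0 - 7 * y 1 + 34 * y 2)
          simp only [Pi.add_apply]
          ring
        rw [this]
        exact add_nonneg hx hy
      · intro a x _ hx
        have : Ψ (a • x) = (a : ℝ) * Ψ x := by
          show (a • x) 0 - 7 * (a • x) 1 + 34 * (a • x) 2 =
            (a : ℝ) * (x 0 - 7 * x 1 + 34 * x 2)
          simp only [Pi.smul_apply, NNReal.smul_def, smul_eq_mul]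
          ring
        rw [this]
        exact mul_nonneg a.2 hx
    have hclosure : ∀ v ∈ psefCone (Mt t) 4, 0 ≤ Ψ v := by
      intro v hv
      exact closure_minimal hspan hcl hv
    have h8 := hclosure _ hmem
    have h9 : (0 : ℝ) ≤ (∑ j : Fin 3, (![0, 1, -4] : Fin 3 → ℝ) j *
          (s (((0 : Fin 3) : ℕ) + (j : ℕ)) : ℝ)) -
        7 * (∑ j : Fin 3, (![0, 1, -4] : Fin 3 → ℝ) j * (s (((1 : Fin 3) : ℕ) + (j : ℕ)) : ℝ)) +
        34 * (∑ j : Fin 3, (![0, 1, -4] : Fin 3 → ℝ) j *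
          (s (((2 : Fin 3) : ℕ) + (j : ℕ)) : ℝ)) := h8
    simp only [Fin.sum_univ_three, Matrix.cons_val_zero, Matrix.cons_val_one,
      Matrix.cons_val_two, Fin.val_zero, Fin.val_one, Fin.val_two, Matrix.head_cons,
      Matrix.tail_cons, Matrix.cons_val] at h9
    norm_num [hs1, hs2, hs3, hs4] at h9

end Pool.Agent.Helper93.NP
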