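import Pool.Agent.Helper93.NP.Diff

/-! Explicit data: the catalecticant matrix `M0`, the six quintics `gv`, their cubic syzygies `Yv`
and the matrix `M1` of linear syzygies between the rows of `Yv`. -/

namespace Pool.Agent.Helper93.NP

open MvPolynomial

/-- Index tables: `tb l i` is the index of the quartic monomial `x^ν x_i`, `l` the index of the
cubic monomial `x^ν`. -/
def tb : Fin 10 → Fin 3 → Fin 15 :=
  ![![0, 1, 2], ![1, 3, 4], ![2, 4, 5], ![3, 6, 7], ![4, 7, 8], ![5, 8, 9], ![6, 10, 11],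
    ![7, 11, 12], ![8, 12, 13], ![9, 13, 14]]

/-- The same for quadratic monomials. -/
def t3 : Fin 6 → Fin 3 → Fin 10 :=
  ![![0, 1, 2], ![1, 3, 4], ![2, 4, 5], ![3, 6, 7], ![4, 7, 8], ![5, 8, 9]]

/-- The same for linear monomials. -/
def t2 : Fin 3 → Fin 3 → Fin 6 := ![![0, 1, 2], ![1, 3, 4], ![2, 4, 5]]

/-- The index of the monomial `x_a x_b x_c`. -/
def ix3 (a b c : Fin 3) : Fin 10 := t3 (t2 a b) c

/-- The index of the monomial `x_a x_b x_c x_d`. -/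
def ix (a b c d : Fin 3) : Fin 15 := tb (ix3 a b c) d

/-- The catalecticant matrix. -/
def M0 (l : Fin 10) (k : Fin 15) (i : Fin 3) : ℤ := if k = tb l i then 1 else 0

/-- The bilinear forms of `M0`. -/
def row0 {A : Type} [CommRing A] (x : Fin 3 → A) (y : Fin 15 → A) : Fin 10 → A :=
  ![x 0 * y 0 + x 1 * y 1 + x 2 * y 2,
    x 0 * y 1 + x 1 * y 3 + x 2 * y 4,
    x 0 * y 2 + x 1 * y 4 + x 2 * y 5,
    x 0 * y 3 + x 1 * y 6 + x 2 * y 7,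
    x 0 * y 4 + x 1 * y 7 + x 2 * y 8,
    x 0 * y 5 + x 1 * y 8 + x 2 * y 9,
    x 0 * y 6 + x 1 * y 10 + x 2 * y 11,
    x 0 * y 7 + x 1 * y 11 + x 2 * y 12,
    x 0 * y 8 + x 1 * y 12 + x 2 * y 13,
    x 0 * y 9 + x 1 * y 13 + x 2 * y 14]

/-- The six quintics. -/
def gv {A : Type} [CommRing A] (x : Fin 3 → A) : Fin 6 → A :=
  ![x 0 ^ 5, x 1 ^ 5, x 2 ^ 5, x 0 ^ 3 * x 2 ^ 2 + x 1 * x 2 ^ 4,
    x 0 ^ 2 * x 1 ^ 3 + x 0 ^ 4 * x 2, x 1 ^ 2 * x 2 ^ 3 + x 0 * x 1 ^ 4]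

/-- The fifteen cubic syzygies of the quintics. -/
def Yv {A : Type} [CommRing A] (x : Fin 3 → A) : Fin 15 → Fin 6 → A :=
  ![
    ![-(x 2 ^ 3), 0, -(x 0 ^ 2 * x 1), x 0 ^ 2 * x 2, 0, 0],
    ![x 0 * x 2 ^ 2, 0, -(x 1 ^ 2 * x 2), -(x 0 ^ 3) + x 1 * x 2 ^ 2, 0, 0],
    ![0, 0, -(x 0 ^ 3) - x 1 * x 2 ^ 2, x 2 ^ 3, 0, 0],
    ![-(x 0 ^ 2 * x 2) - x 1 ^ 3, 0, 0, 0, x 0 ^ 3, 0],
    ![-(x 1 ^ 2 * x 2), -(x 0 ^ 3), 0, 0, x 0 * x 1 ^ 2, 0],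
    ![x 0 * x 2 ^ 2, -(x 0 ^ 2 * x 1), 0, 0, -(x 0 ^ 2 * x 2) + x 1 ^ 3, 0],
    ![x 0 * x 1 * x 2, 0, x 1 ^ 3, -(x 1 ^ 2 * x 2), -(x 0 ^ 2 * x 1), x 0 ^ 3],
    ![0, -(x 0 ^ 3), -(x 0 * x 1 * x 2), x 0 * x 2 ^ 2, -(x 2 ^ 3), x 0 ^ 2 * x 1],
    ![2 * x 1 * x 2 ^ 2, 0, 0, -(x 0 ^ 2 * x 1), -(x 0 * x 1 * x 2), x 0 ^ 2 * x 2],
    ![0, -(2 * x 0 ^ 2 * x 2), 0, -(x 0 * x 1 ^ 2), x 1 ^ 2 * x 2, x 0 * x 1 * x 2],
    ![0, 0, -(2 * x 0 * x 1 ^ 2), x 0 * x 1 * x 2, -(x 1 * x 2 ^ 2), x 0 * x 2 ^ 2],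
    ![0, -(x 0 * x 1 ^ 2) - x 2 ^ 3, 0, 0, 0, x 1 ^ 3],
    ![-(x 2 ^ 3), -(x 0 * x 1 * x 2), 0, -(x 1 ^ 3), x 0 * x 2 ^ 2, x 1 ^ 2 * x 2],
    ![0, -(x 0 * x 2 ^ 2), -(x 1 ^ 3), 0, 0, x 1 * x 2 ^ 2],
    ![0, x 0 ^ 2 * x 1, -(x 1 ^ 2 * x 2), 0, 0, -(x 0 * x 1 ^ 2) + x 2 ^ 3]]

/-- The nonzero entries `(k, i, c)` of the rows of `M1`. -/
def ent1 : Fin 10 → List (Fin 15 × Fin 3 × ℤ) :=
  ![[(0, 0, -1), (1, 2, -1), (2, 1, 1)],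
    [(3, 2, 1), (4, 1, -1), (5, 0, 1)],
    [(1, 1, -1), (6, 2, -1), (8, 0, 1)],
    [(4, 2, -2), (8, 1, -1), (9, 0, 1)],
    [(0, 1, -2), (8, 2, -1), (10, 0, 1)],
    [(5, 2, 1), (9, 1, -1), (12, 0, 1)],
    [(9, 2, -1), (10, 1, -1), (13, 0, 2)],
    [(0, 2, 1), (4, 0, 1), (6, 1, 1), (7, 0, -1), (12, 2, -1), (13, 1, 1)],
    [(7, 1, 1), (10, 2, -1), (14, 0, 1)],
    [(11, 0, 1), (13, 2, -1), (14, 1, 1)]]

/-- The matrix of linear syzygies of the cubic syzygies. -/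
def M1 (l : Fin 10) (k : Fin 15) (i : Fin 3) : ℤ :=
  ((ent1 l).map fun e => if e.1 = k ∧ e.2.1 = i then e.2.2 else 0).sum

/-- The bilinear forms of `M1`. -/
def row1 {A : Type} [CommRing A] (x : Fin 3 → A) (y : Fin 15 → A) : Fin 10 → A :=
  ![-(x 0 * y 0) - x 2 * y 1 + x 1 * y 2,
    x 2 * y 3 - x 1 * y 4 + x 0 * y 5,
    -(x 1 * y 1) - x 2 * y 6 + x 0 * y 8,
    -(2 * x 2 * y 4) - x 1 * y 8 + x 0 * y 9,
    -(2 * x 1 * y 0) - x 2 * y 8 + x 0 * y 10,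
    x 2 * y 5 - x 1 * y 9 + x 0 * y 12,
    -(x 2 * y 9) - x 1 * y 10 + 2 * x 0 * y 13,
    x 2 * y 0 + x 0 * y 4 + x 1 * y 6 - x 0 * y 7 - x 2 * y 12 + x 1 * y 13,
    x 1 * y 7 - x 2 * y 10 + x 0 * y 14,
    x 0 * y 11 - x 2 * y 13 + x 1 * y 14]

theorem M0_form {A : Type} [CommRing A] (x : Fin 3 → A) (y : Fin 15 → A) (l : Fin 10) :
    ∑ k, ∑ i, (M0 l k i : A) * x i * y k = row0 x y l := by
  rw [Finset.sum_comm]
  have h : ∀ i : Fin 3, ∑ k, (M0 l k i : A) * x i * y k = x i * y (tb l i) := by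
    intro i
    rw [Finset.sum_eq_single (tb l i)]
    · simp [M0]
    · intro k _ hk
      simp [M0, hk]
    · simp
  simp only [h, Fin.sum_univ_three]
  fin_cases l <;> rfl

theorem M1_form {A : Type} [CommRing A] (x : Fin 3 → A) (y : Fin 15 → A) (l : Fin 10) :
    ∑ k, ∑ i, (M1 l k i : A) * x i * y k = row1 x y l := by
  have key : ∀ L : List (Fin 15 × Fin 3 × ℤ),
      ∑ k, ∑ i, (((L.map fun e => if e.1 = k ∧ e.2.1 = i then e.2.2 else 0).sum : ℤ) : A) *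
        x i * y k = (L.map fun e => (e.2.2 : A) * x e.2.1 * y e.1).sum := by
    intro L
    induction L with
    | nil => simp
    | cons e L ih =>
      simp only [List.map_cons, List.sum_cons, Int.cast_add, add_mul, Finset.sum_add_distrib]
      rw [ih]
      congr 1
      rw [Finset.sum_eq_single e.1]
      · rw [Finset.sum_eq_single e.2.1]
        · simp
        · intro i _ hi
          simp [hi.symm]
        · simp
      · intro k _ hk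
        simp [hk.symm]
      · simp
  refine (key (ent1 l)).trans ?_
  fin_cases l <;> simp [ent1, row1] <;> ring

/-- The `Yv` are syzygies. -/
theorem Yg {A : Type} [CommRing A] (x : Fin 3 → A) (k : Fin 15) :
    ∑ j, Yv x k j * gv x j = 0 := by
  fin_cases k <;> simp [Yv, gv, Fin.sum_univ_succ] <;> ring

/-- The rows of `M1` are linear syzygies of the `Yv`. -/
theorem MY {A : Type} [CommRing A] (x : Fin 3 → A) (j : Fin 6) (l : Fin 10) :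
    row1 x (fun k => Yv x k j) l = 0 := by
  fin_cases l <;> fin_cases j <;> simp [Yv, row1] <;> ring

end Pool.Agent.Helper93.NP
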