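import Mathlib

/-!
Definitions for MP_16deda_ag (nef versus pseudo-effective classes on projective bundles over
the plane).
-/

namespace Pool.Agent.Helper93.NP

open MvPolynomial

/-- `P α` holds for all multi-indices `α` all of whose coordinates are large. -/
def Ev {ι : Type} (P : (ι → ℕ) → Prop) : Prop :=
  ∃ n : ℕ, ∀ α : ι → ℕ, (∀ i, n ≤ α i) → P α

/-- First difference of `F` in the direction `i`. -/
def dif {ι : Type} [DecidableEq ι] (i : ι) (F : (ι → ℕ) → ℤ) : (ι → ℕ) → ℤ :=
  fun α => F (α + Pi.single i 1) - F α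

/-- Iterated differences along a list of directions. -/
def difs {ι : Type} [DecidableEq ι] (l : List ι) (F : (ι → ℕ) → ℤ) : (ι → ℕ) → ℤ :=
  l.foldr dif F

/-- All `d`-fold differences of `F` vanish for large arguments: `F` agrees for large arguments
with a polynomial of total degree less than `d`. -/
def DegLT {ι : Type} [DecidableEq ι] (d : ℕ) (F : (ι → ℕ) → ℤ) : Prop :=
  ∀ l : List ι, l.length = d → Ev (fun α => difs l F α = 0)

/-- The iterated difference of `F` along `l` is the constant `c` for large arguments. -/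
def HasC {ι : Type} [DecidableEq ι] (l : List ι) (F : (ι → ℕ) → ℤ) (c : ℤ) : Prop :=
  Ev (fun α => difs l F α = c)

/-- Multidegrees of the variables: a variable `s` of type `τ s = i` has degree `e_i`. -/
def wt {σ ι : Type} [DecidableEq ι] (τ : σ → ι) (s : σ) : ι → ℕ := Pi.single (τ s) 1

/-- The space of multihomogeneous polynomials of multidegree `d`. -/
noncomputable def Comp (K : Type) [Field K] {σ ι : Type} [DecidableEq ι] (τ : σ → ι)
    (d : ι → ℕ) : Submodule K (MvPolynomial σ K) :=
  weightedHomogeneousSubmodule K (wt τ) d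

/-- Multihomogeneous ideals. -/
def IsHom {K : Type} [Field K] {σ ι : Type} [DecidableEq ι] (τ : σ → ι)
    (J : Ideal (MvPolynomial σ K)) : Prop :=
  ∀ f ∈ J, ∀ d : ι → ℕ, weightedHomogeneousComponent (wt τ) d f ∈ J

/-- The multigraded Hilbert function of the quotient by `J`. -/
noncomputable def HF {K : Type} [Field K] {σ ι : Type} [DecidableEq ι] (τ : σ → ι)
    (J : Ideal (MvPolynomial σ K)) (d : ι → ℕ) : ℤ :=
  (Module.finrank K ((Comp K τ d).map (Ideal.Quotient.mkₐ K J).toLinearMap) : ℤ)

/-- The types of the variables of `K[x₀,x₁,x₂,y₁,…,y_N]`: the `x` have type `0`, the `y` have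
type `1`. -/
def tau (N : ℕ) : Fin 3 ⊕ Fin N → Fin 2 := Sum.elim (fun _ => 0) (fun _ => 1)

/-- The bilinear form `∑ M l k i x_i y_k` of the row `l` of a matrix of linear forms. -/
noncomputable def fM {K : Type} [Field K] {a N : ℕ} (M : Fin a → Fin N → Fin 3 → K)
    (l : Fin a) : MvPolynomial (Fin 3 ⊕ Fin N) K :=
  ∑ k, ∑ i, C (M l k i) * X (Sum.inl i) * X (Sum.inr k)

/-- The ideal of the projective bundle. -/
noncomputable def IM {K : Type} [Field K] {a N : ℕ} (M : Fin a → Fin N → Fin 3 → K) :
    Ideal (MvPolynomial (Fin 3 ⊕ Fin N) K) :=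
  Ideal.span (Set.range (fM M))

/-- The matrix `M(x)` has rank `a` at every point `x` of the plane: the cokernel of
`O(-1)^a → O^N` is a vector bundle of rank `N - a`. -/
def IsBundle {K : Type} [Field K] {a N : ℕ} (M : Fin a → Fin N → Fin 3 → K) : Prop :=
  ∀ x : Fin 3 → K, x ≠ 0 →
    LinearIndependent K (fun l : Fin a => fun k : Fin N => ∑ i, M l k i * x i)

/-- `J` defines a closed subscheme of dimension at most `d` with intersection numbers
`∫ h^j ξ^(d-j) = D j`. -/
def HasNumbers {K : Type} [Field K] {N : ℕ} (J : Ideal (MvPolynomial (Fin 3 ⊕ Fin N) K))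
    (d : ℕ) (D : ℕ → ℤ) : Prop :=
  DegLT (d + 1) (HF (tau N) J) ∧
    ∀ j ≤ d, HasC (List.replicate j 0 ++ List.replicate (d - j) 1) (HF (tau N) J) (D j)

end Pool.Agent.Helper93.NP
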