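import Pool.Agent.Helper93.NP.Defs

/-! Calculus of iterated differences of integer valued functions on `ι → ℕ`. -/

namespace Pool.Agent.Helper93.NP

variable {ι : Type}

theorem Ev.mono {P Q : (ι → ℕ) → Prop} (h : Ev P) (hPQ : ∀ α, P α → Q α) : Ev Q := by
  obtain ⟨n, hn⟩ := h
  exact ⟨n, fun α hα => hPQ α (hn α hα)⟩

theorem Ev.and {P Q : (ι → ℕ) → Prop} (h : Ev P) (h' : Ev Q) : Ev (fun α => P α ∧ Q α) := by
  obtain ⟨n, hn⟩ := h
  obtain ⟨m, hm⟩ := h'
  exact ⟨max n m, fun α hα => ⟨hn α fun i => (le_max_left _ _).trans (hα i),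
    hm α fun i => (le_max_right _ _).trans (hα i)⟩⟩

theorem Ev.of_forall {P : (ι → ℕ) → Prop} (h : ∀ α, P α) : Ev P := ⟨0, fun α _ => h α⟩

theorem Ev.shift {P : (ι → ℕ) → Prop} (h : Ev P) (δ : ι → ℕ) : Ev (fun α => P (α + δ)) := by
  obtain ⟨n, hn⟩ := h
  exact ⟨n, fun α hα => hn _ fun i => (hα i).trans (Nat.le_add_right _ _)⟩

theorem Ev.exists {P : (ι → ℕ) → Prop} (h : Ev P) : ∃ α, P α := by
  obtain ⟨n, hn⟩ := h
  exact ⟨fun _ => n, hn _ fun _ => le_rfl⟩

theorem Ev.and3 {P Q R : (ι → ℕ) → Prop} (h : Ev P) (h' : Ev Q) (h'' : Ev R) :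
    Ev (fun α => P α ∧ Q α ∧ R α) := h.and (h'.and h'')

/-- A finite family of eventual statements. -/
theorem Ev.forall_mem {κ : Type} {P : κ → (ι → ℕ) → Prop} (s : Finset κ)
    (h : ∀ k ∈ s, Ev (P k)) : Ev (fun α => ∀ k ∈ s, P k α) := by
  classical
  induction s using Finset.induction_on with
  | empty => exact Ev.of_forall (by simp)
  | insert a s ha ih =>
    have h1 := h a (Finset.mem_insert_self _ _)
    have h2 := ih fun k hk => h k (Finset.mem_insert_of_mem hk)
    refine (h1.and h2).mono fun α hα k hk => ?_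
    rcases Finset.mem_insert.1 hk with rfl | hk
    · exact hα.1
    · exact hα.2 k hk

variable [DecidableEq ι]

@[simp] theorem difs_nil (F : (ι → ℕ) → ℤ) : difs [] F = F := rfl

@[simp] theorem difs_cons (i : ι) (l : List ι) (F : (ι → ℕ) → ℤ) :
    difs (i :: l) F = dif i (difs l F) := rfl

theorem dif_apply (i : ι) (F : (ι → ℕ) → ℤ) (α : ι → ℕ) :
    dif i F α = F (α + Pi.single i 1) - F α := rfl

theorem dif_comm (i j : ι) (F : (ι → ℕ) → ℤ) : dif i (dif j F) = dif j (dif i F) := by
  funext α
  simp only [dif_apply]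
  rw [show α + Pi.single i 1 + Pi.single j 1 = α + Pi.single j 1 + Pi.single i 1 from
    add_right_comm _ _ _]
  ring

theorem difs_perm {l l' : List ι} (h : l.Perm l') (F : (ι → ℕ) → ℤ) :
    difs l F = difs l' F := by
  induction h with
  | nil => rfl
  | cons x _ ih => simp [ih]
  | swap x y l => simp [dif_comm]
  | trans _ _ ih1 ih2 => exact ih1.trans ih2

theorem difs_append (l l' : List ι) (F : (ι → ℕ) → ℤ) :
    difs (l ++ l') F = difs l (difs l' F) := by
  induction l with
  | nil => rfl
  | cons x l ih => simp [ih]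

theorem difs_dif (l : List ι) (i : ι) (F : (ι → ℕ) → ℤ) :
    difs l (dif i F) = dif i (difs l F) := by
  have h : difs (l ++ [i]) F = difs (i :: l) F := difs_perm (by simp) F
  rw [difs_append] at h
  exact h

theorem dif_add (i : ι) (F G : (ι → ℕ) → ℤ) : dif i (F + G) = dif i F + dif i G := by
  funext α
  simp only [dif_apply, Pi.add_apply]
  ring

theorem dif_sub (i : ι) (F G : (ι → ℕ) → ℤ) : dif i (F - G) = dif i F - dif i G := by
  funext α
  simp only [dif_apply, Pi.sub_apply]
  ring

theorem dif_smul (i : ι) (c : ℤ) (F : (ι → ℕ) → ℤ) : dif i (c • F) = c • dif i F := by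
  funext α
  simp only [dif_apply, Pi.smul_apply, smul_eq_mul]
  ring

theorem dif_const (i : ι) (c : ℤ) : dif i (fun _ : ι → ℕ => c) = 0 := by
  funext α
  simp [dif_apply]

theorem dif_zero (i : ι) : dif i (0 : (ι → ℕ) → ℤ) = 0 := dif_const i 0

theorem difs_add (l : List ι) (F G : (ι → ℕ) → ℤ) :
    difs l (F + G) = difs l F + difs l G := by
  induction l with
  | nil => rfl
  | cons x l ih => simp [ih, dif_add]

theorem difs_sub (l : List ι) (F G : (ι → ℕ) → ℤ) :
    difs l (F - G) = difs l F - difs l G := by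
  induction l with
  | nil => rfl
  | cons x l ih => simp [ih, dif_sub]

theorem difs_smul (l : List ι) (c : ℤ) (F : (ι → ℕ) → ℤ) :
    difs l (c • F) = c • difs l F := by
  induction l with
  | nil => rfl
  | cons x l ih => rw [difs_cons, ih, dif_smul, difs_cons]

theorem difs_zero (l : List ι) : difs l (0 : (ι → ℕ) → ℤ) = 0 := by
  induction l with
  | nil => rfl
  | cons x l ih => simp [ih, dif_zero]

theorem difs_shift (l : List ι) (δ : ι → ℕ) (F : (ι → ℕ) → ℤ) :
    difs l (fun α => F (α + δ)) = fun α => difs l F (α + δ) := by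
  induction l with
  | nil => rfl
  | cons x l ih =>
    funext α
    simp only [difs_cons, ih, dif_apply]
    rw [add_right_comm]

/-- Functions which agree for large arguments have the same differences for large
arguments. -/
theorem difs_congr (l : List ι) {F G : (ι → ℕ) → ℤ} (h : Ev (fun α => F α = G α)) :
    Ev (fun α => difs l F α = difs l G α) := by
  induction l with
  | nil => exact h
  | cons x l ih =>
    refine (ih.and (ih.shift (Pi.single x 1))).mono fun α hα => ?_
    simp only [difs_cons, dif_apply]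
    rw [hα.1, hα.2]

theorem DegLT.congr {d : ℕ} {F G : (ι → ℕ) → ℤ} (hF : DegLT d F)
    (h : Ev (fun α => F α = G α)) : DegLT d G := fun l hl =>
  ((hF l hl).and (difs_congr l h)).mono fun _ hα => hα.2.symm.trans hα.1

theorem HasC.congr {l : List ι} {c : ℤ} {F G : (ι → ℕ) → ℤ} (hF : HasC l F c)
    (h : Ev (fun α => F α = G α)) : HasC l G c :=
  (Ev.and hF (difs_congr l h)).mono fun _ hα => hα.2.symm.trans hα.1

theorem HasC.perm {l l' : List ι} {c : ℤ} {F : (ι → ℕ) → ℤ} (hF : HasC l F c)
    (h : l.Perm l') : HasC l' F c := by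
  unfold HasC at *
  rw [← difs_perm h]
  exact hF

theorem HasC.unique {l : List ι} {c c' : ℤ} {F : (ι → ℕ) → ℤ} (h : HasC l F c)
    (h' : HasC l F c') : c = c' := by
  obtain ⟨α, hα⟩ := (Ev.and h h').exists
  exact hα.1.symm.trans hα.2

theorem HasC.add {l : List ι} {c c' : ℤ} {F G : (ι → ℕ) → ℤ} (h : HasC l F c)
    (h' : HasC l G c') : HasC l (F + G) (c + c') := by
  refine (Ev.and h h').mono fun α hα => ?_
  rw [difs_add, Pi.add_apply, hα.1, hα.2]

theorem HasC.sub {l : List ι} {c c' : ℤ} {F G : (ι → ℕ) → ℤ} (h : HasC l F c)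
    (h' : HasC l G c') : HasC l (F - G) (c - c') := by
  refine (Ev.and h h').mono fun α hα => ?_
  rw [difs_sub, Pi.sub_apply, hα.1, hα.2]

theorem HasC.smul {l : List ι} {c : ℤ} {F : (ι → ℕ) → ℤ} (h : HasC l F c) (k : ℤ) :
    HasC l (k • F) (k * c) := by
  refine Ev.mono h fun α hα => ?_
  rw [difs_smul, Pi.smul_apply, hα, smul_eq_mul]

theorem HasC.shift {l : List ι} {c : ℤ} {F : (ι → ℕ) → ℤ} (h : HasC l F c) (δ : ι → ℕ) :
    HasC l (fun α => F (α + δ)) c := by
  refine (Ev.shift h δ).mono fun α hα => ?_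
  rw [difs_shift]
  exact hα

theorem HasC.cons {l : List ι} {c : ℤ} {F : (ι → ℕ) → ℤ} (h : HasC l F c) (i : ι) :
    HasC (i :: l) F 0 := by
  refine (Ev.and h (Ev.shift h (Pi.single i 1))).mono fun α hα => ?_
  rw [difs_cons, dif_apply, hα.1, hα.2, sub_self]

theorem hasC_dif {l : List ι} {i : ι} {c : ℤ} {F : (ι → ℕ) → ℤ} :
    HasC l (dif i F) c ↔ HasC (i :: l) F c := by
  unfold HasC
  rw [difs_dif, difs_cons]

theorem DegLT.zero_fun (d : ℕ) : DegLT d (0 : (ι → ℕ) → ℤ) := fun l _ =>
  Ev.of_forall fun α => by rw [difs_zero]; rfl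

theorem DegLT.add {d : ℕ} {F G : (ι → ℕ) → ℤ} (h : DegLT d F) (h' : DegLT d G) :
    DegLT d (F + G) := fun l hl => by
  have := HasC.add (h l hl) (h' l hl)
  rw [add_zero] at this
  exact this

theorem DegLT.sub {d : ℕ} {F G : (ι → ℕ) → ℤ} (h : DegLT d F) (h' : DegLT d G) :
    DegLT d (F - G) := fun l hl => by
  have := HasC.sub (h l hl) (h' l hl)
  rw [sub_zero] at this
  exact this

theorem DegLT.smul {d : ℕ} {F : (ι → ℕ) → ℤ} (h : DegLT d F) (k : ℤ) :
    DegLT d (k • F) := fun l hl => by
  have := HasC.smul (h l hl) k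
  rw [mul_zero] at this
  exact this

theorem DegLT.shift {d : ℕ} {F : (ι → ℕ) → ℤ} (h : DegLT d F) (δ : ι → ℕ) :
    DegLT d (fun α => F (α + δ)) := fun l hl => HasC.shift (h l hl) δ

theorem DegLT.succ {d : ℕ} {F : (ι → ℕ) → ℤ} (h : DegLT d F) : DegLT (d + 1) F := by
  intro l hl
  cases l with
  | nil => simp at hl
  | cons i l =>
    have hl' : l.length = d := by simpa using hl
    exact HasC.cons (h l hl') i

theorem DegLT.mono {d d' : ℕ} {F : (ι → ℕ) → ℤ} (h : DegLT d F) (hd : d ≤ d') :
    DegLT d' F := by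
  induction hd with
  | refl => exact h
  | step _ ih => exact ih.succ

theorem DegLT.dif {d : ℕ} {F : (ι → ℕ) → ℤ} (h : DegLT (d + 1) F) (i : ι) :
    DegLT d (dif i F) := fun l hl => by
  have := h (i :: l) (by simp [hl])
  exact hasC_dif.2 this

theorem DegLT.of_dif {d : ℕ} {F : (ι → ℕ) → ℤ} (h : ∀ i, DegLT d (NP.dif i F)) :
    DegLT (d + 1) F := by
  intro l hl
  cases l with
  | nil => simp at hl
  | cons i l =>
    have hl' : l.length = d := by simpa using hl
    exact hasC_dif.1 (h i l hl')

theorem DegLT.of_hasC_zero {d : ℕ} {F : (ι → ℕ) → ℤ}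
    (h : ∀ l : List ι, l.length = d → HasC l F 0) : DegLT d F := h

/-- Eventually locally constant functions are eventually constant. -/
theorem ev_const_of_dif [Fintype ι] {F : (ι → ℕ) → ℤ} (h : ∀ i, Ev (fun α => dif i F α = 0)) :
    ∃ c, Ev (fun α => F α = c) := by
  have h1 := Ev.forall_mem Finset.univ (P := fun i α => NP.dif i F α = 0) fun i _ => h i
  obtain ⟨n, hn⟩ := h1
  have step : ∀ (α : ι → ℕ), (∀ i, n ≤ α i) → ∀ i : ι, ∀ k : ℕ,
      F (α + Pi.single i k) = F α := by
    intro α hα i k
    induction k with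
    | zero => simp
    | succ k ih =>
      have h2 := hn (α + Pi.single i k) (fun j => (hα j).trans (Nat.le_add_right _ _)) i
        (Finset.mem_univ i)
      rw [dif_apply, add_assoc, ← Pi.single_add] at h2
      linarith
  have key : ∀ (s : Finset ι) (β : ι → ℕ),
      F ((fun _ => n) + ∑ i ∈ s, Pi.single i (β i)) = F (fun _ => n) := by
    intro s β
    classical
    induction s using Finset.induction_on with
    | empty => simp
    | insert a s ha ih =>
      rw [Finset.sum_insert ha, add_comm (Pi.single a (β a) : ι → ℕ), ← add_assoc,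
        step ((fun _ => n) + ∑ i ∈ s, Pi.single i (β i))
          (fun j => Nat.le_add_right _ _) a (β a), ih]
  refine ⟨F (fun _ => n), n, fun α hα => ?_⟩
  have h3 := key Finset.univ (fun i => α i - n)
  have h4 : ((fun _ : ι => n) + ∑ i, Pi.single i ((fun i => α i - n) i)) = α := by
    funext j
    have h5 := hα j
    rw [Pi.add_apply, Finset.sum_apply]
    simp only [Finset.sum_pi_single, Finset.mem_univ, if_true]
    omega
  rw [h4] at h3
  exact h3

theorem DegLT.hasC [Fintype ι] {d : ℕ} {F : (ι → ℕ) → ℤ} (h : DegLT (d + 1) F) {l : List ι}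
    (hl : l.length = d) : ∃ c, HasC l F c :=
  ev_const_of_dif fun i => h (i :: l) (by simp [hl])

/-- Top differences of `F (α + δ) - F α`. -/
theorem DegLT.shift_sub {d : ℕ} {F : (ι → ℕ) → ℤ} (h : DegLT (d + 1) F) (δ : ι → ℕ) [Fintype ι] :
    DegLT d (fun α => F (α + δ) - F α) ∧
      ∀ l : List ι, l.length + 1 = d → ∀ C : ι → ℤ, (∀ i, HasC (i :: l) F (C i)) →
        HasC l (fun α => F (α + δ) - F α) (∑ i, (δ i : ℤ) * C i) := by
  have single : ∀ (i : ι) (k : ℕ) (G : (ι → ℕ) → ℤ), (fun α => G (α + Pi.single i k) - G α) =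
      ∑ j ∈ Finset.range k, fun α => NP.dif i G (α + Pi.single i j) := by
    intro i k G
    funext α
    rw [Finset.sum_apply]
    simp only [dif_apply, add_assoc, ← Pi.single_add]
    have := Finset.sum_range_sub (fun j => G (α + Pi.single i j)) k
    simpa using this.symm
  have main : ∀ s : Finset ι,
      DegLT d (fun α => F (α + ∑ i ∈ s, Pi.single i (δ i)) - F α) ∧
      ∀ l : List ι, l.length + 1 = d → ∀ C : ι → ℤ, (∀ i, HasC (i :: l) F (C i)) →
        HasC l (fun α => F (α + ∑ i ∈ s, Pi.single i (δ i)) - F α)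
          (∑ i ∈ s, (δ i : ℤ) * C i) := by
    intro s
    classical
    induction s using Finset.induction_on with
    | empty =>
      constructor
      · have : (fun α => F (α + ∑ i ∈ (∅ : Finset ι), Pi.single i (δ i)) - F α) = 0 := by
          funext α; simp
        rw [this]
        exact DegLT.zero_fun d
      · intro l _ C _
        refine Ev.of_forall fun α => ?_
        have : (fun α => F (α + ∑ i ∈ (∅ : Finset ι), Pi.single i (δ i)) - F α) = 0 := by
          funext α; simp
        rw [this, difs_zero]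
        simp
    | insert a s ha ih =>
      have e : (fun α => F (α + ∑ i ∈ insert a s, Pi.single i (δ i)) - F α) =
          (fun α => F (α + ∑ i ∈ s, Pi.single i (δ i)) - F α) +
          (fun α => (fun β => F (β + Pi.single a (δ a)) - F β)
            (α + ∑ i ∈ s, Pi.single i (δ i))) := by
        funext α
        rw [Finset.sum_insert ha]
        simp only [Pi.add_apply]
        rw [add_comm (Pi.single a (δ a) : ι → ℕ), ← add_assoc]
        ring
      have hs : ∀ k : ℕ, DegLT d (fun β => F (β + Pi.single a k) - F β) ∧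
          ∀ l : List ι, l.length + 1 = d → ∀ c : ℤ, HasC (a :: l) F c →
            HasC l (fun β => F (β + Pi.single a k) - F β) (k * c) := by
        intro k
        rw [single]
        induction k with
        | zero =>
          simp only [Finset.range_zero, Finset.sum_empty, Nat.cast_zero, zero_mul]
          exact ⟨DegLT.zero_fun d, fun l _ c _ => Ev.of_forall fun α => by
            rw [difs_zero]; rfl⟩
        | succ k ihk =>
          rw [Finset.sum_range_succ]
          refine ⟨ihk.1.add ((h.dif a).shift _), fun l hl c hc => ?_⟩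
          have h1 := ihk.2 l hl c hc
          have h2 := HasC.add h1 (HasC.shift (hasC_dif.2 hc) (Pi.single a k))
          convert h2 using 1
          push_cast
          ring
      rw [e]
      refine ⟨ih.1.add ((hs (δ a)).1.shift _), fun l hl C hC => ?_⟩
      rw [Finset.sum_insert ha, add_comm ((δ a : ℤ) * C a)]
      exact HasC.add (ih.2 l hl C hC) (HasC.shift ((hs (δ a)).2 l hl (C a) (hC a)) _)
  have e : ∑ i, Pi.single i (δ i) = δ := by
    funext j
    rw [Finset.sum_apply]
    simp [Finset.sum_pi_single]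
  have := main Finset.univ
  rw [e] at this
  exact this

end Pool.Agent.Helper93.NP
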