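import Pool.Agent.Helper93.NP.St

/-! Module Bot (MP_16deda_ag): the Hilbert function of the polynomial ring. -/

namespace Pool.Agent.Helper93.NP.M_Bot

open MvPolynomial Finset

theorem wt0 (N : ℕ) (d : (Fin 3 ⊕ Fin N) →₀ ℕ) :
    (Finsupp.weight (wt (tau N)) d) 0 = ∑ i, (Finsupp.sumFinsuppEquivProdFinsupp d).1 i := by
  rw [Finsupp.weight_apply, Finsupp.sum_fintype _ _ (by simp), Finset.sum_apply,
    Fintype.sum_sum_type]
  simp [wt, tau]

theorem wt1 (N : ℕ) (d : (Fin 3 ⊕ Fin N) →₀ ℕ) :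
    (Finsupp.weight (wt (tau N)) d) 1 = ∑ i, (Finsupp.sumFinsuppEquivProdFinsupp d).2 i := by
  rw [Finsupp.weight_apply, Finsupp.sum_fintype _ _ (by simp), Finset.sum_apply,
    Fintype.sum_sum_type]
  simp [wt, tau]

theorem wtiff (N : ℕ) (α : Fin 2 → ℕ) (d : (Fin 3 ⊕ Fin N) →₀ ℕ) :
    Finsupp.weight (wt (tau N)) d = α ↔
      (Finsupp.sumFinsuppEquivProdFinsupp d).1 ∈ finsuppAntidiag univ (α 0) ∧
      (Finsupp.sumFinsuppEquivProdFinsupp d).2 ∈ finsuppAntidiag univ (α 1) := by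
  rw [mem_finsuppAntidiag, mem_finsuppAntidiag, ← wt0, ← wt1]
  simp only [Finset.subset_univ, and_true]
  constructor
  · rintro rfl
    exact ⟨rfl, rfl⟩
  · rintro ⟨h0, h1⟩
    funext i
    fin_cases i
    · exact h0
    · exact h1

/-- monomials of bidegree `α` -/
noncomputable def E (N : ℕ) (α : Fin 2 → ℕ) :
    {d : (Fin 3 ⊕ Fin N) →₀ ℕ | Finsupp.weight (wt (tau N)) d = α} ≃
      (finsuppAntidiag (univ : Finset (Fin 3)) (α 0)) ×
        (finsuppAntidiag (univ : Finset (Fin N)) (α 1)) where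
  toFun d := (⟨_, ((wtiff N α d.1).1 d.2).1⟩, ⟨_, ((wtiff N α d.1).1 d.2).2⟩)
  invFun p := ⟨Finsupp.sumFinsuppEquivProdFinsupp.symm (p.1.1, p.2.1), (wtiff N α _).2 (by
    rw [Equiv.apply_symm_apply]
    exact ⟨p.1.2, p.2.2⟩)⟩
  left_inv d := by
    apply Subtype.ext
    exact Finsupp.sumFinsuppEquivProdFinsupp.symm_apply_apply d.1
  right_inv p := by
    have h := Finsupp.sumFinsuppEquivProdFinsupp.apply_symm_apply (p.1.1, p.2.1)
    refine Prod.ext (Subtype.ext ?_) (Subtype.ext ?_)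
    · exact congrArg Prod.fst h
    · exact congrArg Prod.snd h

theorem main : StBot := by
  intro K _ N hN α
  unfold HF
  congr 1
  have hinj : Function.Injective
      (Ideal.Quotient.mkₐ K (⊥ : Ideal (MvPolynomial (Fin 3 ⊕ Fin N) K))).toLinearMap := by
    intro a b hab
    have h : a - b ∈ (⊥ : Ideal (MvPolynomial (Fin 3 ⊕ Fin N) K)) := Ideal.Quotient.eq.1 hab
    exact sub_eq_zero.1 ((Submodule.mem_bot _).1 h)
  rw [← (Submodule.equivMapOfInjective _ hinj (Comp K (tau N) α)).finrank_eq]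
  unfold Comp
  rw [weightedHomogeneousSubmodule_eq_finsupp_supported]
  have hb := Module.finrank_eq_nat_card_basis
    (basisRestrictSupport K {d | Finsupp.weight (wt (tau N)) d = α})
  refine hb.trans ?_
  rw [Nat.card_congr (E N α), Nat.card_prod, Nat.card_eq_fintype_card, Nat.card_eq_fintype_card,
    Fintype.card_coe, Fintype.card_coe, card_finsuppAntidiag_nat_eq_choose,
    card_finsuppAntidiag_nat_eq_choose, Finset.card_univ, Finset.card_univ, Fintype.card_fin,
    Fintype.card_fin]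
  congr 1
  · rw [show 3 + α 0 - 1 = α 0 + 2 by omega]
    exact (Nat.choose_symm_add).symm ▸ rfl
  · rw [show N + α 1 - 1 = α 1 + (N - 1) by omega]
    exact (Nat.choose_symm_add).symm ▸ rfl

end Pool.Agent.Helper93.NP.M_Bot
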