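import Pool.Agent.Helper93.NP.St

/-! The catalecticant matrix has rank ten at every point. -/

namespace Pool.Agent.Helper93.NP.M_Bundle0

open Pool.Agent.Helper93.NP

theorem main : StBundle0 := by
  intro K _ x hx
  rw [Fintype.linearIndependent_iff]
  intro v hv
  have hk : ∀ k : Fin 15, ∑ l, v l * (∑ i, M0K K l k i * x i) = 0 := by
    intro k
    have := congrFun hv k
    simpa [Finset.sum_apply] using this
  have e0 := hk 0
  have e1 := hk 1
  have e2 := hk 2
  have e3 := hk 3
  have e4 := hk 4
  have e5 := hk 5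
  have e6 := hk 6
  have e7 := hk 7
  have e8 := hk 8
  have e9 := hk 9
  have e10 := hk 10
  have e11 := hk 11
  have e12 := hk 12
  have e13 := hk 13
  have e14 := hk 14
  clear hk hv
  simp [Fin.sum_univ_succ, M0K, M0, tb] at e0 e1 e2 e3 e4 e5 e6 e7 e8 e9 e10 e11 e12 e13 e14
  have fin : v 0 = 0 → v 1 = 0 → v 2 = 0 → v 3 = 0 → v 4 = 0 → v 5 = 0 → v 6 = 0 → v 7 = 0 →
      v 8 = 0 → v 9 = 0 → ∀ i : Fin 10, v i = 0 := by
    intro h0 h1 h2 h3 h4 h5 h6 h7 h8 h9 i
    fin_cases i <;> assumption
  by_cases h0 : x 0 = 0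
  · by_cases h1 : x 1 = 0
    · have h2 : x 2 ≠ 0 := by
        intro h2
        apply hx
        funext i
        fin_cases i <;> assumption
      simp only [h0, h1, mul_zero, add_zero, zero_add, mul_eq_zero, h2, or_false] at *
      exact fin e2 e4 e5 e7 e8 e9 e11 e12 e13 e14
    · have a6 : v 6 = 0 := e10.resolve_right h1
      simp only [a6, zero_add, zero_mul, mul_eq_zero, h1, or_false] at e11
      simp only [e11, zero_add, zero_mul, mul_eq_zero, h1, or_false] at e12
      simp only [e12, zero_add, zero_mul, mul_eq_zero, h1, or_false] at e13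
      simp only [h0, mul_zero, add_zero, mul_eq_zero, h1, or_false] at e1 e3 e6
      simp only [h0, e1, e3, e6, mul_zero, add_zero, zero_add, zero_mul, mul_eq_zero, h1,
        or_false] at e4 e7
      simp only [h0, e7, mul_zero, add_zero, zero_add, zero_mul, mul_eq_zero, h1,
        or_false] at e8
      exact fin e1 e3 e4 e6 e7 e8 a6 e11 e12 e13
  · have a0 : v 0 = 0 := e0.resolve_right h0
    simp only [a0, mul_zero, add_zero, zero_add, zero_mul, mul_eq_zero, h0, or_false] at e1 e2
    simp only [e1, e2, mul_zero, add_zero, zero_add, zero_mul, mul_eq_zero, h0,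
      or_false] at e3 e4 e5
    simp only [e3, e4, e5, mul_zero, add_zero, zero_add, zero_mul, mul_eq_zero, h0,
      or_false] at e6 e7 e8 e9
    exact fin a0 e1 e2 e3 e4 e5 e6 e7 e8 e9

end Pool.Agent.Helper93.NP.M_Bundle0
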