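import Pool.Agent.Helper93.NP.St

/-! Gradings pulled back along a homomorphism. -/

namespace Pool.Agent.Helper93.NP.M_Comap

open MvPolynomial

variable {K σ σ' ι ι' : Type} [Field K] [DecidableEq ι] [DecidableEq ι'] {τ : σ → ι}
  {τ' : σ' → ι'} {ψ : (ι → ℕ) →+ (ι' → ℕ)} {φ : MvPolynomial σ K →ₐ[K] MvPolynomial σ' K}

theorem map_monomial (h : ∀ s, φ (X s) ∈ Comp K τ' (ψ (Pi.single (τ s) 1))) (m : σ →₀ ℕ)
    (c : K) : φ (monomial m c) ∈ Comp K τ' (ψ (Finsupp.weight (wt τ) m)) := by
  change IsWeightedHomogeneous (wt τ') _ _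
  rw [monomial_eq, map_mul, algHom_C, Finsupp.prod, map_prod]
  have h1 : ψ (Finsupp.weight (wt τ) m) =
      ∑ s ∈ m.support, m s • ψ (Pi.single (τ s) 1) := by
    rw [Finsupp.weight_apply, Finsupp.sum, map_sum]
    refine Finset.sum_congr rfl fun s _ => ?_
    rw [map_nsmul]
    rfl
  rw [h1]
  refine IsWeightedHomogeneous.C_mul (IsWeightedHomogeneous.prod _ _ _ fun s _ => ?_) c
  rw [map_pow]
  exact IsWeightedHomogeneous.pow (h s) _

theorem map_mem (h : ∀ s, φ (X s) ∈ Comp K τ' (ψ (Pi.single (τ s) 1))) (d : ι → ℕ)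
    (f : MvPolynomial σ K) (hf : f ∈ Comp K τ d) : φ f ∈ Comp K τ' (ψ d) := by
  have hf' : IsWeightedHomogeneous (wt τ) f d := hf
  rw [f.as_sum, map_sum]
  refine Submodule.sum_mem _ fun m hm => ?_
  have h1 := hf' (mem_support_iff.1 hm)
  have h2 := map_monomial h m (coeff m f)
  rw [h1] at h2
  exact h2

theorem comp_map (hψ : Function.Injective ψ)
    (h : ∀ s, φ (X s) ∈ Comp K τ' (ψ (Pi.single (τ s) 1))) (d : ι → ℕ)
    (f : MvPolynomial σ K) : weightedHomogeneousComponent (wt τ') (ψ d) (φ f) =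
      φ (weightedHomogeneousComponent (wt τ) d f) := by
  induction f using MvPolynomial.induction_on' with
  | monomial m c =>
    have h1 : IsWeightedHomogeneous (wt τ') (φ (monomial m c))
      (ψ (Finsupp.weight (wt τ) m)) := map_monomial h m c
    have h2 : IsWeightedHomogeneous (wt τ) (monomial m c : MvPolynomial σ K)
      (Finsupp.weight (wt τ) m) := isWeightedHomogeneous_monomial _ _ _ rfl
    by_cases hd : Finsupp.weight (wt τ) m = d
    · rw [hd] at h1 h2
      rw [h1.weightedHomogeneousComponent_same, h2.weightedHomogeneousComponent_same]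
    · rw [h1.weightedHomogeneousComponent_ne _ (fun h' => hd (hψ h').symm),
        h2.weightedHomogeneousComponent_ne _ (fun h' => hd h'.symm), map_zero]
  | add p q hp hq =>
    rw [map_add, map_add, hp, hq, map_add, map_add]

theorem main : StComap := by
  intro K σ σ' ι ι' _ _ _ _ _ _ _ τ τ' ψ φ hψ h
  refine ⟨map_mem h, fun J hJ f hf d => ?_⟩
  rw [Ideal.mem_comap] at hf ⊢
  have h1 := hJ _ hf (ψ d)
  have h2 := comp_map hψ h d f
  have h3 : weightedHomogeneousComponent (wt τ') (ψ d) (φ.toRingHom f) =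
      φ.toRingHom (weightedHomogeneousComponent (wt τ) d f) := h2
  rw [h3] at h1
  exact h1

end Pool.Agent.Helper93.NP.M_Comap
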