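import Pool.Agent.Helper93.NP.St

/-!
Hilbert functions of inverse images.
-/

namespace Pool.Agent.Helper93.NP.M_HFComap

open MvPolynomial Module

/-- The dimension of the image of a subspace depends only on the kernel. -/
theorem finrank_map_eq {K V A B : Type} [Field K] [AddCommGroup V] [Module K V] [AddCommGroup A]
    [Module K A] [AddCommGroup B] [Module K B] (f : V →ₗ[K] A) (g : V →ₗ[K] B)
    (W : Submodule K V) (h : ∀ x ∈ W, f x = 0 ↔ g x = 0) :
    finrank K (W.map f) = finrank K (W.map g) := by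
  have hker : LinearMap.ker (f.domRestrict W) = LinearMap.ker (g.domRestrict W) := by
    ext x
    rw [LinearMap.mem_ker, LinearMap.mem_ker]
    exact h x.1 x.2
  rw [← LinearMap.range_domRestrict, ← LinearMap.range_domRestrict]
  exact LinearEquiv.finrank_eq (((f.domRestrict W).quotKerEquivRange.symm.trans
    (Submodule.quotEquivOfEq _ _ hker)).trans (g.domRestrict W).quotKerEquivRange)

theorem main : StHFComap := by
  intro K σ σ' ι _ _ _ _ _ τ φ J d
  unfold HF
  rw [Nat.cast_inj]
  refine finrank_map_eq _ _ _ fun x _ => ?_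
  show (Ideal.Quotient.mkₐ K (Ideal.comap φ.toRingHom J)) x = 0 ↔ (Ideal.Quotient.mkₐ K J) (φ x) = 0
  rw [Ideal.Quotient.mkₐ_eq_mk, Ideal.Quotient.mkₐ_eq_mk, Ideal.Quotient.eq_zero_iff_mem,
    Ideal.Quotient.eq_zero_iff_mem, Ideal.mem_comap]
  rfl

end Pool.Agent.Helper93.NP.M_HFComap
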