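import Pool.Agent.Helper93.NP.M_HFBasic
import Pool.Agent.Helper93.NP.M_HFComap

/-!
The cone over a subvariety: it is prime, and its part of degree zero in the variables `c`.
-/

namespace Pool.Agent.Helper93.NP.M_Cone

open MvPolynomial Module

/-- the homomorphism `(a, b) ↦ (a, b, 0)` -/
def psi0 : (Fin 2 → ℕ) →+ (Fin 3 → ℕ) where
  toFun α := ![α 0, α 1, 0]
  map_zero' := by
    funext i
    fin_cases i <;> rfl
  map_add' α β := by
    funext i
    fin_cases i <;> rfl

/-- the homomorphism `(a, b, m) ↦ (a + p m, b + q m, m)` -/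
def psi (p q : ℕ) : (Fin 3 → ℕ) →+ (Fin 3 → ℕ) where
  toFun α := ![α 0 + p * α 2, α 1 + q * α 2, α 2]
  map_zero' := by
    funext i
    fin_cases i <;> rfl
  map_add' α β := by
    funext i
    fin_cases i
    · show α 0 + β 0 + p * (α 2 + β 2) = α 0 + p * α 2 + (β 0 + p * β 2)
      ring
    · show α 1 + β 1 + q * (α 2 + β 2) = α 1 + q * α 2 + (β 1 + q * β 2)
      ring
    · rfl

theorem psi0_inj : Function.Injective psi0 := by
  intro α β h
  funext i
  fin_cases i
  · exact congrFun h 0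
  · exact congrFun h 1

theorem psi_inj (p q : ℕ) : Function.Injective (psi p q) := by
  intro α β h
  have h2 : α 2 = β 2 := congrFun h 2
  have h0 : α 0 + p * α 2 = β 0 + p * β 2 := congrFun h 0
  have h1 : α 1 + q * α 2 = β 1 + q * β 2 := congrFun h 1
  rw [h2] at h0 h1
  funext i
  fin_cases i
  · exact Nat.add_right_cancel h0
  · exact Nat.add_right_cancel h1
  · exact h2

theorem psi0_single (i : Fin 2) : psi0 (Pi.single i 1) = Pi.single (Fin.castSucc i) 1 := by
  funext k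
  fin_cases i <;> fin_cases k <;> rfl

theorem psi0_vec (a b : ℕ) : psi0 ![a, b] = ![a, b, 0] := rfl

section

variable (K : Type) [Field K]

theorem X_mem {σ ι : Type} [DecidableEq ι] (τ : σ → ι) (s : σ) :
    (X s : MvPolynomial σ K) ∈ Comp K τ (Pi.single (τ s) 1) :=
  isWeightedHomogeneous_X K (wt τ) s

variable {K}

theorem ren_mem (hC : StComap) {ρ : Type} [Fintype ρ] (τ : (Fin 3 ⊕ Fin 15) ⊕ ρ → Fin 3)
    (hτ : ∀ s : Fin 3 ⊕ Fin 15, τ (Sum.inl s) = Fin.castSucc (tau 15 s)) (α : Fin 2 → ℕ)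
    {f : MvPolynomial (Fin 3 ⊕ Fin 15) K} (hf : f ∈ Comp K (tau 15) α) :
    (rename Sum.inl f : MvPolynomial ((Fin 3 ⊕ Fin 15) ⊕ ρ) K) ∈ Comp K τ (psi0 α) := by
  refine (hC K (Fin 3 ⊕ Fin 15) ((Fin 3 ⊕ Fin 15) ⊕ ρ) (Fin 2) (Fin 3) (tau 15) τ psi0
    (rename Sum.inl) psi0_inj ?_).1 α f hf
  intro s
  rw [rename_X, psi0_single, ← hτ s]
  exact X_mem K τ (Sum.inl s)

theorem ren_comp (hC : StComap) (a b : ℕ) :
    Comp K tau3 ![a, b, 0] = (Comp K (tau 15) ![a, b]).map
      (rename (Sum.inl : Fin 3 ⊕ Fin 15 → (Fin 3 ⊕ Fin 15) ⊕ Fin 6) :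
        MvPolynomial (Fin 3 ⊕ Fin 15) K →ₐ[K]
          MvPolynomial ((Fin 3 ⊕ Fin 15) ⊕ Fin 6) K).toLinearMap := by
  have h3 : ∀ s : Fin 3 ⊕ Fin 15, tau3 (Sum.inl s) = Fin.castSucc (tau 15 s) := by
    rintro (s | s) <;> rfl
  refine le_antisymm ?_ ?_
  · intro f hf
    have hf' : IsWeightedHomogeneous (wt tau3) f ![a, b, 0] := hf
    have hvars : (f.vars : Set ((Fin 3 ⊕ Fin 15) ⊕ Fin 6)) ⊆ Set.range Sum.inl := by
      intro s hs
      rcases s with s | j
      · exact ⟨s, rfl⟩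
      · exfalso
        obtain ⟨m, hm, hms⟩ := (mem_vars_iff_mem_support _).1 (Finset.mem_coe.1 hs)
        have h1 := hf' (mem_support_iff.1 hm)
        have h2 := M_HFBasic.le_weight tau3 m (Sum.inr j)
        rw [h1] at h2
        have h4 : m (Sum.inr j) ≤ 0 := h2
        exact (Finsupp.mem_support_iff.1 hms) (Nat.le_zero.1 h4)
    obtain ⟨g, rfl⟩ := exists_rename_eq_of_vars_subset_range f Sum.inl Sum.inl_injective hvars
    refine ⟨g, ?_, rfl⟩
    show IsWeightedHomogeneous (wt (tau 15)) g ![a, b]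
    intro m hm
    have h1 : coeff (m.mapDomain Sum.inl)
        (rename (Sum.inl : Fin 3 ⊕ Fin 15 → (Fin 3 ⊕ Fin 15) ⊕ Fin 6) g) ≠ 0 := by
      rwa [coeff_rename_mapDomain _ Sum.inl_injective]
    have h2 := hf' h1
    -- compare the weights
    have h4 : psi0 (Finsupp.weight (wt (tau 15)) m) =
        Finsupp.weight (wt tau3) (m.mapDomain Sum.inl) := by
      rw [Finsupp.weight_apply, Finsupp.weight_apply, Finsupp.sum_mapDomain_index (by simp)
        (by intros; rw [add_smul]), Finsupp.sum, Finsupp.sum, map_sum]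
      refine Finset.sum_congr rfl fun s _ => ?_
      rw [map_nsmul]
      congr 1
      show psi0 (Pi.single (tau 15 s) 1) = Pi.single (tau3 (Sum.inl s)) 1
      rw [psi0_single, h3]
    rw [h2] at h4
    exact psi0_inj h4
  · rintro _ ⟨f, hf, rfl⟩
    exact ren_mem hC tau3 h3 ![a, b] hf

end

theorem main (hC : StComap) (hE : StExt) : StCone := by
  intro K _ P hP hPh p q u v hu hv
  obtain ⟨h1, h2, h3, -, -, -⟩ := hE K P hP hPh
  have h4 : ∀ s : Fin 3 ⊕ Fin 15, tau4 (Sum.inl s) = Fin.castSucc (tau 15 s) := by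
    rintro (s | s) <;> rfl
  refine ⟨?_, ?_, ?_⟩
  · have := h1
    exact Ideal.comap_isPrime (phi u v).toRingHom (extP P)
  · refine (hC K ((Fin 3 ⊕ Fin 15) ⊕ Fin 6) ((Fin 3 ⊕ Fin 15) ⊕ Fin 2) (Fin 3) (Fin 3) tau3 tau4
      (psi p q) (phi u v) (psi_inj p q) ?_).2 (extP P) h2
    rintro (s | j)
    · have e1 : phi u v (X (Sum.inl s)) = X (Sum.inl s) := by
        rw [phi, aeval_X, Sum.elim_inl]
      have e2 : psi p q (Pi.single (tau3 (Sum.inl s)) 1) = Pi.single (tau4 (Sum.inl s)) 1 := by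
        rcases s with s | s
        · show psi p q (Pi.single 0 1) = Pi.single 0 1
          funext k
          fin_cases k <;> simp [psi]
        · show psi p q (Pi.single 1 1) = Pi.single 1 1
          funext k
          fin_cases k <;> simp [psi]
      rw [e1, e2]
      exact X_mem K tau4 (Sum.inl s)
    · have e1 : phi u v (X (Sum.inr j)) = X (Sum.inr 0) * rename Sum.inl (u j) +
          X (Sum.inr 1) * rename Sum.inl (v j) := by
        rw [phi, aeval_X, Sum.elim_inr]
      have e2 : psi p q (Pi.single (tau3 (Sum.inr j)) 1) =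
          Pi.single (2 : Fin 3) 1 + psi0 ![p, q] := by
        show psi p q (Pi.single 2 1) = _
        funext k
        fin_cases k <;> simp [psi, psi0]
      rw [e1, e2]
      have hX : ∀ i : Fin 2, (X (Sum.inr i) : MvPolynomial ((Fin 3 ⊕ Fin 15) ⊕ Fin 2) K) ∈
          Comp K tau4 (Pi.single (2 : Fin 3) 1) := fun i => X_mem K tau4 (Sum.inr i)
      exact Submodule.add_mem _
        (IsWeightedHomogeneous.mul (hX 0) (ren_mem hC tau4 h4 ![p, q] (hu j)))
        (IsWeightedHomogeneous.mul (hX 1) (ren_mem hC tau4 h4 ![p, q] (hv j)))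
  · intro a b
    unfold HF
    rw [Nat.cast_inj, ren_comp hC a b, ← Submodule.map_comp]
    refine M_HFComap.finrank_map_eq _ _ _ fun x _ => ?_
    show (Ideal.Quotient.mkₐ K (coneP P u v)) (rename Sum.inl x) = 0 ↔
      (Ideal.Quotient.mkₐ K P) x = 0
    rw [Ideal.Quotient.mkₐ_eq_mk, Ideal.Quotient.mkₐ_eq_mk, Ideal.Quotient.eq_zero_iff_mem,
      Ideal.Quotient.eq_zero_iff_mem, coneP, Ideal.mem_comap]
    have e : (phi u v).toRingHom (rename Sum.inl x) = rename Sum.inl x := by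
      show phi u v (rename Sum.inl x) = rename Sum.inl x
      rw [phi, aeval_rename]
      have : (Sum.elim (fun s => X (Sum.inl s))
          (fun j => X (Sum.inr 0) * rename Sum.inl (u j) + X (Sum.inr 1) * rename Sum.inl (v j)) ∘
          Sum.inl : Fin 3 ⊕ Fin 15 → MvPolynomial ((Fin 3 ⊕ Fin 15) ⊕ Fin 2) K) =
          fun s => X (Sum.inl s) := by
        funext s
        rfl
      rw [this]
      refine DFunLike.congr_fun (algHom_ext (f := aeval fun s => X (Sum.inl s))
        (g := rename Sum.inl) fun s => ?_) x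
      rw [aeval_X, rename_X]
    rw [e]
    exact h3 x

end Pool.Agent.Helper93.NP.M_Cone
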