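import Pool.Agent.Helper93.NP.St

/-! The ideal of the cone plus the linear forms `(Y c)_k` agrees with the ideal of the section in
large `x`-degrees (MP_16deda_ag). -/

namespace Pool.Agent.Helper93.NP.M_Cone2

open MvPolynomial

/-- Scaling: if two homomorphisms differ on the variables by factors `t` on the variables of
type `i₀`, they differ by `t ^ d i₀` on multihomogeneous polynomials of multidegree `d`. -/
theorem scale {K σ ι R : Type} [Field K] [Fintype σ] [Fintype ι] [DecidableEq ι]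
    [CommRing R] [Algebra K R] (τ : σ → ι) (i₀ : ι) (t : R) (A B : σ → R)
    (hAB : ∀ s, B s = (if τ s = i₀ then t else 1) * A s) (d : ι → ℕ)
    (f : MvPolynomial σ K) (hf : f ∈ Comp K τ d) :
    aeval B f = t ^ d i₀ * aeval A f := by
  have h1 : ∀ v ∈ f.support, ∏ s, B s ^ v s = t ^ d i₀ * ∏ s, A s ^ v s := by
    intro v hv
    have hw : Finsupp.weight (wt τ) v = d := by
      have := (mem_weightedHomogeneousSubmodule K (wt τ) d f).1 hf
      exact this (mem_support_iff.1 hv)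
    have hw' : ∑ s, (if τ s = i₀ then v s else 0) = d i₀ := by
      rw [← hw, Finsupp.weight_apply, Finsupp.sum_fintype _ _ (by intro i; simp)]
      rw [Finset.sum_apply]
      refine Finset.sum_congr rfl fun s _ => ?_
      simp only [wt, Pi.smul_apply, smul_eq_mul]
      by_cases h : τ s = i₀
      · subst h
        simp
      · rw [if_neg h, Pi.single_eq_of_ne (Ne.symm h)]
        simp
    rw [← hw', ← Finset.prod_pow_eq_pow_sum, ← Finset.prod_mul_distrib]
    refine Finset.prod_congr rfl fun s _ => ?_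
    rw [hAB s, mul_pow]
    by_cases h : τ s = i₀
    · simp [h]
    · simp [h]
  rw [aeval_def, aeval_def, eval₂_eq', eval₂_eq', Finset.mul_sum]
  refine Finset.sum_congr rfl fun v hv => ?_
  rw [h1 v hv]
  ring

/-- Homogeneous ideals can be compared on homogeneous elements. -/
theorem le_of_hom {K σ ι : Type} [Field K] [Fintype σ] [Fintype ι] [DecidableEq ι] (τ : σ → ι)
    (I J : Ideal (MvPolynomial σ K)) (hI : IsHom τ I)
    (h : ∀ (d : ι → ℕ) (f : MvPolynomial σ K), f ∈ Comp K τ d → f ∈ I → f ∈ J) : I ≤ J := by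
  intro f hf
  rw [← sum_weightedHomogeneousComponent (wt τ) f]
  refine finsum_induction (p := fun g => g ∈ J) ?_ ?_ ?_
  · exact J.zero_mem
  · intro x y hx hy
    exact J.add_mem hx hy
  · intro d
    exact h d _ (weightedHomogeneousComponent_mem (wt τ) f d) (hI f hf d)

variable {K : Type} [Field K]

/-- The substitution `c_j = g_j`. -/
noncomputable def sub (K : Type) [Field K] :
    MvPolynomial ((Fin 3 ⊕ Fin 15) ⊕ Fin 6) K →ₐ[K] MvPolynomial (Fin 3 ⊕ Fin 15) K :=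
  aeval (Sum.elim X (gx K))

/-- The embedding of `K[x, y]`. -/
theorem tau3_cases (s : (Fin 3 ⊕ Fin 15) ⊕ Fin 6) :
    (tau3 s = 2 ↔ ∃ j, s = Sum.inr j) := by
  rcases s with (i | k) | j
  · simp [tau3]
  · simp [tau3]
  · simp [tau3]

theorem rename_sub (f : MvPolynomial ((Fin 3 ⊕ Fin 15) ⊕ Fin 6) K) :
    rename (Sum.inl : Fin 3 ⊕ Fin 15 → (Fin 3 ⊕ Fin 15) ⊕ Fin 2) (sub K f) =
      aeval (Sum.elim (fun s => X (Sum.inl s)) (fun j => rename Sum.inl (gx K j)) :
        (Fin 3 ⊕ Fin 15) ⊕ Fin 6 → MvPolynomial ((Fin 3 ⊕ Fin 15) ⊕ Fin 2) K) f := by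
  have : (rename (Sum.inl : Fin 3 ⊕ Fin 15 → (Fin 3 ⊕ Fin 15) ⊕ Fin 2)).comp (sub K) =
      aeval (Sum.elim (fun s => X (Sum.inl s)) (fun j => rename Sum.inl (gx K j)) :
        (Fin 3 ⊕ Fin 15) ⊕ Fin 6 → MvPolynomial ((Fin 3 ⊕ Fin 15) ⊕ Fin 2) K) := by
    apply algHom_ext
    rintro (s | j)
    · simp [sub]
    · simp [sub]
  exact AlgHom.congr_fun this f

theorem rename_sub' (f : MvPolynomial ((Fin 3 ⊕ Fin 15) ⊕ Fin 6) K) :
    rename (Sum.inl : Fin 3 ⊕ Fin 15 → (Fin 3 ⊕ Fin 15) ⊕ Fin 6) (sub K f) =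
      aeval (Sum.elim (fun s => X (Sum.inl s)) (fun j => rename Sum.inl (gx K j)) :
        (Fin 3 ⊕ Fin 15) ⊕ Fin 6 → MvPolynomial ((Fin 3 ⊕ Fin 15) ⊕ Fin 6) K) f := by
  have : (rename (Sum.inl : Fin 3 ⊕ Fin 15 → (Fin 3 ⊕ Fin 15) ⊕ Fin 6)).comp (sub K) =
      aeval (Sum.elim (fun s => X (Sum.inl s)) (fun j => rename Sum.inl (gx K j)) :
        (Fin 3 ⊕ Fin 15) ⊕ Fin 6 → MvPolynomial ((Fin 3 ⊕ Fin 15) ⊕ Fin 6) K) := by
    apply algHom_ext
    rintro (s | j)
    · simp [sub]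
    · simp [sub]
  exact AlgHom.congr_fun this f

theorem phi0_g (d : Fin 3 → ℕ) (f : MvPolynomial ((Fin 3 ⊕ Fin 15) ⊕ Fin 6) K)
    (hf : f ∈ Comp K tau3 d) :
    phi 0 (gx K) f = X (Sum.inr 1) ^ d 2 * rename Sum.inl (sub K f) := by
  rw [rename_sub]
  refine scale tau3 2 (X (Sum.inr 1)) _ _ ?_ d f hf
  rintro ((i | k) | j)
  · simp [tau3]
  · simp [tau3]
  · simp [tau3]

theorem phi0_eg (e : MvPolynomial (Fin 3 ⊕ Fin 15) K) (d : Fin 3 → ℕ)
    (f : MvPolynomial ((Fin 3 ⊕ Fin 15) ⊕ Fin 6) K) (hf : f ∈ Comp K tau3 d) :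
    phi 0 (fun j => e * gx K j) f = (rename Sum.inl e) ^ d 2 * phi 0 (gx K) f := by
  refine scale tau3 2 (rename Sum.inl e) _ _ ?_ d f hf
  rintro ((i | k) | j)
  · simp [tau3]
  · simp [tau3]
  · simp [tau3]
    ring

/-- Putting `s₀ = 0`. -/
noncomputable def S0 (K : Type) [Field K] :
    MvPolynomial ((Fin 3 ⊕ Fin 15) ⊕ Fin 2) K →ₐ[K] MvPolynomial ((Fin 3 ⊕ Fin 15) ⊕ Fin 2) K :=
  aeval (Sum.elim (fun s => X (Sum.inl s)) (fun i => if i = 0 then 0 else X (Sum.inr i)))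

theorem S0_rename (p : MvPolynomial (Fin 3 ⊕ Fin 15) K) :
    S0 K (rename Sum.inl p) = rename Sum.inl p := by
  have : (S0 K).comp (rename (Sum.inl : Fin 3 ⊕ Fin 15 → (Fin 3 ⊕ Fin 15) ⊕ Fin 2)) =
      rename Sum.inl := by
    apply algHom_ext
    intro s
    simp [S0]
  exact AlgHom.congr_fun this p

theorem S0_phi (n v : Fin 6 → MvPolynomial (Fin 3 ⊕ Fin 15) K)
    (f : MvPolynomial ((Fin 3 ⊕ Fin 15) ⊕ Fin 6) K) :
    S0 K (phi n v f) = phi 0 v f := by
  have : (S0 K).comp (phi n v) = phi 0 v := by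
    apply algHom_ext
    rintro (s | j)
    · simp [phi, S0]
    · simp only [phi, AlgHom.comp_apply, aeval_X, Sum.elim_inr, map_add, map_mul, S0_rename]
      simp [S0]
  exact AlgHom.congr_fun this f

theorem mem_coneP (P : Ideal (MvPolynomial (Fin 3 ⊕ Fin 15) K))
    (u v : Fin 6 → MvPolynomial (Fin 3 ⊕ Fin 15) K)
    (f : MvPolynomial ((Fin 3 ⊕ Fin 15) ⊕ Fin 6) K) :
    f ∈ coneP P u v ↔ phi u v f ∈ extP P := Iff.rfl

theorem rename_mem_extP (P : Ideal (MvPolynomial (Fin 3 ⊕ Fin 15) K))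
    (p : MvPolynomial (Fin 3 ⊕ Fin 15) K) (hp : p ∈ P) : rename Sum.inl p ∈ extP P :=
  Ideal.mem_map_of_mem _ hp

theorem S0_extP (P : Ideal (MvPolynomial (Fin 3 ⊕ Fin 15) K))
    (f : MvPolynomial ((Fin 3 ⊕ Fin 15) ⊕ Fin 2) K) (hf : f ∈ extP P) : S0 K f ∈ extP P := by
  have : extP P ≤ Ideal.comap (S0 K).toRingHom (extP P) := by
    refine Ideal.map_le_iff_le_comap.2 fun p hp => ?_
    show S0 K (rename Sum.inl p) ∈ extP P
    rw [S0_rename]
    exact rename_mem_extP P p hp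
  exact this hf

theorem phi_rename (u v : Fin 6 → MvPolynomial (Fin 3 ⊕ Fin 15) K)
    (p : MvPolynomial (Fin 3 ⊕ Fin 15) K) : phi u v (rename Sum.inl p) = rename Sum.inl p := by
  have : (phi u v).comp (rename (Sum.inl : Fin 3 ⊕ Fin 15 → (Fin 3 ⊕ Fin 15) ⊕ Fin 6)) =
      rename Sum.inl := by
    apply algHom_ext
    intro s
    simp [phi]
  exact AlgHom.congr_fun this p

theorem rename_mem_coneP (P : Ideal (MvPolynomial (Fin 3 ⊕ Fin 15) K))
    (u v : Fin 6 → MvPolynomial (Fin 3 ⊕ Fin 15) K)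
    (p : MvPolynomial (Fin 3 ⊕ Fin 15) K) (hp : p ∈ P) : rename Sum.inl p ∈ coneP P u v := by
  rw [mem_coneP, phi_rename]
  exact rename_mem_extP P p hp

/-- Homomorphisms and explicit vectors of polynomials. -/
theorem map_gv {A B : Type} [CommRing A] [CommRing B] (F : A →+* B) (x : Fin 3 → A) (j : Fin 6) :
    F (gv x j) = gv (fun i => F (x i)) j := by
  fin_cases j <;> simp [gv]

theorem map_Yv {A B : Type} [CommRing A] [CommRing B] (F : A →+* B) (x : Fin 3 → A) (k : Fin 15)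
    (j : Fin 6) : F (Yv x k j) = Yv (fun i => F (x i)) k j := by
  fin_cases k <;> fin_cases j <;> simp [Yv, map_ofNat]

theorem rename_gx {σ : Type} (w : Fin 3 ⊕ Fin 15 → σ) (j : Fin 6) :
    rename w (gx K j) = gv (fun i => (X (w (Sum.inl i)) : MvPolynomial σ K)) j := by
  have := map_gv (rename w : MvPolynomial (Fin 3 ⊕ Fin 15) K →ₐ[K] MvPolynomial σ K).toRingHom
    (fun i => X (Sum.inl i)) j
  simpa [gx] using this

section Hom

/-- Forms of degree `n δ`. -/
structure H {σ ι : Type} [DecidableEq ι] (τ : σ → ι) (δ : ι → ℕ) (n : ℕ)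
    (f : MvPolynomial σ K) : Prop where
  mem : f ∈ Comp K τ (n • δ)

variable {σ ι : Type} [DecidableEq ι] {τ : σ → ι} {δ : ι → ℕ}

theorem H_mul {m n k : ℕ} {f g : MvPolynomial σ K} (hf : H τ δ m f)
    (hg : H τ δ n g) (h : m + n = k) : H τ δ k (f * g) := by
  subst h
  constructor
  rw [add_smul]
  exact IsWeightedHomogeneous.mul hf.mem hg.mem

theorem H_pow {f : MvPolynomial σ K} (hf : H τ δ 1 f) (n : ℕ) : H τ δ n (f ^ n) := by
  have := hf.mem
  rw [one_smul] at this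
  exact ⟨IsWeightedHomogeneous.pow this n⟩

theorem H_two : H τ δ 0 (2 : MvPolynomial σ K) := by
  constructor
  rw [zero_smul]
  have := isWeightedHomogeneous_C (R := K) (wt τ) (2 : K)
  rwa [map_ofNat] at this

theorem H_zero {n : ℕ} : H τ δ n (0 : MvPolynomial σ K) := ⟨Submodule.zero_mem _⟩

theorem H_add {n : ℕ} {f g : MvPolynomial σ K} (hf : H τ δ n f) (hg : H τ δ n g) :
    H τ δ n (f + g) := ⟨Submodule.add_mem _ hf.mem hg.mem⟩

theorem H_sub {n : ℕ} {f g : MvPolynomial σ K} (hf : H τ δ n f) (hg : H τ δ n g) :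
    H τ δ n (f - g) := ⟨Submodule.sub_mem _ hf.mem hg.mem⟩

theorem H_neg {n : ℕ} {f : MvPolynomial σ K} (hf : H τ δ n f) :
    H τ δ n (-f) := ⟨Submodule.neg_mem _ hf.mem⟩

theorem H_gv (x : Fin 3 → MvPolynomial σ K) (hx : ∀ i, H τ δ 1 (x i)) (j : Fin 6) :
    H τ δ 5 (gv x j) := by
  fin_cases j <;> simp [gv] <;>
  (repeat' first
    | with_reducible exact H_zero
    | with_reducible exact H_pow (hx _) _
    | with_reducible exact hx _
    | with_reducible exact H_two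
    | with_reducible apply H_add
    | with_reducible apply H_sub
    | with_reducible apply H_neg
    | with_reducible apply H_mul) <;> rfl

theorem H_Yv (x : Fin 3 → MvPolynomial σ K) (hx : ∀ i, H τ δ 1 (x i)) (k : Fin 15)
    (j : Fin 6) : H τ δ 3 (Yv x k j) := by
  fin_cases k <;> fin_cases j <;> simp [Yv] <;>
  (repeat' first
    | with_reducible exact H_zero
    | with_reducible exact H_pow (hx _) _
    | with_reducible exact hx _
    | with_reducible exact H_two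
    | with_reducible apply H_add
    | with_reducible apply H_sub
    | with_reducible apply H_neg
    | with_reducible apply H_mul) <;> rfl

end Hom

theorem gx_mem (j : Fin 6) : gx K j ∈ Comp K (tau 15) ![5, 0] := by
  have h := H_gv (K := K) (τ := tau 15) (δ := ![1, 0]) (fun i => X (Sum.inl i)) ?_ j
  · have h1 := h.mem
    have e : (5 • ![1, 0] : Fin 2 → ℕ) = ![5, 0] := by
      ext l
      fin_cases l <;> simp
    rwa [e] at h1
  · intro i
    constructor
    have h1 := isWeightedHomogeneous_X K (wt (tau 15)) (Sum.inl i)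
    have e : wt (tau 15) (Sum.inl i) = 1 • ![1, 0] := by
      ext l
      fin_cases l <;> simp [wt, tau]
    rw [e] at h1
    exact h1

theorem yc_mem (k : Fin 15) : yc K k ∈ Comp K tau3 ![3, 0, 1] := by
  refine Submodule.sum_mem _ fun j _ => ?_
  have h := H_Yv (K := K) (τ := tau3) (δ := ![1, 0, 0]) (fun i => X (Sum.inl (Sum.inl i))) ?_ k j
  · have h1 := h.mem
    have h2 := isWeightedHomogeneous_X K (wt tau3) (Sum.inr j)
    have h3 := IsWeightedHomogeneous.mul h1 h2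
    have e : (3 • ![1, 0, 0] + wt tau3 (Sum.inr j) : Fin 3 → ℕ) = ![3, 0, 1] := by
      ext l
      fin_cases l <;> simp [wt, tau3]
    rw [e] at h3
    exact h3
  · intro i
    constructor
    have h1 := isWeightedHomogeneous_X K (wt tau3) (Sum.inl (Sum.inl i))
    have e : wt tau3 (Sum.inl (Sum.inl i)) = 1 • ![1, 0, 0] := by
      ext l
      fin_cases l <;> simp [wt, tau3]
    rw [e] at h1
    exact h1

/-- The linear forms lie in the ideal of the section. -/
theorem phi_yc (k : Fin 15) : phi 0 (gx K) (yc K k) = 0 := by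
  have h1 : ∀ j, phi 0 (gx K) (Yv (fun i => X (Sum.inl (Sum.inl i))) k j) =
      Yv (fun i => (X (Sum.inl (Sum.inl i)) : MvPolynomial ((Fin 3 ⊕ Fin 15) ⊕ Fin 2) K)) k j := by
    intro j
    have := map_Yv (phi 0 (gx K)).toRingHom (fun i => X (Sum.inl (Sum.inl i))) k j
    simpa [phi] using this
  have h2 : ∀ j, phi 0 (gx K) (X (Sum.inr j)) = X (Sum.inr 1) * gv (fun i =>
      (X (Sum.inl (Sum.inl i)) : MvPolynomial ((Fin 3 ⊕ Fin 15) ⊕ Fin 2) K)) j := by
    intro j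
    simp [phi, rename_gx]
  simp only [yc, map_sum, map_mul, h1, h2]
  have h3 := Yg (fun i => (X (Sum.inl (Sum.inl i)) :
    MvPolynomial ((Fin 3 ⊕ Fin 15) ⊕ Fin 2) K)) k
  calc _ = X (Sum.inr 1) * ∑ j, Yv (fun i => (X (Sum.inl (Sum.inl i)) :
          MvPolynomial ((Fin 3 ⊕ Fin 15) ⊕ Fin 2) K)) k j * gv (fun i =>
      (X (Sum.inl (Sum.inl i)) : MvPolynomial ((Fin 3 ⊕ Fin 15) ⊕ Fin 2) K)) j := by
        rw [Finset.mul_sum]
        exact Finset.sum_congr rfl fun j _ => by ring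
    _ = 0 := by rw [h3, mul_zero]

/-- The Koszul relations. -/
theorem kos_mem (i j : Fin 6) :
    rename Sum.inl (gx K j) * X (Sum.inr i) - rename Sum.inl (gx K i) * X (Sum.inr j) ∈
      Ideal.span (Set.range (yc K)) := by
  obtain ⟨q, hq⟩ := kos (fun i => (X (Sum.inl (Sum.inl i)) :
    MvPolynomial ((Fin 3 ⊕ Fin 15) ⊕ Fin 6) K)) i j
  have h : rename Sum.inl (gx K j) * X (Sum.inr i) - rename Sum.inl (gx K i) * X (Sum.inr j) =
      ∑ k, q k * yc K k := by
    have h1 : ∑ k, q k * yc K k = ∑ h : Fin 6, ((∑ k, q k * Yv (fun i =>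
        (X (Sum.inl (Sum.inl i)) : MvPolynomial ((Fin 3 ⊕ Fin 15) ⊕ Fin 6) K)) k h) *
          X (Sum.inr h)) := by
      simp only [yc, Finset.mul_sum, Finset.sum_mul]
      rw [Finset.sum_comm]
      exact Finset.sum_congr rfl fun _ _ => Finset.sum_congr rfl fun _ _ => by ring
    rw [h1]
    simp only [hq, sub_mul, Finset.sum_sub_distrib, ite_mul, zero_mul, Finset.sum_ite_eq',
      Finset.mem_univ, if_true, rename_gx]
  rw [h]
  exact Ideal.sum_mem _ fun k _ => Ideal.mul_mem_left _ _ (Ideal.subset_span ⟨k, rfl⟩)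

/-- The congruence `g_j ^ m f = c_j ^ m f(x, y, g)` modulo the linear forms. -/
theorem congr_mem (d : Fin 3 → ℕ) (f : MvPolynomial ((Fin 3 ⊕ Fin 15) ⊕ Fin 6) K)
    (hf : f ∈ Comp K tau3 d) (j : Fin 6) :
    rename Sum.inl (gx K j) ^ d 2 * f - X (Sum.inr j) ^ d 2 * rename Sum.inl (sub K f) ∈
      Ideal.span (Set.range (yc K)) := by
  set A : (Fin 3 ⊕ Fin 15) ⊕ Fin 6 → MvPolynomial ((Fin 3 ⊕ Fin 15) ⊕ Fin 6) K :=
    Sum.elim (fun s => X (Sum.inl s)) (fun i => rename Sum.inl (gx K j) * X (Sum.inr i)) with hA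
  set B : (Fin 3 ⊕ Fin 15) ⊕ Fin 6 → MvPolynomial ((Fin 3 ⊕ Fin 15) ⊕ Fin 6) K :=
    Sum.elim (fun s => X (Sum.inl s)) (fun i => X (Sum.inr j) * rename Sum.inl (gx K i)) with hB
  have h1 : aeval A f = rename Sum.inl (gx K j) ^ d 2 * f := by
    have := scale tau3 2 (rename Sum.inl (gx K j)) (X : (Fin 3 ⊕ Fin 15) ⊕ Fin 6 →
      MvPolynomial ((Fin 3 ⊕ Fin 15) ⊕ Fin 6) K) A ?_ d f hf
    · rw [this, aeval_X_left_apply]
    · rintro ((i | k) | i)
      · simp [tau3, hA]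
      · simp [tau3, hA]
      · simp [tau3, hA]
  have h2 : aeval B f = X (Sum.inr j) ^ d 2 * rename Sum.inl (sub K f) := by
    rw [rename_sub']
    refine scale tau3 2 (X (Sum.inr j)) _ _ ?_ d f hf
    rintro ((i | k) | i)
    · simp [tau3, hB]
    · simp [tau3, hB]
    · simp [tau3, hB]
  rw [← h1, ← h2, ← Ideal.Quotient.eq]
  have h3 : (Ideal.Quotient.mkₐ K (Ideal.span (Set.range (yc K)))).comp (aeval A) =
      (Ideal.Quotient.mkₐ K (Ideal.span (Set.range (yc K)))).comp (aeval B) := by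
    apply algHom_ext
    rintro (s | i)
    · simp [hA, hB]
    · simp only [AlgHom.comp_apply, aeval_X, hA, hB, Sum.elim_inr, Ideal.Quotient.mkₐ_eq_mk]
      rw [Ideal.Quotient.eq]
      have := kos_mem (K := K) i j
      rwa [mul_comm (rename Sum.inl (gx K i))] at this
  exact AlgHom.congr_fun h3 f

theorem main (hHO : StHomOps) (hExt : StExt) (hCone : StCone) (hSur : StSur) (hSat : StSat) :
    StCone2 := by
  intro K _ _ P hP hPh T
  have hu : ∀ j, T.n j ∈ Comp K (tau 15) ![T.p + 5, T.q + 1] := T.hn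
  have hv : ∀ j, (fun j => T.e * gx K j) j ∈ Comp K (tau 15) ![T.p + 5, T.q + 1] := by
    intro j
    have := IsWeightedHomogeneous.mul T.he (gx_mem (K := K) j)
    have h2 : (![T.p, T.q + 1] + ![5, 0] : Fin 2 → ℕ) = ![T.p + 5, T.q + 1] := by
      ext l
      fin_cases l <;> simp
    rw [h2] at this
    exact this
  obtain ⟨-, -, hspan, hsup, -⟩ := hHO K _ _ tau3
  obtain ⟨-, hC1, -⟩ := hCone K P hP hPh _ _ _ _ hu hv
  obtain ⟨-, hC2, -⟩ := hCone K P hP hPh 5 0 0 (gx K) (fun j => Submodule.zero_mem _) gx_mem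
  obtain ⟨hEp, -, hE1, hE2, -, hE4⟩ := hExt K P hP hPh
  have hI : IsHom tau3 (coneP P T.n (fun j => T.e * gx K j) ⊔ Ideal.span (Set.range (yc K))) := by
    refine hsup _ _ hC1 (hspan _ ?_)
    rintro _ ⟨k, rfl⟩
    exact ⟨_, yc_mem k⟩
  have hle : coneP P T.n (fun j => T.e * gx K j) ⊔ Ideal.span (Set.range (yc K)) ≤
      coneP P 0 (gx K) := by
    refine sup_le ?_ ?_
    · refine le_of_hom tau3 _ _ hC1 fun d f hf hfI => ?_
      rw [mem_coneP] at hfI ⊢
      have h1 := S0_extP P _ hfI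
      rw [S0_phi, phi0_eg T.e d f hf] at h1
      rcases hEp.mem_or_mem h1 with h2 | h2
      · exact absurd ((hE1 _).1 (hEp.mem_of_pow_mem _ h2)) T.heP
      · exact h2
    · refine Ideal.span_le.2 ?_
      rintro _ ⟨k, rfl⟩
      show phi 0 (gx K) (yc K k) ∈ extP P
      rw [phi_yc]
      exact Ideal.zero_mem _
  suffices hkey : ∀ (d : Fin 3 → ℕ) (f : MvPolynomial ((Fin 3 ⊕ Fin 15) ⊕ Fin 6) K),
      f ∈ Comp K tau3 d → f ∈ coneP P 0 (gx K) → ∃ n : ℕ, ∀ s, tau3 s = 0 → X s ^ n * f ∈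
        coneP P T.n (fun j => T.e * gx K j) ⊔ Ideal.span (Set.range (yc K)) by
    obtain ⟨a₀, ha₀⟩ := hSat K _ _ tau3 0 _ _ hI hC2 hle hkey
    refine ⟨a₀, fun a b m ha => (ha₀ ![a, b, m] ?_).symm⟩
    simpa using ha
  intro d f hf hfJ
  -- `f(x, y, g(x)) ∈ P`
  have hsub : sub K f ∈ P := by
    rw [mem_coneP, phi0_g d f hf] at hfJ
    exact hE2 _ _ hfJ
  set I := coneP P T.n (fun j => T.e * gx K j) ⊔ Ideal.span (Set.range (yc K)) with hIdef
  have hg : ∀ j, rename Sum.inl (gx K j) ^ d 2 ∈ qt I f := by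
    intro j
    rw [mem_qt, mul_comm]
    have h1 := congr_mem d f hf j
    have h2 : X (Sum.inr j) ^ d 2 * rename Sum.inl (sub K f) ∈ I :=
      Ideal.mul_mem_left _ _ ((le_sup_left : _ ≤ I) (rename_mem_coneP P _ _ _ hsub))
    have h3 := I.add_mem ((le_sup_right : _ ≤ I) h1) h2
    simpa using h3
  have hx : ∀ i : Fin 3, ∃ n : ℕ, (X (Sum.inl (Sum.inl i)) :
      MvPolynomial ((Fin 3 ⊕ Fin 15) ⊕ Fin 6) K) ^ n ∈ qt I f := by
    intro i
    have h1 : (X (Sum.inl i) : MvPolynomial (Fin 3 ⊕ Fin 15) K) ^ 7 ∈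
        Comp K (tau 15) ![2 + 5, 0] := by
      have h0 := IsWeightedHomogeneous.pow (isWeightedHomogeneous_X K (wt (tau 15)) (Sum.inl i)) 7
      have e : 7 • wt (tau 15) (Sum.inl i) = ![2 + 5, 0] := by
        ext l
        fin_cases l <;> simp [wt, tau]
      rw [e] at h0
      exact h0
    obtain ⟨h, -, h2⟩ := hSur K 2 0 le_rfl _ h1
    have h3 : (X (Sum.inl (Sum.inl i)) : MvPolynomial ((Fin 3 ⊕ Fin 15) ⊕ Fin 6) K) ^ 7 ∈
        (qt I f).radical := by
      have h4 := congrArg (rename (Sum.inl : Fin 3 ⊕ Fin 15 → (Fin 3 ⊕ Fin 15) ⊕ Fin 6)) h2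
      rw [map_pow, rename_X] at h4
      rw [h4, map_sum]
      refine Ideal.sum_mem _ fun j _ => ?_
      rw [map_mul]
      exact Ideal.mul_mem_left _ _ ⟨d 2, hg j⟩
    obtain ⟨n, hn⟩ := h3
    exact ⟨7 * n, by rwa [pow_mul]⟩
  choose n hn using hx
  refine ⟨∑ i, n i, fun s hs => ?_⟩
  have hs' : ∃ i, s = Sum.inl (Sum.inl i) := by
    rcases s with (i | k) | j
    · exact ⟨i, rfl⟩
    · simp [tau3] at hs
    · simp [tau3] at hs
  obtain ⟨i, rfl⟩ := hs'
  rw [mul_comm, ← mem_qt]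
  have : ∑ i, n i = (∑ i, n i - n i) + n i :=
    (Nat.sub_add_cancel (Finset.single_le_sum (fun _ _ => Nat.zero_le _) (Finset.mem_univ i))).symm
  rw [this, pow_add]
  exact Ideal.mul_mem_left _ _ (hn i)

end Pool.Agent.Helper93.NP.M_Cone2
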