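import Pool.Agent.Helper93.NP.M_Exact
import Pool.Agent.Helper93.NP.M_Cone2

/-! The ideal of the cone together with the linear forms `(Y c)_k` (MP_16deda_ag). -/

set_option autoImplicit false

namespace Pool.Agent.Helper93.NP.M_Cone1

open MvPolynomial

variable {K : Type} [Field K]

/-- The images of the linear forms. -/
theorem phi_yc (P : Ideal (MvPolynomial (Fin 3 ⊕ Fin 15) K)) (T : Lift K P) (k : Fin 15) :
    phi T.n (fun j => T.e * gx K j) (yc K k) -
      X (Sum.inr 0) * rename Sum.inl T.mu * X (Sum.inl (Sum.inr k)) ∈ extP P := by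
  have h1 : ∀ j, phi T.n (fun j => T.e * gx K j) (Yv (fun i => X (Sum.inl (Sum.inl i))) k j) =
      Yv (fun i => (X (Sum.inl (Sum.inl i)) : MvPolynomial ((Fin 3 ⊕ Fin 15) ⊕ Fin 2) K)) k j := by
    intro j
    have := M_Cone2.map_Yv (phi T.n (fun j => T.e * gx K j)).toRingHom
      (fun i => X (Sum.inl (Sum.inl i))) k j
    simpa [phi] using this
  have h2 : ∀ j, phi T.n (fun j => T.e * gx K j) (X (Sum.inr j)) =
      X (Sum.inr 0) * rename Sum.inl (T.n j) +
      X (Sum.inr 1) * (rename Sum.inl T.e * gv (fun i =>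
      (X (Sum.inl (Sum.inl i)) : MvPolynomial ((Fin 3 ⊕ Fin 15) ⊕ Fin 2) K)) j) := by
    intro j
    simp [phi, M_Cone2.rename_gx]
  have h4 : ∀ j, rename Sum.inl (Yv (fun i => (X (Sum.inl i) :
      MvPolynomial (Fin 3 ⊕ Fin 15) K)) k j) =
      Yv (fun i => (X (Sum.inl (Sum.inl i)) : MvPolynomial ((Fin 3 ⊕ Fin 15) ⊕ Fin 2) K)) k j := by
    intro j
    have := M_Cone2.map_Yv (rename (Sum.inl : Fin 3 ⊕ Fin 15 → (Fin 3 ⊕ Fin 15) ⊕ Fin 2) :
      MvPolynomial (Fin 3 ⊕ Fin 15) K →ₐ[K] MvPolynomial ((Fin 3 ⊕ Fin 15) ⊕ Fin 2) K).toRingHom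
      (fun i => X (Sum.inl i)) k j
    simpa using this
  have h3 := Yg (fun i => (X (Sum.inl (Sum.inl i)) :
    MvPolynomial ((Fin 3 ⊕ Fin 15) ⊕ Fin 2) K)) k
  have h5 := M_Cone2.rename_mem_extP P _ (T.eq k)
  have h6 : phi T.n (fun j => T.e * gx K j) (yc K k) -
      X (Sum.inr 0) * rename Sum.inl T.mu * X (Sum.inl (Sum.inr k)) =
      X (Sum.inr 0) * rename Sum.inl (∑ j, Yv (fun i => (X (Sum.inl i) :
        MvPolynomial (Fin 3 ⊕ Fin 15) K)) k j * T.n j - T.mu * X (Sum.inr k)) := by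
    simp only [yc, map_sum, map_mul, h1, h2, map_sub, h4, rename_X]
    have h7 : ∑ j, Yv (fun i => (X (Sum.inl (Sum.inl i)) :
        MvPolynomial ((Fin 3 ⊕ Fin 15) ⊕ Fin 2) K)) k j * (X (Sum.inr 0) * rename Sum.inl (T.n j) +
        X (Sum.inr 1) * (rename Sum.inl T.e * gv (fun i =>
        (X (Sum.inl (Sum.inl i)) : MvPolynomial ((Fin 3 ⊕ Fin 15) ⊕ Fin 2) K)) j)) =
        X (Sum.inr 0) * (∑ j, Yv (fun i => (X (Sum.inl (Sum.inl i)) :
        MvPolynomial ((Fin 3 ⊕ Fin 15) ⊕ Fin 2) K)) k j * rename Sum.inl (T.n j)) +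
        X (Sum.inr 1) * rename Sum.inl T.e * ∑ j, Yv (fun i => (X (Sum.inl (Sum.inl i)) :
        MvPolynomial ((Fin 3 ⊕ Fin 15) ⊕ Fin 2) K)) k j * gv (fun i =>
        (X (Sum.inl (Sum.inl i)) : MvPolynomial ((Fin 3 ⊕ Fin 15) ⊕ Fin 2) K)) j := by
      rw [Finset.mul_sum, Finset.mul_sum, ← Finset.sum_add_distrib]
      exact Finset.sum_congr rfl fun j _ => by ring
    rw [h7, h3]
    ring
  rw [h6]
  exact Ideal.mul_mem_left _ _ h5

/-- Homogeneous polynomials of positive `y`-degree. -/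
theorem split_y (a b m : ℕ) (f : MvPolynomial ((Fin 3 ⊕ Fin 15) ⊕ Fin 6) K)
    (hf : f ∈ Comp K tau3 ![a, b + 1, m]) :
    ∃ g : Fin 15 → MvPolynomial ((Fin 3 ⊕ Fin 15) ⊕ Fin 6) K,
      (∀ k, g k ∈ Comp K tau3 ![a, b, m]) ∧ f = ∑ k, X (Sum.inl (Sum.inr k)) * g k := by
  classical
  have hf' : IsWeightedHomogeneous (wt tau3) f ![a, b + 1, m] := hf
  have key : ∀ v ∈ f.support, ∃ g : Fin 15 → MvPolynomial ((Fin 3 ⊕ Fin 15) ⊕ Fin 6) K,
      (∀ k, g k ∈ Comp K tau3 ![a, b, m]) ∧
      monomial v (coeff v f) = ∑ k, X (Sum.inl (Sum.inr k)) * g k := by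
    intro v hv
    have hw := hf' (mem_support_iff.1 hv)
    have h1 : ∃ k : Fin 15, v (Sum.inl (Sum.inr k)) ≠ 0 := by
      by_contra hcon
      push Not at hcon
      have h2 := congrFun hw 1
      rw [Finsupp.weight_apply, Finsupp.sum_fintype _ _ (by simp), Finset.sum_apply] at h2
      have h3 : ∑ s, (v s • wt tau3 s) 1 = 0 := by
        refine Finset.sum_eq_zero fun s _ => ?_
        rcases s with (i | k) | j
        · simp [wt, tau3]
        · simp [hcon k]
        · simp [wt, tau3]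
      rw [h3] at h2
      simp at h2
    obtain ⟨k, hk⟩ := h1
    have hle : Finsupp.single (Sum.inl (Sum.inr k)) 1 ≤ v := by
      rw [Finsupp.single_le_iff]
      omega
    set w := v - Finsupp.single (Sum.inl (Sum.inr k)) 1 with hwdef
    have hvw : v = Finsupp.single (Sum.inl (Sum.inr k)) 1 + w := by
      rw [hwdef, add_tsub_cancel_of_le hle]
    have hw2 : Finsupp.weight (wt tau3) w = ![a, b, m] := by
      rw [hvw, map_add, Finsupp.weight_single] at hw
      have h5 : ∀ i, ((1 : ℕ) • wt tau3 (Sum.inl (Sum.inr k)) + Finsupp.weight (wt tau3) w) i =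
        ![a, b + 1, m] i := fun i => congrFun hw i
      funext i
      have h6 := h5 i
      fin_cases i
      · simpa [wt, tau3] using h6
      · have h7 : 1 + Finsupp.weight (wt tau3) w 1 = b + 1 := by
          simpa [wt, tau3] using h6
        show Finsupp.weight (wt tau3) w 1 = b
        omega
      · simpa [wt, tau3] using h6
    refine ⟨fun k' => if k' = k then monomial w (coeff v f) else 0, fun k' => ?_, ?_⟩
    · dsimp only
      by_cases h : k' = k
      · rw [if_pos h]
        exact isWeightedHomogeneous_monomial _ _ _ hw2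
      · rw [if_neg h]
        exact Submodule.zero_mem _
    · rw [Finset.sum_eq_single k]
      · dsimp only
        rw [if_pos rfl, X, monomial_mul, one_mul, ← hvw]
      · intro k' _ h
        dsimp only
        rw [if_neg h, mul_zero]
      · intro h
        exact absurd (Finset.mem_univ k) h
  choose! g hg1 hg2 using key
  refine ⟨fun k => ∑ v ∈ f.support, g v k, fun k => Submodule.sum_mem _ fun v hv => hg1 v hv k,
    ?_⟩
  conv_lhs => rw [f.as_sum]
  rw [Finset.sum_congr rfl hg2, Finset.sum_comm]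
  refine Finset.sum_congr rfl fun k _ => ?_
  rw [Finset.mul_sum]

theorem main (hHFC : StHFComap) (hExt : StExt) (hCone : StCone) : StCone1 := by
  intro K _ P hP hH T a b m
  obtain ⟨hJp, -, hJ1, -, hJ0, -⟩ := hExt K P hP hH
  have hQh : IsHom tau3 (coneP P T.n (fun j => T.e * gx K j)) := by
    refine (hCone K P hP hH (T.p + 5) (T.q + 1) T.n (fun j => T.e * gx K j) T.hn ?_).2.1
    intro j
    have h1 : (T.e * gx K j).IsWeightedHomogeneous (wt (tau 15)) (![T.p, T.q + 1] + ![5, 0]) :=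
      IsWeightedHomogeneous.mul T.he (M_Cone2.gx_mem j)
    have h2 : (![T.p, T.q + 1] + ![5, 0] : Fin 2 → ℕ) = ![T.p + 5, T.q + 1] := by
      ext l
      fin_cases l <;> simp
    rw [h2] at h1
    exact h1
  set Q := coneP P T.n (fun j => T.e * gx K j) with hQ
  set I := Ideal.span (Set.range (yc K)) with hI
  set φ := phi T.n (fun j => T.e * gx K j) with hφ
  set s : MvPolynomial ((Fin 3 ⊕ Fin 15) ⊕ Fin 2) K := X (Sum.inr 0) * rename Sum.inl T.mu with hs
  have hsJ : s ∉ extP P := by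
    intro h
    rcases hJp.mem_or_mem h with h | h
    · exact hJ0 h
    · exact T.hmuP ((hJ1 T.mu).1 h)
  set α : Fin 3 → ℕ := ![a + 3, b, m + 1] with hα
  set β : Fin 3 → ℕ := ![a, b + 1, m] with hβ
  set γ : Fin 3 → ℕ := ![a, b, m] with hγ
  have hαγ : γ + ![3, 0, 1] = α := by
    ext l
    fin_cases l <;> simp [hγ, hα]
  have hβγ : γ + wt tau3 (Sum.inl (Sum.inr (0 : Fin 15))) = β := by
    ext l
    fin_cases l <;> simp [hγ, hβ, wt, tau3]
  have hfα := M_Exact.finite_comp (K := K) tau3 α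
  have hfβ := M_Exact.finite_comp (K := K) tau3 β
  -- the map
  set π := (Ideal.Quotient.mkₐ K (extP P)).toLinearMap ∘ₗ φ.toLinearMap with hπ
  set πQ := (Ideal.Quotient.mkₐ K Q).toLinearMap with hπQ
  set πI := (Ideal.Quotient.mkₐ K (Q ⊔ I)).toLinearMap with hπI
  have kπ : ∀ g, π g = 0 ↔ g ∈ Q := fun g => Ideal.Quotient.eq_zero_iff_mem
  have e1 := M_Exact.rank_nullity πQ (Comp K tau3 α)
  have e2 := M_Exact.rank_nullity πI (Comp K tau3 α)
  have hfin : Module.Finite K ↥(LinearMap.ker πI ⊓ Comp K tau3 α) :=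
    Submodule.finiteDimensional_of_le inf_le_right
  have e3 := M_Exact.rank_nullity π (LinearMap.ker πI ⊓ Comp K tau3 α)
  have e4 : HF tau3 Q β = (Module.finrank K ((Comp K tau3 β).map π) : ℤ) :=
    hHFC K _ _ _ tau3 φ (extP P) β
  have k1 : LinearMap.ker π = LinearMap.ker πQ := by
    ext g
    rw [M_Exact.mem_ker, LinearMap.mem_ker]
    exact kπ g
  have k2 : LinearMap.ker πQ ⊓ (LinearMap.ker πI ⊓ Comp K tau3 α) =
      LinearMap.ker πQ ⊓ Comp K tau3 α := by
    rw [← inf_assoc]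
    congr 1
    refine inf_eq_left.2 fun g hg => ?_
    rw [M_Exact.mem_ker] at hg ⊢
    exact Ideal.mem_sup_left hg
  -- multiplication by `s`
  set μ := LinearMap.mulLeft K (Ideal.Quotient.mkₐ K (extP P) s) with hμ
  have hμi : Function.Injective μ := by
    rw [← LinearMap.ker_eq_bot, LinearMap.ker_eq_bot']
    intro x hx
    obtain ⟨y, rfl⟩ := Ideal.Quotient.mk_surjective x
    have h1 : Ideal.Quotient.mk (extP P) (s * y) = 0 := hx
    rw [Ideal.Quotient.eq_zero_iff_mem] at h1 ⊢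
    exact (hJp.mem_or_mem h1).resolve_left hsJ
  have hyk : ∀ k g, π (yc K k * g) = μ (π (X (Sum.inl (Sum.inr k)) * g)) := by
    intro k g
    have h1 := phi_yc P T k
    show Ideal.Quotient.mk (extP P) (φ (yc K k * g)) =
      Ideal.Quotient.mk (extP P) (s * φ (X (Sum.inl (Sum.inr k)) * g))
    rw [Ideal.Quotient.eq]
    have h2 : φ (yc K k * g) - s * φ (X (Sum.inl (Sum.inr k)) * g) =
        (φ (yc K k) - s * X (Sum.inl (Sum.inr k))) * φ g := by
      have h3 : φ (X (Sum.inl (Sum.inr k))) = X (Sum.inl (Sum.inr k)) := by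
        simp [hφ, phi]
      rw [map_mul, map_mul, h3]
      ring
    rw [h2]
    exact Ideal.mul_mem_right _ _ h1
  have k3 : (LinearMap.ker πI ⊓ Comp K tau3 α).map π = ((Comp K tau3 β).map π).map μ := by
    apply le_antisymm
    · rintro _ ⟨u, ⟨hu1, hu2⟩, rfl⟩
      rw [SetLike.mem_coe, M_Exact.mem_ker] at hu1
      obtain ⟨j, hj, y, hy, hjy⟩ := Submodule.mem_sup.1 hu1
      obtain ⟨r, rfl⟩ := Ideal.mem_span_range_iff_exists_fun.1 hy
      refine ⟨π (∑ k, X (Sum.inl (Sum.inr k)) * weightedHomogeneousComponent (wt tau3) γ (r k)),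
        ⟨_, ?_, rfl⟩, ?_⟩
      · refine Submodule.sum_mem _ fun k _ => ?_
        have h1 : (X (Sum.inl (Sum.inr k)) * weightedHomogeneousComponent (wt tau3) γ (r k)
            : MvPolynomial ((Fin 3 ⊕ Fin 15) ⊕ Fin 6) K).IsWeightedHomogeneous (wt tau3)
            (wt tau3 (Sum.inl (Sum.inr k)) + γ) :=
          IsWeightedHomogeneous.mul (isWeightedHomogeneous_X K _ _)
            (weightedHomogeneousComponent_mem _ _ _)
        rw [add_comm] at h1
        rw [← hβγ]
        exact h1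
      · have hu : u = weightedHomogeneousComponent (wt tau3) α j +
            ∑ k, yc K k * weightedHomogeneousComponent (wt tau3) γ (r k) := by
          have h1 : weightedHomogeneousComponent (wt tau3) α u = u :=
            weightedHomogeneousComponent_eq_self hu2
          rw [← h1, ← hjy, map_add, map_sum]
          congr 1
          refine Finset.sum_congr rfl fun k _ => ?_
          rw [mul_comm (r k), ← hαγ, M_Exact.comp_mul tau3 (M_Cone2.yc_mem k)]
        have h2 : π (weightedHomogeneousComponent (wt tau3) α j) = 0 := (kπ _).2 (hQh j hj _)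
        rw [hu, map_add, h2, zero_add, map_sum, map_sum, map_sum]
        exact Finset.sum_congr rfl fun k _ => (hyk k _).symm
    · rintro _ ⟨_, ⟨f, hf, rfl⟩, rfl⟩
      obtain ⟨g, hg1, hg2⟩ := split_y a b m f hf
      refine ⟨∑ k, yc K k * g k, ⟨?_, ?_⟩, ?_⟩
      · rw [SetLike.mem_coe, M_Exact.mem_ker]
        refine Ideal.mem_sup_right (Ideal.sum_mem _ fun k _ => Ideal.mul_mem_right _ _
          (Ideal.subset_span ⟨k, rfl⟩))
      · refine Submodule.sum_mem _ fun k _ => ?_
        have h1 : (yc K k * g k).IsWeightedHomogeneous (wt tau3) (![3, 0, 1] + γ) :=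
          IsWeightedHomogeneous.mul (M_Cone2.yc_mem k) (hg1 k)
        rw [add_comm, hαγ] at h1
        exact h1
      · rw [hg2, map_sum, map_sum, map_sum]
        exact Finset.sum_congr rfl fun k _ => hyk k _
  have e5 : Module.finrank K (((Comp K tau3 β).map π).map μ) =
      Module.finrank K ((Comp K tau3 β).map π) :=
    (Submodule.equivMapOfInjective μ hμi _).finrank_eq.symm
  rw [k1, k2, k3, e5] at e3
  rw [e4]
  unfold HF
  rw [← hπQ, ← hπI]
  omega

end Pool.Agent.Helper93.NP.M_Cone1
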