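import Pool.Agent.Helper93.NP.St

/-!
Devissage for linear inequalities between top constants of Hilbert functions.
-/

namespace Pool.Agent.Helper93.NP.M_DV

open MvPolynomial

section

variable {ι : Type} [DecidableEq ι]

omit [DecidableEq ι] in
theorem ev_of_shift [Fintype ι] {P : (ι → ℕ) → Prop} (δ : ι → ℕ)
    (h : Ev (fun α => P (α + δ))) : Ev P := by
  obtain ⟨n, hn⟩ := h
  refine ⟨n + ∑ i, δ i, fun α hα => ?_⟩
  have h1 : ∀ i, δ i ≤ ∑ i, δ i := fun i =>
    Finset.single_le_sum (fun _ _ => Nat.zero_le _) (Finset.mem_univ i)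
  have h2 : α - δ + δ = α := by
    funext i
    have h3 := h1 i
    have h4 := hα i
    rw [Pi.add_apply, Pi.sub_apply]
    omega
  have h3 := hn (α - δ) (fun i => by
    have h3 := h1 i
    have h4 := hα i
    rw [Pi.sub_apply]
    omega)
  have h4 : P (α - δ + δ) := h3
  rwa [h2] at h4

theorem app_zero (W : List (ℤ × List ι)) (α : ι → ℕ) : app W (0 : (ι → ℕ) → ℤ) α = 0 := by
  unfold app
  induction W with
  | nil => rfl
  | cons p W ih =>
    rw [List.map_cons, List.sum_cons, ih, difs_zero, Pi.zero_apply, mul_zero, add_zero]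

theorem app_add (W : List (ℤ × List ι)) (F G : (ι → ℕ) → ℤ) (α : ι → ℕ) :
    app W (F + G) α = app W F α + app W G α := by
  unfold app
  induction W with
  | nil => rfl
  | cons p W ih =>
    rw [List.map_cons, List.sum_cons, List.map_cons, List.sum_cons, List.map_cons,
      List.sum_cons, ih, difs_add, Pi.add_apply]
    ring

theorem app_shift (W : List (ℤ × List ι)) (F : (ι → ℕ) → ℤ) (δ α : ι → ℕ) :
    app W (fun α => F (α + δ)) α = app W F (α + δ) := by
  unfold app
  congr 1
  refine List.map_congr_left fun p _ => ?_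
  rw [difs_shift]

end

theorem main (hInd : StInd) (hExact : StExact) (hNC : StNC) (hBasic : StHFBasic) : StDV := by
  intro K σ ι _ _ _ _ τ I₀ m W _ hP J hJ hI hdeg
  refine hInd K σ ι τ (fun J => I₀ ≤ J → DegLT (m + 1) (HF τ J) →
    Ev (fun α => 0 ≤ app W (HF τ J) α)) ?_ ?_ ?_ J hJ hI hdeg
  · intro _ _
    have h1 : HF τ (⊤ : Ideal (MvPolynomial σ K)) = 0 := by
      funext α
      exact (hBasic K σ ι τ).2.1 α
    refine Ev.of_forall fun α => ?_
    rw [h1, app_zero]
  · intro P hPp hPh _ hIP hdegP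
    exact hP P hPp hPh hIP hdegP
  · intro J hJ f δ hf hlt _ h1 h2 hIJ hdegJ
    obtain ⟨hd1, hd2⟩ := hNC K σ ι τ J hJ f δ hf (m + 1) hdegJ
    have e1 := h1 (hIJ.trans hlt.le) hd1
    have e2 := h2 (hIJ.trans le_sup_left) hd2
    refine ev_of_shift δ ?_
    refine (e1.and (e2.shift δ)).mono fun α hα => ?_
    have h3 : (fun α => HF τ J (α + δ)) =
        HF τ (qt J f) + fun α => HF τ (J ⊔ Ideal.span {f}) (α + δ) := by
      funext β
      exact hExact K σ ι τ J hJ f δ hf β
    rw [← app_shift, h3, app_add, app_shift]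
    exact add_nonneg hα.1 hα.2

end Pool.Agent.Helper93.NP.M_DV
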