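import Pool.Agent.Helper93.NP.St

/-! Module Exact (MP_16deda_ag): the exact sequence of multiplication by a homogeneous element. -/

namespace Pool.Agent.Helper93.NP.M_Exact

open MvPolynomial

section

variable {K σ ι : Type} [Field K] [Fintype σ] [Fintype ι] [DecidableEq ι]

omit [Fintype ι] in
theorem le_weight (τ : σ → ι) (d : σ →₀ ℕ) (s : σ) :
    d s ≤ (Finsupp.weight (wt τ) d) (τ s) := by
  rw [Finsupp.weight_apply, Finsupp.sum_fintype _ _ (by simp), Finset.sum_apply]
  have h : d s = (d s • wt τ s) (τ s) := by simp [wt]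
  conv_lhs => rw [h]
  exact Finset.single_le_sum (f := fun t => (d t • wt τ t) (τ s)) (fun _ _ => Nat.zero_le _)
    (Finset.mem_univ s)

omit [Fintype ι] in
theorem finite_comp (τ : σ → ι) (d : ι → ℕ) : Module.Finite K (Comp K τ d) := by
  classical
  unfold Comp
  rw [weightedHomogeneousSubmodule_eq_finsupp_supported]
  have hf : {e : σ →₀ ℕ | Finsupp.weight (wt τ) e = d}.Finite := by
    refine Set.Finite.subset (Set.finite_Icc 0 (Finsupp.equivFunOnFinite.symm fun s => d (τ s))) ?_
    intro e he
    refine ⟨zero_le, fun s => ?_⟩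
    have he' : Finsupp.weight (wt τ) e = d := he
    have h := le_weight τ e s
    rw [he'] at h
    simpa using h
  have := hf.to_subtype
  exact Module.Finite.of_basis (basisRestrictSupport K {e | Finsupp.weight (wt τ) e = d})

omit [Fintype ι] [Fintype σ] in
/-- components of a product with a homogeneous polynomial -/
theorem comp_mul (τ : σ → ι) {f : MvPolynomial σ K} {δ : ι → ℕ} (hf : f ∈ Comp K τ δ)
    (α : ι → ℕ) (r : MvPolynomial σ K) :
    weightedHomogeneousComponent (wt τ) (α + δ) (f * r) =
      f * weightedHomogeneousComponent (wt τ) α r := by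
  classical
  have hf' : f.IsWeightedHomogeneous (wt τ) δ := hf
  ext m
  rw [coeff_weightedHomogeneousComponent, coeff_mul, coeff_mul]
  by_cases hm : Finsupp.weight (wt τ) m = α + δ
  · rw [if_pos hm]
    refine Finset.sum_congr rfl fun p hp => ?_
    rw [Finset.HasAntidiagonal.mem_antidiagonal] at hp
    rw [coeff_weightedHomogeneousComponent]
    by_cases h1 : Finsupp.weight (wt τ) p.1 = δ
    · have h2 : Finsupp.weight (wt τ) p.2 = α := by
        rw [← hp, map_add, h1, add_comm] at hm
        exact add_right_cancel hm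
      rw [if_pos h2]
    · rw [hf'.coeff_eq_zero p.1 h1, zero_mul, zero_mul]
  · rw [if_neg hm]
    symm
    refine Finset.sum_eq_zero fun p hp => ?_
    rw [Finset.HasAntidiagonal.mem_antidiagonal] at hp
    rw [coeff_weightedHomogeneousComponent]
    by_cases h1 : Finsupp.weight (wt τ) p.1 = δ
    · by_cases h2 : Finsupp.weight (wt τ) p.2 = α
      · exact absurd (by rw [← hp, map_add, h1, h2, add_comm]) hm
      · rw [if_neg h2, mul_zero]
    · rw [hf'.coeff_eq_zero p.1 h1, zero_mul]

end

theorem rank_nullity {K V W : Type} [Field K] [AddCommGroup V] [Module K V] [AddCommGroup W]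
    [Module K W] (f : V →ₗ[K] W) (p : Submodule K V) [Module.Finite K p] :
    Module.finrank K (p.map f) + Module.finrank K ↥(LinearMap.ker f ⊓ p) =
      Module.finrank K p := by
  have h := (f.domRestrict p).finrank_range_add_finrank_ker
  have h1 : LinearMap.range (f.domRestrict p) = p.map f := by
    ext y
    simp
  have h2 : Module.finrank K (LinearMap.ker (f.domRestrict p)) =
      Module.finrank K ↥(LinearMap.ker f ⊓ p) := by
    have h3 : LinearMap.ker (f.domRestrict p) =
        Submodule.comap p.subtype (LinearMap.ker f ⊓ p) := by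
      ext y
      simp [LinearMap.domRestrict_apply]
    rw [h3]
    exact (Submodule.comapSubtypeEquivOfLe inf_le_right).finrank_eq
  rw [h1, h2] at h
  exact h

theorem mem_ker {K σ : Type} [Field K] (J : Ideal (MvPolynomial σ K)) (g : MvPolynomial σ K) :
    g ∈ LinearMap.ker (Ideal.Quotient.mkₐ K J).toLinearMap ↔ g ∈ J := by
  rw [LinearMap.mem_ker]
  exact Ideal.Quotient.eq_zero_iff_mem

theorem main : StExact := by
  intro K σ ι _ _ _ _ τ J hJ f δ hf α
  have hV := finite_comp (K := K) τ (α + δ)
  have hW := finite_comp (K := K) τ α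
  set πJ := (Ideal.Quotient.mkₐ K J).toLinearMap with hπJ
  set πF := (Ideal.Quotient.mkₐ K (J ⊔ Ideal.span {f})).toLinearMap with hπF
  set πQ := (Ideal.Quotient.mkₐ K (qt J f)).toLinearMap with hπQ
  have e1 := rank_nullity πJ (Comp K τ (α + δ))
  have e2 := rank_nullity πF (Comp K τ (α + δ))
  have e3 := rank_nullity πQ (Comp K τ α)
  have e4 := rank_nullity (πJ ∘ₗ LinearMap.mulLeft K f) (Comp K τ α)
  have hfin : Module.Finite K ↥(LinearMap.ker πF ⊓ Comp K τ (α + δ)) :=
    Submodule.finiteDimensional_of_le inf_le_right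
  have e5 := rank_nullity πJ (LinearMap.ker πF ⊓ Comp K τ (α + δ))
  have k1 : LinearMap.ker (πJ ∘ₗ LinearMap.mulLeft K f) = LinearMap.ker πQ := by
    ext g
    rw [mem_ker, mem_qt, LinearMap.mem_ker]
    exact Ideal.Quotient.eq_zero_iff_mem
  have k2 : LinearMap.ker πJ ⊓ (LinearMap.ker πF ⊓ Comp K τ (α + δ)) =
      LinearMap.ker πJ ⊓ Comp K τ (α + δ) := by
    rw [← inf_assoc]
    congr 1
    refine inf_eq_left.2 fun g hg => ?_
    rw [mem_ker] at hg ⊢
    exact Ideal.mem_sup_left hg
  have k3 : (LinearMap.ker πF ⊓ Comp K τ (α + δ)).map πJ =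
      (Comp K τ α).map (πJ ∘ₗ LinearMap.mulLeft K f) := by
    apply le_antisymm
    · rintro _ ⟨u, ⟨hu1, hu2⟩, rfl⟩
      rw [SetLike.mem_coe, mem_ker] at hu1
      obtain ⟨j, hj, y, hy, hjy⟩ := Submodule.mem_sup.1 hu1
      obtain ⟨r, rfl⟩ := Ideal.mem_span_singleton.1 hy
      refine ⟨weightedHomogeneousComponent (wt τ) α r,
        weightedHomogeneousComponent_mem _ _ _, ?_⟩
      have hu : u = weightedHomogeneousComponent (wt τ) (α + δ) j +
          f * weightedHomogeneousComponent (wt τ) α r := by
        rw [← comp_mul τ hf, ← map_add, hjy]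
        exact (weightedHomogeneousComponent_eq_self hu2).symm
      rw [hu, map_add]
      have h0 : πJ (weightedHomogeneousComponent (wt τ) (α + δ) j) = 0 :=
        Ideal.Quotient.eq_zero_iff_mem.2 (hJ j hj _)
      rw [h0, zero_add]
      rfl
    · rintro _ ⟨g, hg, rfl⟩
      refine ⟨f * g, ⟨?_, ?_⟩, rfl⟩
      · rw [SetLike.mem_coe, mem_ker]
        exact Ideal.mem_sup_right (Ideal.mul_mem_right _ _ (Ideal.mem_span_singleton_self f))
      · have h : (f * g).IsWeightedHomogeneous (wt τ) (δ + α) :=
          IsWeightedHomogeneous.mul hf hg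
        rw [add_comm] at h
        exact h
  rw [k1] at e4
  rw [k2, k3] at e5
  unfold HF
  rw [← hπJ, ← hπF, ← hπQ]
  omega

end Pool.Agent.Helper93.NP.M_Exact
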