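import Pool.Agent.Helper93.NP.St

/-! Basic operations on multihomogeneous ideals. -/

namespace Pool.Agent.Helper93.NP.M_HomOps

open MvPolynomial

variable {K σ ι : Type} [Field K] [DecidableEq ι] (τ : σ → ι)

/-- The component of degree `d + δ` of `f * g` for `f` of degree `δ`. -/
theorem comp_mul {f : MvPolynomial σ K} {δ : ι → ℕ} (hf : f ∈ Comp K τ δ)
    (g : MvPolynomial σ K) (d : ι → ℕ) :
    weightedHomogeneousComponent (wt τ) (d + δ) (f * g) =
      f * weightedHomogeneousComponent (wt τ) d g := by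
  classical
  have hf' : IsWeightedHomogeneous (wt τ) f δ := hf
  ext m
  rw [coeff_weightedHomogeneousComponent, coeff_mul, coeff_mul]
  split_ifs with h
  · refine Finset.sum_congr rfl fun x hx => ?_
    rw [coeff_weightedHomogeneousComponent]
    by_cases h1 : coeff x.1 f = 0
    · rw [h1, zero_mul, zero_mul]
    · have h2 := hf' h1
      have h3 := Finset.HasAntidiagonal.mem_antidiagonal.1 hx
      rw [← h3, map_add, h2, add_comm d δ] at h
      rw [if_pos (add_left_cancel h)]
  · refine (Finset.sum_eq_zero fun x hx => ?_).symm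
    rw [coeff_weightedHomogeneousComponent]
    by_cases h1 : coeff x.1 f = 0
    · rw [h1, zero_mul]
    · have h2 := hf' h1
      have h3 := Finset.HasAntidiagonal.mem_antidiagonal.1 hx
      rw [if_neg, mul_zero]
      intro h4
      apply h
      rw [← h3, map_add, h2, h4, add_comm]

theorem comp_mul_ne {f : MvPolynomial σ K} {δ : ι → ℕ} (hf : f ∈ Comp K τ δ)
    (g : MvPolynomial σ K) (n : ι → ℕ) (hn : ∀ d, n ≠ d + δ) :
    weightedHomogeneousComponent (wt τ) n (f * g) = 0 := by
  classical
  have hf' : IsWeightedHomogeneous (wt τ) f δ := hf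
  ext m
  rw [coeff_weightedHomogeneousComponent, coeff_mul, coeff_zero]
  split_ifs with h
  · refine Finset.sum_eq_zero fun x hx => ?_
    by_cases h1 : coeff x.1 f = 0
    · rw [h1, zero_mul]
    · have h2 := hf' h1
      have h3 := Finset.HasAntidiagonal.mem_antidiagonal.1 hx
      rw [← h3, map_add, h2, add_comm] at h
      exact absurd h.symm (hn _)
  · rfl

theorem comp_mem_mul {J : Ideal (MvPolynomial σ K)} {x : MvPolynomial σ K}
    (hx : ∀ d, weightedHomogeneousComponent (wt τ) d x ∈ J) (a : MvPolynomial σ K) :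
    ∀ d, weightedHomogeneousComponent (wt τ) d (a * x) ∈ J := by
  induction a using MvPolynomial.induction_on' with
  | monomial u c =>
    intro n
    have hf : (monomial u c : MvPolynomial σ K) ∈ Comp K τ (Finsupp.weight (wt τ) u) :=
      isWeightedHomogeneous_monomial _ _ _ rfl
    by_cases h : ∃ d, n = d + Finsupp.weight (wt τ) u
    · obtain ⟨d, rfl⟩ := h
      rw [comp_mul τ hf]
      exact J.mul_mem_left _ (hx d)
    · push Not at h
      rw [comp_mul_ne τ hf _ _ h]
      exact J.zero_mem
  | add p q hp hq =>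
    intro d
    rw [add_mul, map_add]
    exact J.add_mem (hp d) (hq d)

theorem isHom_top : IsHom τ (⊤ : Ideal (MvPolynomial σ K)) := fun _ _ _ => trivial

theorem isHom_bot : IsHom τ (⊥ : Ideal (MvPolynomial σ K)) := fun f hf d => by
  rw [Ideal.mem_bot] at hf ⊢
  rw [hf, map_zero]

theorem isHom_span (S : Set (MvPolynomial σ K)) (hS : ∀ f ∈ S, ∃ δ : ι → ℕ, f ∈ Comp K τ δ) :
    IsHom τ (Ideal.span S) := by
  intro f hf
  induction hf using Submodule.span_induction with
  | mem x hx =>
    intro d
    obtain ⟨δ, hδ⟩ := hS x hx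
    have hx' : IsWeightedHomogeneous (wt τ) x δ := hδ
    by_cases h : d = δ
    · subst h
      rw [hx'.weightedHomogeneousComponent_same]
      exact Ideal.subset_span hx
    · rw [hx'.weightedHomogeneousComponent_ne d (fun h1 => h h1)]
      exact Ideal.zero_mem _
  | zero =>
    intro d
    rw [map_zero]
    exact Ideal.zero_mem _
  | add x y _ _ hx hy =>
    intro d
    rw [map_add]
    exact Ideal.add_mem _ (hx d) (hy d)
  | smul a x _ hx =>
    rw [smul_eq_mul]
    exact comp_mem_mul τ hx a

theorem isHom_sup {I J : Ideal (MvPolynomial σ K)} (hI : IsHom τ I) (hJ : IsHom τ J) :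
    IsHom τ (I ⊔ J) := by
  intro f hf d
  obtain ⟨a, ha, b, hb, rfl⟩ := Submodule.mem_sup.1 hf
  rw [map_add]
  exact Submodule.add_mem_sup (hI a ha d) (hJ b hb d)

theorem isHom_qt {J : Ideal (MvPolynomial σ K)} {f : MvPolynomial σ K} {δ : ι → ℕ}
    (hJ : IsHom τ J) (hf : f ∈ Comp K τ δ) : IsHom τ (qt J f) := by
  intro g hg d
  rw [mem_qt] at hg ⊢
  rw [← comp_mul τ hf]
  exact hJ _ hg _

theorem main : StHomOps := by
  intro K σ ι _ _ _ _ τ
  exact ⟨isHom_top τ, isHom_bot τ, isHom_span τ, fun I J => isHom_sup τ,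
    fun J f δ => isHom_qt τ⟩

end Pool.Agent.Helper93.NP.M_HomOps
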