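import Pool.Agent.Helper93.NP.St
import Pool.Agent.Helper93.NP.M_HomOps

/-! The ideals `extP P`. -/

namespace Pool.Agent.Helper93.NP.M_Ext

open Pool.Agent.Helper93.NP MvPolynomial

variable (K : Type) [Field K] (σ : Type)

/-- polynomials in `s₀, s₁` over the ring of the other variables -/
noncomputable def ee : MvPolynomial (σ ⊕ Fin 2) K ≃ₐ[K] MvPolynomial (Fin 2) (MvPolynomial σ K) :=
  (renameEquiv K (Equiv.sumComm σ (Fin 2))).trans (sumAlgEquiv K (Fin 2) σ)

theorem ee_rename (f : MvPolynomial σ K) : ee K σ (rename Sum.inl f) = C f := by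
  have h : ((ee K σ).toAlgHom.comp (rename Sum.inl)) =
      IsScalarTower.toAlgHom K (MvPolynomial σ K) (MvPolynomial (Fin 2) (MvPolynomial σ K)) := by
    ext s
    simp [ee]
  exact DFunLike.congr_fun h f

theorem ee_X (j : Fin 2) : ee K σ (X (Sum.inr j)) = X j := by
  simp [ee]

variable {K σ}

/-- extension of an ideal -/
noncomputable def ex (P : Ideal (MvPolynomial σ K)) : Ideal (MvPolynomial (σ ⊕ Fin 2) K) :=
  Ideal.map (rename (Sum.inl : σ → σ ⊕ Fin 2)).toRingHom P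

theorem mem_ex {P : Ideal (MvPolynomial σ K)} {F : MvPolynomial (σ ⊕ Fin 2) K} :
    F ∈ ex P ↔ ee K σ F ∈ Ideal.map (C : MvPolynomial σ K →+* _) P := by
  have h1 : Ideal.map ((ee K σ).toRingEquiv : MvPolynomial (σ ⊕ Fin 2) K →+*
      MvPolynomial (Fin 2) (MvPolynomial σ K)) (ex P) =
      Ideal.map (C : MvPolynomial σ K →+* MvPolynomial (Fin 2) (MvPolynomial σ K)) P := by
    rw [ex, Ideal.map_map]
    congr 1
    refine RingHom.ext fun f => ?_
    exact ee_rename K σ f
  rw [← h1]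
  constructor
  · intro h
    exact Ideal.mem_map_of_mem ((ee K σ).toRingEquiv : MvPolynomial (σ ⊕ Fin 2) K →+*
      MvPolynomial (Fin 2) (MvPolynomial σ K)) h
  · intro h
    obtain ⟨x, hx, hxe⟩ := (Ideal.mem_map_of_equiv (ee K σ).toRingEquiv _).1 h
    have : x = F := (ee K σ).injective hxe
    rwa [← this]

theorem ex_prime {P : Ideal (MvPolynomial σ K)} (hP : P.IsPrime) : (ex P).IsPrime := by
  have h1 : (Ideal.map (C : MvPolynomial σ K →+* MvPolynomial (Fin 2) (MvPolynomial σ K))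
      P).IsPrime := by
    rw [← Ideal.Quotient.isDomain_iff_prime]
    exact (quotientEquivQuotientMvPolynomial (σ := Fin 2) P).symm.toMulEquiv.isDomain _
  have h2 : ex P = Ideal.comap ((ee K σ).toRingEquiv : MvPolynomial (σ ⊕ Fin 2) K →+*
      MvPolynomial (Fin 2) (MvPolynomial σ K))
      (Ideal.map (C : MvPolynomial σ K →+* MvPolynomial (Fin 2) (MvPolynomial σ K)) P) :=
    Ideal.ext fun F => mem_ex
  rw [h2]
  exact Ideal.IsPrime.comap _

theorem rename_mem {P : Ideal (MvPolynomial σ K)} {f : MvPolynomial σ K} :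
    rename Sum.inl f ∈ ex P ↔ f ∈ P := by
  rw [mem_ex, ee_rename, mem_map_C_iff]
  constructor
  · intro h
    simpa using h 0
  · intro h m
    rw [coeff_C]
    split_ifs
    · exact h
    · exact P.zero_mem

theorem X_notMem {P : Ideal (MvPolynomial σ K)} (hP : P.IsPrime) (j : Fin 2) :
    X (Sum.inr j) ∉ ex P := by
  rw [mem_ex, ee_X, mem_map_C_iff]
  intro h
  have h1 := h (Finsupp.single j 1)
  rw [coeff_X, if_pos rfl] at h1
  exact hP.ne_top ((Ideal.eq_top_iff_one _).2 h1)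

theorem rename_comp {δ : Fin 2 → ℕ} {f : MvPolynomial (Fin 3 ⊕ Fin 15) K}
    (hf : f ∈ Comp K (tau 15) δ) :
    (rename Sum.inl f : MvPolynomial ((Fin 3 ⊕ Fin 15) ⊕ Fin 2) K) ∈
      Comp K tau4 ![δ 0, δ 1, 0] := by
  intro d hd
  obtain ⟨u, rfl, hu⟩ := coeff_rename_ne_zero _ _ _ hd
  have h1 := hf hu
  rw [Finsupp.weight_apply] at h1 ⊢
  rw [Finsupp.sum_mapDomain_index (by simp) (by intros; rw [add_smul]), ← h1]
  funext j
  have h2 : ∀ (κ : Type) [DecidableEq κ] (τ : Fin 3 ⊕ Fin 15 → κ) (j : κ),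
      (u.sum fun s c => c • (Pi.single (τ s) 1 : κ → ℕ)) j =
      u.sum fun s c => c * (if τ s = j then 1 else 0) := by
    intro κ _ τ j
    rw [Finsupp.sum, Finset.sum_apply]
    refine Finset.sum_congr rfl fun s _ => ?_
    rw [Pi.smul_apply, Pi.single_apply, smul_eq_mul]
    simp only [eq_comm]
  have h3 := h2 (Fin 3) (fun s => tau4 (Sum.inl s))
  have h4 := h2 (Fin 2) (tau 15)
  change (u.sum fun s c => c • (Pi.single (tau4 (Sum.inl s)) 1 : Fin 3 → ℕ)) j = _
  rw [h3]
  have h5 : ∀ s, tau4 (Sum.inl s) = Fin.castSucc (tau 15 s) := by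
    rintro (s | s) <;> rfl
  fin_cases j
  · change _ = (u.sum fun s c => c • (Pi.single (tau 15 s) 1 : Fin 2 → ℕ)) 0
    rw [h4]
    refine Finsupp.sum_congr fun s _ => ?_
    rcases s with s | s <;> simp [tau4, tau]
  · change _ = (u.sum fun s c => c • (Pi.single (tau 15 s) 1 : Fin 2 → ℕ)) 1
    rw [h4]
    refine Finsupp.sum_congr fun s _ => ?_
    rcases s with s | s <;> simp [tau4, tau]
  · change _ = 0
    refine Finset.sum_eq_zero fun s _ => ?_
    rcases s with s | s <;> simp [tau4]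

theorem ex_hom {P : Ideal (MvPolynomial (Fin 3 ⊕ Fin 15) K)} (hP : IsHom (tau 15) P) :
    IsHom tau4 (ex P) := by
  have h1 : ex P = Ideal.span {F : MvPolynomial ((Fin 3 ⊕ Fin 15) ⊕ Fin 2) K | ∃ f ∈ P,
      (∃ δ, f ∈ Comp K (tau 15) δ) ∧ rename Sum.inl f = F} := by
    apply le_antisymm
    · rw [ex, Ideal.map_le_iff_le_comap]
      intro f hf
      rw [Ideal.mem_comap]
      change rename Sum.inl f ∈ _
      rw [← finsum_weightedHomogeneousComponent (w := wt (tau 15)) f,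
        finsum_eq_sum_of_support_subset _ (s := (weightedHomogeneousComponent_finsupp
          (w := wt (tau 15)) f).toFinset) (by simp), map_sum]
      refine Ideal.sum_mem _ fun δ _ => Ideal.subset_span ⟨_, hP f hf δ, ⟨δ, ?_⟩, rfl⟩
      exact weightedHomogeneousComponent_mem _ _ _
    · rw [Ideal.span_le]
      rintro F ⟨f, hf, -, rfl⟩
      exact rename_mem.2 hf
  rw [h1]
  refine (M_HomOps.main K ((Fin 3 ⊕ Fin 15) ⊕ Fin 2) (Fin 3) tau4).2.2.1 _ ?_
  rintro F ⟨f, -, ⟨δ, hδ⟩, rfl⟩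
  exact ⟨_, rename_comp hδ⟩

theorem main : StExt := by
  intro K _ P hP hPh
  refine ⟨ex_prime hP, ex_hom hPh, fun f => rename_mem, fun n f h => ?_, X_notMem hP 0,
    X_notMem hP 1⟩
  rcases (ex_prime hP).mem_or_mem h with h1 | h1
  · exact absurd ((ex_prime hP).mem_of_pow_mem n h1) (X_notMem hP 1)
  · exact rename_mem.1 h1

end Pool.Agent.Helper93.NP.M_Ext
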