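import Pool.Agent.Helper93.NP.St

/-!
Basic properties of multigraded Hilbert functions.
-/

namespace Pool.Agent.Helper93.NP.M_HFBasic

open MvPolynomial Module

section

variable {K σ ι : Type} [Field K] [Fintype σ] [Fintype ι] [DecidableEq ι] (τ : σ → ι)

omit [Field K] [Fintype ι] in
theorem weight_apply (m : σ →₀ ℕ) (i : ι) :
    Finsupp.weight (wt τ) m i = ∑ s, m s * (if i = τ s then 1 else 0) := by
  rw [Finsupp.weight_apply, Finsupp.sum_fintype _ _ (fun s => by simp), Finset.sum_apply]
  refine Finset.sum_congr rfl fun s _ => ?_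
  rw [Pi.smul_apply, smul_eq_mul, wt, Pi.single_apply]

omit [Field K] [Fintype ι] in
theorem le_weight (m : σ →₀ ℕ) (s : σ) : m s ≤ Finsupp.weight (wt τ) m (τ s) := by
  rw [weight_apply]
  have h := Finset.single_le_sum (f := fun s' => m s' * (if τ s = τ s' then 1 else 0))
    (fun _ _ => Nat.zero_le _) (Finset.mem_univ s)
  simpa using h

omit [Field K] [Fintype ι] in
theorem finite_monomials (α : ι → ℕ) : {m : σ →₀ ℕ | Finsupp.weight (wt τ) m = α}.Finite := by
  classical
  have h1 : (Set.Iic (Finsupp.equivFunOnFinite.symm fun s => α (τ s)) : Set (σ →₀ ℕ)).Finite :=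
    Set.finite_Iic _
  refine h1.subset ?_
  intro m hm
  rw [Set.mem_Iic]
  intro s
  rw [Set.mem_ofPred_eq] at hm
  have h2 := le_weight τ m s
  rw [hm] at h2
  simpa using h2

omit [Fintype ι] in
/-- The components are finite dimensional. -/
theorem fin_comp (α : ι → ℕ) : FiniteDimensional K (Comp K τ α) := by
  classical
  have h1 : FiniteDimensional K (Submodule.span K
      ((fun m : σ →₀ ℕ => (monomial m (1 : K) : MvPolynomial σ K)) ''
        {m : σ →₀ ℕ | Finsupp.weight (wt τ) m = α})) :=
    FiniteDimensional.span_of_finite K ((finite_monomials τ α).image _)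
  refine Submodule.finiteDimensional_of_le (S₂ := Submodule.span K
      ((fun m : σ →₀ ℕ => (monomial m (1 : K) : MvPolynomial σ K)) ''
        {m : σ →₀ ℕ | Finsupp.weight (wt τ) m = α})) ?_
  intro f hf
  rw [Comp, mem_weightedHomogeneousSubmodule] at hf
  rw [f.as_sum]
  refine Submodule.sum_mem _ fun m hm => ?_
  have h2 : monomial m (coeff m f) = coeff m f • (monomial m (1 : K) : MvPolynomial σ K) := by
    rw [smul_monomial, smul_eq_mul, mul_one]
  rw [h2]
  refine Submodule.smul_mem _ _ (Submodule.subset_span ⟨m, ?_, rfl⟩)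
  exact hf (mem_support_iff.1 hm)

omit [Fintype ι] in
/-- Rank and nullity. -/
theorem rank_nullity (J : Ideal (MvPolynomial σ K)) (α : ι → ℕ) :
    HF τ J α + (finrank K ((Comp K τ α ⊓ J.restrictScalars K : Submodule K
      (MvPolynomial σ K))) : ℤ) = (finrank K (Comp K τ α) : ℤ) := by
  have := fin_comp (K := K) τ α
  set g : MvPolynomial σ K →ₗ[K] (MvPolynomial σ K ⧸ J) := (Ideal.Quotient.mkₐ K J).toLinearMap
    with hg
  have hker : LinearMap.ker g = J.restrictScalars K := by
    ext f
    rw [LinearMap.mem_ker, Submodule.restrictScalars_mem]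
    exact Ideal.Quotient.eq_zero_iff_mem
  have h1 := LinearMap.finrank_range_add_finrank_ker (g.domRestrict (Comp K τ α))
  rw [LinearMap.range_domRestrict, LinearMap.ker_domRestrict, hker,
    ← Submodule.finrank_map_subtype_eq, Submodule.map_comap_subtype] at h1
  rw [HF]
  exact_mod_cast h1

omit [Fintype ι] in
theorem hf_le_of_inf_le {J J' : Ideal (MvPolynomial σ K)} {α : ι → ℕ}
    (h : Comp K τ α ⊓ J.restrictScalars K ≤ J'.restrictScalars K) : HF τ J' α ≤ HF τ J α := by
  have := fin_comp (K := K) τ α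
  have h1 := rank_nullity τ J α
  have h2 := rank_nullity τ J' α
  have h3 : FiniteDimensional K ((Comp K τ α ⊓ J'.restrictScalars K : Submodule K
      (MvPolynomial σ K))) := Submodule.finiteDimensional_of_le inf_le_left
  have h4 : finrank K ((Comp K τ α ⊓ J.restrictScalars K : Submodule K (MvPolynomial σ K))) ≤
      finrank K ((Comp K τ α ⊓ J'.restrictScalars K : Submodule K (MvPolynomial σ K))) :=
    Submodule.finrank_mono (le_inf inf_le_left h)
  have h5 : (finrank K ((Comp K τ α ⊓ J.restrictScalars K : Submodule K (MvPolynomial σ K))) : ℤ) ≤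
      finrank K ((Comp K τ α ⊓ J'.restrictScalars K : Submodule K (MvPolynomial σ K))) := by
    exact_mod_cast h4
  linarith

omit [Fintype ι] in
theorem hf_eq_zero {J : Ideal (MvPolynomial σ K)} {α : ι → ℕ}
    (h : Comp K τ α ≤ J.restrictScalars K) : HF τ J α = 0 := by
  have h1 := rank_nullity τ J α
  rw [inf_eq_left.2 h] at h1
  linarith

omit [Fintype ι] in
theorem comp_le {J : Ideal (MvPolynomial σ K)} {i : ι} (hJ : ∀ s, τ s = i → X s ∈ J)
    {α : ι → ℕ} (hα : 1 ≤ α i) : Comp K τ α ≤ J.restrictScalars K := by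
  classical
  intro f hf
  rw [Comp, mem_weightedHomogeneousSubmodule] at hf
  rw [Submodule.restrictScalars_mem, f.as_sum]
  refine J.sum_mem fun m hm => ?_
  have h1 := hf (mem_support_iff.1 hm)
  have h2 := weight_apply τ m i
  rw [h1] at h2
  have h3 : ∃ s, m s * (if i = τ s then 1 else 0) ≠ 0 := by
    by_contra hno
    push Not at hno
    rw [Finset.sum_eq_zero fun s _ => hno s] at h2
    omega
  obtain ⟨s, hs⟩ := h3
  have hsi : i = τ s := by
    by_contra hne
    rw [if_neg hne, mul_zero] at hs
    exact hs rfl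
  have hms : m s ≠ 0 := by
    intro h0
    rw [h0, zero_mul] at hs
    exact hs rfl
  have h4 : monomial m (coeff m f) = X s * monomial (m - Finsupp.single s 1) (coeff m f) := by
    rw [X, monomial_mul, one_mul]
    congr 1
    rw [add_tsub_cancel_of_le]
    rw [Finsupp.single_le_iff]
    omega
  rw [h4]
  exact J.mul_mem_right _ (hJ s hsi.symm)

end

theorem main : StHFBasic := by
  intro K σ ι _ _ _ _ τ
  refine ⟨?_, ?_, ?_, ?_, ?_⟩
  · intro J J' h α
    exact hf_le_of_inf_le τ (fun f hf => h hf.2)
  · intro α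
    exact hf_eq_zero τ (fun f _ => Submodule.mem_top)
  · intro J J' α h
    refine le_antisymm (hf_le_of_inf_le τ fun f hf => ?_) (hf_le_of_inf_le τ fun f hf => ?_)
    · exact (h f hf.1).2 hf.2
    · exact (h f hf.1).1 hf.2
  · intro J i hJ α hα
    exact hf_eq_zero τ (comp_le τ hJ hα)
  · intro J α
    exact rank_nullity τ J α

end Pool.Agent.Helper93.NP.M_HFBasic
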