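import Pool.Agent.Helper93.NP.St
import Pool.Agent.Helper93.NP.M_HFBasic
import Pool.Agent.Helper93.NP.M_Exact

/-!
Module G1 (MP_16deda_ag): ideals containing a linear form and a form which does not vanish at a
point of the line.
-/

namespace Pool.Agent.Helper93.NP.M_G1

open MvPolynomial Module

section

variable {K : Type} [Field K] {N : ℕ}

/-- the vector product -/
def cr (u v : Fin 3 → K) : Fin 3 → K :=
  ![u 1 * v 2 - u 2 * v 1, u 2 * v 0 - u 0 * v 2, u 0 * v 1 - u 1 * v 0]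

theorem cr_ne_zero {u v : Fin 3 → K} (h : LinearIndependent K ![u, v]) : cr u v ≠ 0 := by
  intro h0
  rw [LinearIndependent.pair_iff] at h
  have e0 : u 1 * v 2 - u 2 * v 1 = 0 := congrFun h0 0
  have e1 : u 2 * v 0 - u 0 * v 2 = 0 := congrFun h0 1
  have e2 : u 0 * v 1 - u 1 * v 0 = 0 := congrFun h0 2
  have hu : u ≠ 0 := by
    rintro rfl
    have := (h 1 0 (by simp)).1
    exact one_ne_zero this
  obtain ⟨i, hi⟩ := Function.ne_iff.1 hu
  have h1 : (v i) • u + (-(u i)) • v = 0 := by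
    funext j
    rw [Pi.add_apply, Pi.smul_apply, Pi.smul_apply, smul_eq_mul, smul_eq_mul, Pi.zero_apply]
    fin_cases i <;> fin_cases j <;> dsimp only [Fin.zero_eta, Fin.mk_one, Fin.reduceFinMk] <;>
      first
        | ring1
        | linear_combination e0
        | linear_combination -e0
        | linear_combination e1
        | linear_combination -e1
        | linear_combination e2
        | linear_combination -e2
  have h2 := (h _ _ h1).2
  exact hi (neg_eq_zero.1 h2)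

theorem exists_w {u v : Fin 3 → K} (h : LinearIndependent K ![u, v]) : ∃ w : Fin 3 → K,
    u 0 * (v 1 * w 2 - v 2 * w 1) + u 1 * (v 2 * w 0 - v 0 * w 2) +
      u 2 * (v 0 * w 1 - v 1 * w 0) = 1 := by
  obtain ⟨j, hj⟩ := Function.ne_iff.1 (cr_ne_zero h)
  rw [Pi.zero_apply] at hj
  refine ⟨Pi.single j (cr u v j)⁻¹, ?_⟩
  have h1 : cr u v j * (cr u v j)⁻¹ = 1 := mul_inv_cancel₀ hj
  fin_cases j
  · simp [cr] at h1 ⊢
    linear_combination h1
  · simp [cr] at h1 ⊢
    linear_combination h1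
  · simp [cr] at h1 ⊢
    linear_combination h1

/-- Cramer's rule -/
theorem cramer {u v w : Fin 3 → K} (hd : u 0 * (v 1 * w 2 - v 2 * w 1) +
    u 1 * (v 2 * w 0 - v 0 * w 2) + u 2 * (v 0 * w 1 - v 1 * w 0) = 1) (i : Fin 3) :
    (X (Sum.inl i) : MvPolynomial (Fin 3 ⊕ Fin N) K) =
      C (u i) * lam v w + C (v i) * lam w u + C (w i) * lam u v := by
  have hC : (C (u 0) * (C (v 1) * C (w 2) - C (v 2) * C (w 1)) +
      C (u 1) * (C (v 2) * C (w 0) - C (v 0) * C (w 2)) +
      C (u 2) * (C (v 0) * C (w 1) - C (v 1) * C (w 0)) : MvPolynomial (Fin 3 ⊕ Fin N) K) = 1 := by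
    have := congrArg (C : K → MvPolynomial (Fin 3 ⊕ Fin N) K) hd
    simpa only [map_add, map_mul, map_sub, map_one] using this
  simp only [lam, map_add, map_mul, map_sub]
  fin_cases i <;> dsimp only [Fin.zero_eta, Fin.mk_one, Fin.reduceFinMk]
  · linear_combination -(X (Sum.inl 0) : MvPolynomial (Fin 3 ⊕ Fin N) K) * hC
  · linear_combination -(X (Sum.inl 1) : MvPolynomial (Fin 3 ⊕ Fin N) K) * hC
  · linear_combination -(X (Sum.inl 2) : MvPolynomial (Fin 3 ⊕ Fin N) K) * hC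

theorem X_inl_mem (i : Fin 3) :
    (X (Sum.inl i) : MvPolynomial (Fin 3 ⊕ Fin N) K) ∈ Comp K (tau N) ![1, 0] := by
  rw [Comp, mem_weightedHomogeneousSubmodule]
  have h := isWeightedHomogeneous_X K (wt (tau N)) (Sum.inl i)
  have h2 : wt (tau N) (Sum.inl i) = ![1, 0] := by
    funext j
    fin_cases j <;> simp [wt, tau]
  rwa [h2] at h

theorem lam_mem (u v : Fin 3 → K) :
    (lam u v : MvPolynomial (Fin 3 ⊕ Fin N) K) ∈ Comp K (tau N) ![1, 0] := by
  have h : ∀ (c : K) (i : Fin 3), (C c * X (Sum.inl i) : MvPolynomial (Fin 3 ⊕ Fin N) K) ∈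
      Comp K (tau N) ![1, 0] := by
    intro c i
    rw [C_mul']
    exact Submodule.smul_mem _ _ (X_inl_mem i)
  exact Submodule.add_mem _ (Submodule.add_mem _ (h _ _) (h _ _)) (h _ _)

/-- the projection onto the point -/
noncomputable def psi (v : Fin 3 → K) (B : MvPolynomial (Fin 3 ⊕ Fin N) K) :
    MvPolynomial (Fin 3 ⊕ Fin N) K →ₐ[K] MvPolynomial (Fin 3 ⊕ Fin N) K :=
  aeval (Sum.elim (fun i => C (v i) * B) (fun k => X (Sum.inr k)))

/-- the value at the point -/
noncomputable def chi (v : Fin 3 → K) :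
    MvPolynomial (Fin 3 ⊕ Fin N) K →ₐ[K] MvPolynomial (Fin 3 ⊕ Fin N) K :=
  aeval (Sum.elim (fun i => C (v i)) (fun k => X (Sum.inr k)))

theorem weight_zero (m : Fin 3 ⊕ Fin N →₀ ℕ) :
    Finsupp.weight (wt (tau N)) m 0 = ∑ i, m (Sum.inl i) := by
  rw [M_HFBasic.weight_apply, Fintype.sum_sum_type]
  simp [tau]

theorem weight_one (m : Fin 3 ⊕ Fin N →₀ ℕ) :
    Finsupp.weight (wt (tau N)) m 1 = ∑ k, m (Sum.inr k) := by
  rw [M_HFBasic.weight_apply, Fintype.sum_sum_type]
  simp [tau]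

theorem psi_eq (v : Fin 3 → K) (B : MvPolynomial (Fin 3 ⊕ Fin N) K) {α : Fin 2 → ℕ}
    {f : MvPolynomial (Fin 3 ⊕ Fin N) K} (hf : f ∈ Comp K (tau N) α) :
    psi v B f = B ^ (α 0) * chi v f := by
  rw [Comp, mem_weightedHomogeneousSubmodule] at hf
  rw [f.as_sum, map_sum, map_sum, Finset.mul_sum]
  refine Finset.sum_congr rfl fun m hm => ?_
  have h1 := hf (mem_support_iff.1 hm)
  have h2 := weight_zero m
  rw [h1] at h2
  rw [psi, chi, aeval_monomial, aeval_monomial, Finsupp.prod_fintype _ _ (fun _ => pow_zero _),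
    Finsupp.prod_fintype _ _ (fun _ => pow_zero _), Fintype.prod_sum_type, Fintype.prod_sum_type]
  simp only [Sum.elim_inl, Sum.elim_inr, mul_pow]
  rw [Finset.prod_mul_distrib, Finset.prod_pow_eq_pow_sum, ← h2]
  ring

theorem chi_eq (v : Fin 3 → K) {α : Fin 2 → ℕ} (hα : α 1 = 0)
    {f : MvPolynomial (Fin 3 ⊕ Fin N) K} (hf : f ∈ Comp K (tau N) α) :
    chi v f = C (eval (Sum.elim v 0) f) := by
  rw [Comp, mem_weightedHomogeneousSubmodule] at hf
  rw [f.as_sum, map_sum, map_sum, map_sum]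
  refine Finset.sum_congr rfl fun m hm => ?_
  have h1 := hf (mem_support_iff.1 hm)
  have h2 := weight_one m
  rw [h1, hα] at h2
  have h3 : ∀ k, m (Sum.inr k) = 0 := by
    intro k
    exact (Finset.sum_eq_zero_iff.1 h2.symm) k (Finset.mem_univ k)
  rw [chi, aeval_monomial, eval_monomial, Finsupp.prod_fintype _ _ (fun _ => pow_zero _),
    Finsupp.prod_fintype _ _ (fun _ => pow_zero _), Fintype.prod_sum_type, Fintype.prod_sum_type]
  simp only [Sum.elim_inl, Sum.elim_inr, h3, pow_zero, Finset.prod_const_one, mul_one]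
  rw [map_mul, map_prod, algebraMap_eq]
  simp only [map_pow]

/-- `ψ` is the identity modulo the two linear forms -/
theorem sub_psi_mem {u v w : Fin 3 → K} (hd : u 0 * (v 1 * w 2 - v 2 * w 1) +
    u 1 * (v 2 * w 0 - v 0 * w 2) + u 2 * (v 0 * w 1 - v 1 * w 0) = 1)
    (f : MvPolynomial (Fin 3 ⊕ Fin N) K) :
    f - psi v (lam w u) f ∈ Ideal.span {lam v w, lam u v} := by
  set I : Ideal (MvPolynomial (Fin 3 ⊕ Fin N) K) := Ideal.span {lam v w, lam u v} with hI
  have h1 : (Ideal.Quotient.mkₐ K I) = (Ideal.Quotient.mkₐ K I).comp (psi v (lam w u)) := by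
    refine MvPolynomial.algHom_ext fun s => ?_
    rw [AlgHom.comp_apply, psi, aeval_X]
    rcases s with i | k
    · rw [Sum.elim_inl]
      show Ideal.Quotient.mk I _ = Ideal.Quotient.mk I _
      rw [Ideal.Quotient.mk_eq_mk_iff_sub_mem, cramer hd i]
      have h2 : C (u i) * lam v w + C (v i) * lam w u + C (w i) * lam u v - C (v i) * lam w u =
          C (u i) * (lam v w : MvPolynomial (Fin 3 ⊕ Fin N) K) + C (w i) * lam u v := by ring
      rw [h2, hI]
      refine Ideal.add_mem _ (Ideal.mul_mem_left _ _ (Ideal.subset_span (Set.mem_insert _ _)))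
        (Ideal.mul_mem_left _ _ (Ideal.subset_span (Set.mem_insert_of_mem _ rfl)))
    · rw [Sum.elim_inr]
  have h2 := congrArg (fun φ => φ f) h1
  have h3 : Ideal.Quotient.mk I f = Ideal.Quotient.mk I (psi v (lam w u) f) := h2
  rwa [Ideal.Quotient.mk_eq_mk_iff_sub_mem] at h3

/-- forms of large degree in `x` are multiples of `lam v w` modulo `J` -/
theorem exists_mul {J : Ideal (MvPolynomial (Fin 3 ⊕ Fin N) K)} {u v w : Fin 3 → K}
    (hd : u 0 * (v 1 * w 2 - v 2 * w 1) + u 1 * (v 2 * w 0 - v 0 * w 2) +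
      u 2 * (v 0 * w 1 - v 1 * w 0) = 1) (hlam : lam u v ∈ J) {p : ℕ}
    {F : MvPolynomial (Fin 3 ⊕ Fin N) K} (hF : F ∈ Comp K (tau N) ![p, 0]) (hFJ : F ∈ J)
    (hv : eval (Sum.elim v 0) F ≠ 0) {a b : ℕ} (ha : p ≤ a + 1)
    {f : MvPolynomial (Fin 3 ⊕ Fin N) K} (hf : f ∈ Comp K (tau N) ![a + 1, b]) :
    ∃ g ∈ Comp K (tau N) ![a, b], f - lam v w * g ∈ J := by
  classical
  -- `B ^ p` is in the ideal generated by the three forms
  have hBp : (lam w u : MvPolynomial (Fin 3 ⊕ Fin N) K) ^ p ∈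
      Ideal.span {lam v w, lam u v} ⊔ Ideal.span {F} := by
    have h1 := psi_eq v (lam w u) hF
    rw [chi_eq v (by rfl) hF] at h1
    have h2 : (![p, 0] : Fin 2 → ℕ) 0 = p := rfl
    rw [h2] at h1
    have h3 : (lam w u : MvPolynomial (Fin 3 ⊕ Fin N) K) ^ p =
        C (eval (Sum.elim v 0) F)⁻¹ * (F - (F - psi v (lam w u) F)) := by
      rw [sub_sub_cancel, h1]
      rw [mul_comm (lam w u ^ p), ← mul_assoc, ← map_mul, inv_mul_cancel₀ hv, map_one, one_mul]
    rw [h3]
    refine Ideal.mul_mem_left _ _ (Ideal.sub_mem _ ?_ ?_)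
    · exact Ideal.mem_sup_right (Ideal.mem_span_singleton_self F)
    · exact Ideal.mem_sup_left (sub_psi_mem hd F)
  have hfI : f ∈ Ideal.span {lam v w, lam u v} ⊔ Ideal.span {F} := by
    have h1 := psi_eq v (lam w u) hf
    have h2 : (![a + 1, b] : Fin 2 → ℕ) 0 = a + 1 := rfl
    rw [h2] at h1
    have h3 : f = (f - psi v (lam w u) f) + psi v (lam w u) f := by ring
    rw [h3]
    refine Ideal.add_mem _ (Ideal.mem_sup_left (sub_psi_mem hd f)) ?_
    rw [h1, show a + 1 = p + (a + 1 - p) by omega, pow_add, mul_assoc]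
    exact Ideal.mul_mem_right _ _ hBp
  obtain ⟨x, hx, y, hy, hxy⟩ := Submodule.mem_sup.1 hfI
  obtain ⟨g₀, h₀, hgh⟩ := Ideal.mem_span_pair.1 hx
  obtain ⟨h₁, hh⟩ := Ideal.mem_span_singleton'.1 hy
  -- take components
  have hcomp : f = lam v w * weightedHomogeneousComponent (wt (tau N)) ![a, b] g₀ +
      lam u v * weightedHomogeneousComponent (wt (tau N)) ![a, b] h₀ +
      F * weightedHomogeneousComponent (wt (tau N)) ![a + 1 - p, b] h₁ := by
    have e1 : weightedHomogeneousComponent (wt (tau N)) ![a + 1, b] f = f := by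
      rw [weightedHomogeneousComponent_of_mem hf, if_pos rfl]
    have d1 : (![a + 1, b] : Fin 2 → ℕ) = ![a, b] + ![1, 0] := by
      funext j
      fin_cases j <;> simp
    have d2 : (![a + 1, b] : Fin 2 → ℕ) = ![a + 1 - p, b] + ![p, 0] := by
      funext j
      fin_cases j
      · simp
        omega
      · simp
    have e2 : weightedHomogeneousComponent (wt (tau N)) ![a + 1, b] (lam v w * g₀) =
        lam v w * weightedHomogeneousComponent (wt (tau N)) ![a, b] g₀ := by
      rw [d1]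
      exact M_Exact.comp_mul (tau N) (lam_mem v w) _ _
    have e3 : weightedHomogeneousComponent (wt (tau N)) ![a + 1, b] (lam u v * h₀) =
        lam u v * weightedHomogeneousComponent (wt (tau N)) ![a, b] h₀ := by
      rw [d1]
      exact M_Exact.comp_mul (tau N) (lam_mem u v) _ _
    have e4 : weightedHomogeneousComponent (wt (tau N)) ![a + 1, b] (F * h₁) =
        F * weightedHomogeneousComponent (wt (tau N)) ![a + 1 - p, b] h₁ := by
      rw [d2]
      exact M_Exact.comp_mul (tau N) hF _ _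
    rw [← e2, ← e3, ← e4, ← map_add, ← map_add, ← e1, ← hxy, ← hgh, ← hh]
    congr 1
    rw [mul_comm g₀, mul_comm h₀, mul_comm h₁]
  refine ⟨weightedHomogeneousComponent (wt (tau N)) ![a, b] g₀,
    weightedHomogeneousComponent_mem _ _ _, ?_⟩
  have h1 : f - lam v w * weightedHomogeneousComponent (wt (tau N)) ![a, b] g₀ =
      lam u v * weightedHomogeneousComponent (wt (tau N)) ![a, b] h₀ +
      F * weightedHomogeneousComponent (wt (tau N)) ![a + 1 - p, b] h₁ := by
    linear_combination hcomp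
  rw [h1]
  exact J.add_mem (J.mul_mem_right _ hlam) (J.mul_mem_right _ hFJ)

theorem hf_succ_le {J : Ideal (MvPolynomial (Fin 3 ⊕ Fin N) K)} {u v w : Fin 3 → K}
    (hd : u 0 * (v 1 * w 2 - v 2 * w 1) + u 1 * (v 2 * w 0 - v 0 * w 2) +
      u 2 * (v 0 * w 1 - v 1 * w 0) = 1) (hlam : lam u v ∈ J) {p : ℕ}
    {F : MvPolynomial (Fin 3 ⊕ Fin N) K} (hF : F ∈ Comp K (tau N) ![p, 0]) (hFJ : F ∈ J)
    (hv : eval (Sum.elim v 0) F ≠ 0) {a b : ℕ} (ha : p ≤ a + 1) :
    HF (tau N) J ![a + 1, b] ≤ HF (tau N) J ![a, b] := by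
  have f1 := M_HFBasic.fin_comp (K := K) (tau N) ![a, b]
  set π : MvPolynomial (Fin 3 ⊕ Fin N) K →ₗ[K] (MvPolynomial (Fin 3 ⊕ Fin N) K ⧸ J) :=
    (Ideal.Quotient.mkₐ K J).toLinearMap with hπ
  have h1 : (Comp K (tau N) ![a + 1, b]).map π ≤ ((Comp K (tau N) ![a, b]).map π).map
      (LinearMap.mulLeft K (π (lam v w))) := by
    rintro _ ⟨f, hf, rfl⟩
    obtain ⟨g, hg, hfg⟩ := exists_mul hd hlam hF hFJ hv ha hf
    refine ⟨π g, ⟨g, hg, rfl⟩, ?_⟩
    rw [LinearMap.mulLeft_apply]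
    show Ideal.Quotient.mk J (lam v w) * Ideal.Quotient.mk J g = Ideal.Quotient.mk J f
    rw [← map_mul, eq_comm, Ideal.Quotient.mk_eq_mk_iff_sub_mem]
    exact hfg
  have h2 : finrank K ((Comp K (tau N) ![a + 1, b]).map π) ≤
      finrank K ((Comp K (tau N) ![a, b]).map π) :=
    (Submodule.finrank_mono h1).trans (Submodule.finrank_map_le _ _)
  rw [HF, HF]
  exact_mod_cast h2

end

theorem main (hGrow : StGrow) : StG1 := by
  intro K _ N J u v huv hlam p F hF hFJ hv l c hc hl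
  obtain ⟨w, hd⟩ := exists_w huv
  have h1 : ∀ b a : ℕ, p ≤ a → HF (tau N) J ![a, b] ≤ HF (tau N) J ![p, b] := by
    intro b a ha
    induction a, ha using Nat.le_induction with
    | base => exact le_rfl
    | succ a ha ih => exact (hf_succ_le hd hlam hF hFJ hv (by omega)).trans ih
  refine hGrow (Fin 2) (HF (tau N) J) (fun α => HF (tau N) J ![p, α 1]) 0 0 ?_ ?_ ?_ l c hc hl
  · intro α
    exact Int.natCast_nonneg _
  · refine ⟨p, fun α hα => ?_⟩
    have h2 : α = ![α 0, α 1] := by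
      funext j
      fin_cases j <;> rfl
    have h3 := h1 (α 1) (α 0) (hα 0)
    rw [← h2] at h3
    exact h3
  · refine Ev.of_forall fun α => ?_
    rw [zero_add, List.replicate_one, difs_cons, difs_nil, dif_apply]
    have h2 : (α + Pi.single 0 1 : Fin 2 → ℕ) 1 = α 1 := by simp
    rw [h2, sub_self]

end Pool.Agent.Helper93.NP.M_G1
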