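import Pool.Agent.Helper93.NP.St

/-! Module NP G32: growth of Hilbert functions in the direction of the plane. -/

namespace Pool.Agent.Helper93.NP.M_G32

open MvPolynomial

private theorem dif_prod (u v : ℕ → ℤ) :
    dif (0 : Fin 2) (fun α : Fin 2 → ℕ => u (α 0) * v (α 1)) =
      fun α : Fin 2 → ℕ => (fun a => u (a + 1) - u a) (α 0) * v (α 1) := by
  funext α
  rw [dif_apply]
  have h0 : (α + (Pi.single 0 1 : Fin 2 → ℕ)) 0 = α 0 + 1 := by simp
  have h1 : (α + (Pi.single 0 1 : Fin 2 → ℕ)) 1 = α 1 := by simp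
  rw [h0, h1]
  ring

/-- the dimension of the forms of degree `a` in three variables -/
private def T (a : ℕ) : ℤ := (((a + 2).choose 2 : ℕ) : ℤ)

/-- the dimension of the forms of degree `b` in the other variables -/
private def W (N b : ℕ) : ℤ := (((b + (N - 1)).choose (N - 1) : ℕ) : ℤ)

private theorem T_succ (a : ℕ) : T (a + 1) = T a + (a + 2) := by
  have h : (a + 1 + 2).choose 2 = (a + 2).choose 1 + (a + 2).choose 2 := by
    rw [show a + 1 + 2 = (a + 2) + 1 from by omega]
    exact Nat.choose_succ_succ' (a + 2) 1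
  unfold T
  rw [h, Nat.choose_one_right]
  push_cast
  ring

private theorem HF_zero_case (h : StHFBasic) (K : Type) [Field K]
    (J : Ideal (MvPolynomial (Fin 3 ⊕ Fin 0) K)) (l : List (Fin 2)) (c : ℤ)
    (hc : HasC l (HF (tau 0) J) c) : c = 0 := by
  have h1 := (h K (Fin 3 ⊕ Fin 0) (Fin 2) (tau 0)).2.2.2.1 J 1 (by
    intro s hs
    rcases s with s | s
    · simp [tau] at hs
    · exact s.elim0)
  have h2 : HasC l (0 : (Fin 2 → ℕ) → ℤ) c :=
    hc.congr ⟨1, fun α hα => h1 α (hα 1)⟩
  have h3 : HasC l (0 : (Fin 2 → ℕ) → ℤ) 0 := Ev.of_forall fun α => by rw [difs_zero]; rfl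
  exact h2.unique h3

theorem main (hG : StGrow) (hB : StBot) (h : StHFBasic) : StG3 := by
  intro K _ N J l c hc hl
  rcases Nat.eq_zero_or_pos N with rfl | hN
  · exact HF_zero_case h K J l c hc
  · refine hG (Fin 2) (HF (tau N) J) (fun α => T (α 0) * W N (α 1)) 0 2
      (fun α => by unfold HF; positivity) ?_ ?_ l c hc (by omega)
    · refine Ev.of_forall fun α => ?_
      have h1 := (h K (Fin 3 ⊕ Fin N) (Fin 2) (tau N)).1 ⊥ J bot_le α
      rw [hB K N hN α] at h1
      refine h1.trans (le_of_eq ?_)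
      unfold T W
      push_cast
      rfl
    · refine Ev.of_forall fun α => ?_
      show difs [0, 0, 0] _ α = 0
      rw [difs_cons, difs_cons, difs_cons, difs_nil]
      rw [dif_prod T (W N), dif_prod (fun a => T (a + 1) - T a) (W N),
        dif_prod (fun a => (fun a => T (a + 1) - T a) (a + 1) - (fun a => T (a + 1) - T a) a)
          (W N)]
      simp only []
      rw [T_succ (α 0 + 1 + 1), T_succ (α 0 + 1), T_succ (α 0)]
      push_cast
      ring

private theorem qt_bot {K : Type} [Field K] {σ : Type} (F : MvPolynomial σ K) (hF : F ≠ 0) :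
    qt (⊥ : Ideal (MvPolynomial σ K)) F = ⊥ := by
  rw [eq_bot_iff]
  intro g hg
  rw [mem_qt, Ideal.mem_bot] at hg
  rw [Ideal.mem_bot]
  exact (mul_eq_zero.1 hg).resolve_left hF

theorem main2 (hG : StGrow) (hB : StBot) (hE : StExact) (h : StHFBasic) (hH : StHomOps) :
    StG2 := by
  intro K _ N J p F hF hF0 hFJ l c hc hl
  rcases Nat.eq_zero_or_pos N with rfl | hN
  · exact HF_zero_case h K J l c hc
  · have hc' : HasC l (fun α => HF (tau N) J (α + ![p, 0])) c := hc.shift _
    refine hG (Fin 2) (fun α => HF (tau N) J (α + ![p, 0]))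
      (fun α => (fun a => T (a + p) - T a) (α 0) * W N (α 1)) 0 1
      (fun α => by unfold HF; positivity) ?_ ?_ l c hc' (by omega)
    · refine Ev.of_forall fun α => ?_
      have hbot := (hH K (Fin 3 ⊕ Fin N) (Fin 2) (tau N)).2.1
      have h1 := hE K (Fin 3 ⊕ Fin N) (Fin 2) (tau N) ⊥ hbot F ![p, 0] hF α
      rw [qt_bot F hF0, hB K N hN, hB K N hN] at h1
      have hle : (⊥ : Ideal (MvPolynomial (Fin 3 ⊕ Fin N) K)) ⊔ Ideal.span {F} ≤ J :=
        sup_le bot_le (by rw [Ideal.span_le]; simpa using hFJ)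
      have h2 := (h K (Fin 3 ⊕ Fin N) (Fin 2) (tau N)).1 _ J hle (α + ![p, 0])
      have e0 : (α + ![p, 0]) 0 = α 0 + p := by simp
      have e1 : (α + ![p, 0]) 1 = α 1 := by simp
      rw [e0, e1] at h1
      have h3 : T (α 0 + p) * W N (α 1) = T (α 0) * W N (α 1) +
          HF (tau N) (⊥ ⊔ Ideal.span {F}) (α + ![p, 0]) := by
        unfold T W
        exact_mod_cast h1
      show HF (tau N) J (α + ![p, 0]) ≤ (T (α 0 + p) - T (α 0)) * W N (α 1)
      linarith
    · refine Ev.of_forall fun α => ?_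
      show difs [0, 0] _ α = 0
      rw [difs_cons, difs_cons, difs_nil]
      rw [dif_prod (fun a => T (a + p) - T a) (W N),
        dif_prod (fun a => (fun a => T (a + p) - T a) (a + 1) - (fun a => T (a + p) - T a) a)
          (W N)]
      simp only []
      rw [show α 0 + 1 + 1 + p = (α 0 + p + 1) + 1 from by omega,
        show α 0 + 1 + p = (α 0 + p) + 1 from by omega]
      rw [T_succ (α 0 + p + 1), T_succ (α 0 + 1), T_succ (α 0), T_succ (α 0 + p)]
      push_cast
      ring

end Pool.Agent.Helper93.NP.M_G32
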