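import Pool.Agent.Helper93.NP.St

/-! MP_16deda_ag, module Gq. -/

namespace Pool.Agent.Helper93.NP.M_Gq

open MvPolynomial

/-- Vandermonde: coefficients of a polynomial function with values in a subspace. -/
theorem vander {K M : Type} [Field K] [CharZero K] [AddCommGroup M] [Module K M]
    (J : Submodule K M) (n : ℕ) (w : Fin n → M)
    (h : ∀ s : K, ∑ j : Fin n, s ^ (j : ℕ) • w j ∈ J) (j : Fin n) : w j ∈ J := by
  classical
  let v : Fin n → K := fun i => ((i : ℕ) : K)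
  have hv : Function.Injective v := by
    intro a b hab
    apply Fin.ext
    have h2 : ((a : ℕ) : K) = ((b : ℕ) : K) := hab
    exact_mod_cast h2
  let V := Matrix.vandermonde v
  have hdet : IsUnit V.det := by
    rw [isUnit_iff_ne_zero]
    exact Matrix.det_vandermonde_ne_zero_iff.2 hv
  have hVV : V⁻¹ * V = 1 := Matrix.nonsing_inv_mul V hdet
  have key : w j = ∑ i, (V⁻¹ j i) • ∑ l, V i l • w l := by
    simp only [Finset.smul_sum, smul_smul]
    rw [Finset.sum_comm]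
    simp only [← Finset.sum_smul]
    have : ∀ l, ∑ i, V⁻¹ j i * V i l = (1 : Matrix (Fin n) (Fin n) K) j l := by
      intro l
      rw [← hVV, Matrix.mul_apply]
    simp only [this, Matrix.one_apply]
    simp
  rw [key]
  refine J.sum_mem fun i _ => J.smul_mem _ ?_
  exact h (v i)

def ex : Fin 3 → ℕ := ![0, 1, 5]

/-- exponent of the monomials -/
def ek : Fin 15 → Fin 21 := ![0, 1, 5, 2, 6, 10, 3, 7, 11, 15, 4, 8, 12, 16, 20]

theorem ek_iff : ∀ (k : Fin 15) (a b c d : Fin 3),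
    (ex a + ex b + ex c + ex d = (ek k : ℕ)) ↔ ix a b c d = k := by
  decide

theorem ex_lt : ∀ (a b c d : Fin 3), ex a + ex b + ex c + ex d < 21 := by
  decide

theorem exists_ix : ∀ k : Fin 15, ∃ q : Fin 3 × Fin 3 × Fin 3 × Fin 3,
    ix q.1 q.2.1 q.2.2.1 q.2.2.2 = k := by
  decide

theorem Gq_eq {K : Type} [Field K] (u : Fin 3 → K) :
    Gq u = ∑ q : Fin 3 × Fin 3 × Fin 3 × Fin 3,
      (u q.1 * u q.2.1 * u q.2.2.1 * u q.2.2.2) •
        (X (Sum.inr (ix q.1 q.2.1 q.2.2.1 q.2.2.2)) : MvPolynomial (Fin 3 ⊕ Fin 15) K) := by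
  simp only [Gq, Fintype.sum_prod_type, MvPolynomial.smul_eq_C_mul]

theorem main : StGq := by
  classical
  intro K _ _ J hJ k
  let W : Fin 21 → MvPolynomial (Fin 3 ⊕ Fin 15) K := fun j =>
    ∑ q : Fin 3 × Fin 3 × Fin 3 × Fin 3,
      if ex q.1 + ex q.2.1 + ex q.2.2.1 + ex q.2.2.2 = (j : ℕ) then
        (X (Sum.inr (ix q.1 q.2.1 q.2.2.1 q.2.2.2)) : MvPolynomial (Fin 3 ⊕ Fin 15) K) else 0
  have hW : ∀ j, W j ∈ J.restrictScalars K := by
    refine vander (J.restrictScalars K) 21 W ?_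
    intro s
    have h1 := hJ (fun a => s ^ ex a)
    have h2 : ∑ j : Fin 21, s ^ (j : ℕ) • W j = Gq (fun a => s ^ ex a) := by
      rw [Gq_eq]
      simp only [W, Finset.smul_sum]
      rw [Finset.sum_comm]
      refine Finset.sum_congr rfl fun q _ => ?_
      rw [Finset.sum_eq_single ⟨ex q.1 + ex q.2.1 + ex q.2.2.1 + ex q.2.2.2,
        ex_lt q.1 q.2.1 q.2.2.1 q.2.2.2⟩]
      · simp only [if_true, pow_add]
      · intro j _ hj
        have : ¬ (ex q.1 + ex q.2.1 + ex q.2.2.1 + ex q.2.2.2 = (j : ℕ)) := by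
          intro hh
          exact hj (Fin.ext hh.symm)
        rw [if_neg this, smul_zero]
      · simp
    rw [h2]
    exact h1
  have h3 := hW (ek k)
  have h4 : W (ek k) = ((Finset.univ.filter (fun q : Fin 3 × Fin 3 × Fin 3 × Fin 3 =>
      ix q.1 q.2.1 q.2.2.1 q.2.2.2 = k)).card : K) •
        (X (Sum.inr k) : MvPolynomial (Fin 3 ⊕ Fin 15) K) := by
    simp only [W]
    have h5 : ∀ q : Fin 3 × Fin 3 × Fin 3 × Fin 3,
        (if ex q.1 + ex q.2.1 + ex q.2.2.1 + ex q.2.2.2 = (ek k : ℕ) then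
          (X (Sum.inr (ix q.1 q.2.1 q.2.2.1 q.2.2.2)) : MvPolynomial (Fin 3 ⊕ Fin 15) K) else 0)
        = if ix q.1 q.2.1 q.2.2.1 q.2.2.2 = k then
          (X (Sum.inr k) : MvPolynomial (Fin 3 ⊕ Fin 15) K) else 0 := by
      intro q
      by_cases hq : ix q.1 q.2.1 q.2.2.1 q.2.2.2 = k
      · rw [if_pos ((ek_iff k _ _ _ _).2 hq), if_pos hq, hq]
      · rw [if_neg (fun hh => hq ((ek_iff k _ _ _ _).1 hh)), if_neg hq]
    simp only [h5]
    rw [← Finset.sum_filter, Finset.sum_const, ← Nat.cast_smul_eq_nsmul K]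
  rw [h4] at h3
  have hne : ((Finset.univ.filter (fun q : Fin 3 × Fin 3 × Fin 3 × Fin 3 =>
      ix q.1 q.2.1 q.2.2.1 q.2.2.2 = k)).card : K) ≠ 0 := by
    obtain ⟨q, hq⟩ := exists_ix k
    have : 0 < (Finset.univ.filter (fun q : Fin 3 × Fin 3 × Fin 3 × Fin 3 =>
      ix q.1 q.2.1 q.2.2.1 q.2.2.2 = k)).card :=
      Finset.card_pos.2 ⟨q, Finset.mem_filter.2 ⟨Finset.mem_univ _, hq⟩⟩
    exact_mod_cast this.ne'
  exact ((J.restrictScalars K).smul_mem_iff hne).1 h3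

end Pool.Agent.Helper93.NP.M_Gq
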