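import Pool.Agent.Helper93.NP.St

/-! Growth in one direction bounds the number of differences in this direction. -/

namespace Pool.Agent.Helper93.NP.M_Grow

open Pool.Agent.Helper93.NP

variable {ι : Type} [DecidableEq ι]

/-- iterated sums -/
def sms : List ι → ((ι → ℕ) → ℤ) → (ι → ℕ) → ℤ
  | [], G => G
  | x :: l, G => fun α => sms l G (α + Pi.single x 1) + sms l G α

omit [DecidableEq ι] in
theorem ge_add {n : ℕ} {α : ι → ℕ} (h : ∀ i, n ≤ α i) (δ : ι → ℕ) : ∀ i, n ≤ (α + δ) i :=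
  fun i => (h i).trans (Nat.le_add_right _ _)

theorem abs_difs_le {F G : (ι → ℕ) → ℤ} {n : ℕ}
    (h : ∀ α : ι → ℕ, (∀ i, n ≤ α i) → |F α| ≤ G α) (l : List ι) :
    ∀ α : ι → ℕ, (∀ i, n ≤ α i) → |difs l F α| ≤ sms l G α := by
  induction l with
  | nil => exact h
  | cons x l ih =>
    intro α hα
    rw [difs_cons, dif_apply]
    refine (abs_sub _ _).trans ?_
    exact add_le_add (ih _ (ge_add hα _)) (ih α hα)

theorem difs_eq_zero {W : (ι → ℕ) → ℤ} {n : ℕ} (h : ∀ α : ι → ℕ, (∀ i, n ≤ α i) → W α = 0)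
    (l : List ι) : ∀ α : ι → ℕ, (∀ i, n ≤ α i) → difs l W α = 0 := by
  induction l with
  | nil => exact h
  | cons x l ih =>
    intro α hα
    rw [difs_cons, dif_apply, ih _ (ge_add hα _), ih α hα, sub_zero]

theorem difs_sms {G : (ι → ℕ) → ℤ} {n : ℕ} {m : List ι}
    (h : ∀ α : ι → ℕ, (∀ i, n ≤ α i) → difs m G α = 0) (l : List ι) :
    ∀ α : ι → ℕ, (∀ i, n ≤ α i) → difs m (sms l G) α = 0 := by
  induction l with
  | nil => exact h
  | cons x l ih =>
    intro α hα
    have e : sms (x :: l) G = (fun α => sms l G (α + Pi.single x 1)) + sms l G := rfl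
    rw [e, difs_add, difs_shift, Pi.add_apply, ih α hα, ih _ (ge_add hα _), add_zero]

/-- descending along a line -/
theorem neg_of_dif {W : (ι → ℕ) → ℤ} {i : ι} {α : ι → ℕ}
    (h : ∃ N : ℕ, ∀ t, N ≤ t → dif i W (α + Pi.single i t) ≤ -1) :
    ∃ N : ℕ, ∀ t, N ≤ t → W (α + Pi.single i t) ≤ -1 := by
  obtain ⟨N, hN⟩ := h
  have h1 : ∀ s : ℕ, W (α + Pi.single i (N + s)) ≤ W (α + Pi.single i N) - s := by
    intro s
    induction s with
    | zero => simp
    | succ s ih =>
      have h2 := hN (N + s) (Nat.le_add_right _ _)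
      rw [dif_apply, add_assoc, ← Pi.single_add] at h2
      push_cast
      rw [← add_assoc]
      linarith
  refine ⟨N + (W (α + Pi.single i N)).toNat + 1, fun t ht => ?_⟩
  have h3 := h1 (t - N)
  rw [Nat.add_sub_cancel' (by omega)] at h3
  have h4 := Int.self_le_toNat (W (α + Pi.single i N))
  push_cast [Nat.cast_sub (show N ≤ t by omega)] at h3
  omega

theorem neg_of_difs {W : (ι → ℕ) → ℤ} {i : ι} {α : ι → ℕ} (j : ℕ)
    (h : ∃ N : ℕ, ∀ t, N ≤ t → difs (List.replicate j i) W (α + Pi.single i t) ≤ -1) :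
    ∃ N : ℕ, ∀ t, N ≤ t → W (α + Pi.single i t) ≤ -1 := by
  induction j with
  | zero => exact h
  | succ j ih =>
    rw [List.replicate_succ] at h
    exact ih (neg_of_dif h)

theorem nonneg {W : (ι → ℕ) → ℤ} {i : ι} {n : ℕ} {j : ℕ} {c : ℤ}
    (h0 : ∀ α : ι → ℕ, (∀ i, n ≤ α i) → 0 ≤ W α)
    (h : ∀ α : ι → ℕ, (∀ i, n ≤ α i) → difs (List.replicate j i) W α = c) : 0 ≤ c := by
  by_contra hc
  push Not at hc
  obtain ⟨N, hN⟩ := neg_of_difs (W := W) (i := i) (α := fun _ => n) j ⟨0, fun t _ => by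
    rw [h _ (ge_add (fun _ => le_rfl) _)]
    omega⟩
  have h1 := hN N le_rfl
  have h2 := h0 ((fun _ => n) + Pi.single i N) (ge_add (fun _ => le_rfl) _)
  omega

theorem main : StGrow := by
  intro ι _ _ F G i e hF hFG hG l c hl hc
  obtain ⟨l', hl'⟩ : ∃ l', l.Perm (List.replicate (l.count i) i ++ l') := by
    refine ⟨l.filter (fun x => !(x == i)), ?_⟩
    rw [← List.filter_beq]
    exact (List.filter_append_perm (fun x => x == i) l).symm
  obtain ⟨n, hn⟩ := (hFG.and3 hG (HasC.perm hl hl'))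
  have h1 : ∀ α : ι → ℕ, (∀ i, n ≤ α i) → |F α| ≤ G α := fun α hα => by
    rw [abs_of_nonneg (hF α)]
    exact (hn α hα).1
  have h2 := abs_difs_le h1 l'
  have h3 := difs_sms (fun α hα => (hn α hα).2.1) l'
  have h4 : ∀ α : ι → ℕ, (∀ i, n ≤ α i) →
      difs (List.replicate (l.count i) i) (sms l' G) α = 0 := by
    intro α hα
    rw [show l.count i = (l.count i - (e + 1)) + (e + 1) by omega, List.replicate_add,
      difs_append]
    exact difs_eq_zero h3 _ α hα
  have h5 : ∀ α : ι → ℕ, (∀ i, n ≤ α i) →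
      difs (List.replicate (l.count i) i) (difs l' F) α = c := by
    intro α hα
    rw [← difs_append]
    exact (hn α hα).2.2
  have h6 : 0 ≤ c := by
    refine nonneg (W := sms l' G + difs l' F) (i := i) (n := n) (j := l.count i) ?_ ?_
    · intro α hα
      have := neg_le_of_abs_le (h2 α hα)
      rw [Pi.add_apply]
      linarith
    · intro α hα
      rw [difs_add, Pi.add_apply, h4 α hα, h5 α hα, zero_add]
  have h7 : 0 ≤ -c := by
    refine nonneg (W := sms l' G - difs l' F) (i := i) (n := n) (j := l.count i) ?_ ?_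
    · intro α hα
      have := le_of_abs_le (h2 α hα)
      rw [Pi.sub_apply]
      linarith
    · intro α hα
      rw [difs_sub, Pi.sub_apply, h4 α hα, h5 α hα, zero_sub]
  omega

end Pool.Agent.Helper93.NP.M_Grow
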