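import Pool.Agent.Helper93.NP.St

/-! Hilbert functions are eventually polynomial. -/

namespace Pool.Agent.Helper93.NP.M_HS

open MvPolynomial Pool.Agent.Helper93.NP

theorem ev_of_shift {ι : Type} [Fintype ι] {P : (ι → ℕ) → Prop} (δ : ι → ℕ)
    (h : Ev (fun α => P (α + δ))) : Ev P := by
  obtain ⟨n, hn⟩ := h
  refine ⟨n + ∑ i, δ i, fun α hα => ?_⟩
  have h1 : ∀ i, δ i ≤ ∑ i, δ i := fun i =>
    Finset.single_le_sum (fun _ _ => Nat.zero_le _) (Finset.mem_univ i)
  have h2 : ∀ i, δ i ≤ α i := fun i => (h1 i).trans ((Nat.le_add_left _ _).trans (hα i))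
  have h3 : (fun i => α i - δ i) + δ = α := by
    funext i
    simp only [Pi.add_apply]
    exact Nat.sub_add_cancel (h2 i)
  rw [← h3]
  refine hn _ fun i => ?_
  have := hα i
  have := h1 i
  omega

theorem degLT_of_shift {ι : Type} [Fintype ι] [DecidableEq ι] {m : ℕ} {F : (ι → ℕ) → ℤ}
    (δ : ι → ℕ) (h : DegLT m (fun α => F (α + δ))) : DegLT m F := by
  intro l hl
  refine ev_of_shift δ ?_
  have := h l hl
  rw [difs_shift] at this
  exact this

theorem main (hInd : StInd) (hEx : StExact) (hB : StHFBasic) (hH : StHomOps) : StHS := by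
  intro K σ ι _ _ _ _ τ J hJ
  obtain ⟨-, hBtop, -, hBkill, -⟩ := hB K σ ι τ
  obtain ⟨-, -, hspan, hsup, -⟩ := hH K σ ι τ
  refine hInd K σ ι τ (fun J => ∃ m, DegLT m (HF τ J)) ?_ ?_ ?_ J hJ
  · refine ⟨0, ?_⟩
    have : HF τ (⊤ : Ideal (MvPolynomial σ K)) = 0 := funext hBtop
    rw [this]
    exact DegLT.zero_fun 0
  · intro P hP hPh ih
    by_cases h : ∃ i, ∀ s, τ s = i → X s ∈ P
    · obtain ⟨i, hi⟩ := h
      refine ⟨0, (DegLT.zero_fun 0).congr ⟨1, fun α hα => ?_⟩⟩
      exact (hBkill P i hi α (hα i)).symm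
    · push Not at h
      choose z hz hzP using h
      have key : ∀ i, ∃ m, DegLT m (dif i (HF τ P)) := by
        intro i
        have hzc : (X (z i) : MvPolynomial σ K) ∈ Comp K τ (Pi.single i 1) := by
          have := isWeightedHomogeneous_X K (wt τ) (z i)
          rw [wt, hz i] at this
          exact this
        have hlt : P < P ⊔ Ideal.span {X (z i)} := by
          refine lt_of_le_of_ne le_sup_left fun h => hzP i ?_
          rw [h]
          exact Ideal.mem_sup_right (Ideal.mem_span_singleton_self _)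
        obtain ⟨m, hm⟩ := ih _ (hsup _ _ hPh (hspan {X (z i)} fun g hg => ⟨Pi.single i 1, by
          rw [Set.mem_singleton_iff.1 hg]; exact hzc⟩)) hlt
        refine ⟨m, ?_⟩
        have hq : qt P (X (z i)) = P := by
          ext g
          rw [mem_qt]
          exact ⟨fun h => (hP.mem_or_mem h).resolve_left (hzP i), fun h => P.mul_mem_left _ h⟩
        have e : dif i (HF τ P) = fun α => HF τ (P ⊔ Ideal.span {X (z i)})
            (α + Pi.single i 1) := by
          funext α
          have := hEx K σ ι τ P hPh (X (z i)) (Pi.single i 1) hzc α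
          rw [hq] at this
          rw [dif_apply, this]
          ring
        rw [e]
        exact hm.shift _
      choose m hm using key
      exact ⟨(∑ i, m i) + 1, DegLT.of_dif fun i => (hm i).mono
        (Finset.single_le_sum (fun _ _ => Nat.zero_le _) (Finset.mem_univ i))⟩
  · rintro J hJ f δ hf - - ⟨m1, h1⟩ ⟨m2, h2⟩
    refine ⟨max m1 m2, degLT_of_shift δ ?_⟩
    have e : (fun α => HF τ J (α + δ)) = HF τ (qt J f) +
        fun α => HF τ (J ⊔ Ideal.span {f}) (α + δ) := by
      funext α
      exact hEx K σ ι τ J hJ f δ hf α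
    rw [e]
    exact (h1.mono (le_max_left _ _)).add ((h2.mono (le_max_right _ _)).shift _)

end Pool.Agent.Helper93.NP.M_HS
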