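import Pool.Agent.Helper93.NP.St

/-! Noetherian induction for multihomogeneous ideals. -/

namespace Pool.Agent.Helper93.NP.M_Ind

open MvPolynomial Pool.Agent.Helper93.NP

theorem main (hP : StPrime) (hH : StHomOps) : StInd := by
  intro K σ ι _ _ _ _ τ Good htop hprime hstep J
  induction J using WellFoundedGT.induction with
  | _ J ih =>
    intro hJ
    by_cases hT : J = ⊤
    · subst hT
      exact htop
    by_cases hPr : J.IsPrime
    · exact hprime J hPr hJ fun J' hJ' hlt => ih J' hlt hJ'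
    have h1 := mt (hP K σ ι τ J hJ hT) hPr
    push Not at h1
    obtain ⟨d, e, f, g, hf, hg, hfg, hfJ, hgJ⟩ := h1
    obtain ⟨-, -, hspan, hsup, hqt⟩ := hH K σ ι τ
    have hlt1 : J < qt J f :=
      lt_of_le_of_ne (fun x hx => J.mul_mem_left f hx) fun h => hgJ (by rw [h]; exact hfg)
    have hlt2 : J < J ⊔ Ideal.span {f} := by
      refine lt_of_le_of_ne le_sup_left fun h => hfJ ?_
      rw [h]
      exact Ideal.mem_sup_right (Ideal.mem_span_singleton_self f)
    refine hstep J hJ f d hf hlt1 hlt2 (ih _ hlt1 (hqt J f d hJ hf)) (ih _ hlt2 ?_)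
    refine hsup _ _ hJ (hspan {f} fun g hg => ⟨d, ?_⟩)
    rw [Set.mem_singleton_iff.1 hg]
    exact hf

end Pool.Agent.Helper93.NP.M_Ind
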