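import Pool.Agent.Helper93.NP.St
import Pool.Agent.Helper93.NP.M_HomOps

/-! Module Lift (MP_16deda_ag): the generic point of a subvariety lifted along the cubic
syzygies. -/

namespace Pool.Agent.Helper93.NP.M_Lift

open MvPolynomial

/-- The monomials `(c, a, b, d) : c x_a x_b x_d` of the entries of `Yv`. -/
def dat : Fin 15 → Fin 6 → List (ℤ × Fin 3 × Fin 3 × Fin 3) :=
  ![
    ![[(-1, 2, 2, 2)], [], [(-1, 0, 0, 1)], [(1, 0, 0, 2)], [], []],
    ![[(1, 0, 2, 2)], [], [(-1, 1, 1, 2)], [(-1, 0, 0, 0), (1, 1, 2, 2)], [], []],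
    ![[], [], [(-1, 0, 0, 0), (-1, 1, 2, 2)], [(1, 2, 2, 2)], [], []],
    ![[(-1, 0, 0, 2), (-1, 1, 1, 1)], [], [], [], [(1, 0, 0, 0)], []],
    ![[(-1, 1, 1, 2)], [(-1, 0, 0, 0)], [], [], [(1, 0, 1, 1)], []],
    ![[(1, 0, 2, 2)], [(-1, 0, 0, 1)], [], [], [(-1, 0, 0, 2), (1, 1, 1, 1)], []],
    ![[(1, 0, 1, 2)], [], [(1, 1, 1, 1)], [(-1, 1, 1, 2)], [(-1, 0, 0, 1)], [(1, 0, 0, 0)]],
    ![[], [(-1, 0, 0, 0)], [(-1, 0, 1, 2)], [(1, 0, 2, 2)], [(-1, 2, 2, 2)], [(1, 0, 0, 1)]],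
    ![[(2, 1, 2, 2)], [], [], [(-1, 0, 0, 1)], [(-1, 0, 1, 2)], [(1, 0, 0, 2)]],
    ![[], [(-2, 0, 0, 2)], [], [(-1, 0, 1, 1)], [(1, 1, 1, 2)], [(1, 0, 1, 2)]],
    ![[], [], [(-2, 0, 1, 1)], [(1, 0, 1, 2)], [(-1, 1, 2, 2)], [(1, 0, 2, 2)]],
    ![[], [(-1, 0, 1, 1), (-1, 2, 2, 2)], [], [], [], [(1, 1, 1, 1)]],
    ![[(-1, 2, 2, 2)], [(-1, 0, 1, 2)], [], [(-1, 1, 1, 1)], [(1, 0, 2, 2)], [(1, 1, 1, 2)]],
    ![[], [(-1, 0, 2, 2)], [(-1, 1, 1, 1)], [], [], [(1, 1, 2, 2)]],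
    ![[], [(1, 0, 0, 1)], [(-1, 1, 1, 2)], [], [], [(-1, 0, 1, 1), (1, 2, 2, 2)]]]

theorem Yv_dat {A : Type} [CommRing A] (x : Fin 3 → A) (k : Fin 15) (j : Fin 6) :
    Yv x k j = ((dat k j).map fun e => (e.1 : A) * (x e.2.1 * x e.2.2.1 * x e.2.2.2)).sum := by
  fin_cases k <;> fin_cases j <;> simp [Yv, dat] <;> ring

theorem map_Yv {A B : Type} [CommRing A] [CommRing B] (φ : A →+* B) (x : Fin 3 → A)
    (k : Fin 15) (j : Fin 6) : φ (Yv x k j) = Yv (fun i => φ (x i)) k j := by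
  rw [Yv_dat, Yv_dat]
  induction dat k j with
  | nil => simp
  | cons e l ih =>
    rw [List.map_cons, List.sum_cons, List.map_cons, List.sum_cons, map_add, ih]
    simp

theorem map_row1 {A B : Type} [CommRing A] [CommRing B] (φ : A →+* B) (x : Fin 3 → A)
    (y : Fin 15 → A) (l : Fin 10) :
    φ (row1 x y l) = row1 (fun i => φ (x i)) (fun k => φ (y k)) l := by
  rw [← M1_form, ← M1_form, map_sum]
  refine Finset.sum_congr rfl fun k _ => ?_
  rw [map_sum]
  refine Finset.sum_congr rfl fun i _ => ?_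
  simp

section

variable {K : Type} [Field K]

theorem mulC {σ ι : Type} [DecidableEq ι] {τ : σ → ι} {f g : MvPolynomial σ K} {d e : ι → ℕ}
    (hf : f ∈ Comp K τ d) (hg : g ∈ Comp K τ e) : f * g ∈ Comp K τ (d + e) :=
  IsWeightedHomogeneous.mul hf hg

theorem powC {σ ι : Type} [DecidableEq ι] {τ : σ → ι} {f : MvPolynomial σ K} {d : ι → ℕ}
    (hf : f ∈ Comp K τ d) (n : ℕ) : f ^ n ∈ Comp K τ (n • d) :=
  IsWeightedHomogeneous.pow hf n

theorem xC (i : Fin 3) : (X (Sum.inl i) : MvPolynomial (Fin 3 ⊕ Fin 15) K) ∈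
    Comp K (tau 15) ![1, 0] := by
  have h : (X (Sum.inl i) : MvPolynomial (Fin 3 ⊕ Fin 15) K).IsWeightedHomogeneous
      (wt (tau 15)) (wt (tau 15) (Sum.inl i)) := isWeightedHomogeneous_X K _ _
  have h2 : wt (tau 15) (Sum.inl i) = ![1, 0] := by
    funext t
    fin_cases t <;> simp [wt, tau]
  rw [h2] at h
  exact h

theorem yC (i : Fin 15) : (X (Sum.inr i) : MvPolynomial (Fin 3 ⊕ Fin 15) K) ∈
    Comp K (tau 15) ![0, 1] := by
  have h : (X (Sum.inr i) : MvPolynomial (Fin 3 ⊕ Fin 15) K).IsWeightedHomogeneous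
      (wt (tau 15)) (wt (tau 15) (Sum.inr i)) := isWeightedHomogeneous_X K _ _
  have h2 : wt (tau 15) (Sum.inr i) = ![0, 1] := by
    funext t
    fin_cases t <;> simp [wt, tau]
  rw [h2] at h
  exact h

theorem c4 (a b c : Fin 3) : (X (Sum.inl a) * X (Sum.inl b) * X (Sum.inl c) :
    MvPolynomial (Fin 3 ⊕ Fin 15) K) ∈ Comp K (tau 15) ![3, 0] := by
  have h := mulC (mulC (xC (K := K) a) (xC (K := K) b)) (xC (K := K) c)
  have h2 : (![1, 0] : Fin 2 → ℕ) + ![1, 0] + ![1, 0] = ![3, 0] := by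
    funext t
    fin_cases t <;> simp
  rw [h2] at h
  exact h

theorem Yvc (k : Fin 15) (j : Fin 6) :
    Yv (fun i => (X (Sum.inl i) : MvPolynomial (Fin 3 ⊕ Fin 15) K)) k j ∈
      Comp K (tau 15) ![3, 0] := by
  rw [Yv_dat]
  induction dat k j with
  | nil =>
    rw [List.map_nil, List.sum_nil]
    exact Submodule.zero_mem _
  | cons e l ih =>
    rw [List.map_cons, List.sum_cons]
    refine Submodule.add_mem _ ?_ ih
    rw [← zsmul_eq_mul]
    exact zsmul_mem (c4 e.2.1 e.2.2.1 e.2.2.2) e.1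

/-- step 1: clearing denominators -/
theorem step1 [CharZero K] (hP : StPoint) (P : Ideal (MvPolynomial (Fin 3 ⊕ Fin 15) K))
    (hPp : P.IsPrime) (hM : IM (M1K K) ≤ P) (i₀ : Fin 3) (hi : X (Sum.inl i₀) ∉ P) :
    ∃ (ν : MvPolynomial (Fin 3 ⊕ Fin 15) K) (n : Fin 6 → MvPolynomial (Fin 3 ⊕ Fin 15) K),
      ν ∉ P ∧ ∀ k, ∑ j, Yv (fun i => X (Sum.inl i)) k j * n j - ν * X (Sum.inr k) ∈ P := by
  classical
  let R := MvPolynomial (Fin 3 ⊕ Fin 15) K ⧸ P
  let L := FractionRing R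
  let φ : MvPolynomial (Fin 3 ⊕ Fin 15) K →+* L := (algebraMap R L).comp (Ideal.Quotient.mk P)
  have hφ : ∀ f, φ f = 0 ↔ f ∈ P := by
    intro f
    have : φ f = algebraMap R L (Ideal.Quotient.mk P f) := rfl
    rw [this, map_eq_zero_iff (algebraMap R L) (IsFractionRing.injective R L),
      Ideal.Quotient.eq_zero_iff_mem]
  have hchar : CharZero L := by
    have hinj : Function.Injective (φ.comp C : K →+* L) := (φ.comp C).injective
    exact charZero_of_injective_ringHom hinj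
  let x : Fin 3 → L := fun i => φ (X (Sum.inl i))
  let y : Fin 15 → L := fun k => φ (X (Sum.inr k))
  have hx : x ≠ 0 := fun h => hi ((hφ _).1 (congrFun h i₀))
  have hrow : ∀ l, row1 x y l = 0 := by
    intro l
    have h1 : row1 (fun i => (X (Sum.inl i) : MvPolynomial (Fin 3 ⊕ Fin 15) K))
        (fun k => X (Sum.inr k)) l ∈ P := by
      apply hM
      apply Ideal.subset_span
      refine ⟨l, ?_⟩
      rw [← M1_form, fM]
      refine Finset.sum_congr rfl fun k _ => Finset.sum_congr rfl fun i _ => ?_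
      simp [M1K]
    have h2 := (hφ _).2 h1
    rw [map_row1] at h2
    exact h2
  obtain ⟨c, hc⟩ := hP L x hx y hrow
  obtain ⟨b, hb⟩ := IsLocalization.exist_integer_multiples_of_finite (nonZeroDivisors R) c
  choose m hm using hb
  obtain ⟨ν, hν⟩ := Ideal.Quotient.mk_surjective (I := P) (b : R)
  have hn : ∀ j, ∃ n : MvPolynomial (Fin 3 ⊕ Fin 15) K, Ideal.Quotient.mk P n = m j :=
    fun j => Ideal.Quotient.mk_surjective (m j)
  choose n hn using hn
  refine ⟨ν, n, ?_, ?_⟩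
  · intro h
    have h0 : (b : R) = 0 := by rw [← hν, Ideal.Quotient.eq_zero_iff_mem]; exact h
    exact nonZeroDivisors.ne_zero b.2 h0
  · intro k
    rw [← hφ, map_sub, map_sum, sub_eq_zero, map_mul]
    have e1 : φ ν = algebraMap R L b := by
      show algebraMap R L (Ideal.Quotient.mk P ν) = _
      rw [hν]
    have e2 : ∀ j, φ (n j) = algebraMap R L b * c j := by
      intro j
      show algebraMap R L (Ideal.Quotient.mk P (n j)) = _
      rw [hn, hm, Algebra.smul_def]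
    have e3 : φ (X (Sum.inr k)) = ∑ j, Yv x k j * c j := hc k
    rw [e1, e3, Finset.mul_sum]
    refine Finset.sum_congr rfl fun j _ => ?_
    rw [map_mul, map_Yv, e2]
    ring

end

theorem main (hP : StPoint) : StLift := by
  intro K _ _ P hPp hPh hM hx hy
  obtain ⟨i₀, hi⟩ := hx
  obtain ⟨k₀, hk⟩ := hy
  obtain ⟨ν, n, hν, hrel⟩ := step1 hP P hPp hM i₀ hi
  have hd : ∃ d : Fin 2 → ℕ, weightedHomogeneousComponent (wt (tau 15)) d ν ∉ P := by
    by_contra hcon
    push Not at hcon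
    apply hν
    rw [← sum_weightedHomogeneousComponent (w := wt (tau 15)) ν,
      finsum_eq_sum _ (weightedHomogeneousComponent_finsupp (w := wt (tau 15)) ν)]
    exact Ideal.sum_mem _ fun d _ => hcon d
  obtain ⟨d, hd⟩ := hd
  have hcomp : ∀ k, ∑ j, weightedHomogeneousComponent (wt (tau 15)) (d + ![0, 1])
      (Yv (fun i => X (Sum.inl i)) k j * n j) -
      weightedHomogeneousComponent (wt (tau 15)) d ν * X (Sum.inr k) ∈ P := by
    intro k
    have h := hPh _ (hrel k) (d + ![0, 1])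
    rw [map_sub, map_sum, mul_comm ν, M_HomOps.comp_mul (tau 15) (yC k) ν d,
      mul_comm (X (Sum.inr k))] at h
    exact h
  by_cases hd3 : d 0 < 3
  · exfalso
    have h := hcomp k₀
    rw [Finset.sum_eq_zero, zero_sub, neg_mem_iff] at h
    · exact (hPp.mem_or_mem h).elim hd hk
    · intro j _
      apply M_HomOps.comp_mul_ne (tau 15) (Yvc k₀ j)
      intro e he
      have h0 := congrFun he 0
      simp at h0
      omega
  · push Not at hd3
    have hd4 : d + ![0, 1] = ![d 0 - 3, d 1 + 1] + ![3, 0] := by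
      funext t
      fin_cases t
      · simp; omega
      · simp
    have f1 : ∀ j, X (Sum.inl i₀) ^ 5 *
        weightedHomogeneousComponent (wt (tau 15)) ![d 0 - 3, d 1 + 1] (n j) ∈
        Comp K (tau 15) ![d 0 - 3 + 5, d 1 + 1] := by
      intro j
      have h := mulC (powC (xC (K := K) i₀) 5)
        (weightedHomogeneousComponent_mem (wt (tau 15)) (n j) ![d 0 - 3, d 1 + 1])
      have h2 : (5 : ℕ) • (![1, 0] : Fin 2 → ℕ) + ![d 0 - 3, d 1 + 1] =
          ![d 0 - 3 + 5, d 1 + 1] := by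
        funext t
        fin_cases t
        · simp; omega
        · simp
      rw [h2] at h
      exact h
    have f2 : X (Sum.inl i₀) ^ 5 * weightedHomogeneousComponent (wt (tau 15)) d ν ∈
        Comp K (tau 15) ![d 0 - 3 + 8, d 1] := by
      have h := mulC (powC (xC (K := K) i₀) 5)
        (weightedHomogeneousComponent_mem (wt (tau 15)) ν d)
      have h2 : (5 : ℕ) • (![1, 0] : Fin 2 → ℕ) + d = ![d 0 - 3 + 8, d 1] := by
        funext t
        fin_cases t
        · simp; omega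
        · simp
      rw [h2] at h
      exact h
    have f3 : X (Sum.inl i₀) ^ 5 * weightedHomogeneousComponent (wt (tau 15)) d ν ∉ P := by
      intro h
      rcases hPp.mem_or_mem h with h | h
      · exact hi (hPp.mem_of_pow_mem _ h)
      · exact hd h
    have f4 : (X (Sum.inl i₀) ^ (d 0 - 3) * X (Sum.inr k₀) ^ (d 1 + 1) :
        MvPolynomial (Fin 3 ⊕ Fin 15) K) ∈ Comp K (tau 15) ![d 0 - 3, d 1 + 1] := by
      have h := mulC (powC (xC (K := K) i₀) (d 0 - 3)) (powC (yC (K := K) k₀) (d 1 + 1))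
      have h2 : (d 0 - 3) • (![1, 0] : Fin 2 → ℕ) + (d 1 + 1) • (![0, 1] : Fin 2 → ℕ) =
          ![d 0 - 3, d 1 + 1] := by
        funext t
        fin_cases t <;> simp
      rw [h2] at h
      exact h
    have f5 : (X (Sum.inl i₀) ^ (d 0 - 3) * X (Sum.inr k₀) ^ (d 1 + 1) :
        MvPolynomial (Fin 3 ⊕ Fin 15) K) ∉ P := by
      intro h
      rcases hPp.mem_or_mem h with h | h
      · exact hi (hPp.mem_of_pow_mem _ h)
      · exact hk (hPp.mem_of_pow_mem _ h)
    have f6 : ∀ k, ∑ j, Yv (fun i => X (Sum.inl i)) k j * (X (Sum.inl i₀) ^ 5 *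
        weightedHomogeneousComponent (wt (tau 15)) ![d 0 - 3, d 1 + 1] (n j)) -
        X (Sum.inl i₀) ^ 5 * weightedHomogeneousComponent (wt (tau 15)) d ν *
          X (Sum.inr k) ∈ P := by
      intro k
      have h := P.mul_mem_left (X (Sum.inl i₀) ^ 5) (hcomp k)
      rw [hd4] at h
      have h5 : ∀ j, weightedHomogeneousComponent (wt (tau 15)) (![d 0 - 3, d 1 + 1] + ![3, 0])
          (Yv (fun i => X (Sum.inl i)) k j * n j) = Yv (fun i => X (Sum.inl i)) k j *
          weightedHomogeneousComponent (wt (tau 15)) ![d 0 - 3, d 1 + 1] (n j) :=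
        fun j => M_HomOps.comp_mul (tau 15) (Yvc k j) (n j) _
      rw [Finset.sum_congr rfl (fun j _ => h5 j), mul_sub, Finset.mul_sum, ← mul_assoc] at h
      have h6 : ∀ j : Fin 6, (X (Sum.inl i₀) : MvPolynomial (Fin 3 ⊕ Fin 15) K) ^ 5 *
          (Yv (fun i => X (Sum.inl i)) k j *
            weightedHomogeneousComponent (wt (tau 15)) ![d 0 - 3, d 1 + 1] (n j)) =
          Yv (fun i => X (Sum.inl i)) k j * (X (Sum.inl i₀) ^ 5 *
            weightedHomogeneousComponent (wt (tau 15)) ![d 0 - 3, d 1 + 1] (n j)) :=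
        fun j => mul_left_comm _ _ _
      rw [Finset.sum_congr rfl (fun j _ => h6 j)] at h
      exact h
    exact ⟨⟨d 0 - 3, d 1, _, _, _, f1, f2, f3, f4, f5, f6⟩⟩

end Pool.Agent.Helper93.NP.M_Lift
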