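import Pool.Agent.Helper93.NP.St

/-! MP_16deda_ag, module Minor. -/

namespace Pool.Agent.Helper93.NP.M_Minor

open MvPolynomial

/-- scaling of the variables `y` -/
theorem theta {K : Type} [Field K] {N : ℕ} (D : MvPolynomial (Fin 3 ⊕ Fin N) K) (b : Fin 2 → ℕ)
    (g : MvPolynomial (Fin 3 ⊕ Fin N) K) (hg : g ∈ Comp K (tau N) b) :
    aeval (Sum.elim (fun i => X (Sum.inl i)) (fun k => D * X (Sum.inr k)) :
      Fin 3 ⊕ Fin N → MvPolynomial (Fin 3 ⊕ Fin N) K) g = D ^ (b 1) * g := by
  conv_lhs => rw [g.as_sum]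
  conv_rhs => rw [g.as_sum]
  rw [map_sum, Finset.mul_sum]
  refine Finset.sum_congr rfl fun m hm => ?_
  have hw : Finsupp.weight (wt (tau N)) m = b := hg (mem_support_iff.1 hm)
  have h1 : ∑ k, m (Sum.inr k) = b 1 := by
    rw [← hw, Finsupp.weight_apply, Finsupp.sum_fintype _ _ (by simp), Fintype.sum_sum_type]
    simp [wt, tau]
  rw [aeval_monomial, Finsupp.prod_fintype _ _ (by simp), Fintype.prod_sum_type, monomial_eq,
    Finsupp.prod_fintype _ _ (by simp), Fintype.prod_sum_type]
  simp only [Sum.elim_inl, Sum.elim_inr, mul_pow, Finset.prod_mul_distrib,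
    Finset.prod_pow_eq_pow_sum, h1, algebraMap_eq]
  ring

/-- linear forms in `x` -/
noncomputable def mm {K : Type} [Field K] {a N : ℕ} (M : Fin a → Fin N → Fin 3 → K)
    (j : Fin a) (k : Fin N) : MvPolynomial (Fin 3 ⊕ Fin N) K :=
  ∑ i, C (M j k i) * X (Sum.inl i)

theorem fM_eq {K : Type} [Field K] {a N : ℕ} (M : Fin a → Fin N → Fin 3 → K) (j : Fin a) :
    fM M j = ∑ k, mm M j k * X (Sum.inr k) := by
  simp only [fM, mm, Finset.sum_mul]

/-- the part of a bilinear form without the variables of `s` -/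
noncomputable def rest {K : Type} [Field K] {a N n : ℕ} (M : Fin a → Fin N → Fin 3 → K)
    (s : Fin n → Fin N) (j : Fin a) : MvPolynomial (Fin 3 ⊕ Fin N) K :=
  ∑ k ∈ Finset.univ.filter (fun k => ¬ ∃ j', s j' = k), mm M j k * X (Sum.inr k)

theorem fM_split {K : Type} [Field K] {a N n : ℕ} (M : Fin a → Fin N → Fin 3 → K)
    (s : Fin n → Fin N) (hs : Function.Injective s) (j : Fin a)
    (F : Fin N → MvPolynomial (Fin 3 ⊕ Fin N) K) :
    ∑ k, F k = ∑ j', F (s j') +
      ∑ k ∈ Finset.univ.filter (fun k => ¬ ∃ j', s j' = k), F k := by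
  rw [← Finset.sum_filter_add_sum_filter_not Finset.univ (fun k => ∃ j', s j' = k) F]
  congr 1
  have : Finset.univ.filter (fun k => ∃ j', s j' = k) = Finset.univ.map ⟨s, hs⟩ := by
    ext k
    simp
  rw [this, Finset.sum_map]
  rfl

theorem mem_span_X {K σ : Type} [Field K] (T : Set σ) [DecidablePred (· ∈ T)]
    (f : MvPolynomial σ K)
    (hf : aeval (fun v => if v ∈ T then (0 : MvPolynomial σ K) else X v) f = 0) :
    f ∈ Ideal.span ((X : σ → MvPolynomial σ K) '' T) := by
  have h : (Ideal.Quotient.mkₐ K (Ideal.span ((X : σ → MvPolynomial σ K) '' T))).comp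
      (aeval (fun v => if v ∈ T then (0 : MvPolynomial σ K) else X v)) =
      Ideal.Quotient.mkₐ K (Ideal.span ((X : σ → MvPolynomial σ K) '' T)) := by
    apply MvPolynomial.algHom_ext
    intro v
    simp only [AlgHom.comp_apply, aeval_X]
    by_cases hv : v ∈ T
    · rw [if_pos hv, map_zero]
      symm
      rw [Ideal.Quotient.mkₐ_eq_mk, Ideal.Quotient.eq_zero_iff_mem]
      exact Ideal.subset_span ⟨v, hv, rfl⟩
    · rw [if_neg hv]
  have h2 := congrArg (fun φ => φ f) h
  simp only [AlgHom.comp_apply, hf, map_zero] at h2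
  rw [← Ideal.Quotient.eq_zero_iff_mem, ← Ideal.Quotient.mkₐ_eq_mk K]
  exact h2.symm

theorem main : StMinor := by
  classical
  intro K _ N l M s hs b g hg hmem hD
  set A : Matrix (Fin (l + 1)) (Fin (l + 1)) (MvPolynomial (Fin 3 ⊕ Fin N) K) :=
    Matrix.of fun (j j' : Fin (l + 1)) =>
      ∑ i, (C (M j (s j') i) * X (Sum.inl i) : MvPolynomial (Fin 3 ⊕ Fin N) K) with hA
  have hAm : ∀ j j', A j j' = mm M j (s j') := fun j j' => rfl
  set D := A.det with hDdef
  -- the first homomorphism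
  let r1 : Fin N → MvPolynomial (Fin 3 ⊕ Fin N) K := fun k =>
    if h : ∃ j, s j = k then
      ∑ j', A.adjugate h.choose j' * (X (Sum.inr (s j')) - rest M s j')
    else D * X (Sum.inr k)
  have r1s : ∀ j, r1 (s j) =
      ∑ j', A.adjugate j j' * (X (Sum.inr (s j')) - rest M s j') := by
    intro j
    have h : ∃ j0, s j0 = s j := ⟨j, rfl⟩
    have h2 : h.choose = j := hs h.choose_spec
    simp only [r1, dif_pos h, h2]
  have r1n : ∀ k, (¬ ∃ j, s j = k) → r1 k = D * X (Sum.inr k) := by
    intro k hk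
    simp only [r1, dif_neg hk]
  let ρ : MvPolynomial (Fin 3 ⊕ Fin N) K →ₐ[K] MvPolynomial (Fin 3 ⊕ Fin N) K :=
    aeval (Sum.elim (fun i => X (Sum.inl i)) r1)
  have ρl : ∀ i, ρ (X (Sum.inl i)) = X (Sum.inl i) := fun i => by simp [ρ]
  have ρr : ∀ k, ρ (X (Sum.inr k)) = r1 k := fun k => by simp [ρ]
  have ρm : ∀ j k, ρ (mm M j k) = mm M j k := by
    intro j k
    simp only [mm, map_sum, map_mul, ρl]
    refine Finset.sum_congr rfl fun i _ => ?_
    rw [← algebraMap_eq, AlgHom.commutes]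
  -- the second homomorphism
  let r2 : Fin N → MvPolynomial (Fin 3 ⊕ Fin N) K := fun k =>
    if h : ∃ j, s j = k then fM M h.choose else X (Sum.inr k)
  have r2s : ∀ j, r2 (s j) = fM M j := by
    intro j
    have h : ∃ j0, s j0 = s j := ⟨j, rfl⟩
    have h2 : h.choose = j := hs h.choose_spec
    simp only [r2, dif_pos h, h2]
  have r2n : ∀ k, (¬ ∃ j, s j = k) → r2 k = X (Sum.inr k) := by
    intro k hk
    simp only [r2, dif_neg hk]
  let ρ2 : MvPolynomial (Fin 3 ⊕ Fin N) K →ₐ[K] MvPolynomial (Fin 3 ⊕ Fin N) K :=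
    aeval (Sum.elim (fun i => X (Sum.inl i)) r2)
  have ρ2l : ∀ i, ρ2 (X (Sum.inl i)) = X (Sum.inl i) := fun i => by simp [ρ2]
  have ρ2r : ∀ k, ρ2 (X (Sum.inr k)) = r2 k := fun k => by simp [ρ2]
  have ρ2m : ∀ j k, ρ2 (mm M j k) = mm M j k := by
    intro j k
    simp only [mm, map_sum, map_mul, ρ2l]
    refine Finset.sum_congr rfl fun i _ => ?_
    rw [← algebraMap_eq, AlgHom.commutes]
  have hAρ2 : ρ2.toRingHom.mapMatrix A = A := by
    ext1 j j'
    exact ρ2m j (s j')
  have ρ2D : ρ2 D = D := by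
    have h := RingHom.map_det ρ2.toRingHom A
    rw [hAρ2] at h
    exact h
  have ρ2adj : ∀ j j', ρ2 (A.adjugate j j') = A.adjugate j j' := by
    intro j j'
    have h := RingHom.map_adjugate ρ2.toRingHom A
    rw [hAρ2] at h
    exact congrFun (congrFun h j) j'
  have ρ2rest : ∀ j, ρ2 (rest M s j) = rest M s j := by
    intro j
    simp only [rest, map_sum, map_mul, ρ2m, ρ2r]
    refine Finset.sum_congr rfl fun k hk => ?_
    rw [r2n k (Finset.mem_filter.1 hk).2]
  have fsplit : ∀ j, fM M j = ∑ j', A j j' * X (Sum.inr (s j')) + rest M s j := by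
    intro j
    rw [fM_eq, fM_split M s hs j (fun k => mm M j k * X (Sum.inr k))]
    rfl
  have AA : ∀ j j', ∑ j'', A j j'' * A.adjugate j'' j' = if j = j' then D else 0 := by
    intro j j'
    rw [← Matrix.mul_apply, Matrix.mul_adjugate, Matrix.smul_apply, Matrix.one_apply]
    simp [hDdef]
  have AA' : ∀ j j', ∑ j'', A.adjugate j j'' * A j'' j' = if j = j' then D else 0 := by
    intro j j'
    rw [← Matrix.mul_apply, Matrix.adjugate_mul, Matrix.smul_apply, Matrix.one_apply]
    simp [hDdef]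
  have ρf : ∀ j, ρ (fM M j) = D * X (Sum.inr (s j)) := by
    intro j
    rw [fM_eq, fM_split M s hs j (fun k => mm M j k * X (Sum.inr k))]
    simp only [map_add, map_sum, map_mul, ρm, ρr, r1s]
    have e1 : ∑ x, mm M j (s x) * ∑ j', A.adjugate x j' * (X (Sum.inr (s j')) - rest M s j') =
        D * (X (Sum.inr (s j)) - rest M s j) := by
      simp only [Finset.mul_sum]
      rw [Finset.sum_comm]
      have : ∀ j', ∑ x, mm M j (s x) * (A.adjugate x j' * (X (Sum.inr (s j')) - rest M s j')) =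
          (if j = j' then D else 0) * (X (Sum.inr (s j')) - rest M s j') := by
        intro j'
        rw [← AA j j', Finset.sum_mul]
        refine Finset.sum_congr rfl fun x _ => ?_
        rw [hAm]; ring
      simp only [this]
      simp
    have e2 : ∑ k ∈ Finset.univ.filter (fun k => ¬ ∃ j', s j' = k), mm M j k * r1 k =
        D * rest M s j := by
      rw [rest, Finset.mul_sum]
      refine Finset.sum_congr rfl fun k hk => ?_
      rw [r1n k (Finset.mem_filter.1 hk).2]
      ring
    rw [e1, e2]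
    ring
  -- the composition
  have hcomp : ∀ f, ρ2 (ρ f) = aeval (Sum.elim (fun i => X (Sum.inl i))
      (fun k => D * X (Sum.inr k)) :
      Fin 3 ⊕ Fin N → MvPolynomial (Fin 3 ⊕ Fin N) K) f := by
    intro f
    have : ρ2.comp ρ = aeval (Sum.elim (fun i => X (Sum.inl i)) (fun k => D * X (Sum.inr k)) :
      Fin 3 ⊕ Fin N → MvPolynomial (Fin 3 ⊕ Fin N) K) := by
      apply MvPolynomial.algHom_ext
      rintro (i | k)
      · rw [AlgHom.comp_apply, ρl, ρ2l]
        simp
      · rw [AlgHom.comp_apply, ρr, aeval_X, Sum.elim_inr]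
        by_cases hk : ∃ j, s j = k
        · obtain ⟨j, rfl⟩ := hk
          rw [r1s]
          simp only [map_sum, map_mul, map_sub, ρ2adj, ρ2r, r2s, ρ2rest]
          have : ∀ x, A.adjugate j x * (fM M x - rest M s x) =
              ∑ j', A.adjugate j x * A x j' * X (Sum.inr (s j')) := by
            intro x
            rw [fsplit x, add_sub_cancel_right, Finset.mul_sum]
            refine Finset.sum_congr rfl fun j' _ => ?_
            ring
          simp only [this]
          rw [Finset.sum_comm]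
          simp only [← Finset.sum_mul, AA']
          simp
        · rw [r1n k hk, map_mul, ρ2D, ρ2r, r2n k hk]
    exact congrArg (fun φ => φ f) this
  -- the prime ideal
  let T : Set (Fin 3 ⊕ Fin N) := {v | ∃ j : Fin l, v = Sum.inr (s j.castSucc)}
  let ε : MvPolynomial (Fin 3 ⊕ Fin N) K →ₐ[K] MvPolynomial (Fin 3 ⊕ Fin N) K :=
    aeval (fun v => if v ∈ T then (0 : MvPolynomial (Fin 3 ⊕ Fin N) K) else X v)
  have εl : ∀ i, ε (X (Sum.inl i)) = X (Sum.inl i) := by
    intro i
    have : (Sum.inl i : Fin 3 ⊕ Fin N) ∉ T := by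
      rintro ⟨j, hj⟩; simp at hj
    simp only [ε, aeval_X, if_neg this]
  have εm : ∀ j k, ε (mm M j k) = mm M j k := by
    intro j k
    simp only [mm, map_sum, map_mul, εl]
    refine Finset.sum_congr rfl fun i _ => ?_
    rw [← algebraMap_eq, AlgHom.commutes]
  have εD : ε D = D := by
    have h := RingHom.map_det ε.toRingHom A
    have h2 : ε.toRingHom.mapMatrix A = A := by
      ext1 j j'
      exact εm j (s j')
    rw [h2] at h
    exact h
  have εlast : ε (X (Sum.inr (s (Fin.last l)))) = X (Sum.inr (s (Fin.last l))) := by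
    have : (Sum.inr (s (Fin.last l)) : Fin 3 ⊕ Fin N) ∉ T := by
      rintro ⟨j, hj⟩
      have h2 := hs (Sum.inr_injective hj)
      exact (Fin.castSucc_lt_last j).ne h2.symm
    simp only [ε, aeval_X, if_neg this]
  have h1 : ε (ρ (fM M (Fin.last l) * g)) = 0 := by
    have h2 : ∀ f ∈ IM (fun j : Fin l => M j.castSucc), ε (ρ f) = 0 := by
      intro f hf
      have h3 : IM (fun j : Fin l => M j.castSucc) ≤ RingHom.ker (ε.comp ρ).toRingHom := by
        refine Ideal.span_le.2 ?_
        rintro _ ⟨j, rfl⟩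
        have h4 : fM (fun j : Fin l => M j.castSucc) j = fM M j.castSucc := rfl
        rw [h4]
        change ε (ρ (fM M j.castSucc)) = 0
        rw [ρf, map_mul]
        have h5 : (Sum.inr (s j.castSucc) : Fin 3 ⊕ Fin N) ∈ T := ⟨j, rfl⟩
        have h6 : ε (X (Sum.inr (s j.castSucc))) = 0 := by
          simp only [ε, aeval_X, if_pos h5]
        rw [h6, mul_zero]
      exact h3 hf
    exact h2 _ hmem
  rw [map_mul, ρf, map_mul, map_mul, εD, εlast] at h1
  have h2 : ε (ρ g) = 0 := by
    rcases mul_eq_zero.1 h1 with h3 | h3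
    · exfalso
      rcases mul_eq_zero.1 h3 with h4 | h4
      · exact hD h4
      · exact X_ne_zero _ h4
    · exact h3
  have h3 : ρ g ∈ Ideal.span ((X : _ → MvPolynomial (Fin 3 ⊕ Fin N) K) '' T) :=
    mem_span_X T _ h2
  have h4 : ρ2 (ρ g) ∈ IM (fun j : Fin l => M j.castSucc) := by
    have h5 : Ideal.span ((X : _ → MvPolynomial (Fin 3 ⊕ Fin N) K) '' T) ≤
        Ideal.comap ρ2.toRingHom (IM (fun j : Fin l => M j.castSucc)) := by
      refine Ideal.span_le.2 ?_
      rintro _ ⟨v, ⟨j, rfl⟩, rfl⟩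
      change ρ2 (X (Sum.inr (s j.castSucc))) ∈ IM (fun j : Fin l => M j.castSucc)
      rw [ρ2r, r2s]
      exact Ideal.subset_span ⟨j, rfl⟩
    exact h5 h3
  rw [hcomp, theta D b g hg] at h4
  exact h4

end Pool.Agent.Helper93.NP.M_Minor
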