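import Pool.Agent.Helper93.NP.St

/-! Top constants of Hilbert functions are nonnegative, no cancellation. -/

namespace Pool.Agent.Helper93.NP.M_NN

open MvPolynomial

variable {ι : Type} [DecidableEq ι]

/-- All top constants of `F` are nonnegative. -/
def NNP (F : (ι → ℕ) → ℤ) : Prop :=
  ∀ m : ℕ, DegLT (m + 1) F → ∀ l : List ι, l.length = m → ∀ c : ℤ, HasC l F c → 0 ≤ c

omit [DecidableEq ι] in
theorem ev_unshift [Fintype ι] {P : (ι → ℕ) → Prop} (δ : ι → ℕ)
    (h : Ev (fun α => P (α + δ))) : Ev P := by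
  obtain ⟨n, hn⟩ := h
  refine ⟨n + ∑ i, δ i, fun α hα => ?_⟩
  have h1 : ∀ i, δ i ≤ ∑ i, δ i := fun i =>
    Finset.single_le_sum (f := δ) (fun _ _ => Nat.zero_le _) (Finset.mem_univ i)
  have h2 : (fun i => α i - δ i) + δ = α := by
    funext i
    have h3 := hα i
    have h4 := h1 i
    simp only [Pi.add_apply]
    omega
  have h5 := hn (fun i => α i - δ i) (fun i => by
    have h3 := hα i
    have h4 := h1 i
    omega)
  simp only [h2] at h5
  exact h5

theorem hasC_unshift [Fintype ι] {l : List ι} {c : ℤ} {F : (ι → ℕ) → ℤ} (δ : ι → ℕ)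
    (h : HasC l (fun α => F (α + δ)) c) : HasC l F c := by
  refine ev_unshift (P := fun α => difs l F α = c) δ (Ev.mono h fun α hα => ?_)
  rw [difs_shift] at hα
  exact hα

theorem degLT_unshift [Fintype ι] {d : ℕ} {F : (ι → ℕ) → ℤ} (δ : ι → ℕ)
    (h : DegLT d (fun α => F (α + δ))) : DegLT d F := fun l hl => hasC_unshift δ (h l hl)

/-- There is no cancellation between functions with nonnegative top constants. -/
theorem noCancel [Fintype ι] {F A B : (ι → ℕ) → ℤ} (δ : ι → ℕ) (hA : NNP A) (hB : NNP B)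
    (hF : ∀ α, F (α + δ) = A α + B (α + δ)) :
    ∀ (k m : ℕ), DegLT m F → DegLT (m + k) A → DegLT (m + k) B → DegLT m A ∧ DegLT m B := by
  intro k
  induction k with
  | zero => exact fun m _ h1 h2 => ⟨h1, h2⟩
  | succ k ih =>
    intro m hm h1 h2
    have key : ∀ l : List ι, l.length = m + k → HasC l A 0 ∧ HasC l B 0 := by
      intro l hl
      obtain ⟨a, ha⟩ := DegLT.hasC (d := m + k) h1 hl
      obtain ⟨b, hb⟩ := DegLT.hasC (d := m + k) h2 hl
      have ha0 := hA (m + k) h1 l hl a ha
      have hb0 := hB (m + k) h2 l hl b hb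
      have h3 : HasC l (fun α => F (α + δ)) (a + b) := by
        have h4 := HasC.add ha (HasC.shift hb δ)
        have h5 : (fun α => F (α + δ)) = A + fun α => B (α + δ) := by
          funext α
          exact hF α
        rw [h5]
        exact h4
      have h4 : HasC l (fun α => F (α + δ)) 0 :=
        HasC.shift ((hm.mono (Nat.le_add_right m k)) l hl) δ
      have h5 := h3.unique h4
      have h6 : a = 0 := by omega
      have h7 : b = 0 := by omega
      rw [h6] at ha
      rw [h7] at hb
      exact ⟨ha, hb⟩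
    exact ih m hm (fun l hl => (key l hl).1) (fun l hl => (key l hl).2)

theorem noCancel' [Fintype ι] {F A B : (ι → ℕ) → ℤ} (δ : ι → ℕ) (hA : NNP A) (hB : NNP B)
    (hF : ∀ α, F (α + δ) = A α + B (α + δ)) (hA' : ∃ m, DegLT m A) (hB' : ∃ m, DegLT m B)
    {m : ℕ} (hm : DegLT m F) : DegLT m A ∧ DegLT m B := by
  obtain ⟨a, ha⟩ := hA'
  obtain ⟨b, hb⟩ := hB'
  exact noCancel δ hA hB hF (a + b) m hm (ha.mono (by omega)) (hb.mono (by omega))

theorem nnp_step [Fintype ι] {F A B : (ι → ℕ) → ℤ} (δ : ι → ℕ) (hA : NNP A) (hB : NNP B)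
    (hF : ∀ α, F (α + δ) = A α + B (α + δ)) (hA' : ∃ m, DegLT m A) (hB' : ∃ m, DegLT m B) :
    NNP F := by
  intro m hm l hl c hc
  obtain ⟨h1, h2⟩ := noCancel' δ hA hB hF hA' hB' hm
  obtain ⟨a, ha⟩ := DegLT.hasC (d := m) h1 hl
  obtain ⟨b, hb⟩ := DegLT.hasC (d := m) h2 hl
  have ha0 := hA m h1 l hl a ha
  have hb0 := hB m h2 l hl b hb
  have h3 : HasC l (fun α => F (α + δ)) (a + b) := by
    have h4 := HasC.add ha (HasC.shift hb δ)
    have h5 : (fun α => F (α + δ)) = A + fun α => B (α + δ) := by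
      funext α
      exact hF α
    rw [h5]
    exact h4
  have h4 := (HasC.shift hc δ).unique h3
  omega

theorem hf_nonneg {K σ : Type} [Field K] (τ : σ → ι) (J : Ideal (MvPolynomial σ K))
    (α : ι → ℕ) : 0 ≤ HF τ J α := by
  unfold HF
  exact Int.natCast_nonneg _

theorem qt_prime {K σ : Type} [Field K] {P : Ideal (MvPolynomial σ K)} (hP : P.IsPrime)
    {f : MvPolynomial σ K} (hf : f ∉ P) : qt P f = P := by
  ext g
  rw [mem_qt]
  constructor
  · intro h
    exact (hP.mem_or_mem h).resolve_left hf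
  · intro h
    exact P.mul_mem_left f h

theorem main (hInd : StInd) (hEx : StExact) (hHF : StHFBasic) (hHom : StHomOps) (hHS : StHS) :
    StNN := by
  intro K σ ι _ _ _ _ τ J hJ
  have hX : ∀ s, (X s : MvPolynomial σ K) ∈ Comp K τ (Pi.single (τ s) 1) := fun s =>
    isWeightedHomogeneous_X K (wt τ) s
  obtain ⟨-, -, hspan, hsup, hqt⟩ := hHom K σ ι τ
  obtain ⟨-, htop, -, hvar, -⟩ := hHF K σ ι τ
  have hsup' : ∀ (J : Ideal (MvPolynomial σ K)), IsHom τ J → ∀ (f : MvPolynomial σ K)
      (δ : ι → ℕ), f ∈ Comp K τ δ → IsHom τ (J ⊔ Ideal.span {f}) := by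
    intro J hJ f δ hf
    refine hsup _ _ hJ (hspan _ fun g hg => ?_)
    rw [Set.mem_singleton_iff] at hg
    subst hg
    exact ⟨δ, hf⟩
  have key : ∀ J : Ideal (MvPolynomial σ K), IsHom τ J → (IsHom τ J → NNP (HF τ J)) := by
    refine hInd K σ ι τ (fun J => IsHom τ J → NNP (HF τ J)) ?_ ?_ ?_
    · intro _ m _ l _ c hc
      have h0 : HF τ (⊤ : Ideal (MvPolynomial σ K)) = 0 := by
        funext α
        exact htop α
      rw [h0] at hc
      obtain ⟨α, hα⟩ := Ev.exists hc
      rw [difs_zero] at hα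
      exact hα.le
    · intro P hP hPh ih _ m hm l hl c hc
      cases l with
      | nil =>
        obtain ⟨α, hα⟩ := Ev.exists hc
        rw [← hα]
        exact hf_nonneg τ P α
      | cons i l =>
        by_cases hall : ∀ s, τ s = i → X s ∈ P
        · have h1 := hvar P i hall
          have h2 : HasC (i :: l) (0 : (ι → ℕ) → ℤ) c := by
            refine HasC.congr hc ⟨1, fun α hα => ?_⟩
            exact h1 α (hα i)
          obtain ⟨α, hα⟩ := Ev.exists h2
          rw [difs_zero] at hα
          exact hα.le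
        · push Not at hall
          obtain ⟨s, hs, hsP⟩ := hall
          have hmem : (X s : MvPolynomial σ K) ∈ Comp K τ (Pi.single i 1) := by
            have := hX s
            rw [hs] at this
            exact this
          have hex := hEx K σ ι τ P hPh (X s) (Pi.single i 1) hmem
          rw [qt_prime hP hsP] at hex
          have hlt : P < P ⊔ Ideal.span {(X s : MvPolynomial σ K)} := by
            refine lt_of_le_of_ne le_sup_left fun h => hsP ?_
            rw [h]
            exact Ideal.mem_sup_right (Ideal.subset_span rfl)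
          have hgood := ih _ (hsup' P hPh _ _ hmem) hlt (hsup' P hPh _ _ hmem)
          have hdif : NP.dif i (HF τ P) = fun α =>
              HF τ (P ⊔ Ideal.span {(X s : MvPolynomial σ K)}) (α + Pi.single i 1) := by
            funext α
            rw [dif_apply, hex α]
            ring
          rw [List.length_cons] at hl
          subst hl
          have h1 : DegLT (l.length + 1) (NP.dif i (HF τ P)) := hm.dif i
          rw [hdif] at h1
          have h2 := degLT_unshift _ h1
          have h3 : HasC l (NP.dif i (HF τ P)) c := hasC_dif.2 hc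
          rw [hdif] at h3
          exact hgood l.length h2 l rfl c (hasC_unshift _ h3)
    · intro J hJ f δ hf _ _ h1 h2 _
      have h3 := hqt J f δ hJ hf
      have h4 := hsup' J hJ f δ hf
      exact nnp_step δ (h1 h3) (h2 h4) (hEx K σ ι τ J hJ f δ hf) (hHS K σ ι τ _ h3)
        (hHS K σ ι τ _ h4)
  exact key J hJ hJ

theorem main2 (hInd : StInd) (hEx : StExact) (hHF : StHFBasic) (hHom : StHomOps)
    (hHS : StHS) : StNC := by
  intro K σ ι _ _ _ _ τ J hJ f δ hf m hm
  have hNN := main hInd hEx hHF hHom hHS K σ ι τ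
  obtain ⟨-, -, hspan, hsup, hqt⟩ := hHom K σ ι τ
  have h3 := hqt J f δ hJ hf
  have h4 : IsHom τ (J ⊔ Ideal.span {f}) := by
    refine hsup _ _ hJ (hspan _ fun g hg => ?_)
    rw [Set.mem_singleton_iff] at hg
    subst hg
    exact ⟨δ, hf⟩
  exact noCancel' δ (hNN _ h3) (hNN _ h4) (hEx K σ ι τ J hJ f δ hf) (hHS K σ ι τ _ h3)
    (hHS K σ ι τ _ h4) hm

end Pool.Agent.Helper93.NP.M_NN
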