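import Pool.Agent.Helper93.NP.St

namespace Pool.Agent.Helper93.NP.M_Null

open MvPolynomial

/-- A matrix with independent rows has a nonzero maximal minor. -/
theorem exists_minor {K : Type} [Field K] {m N : ℕ} (A : Matrix (Fin m) (Fin N) K)
    (h : LinearIndependent K A.row) :
    ∃ s : Fin m → Fin N, Function.Injective s ∧ (A.submatrix id s).det ≠ 0 := by
  obtain ⟨κ, a, ha, hsp, hli⟩ := exists_linearIndependent' K A.col
  have hrk : A.rank = m := by simpa using h.rank_matrix
  have : Finite κ := Finite.of_injective a ha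
  have : Fintype κ := Fintype.ofFinite κ
  have hcard : Fintype.card κ = m := by
    rw [← hrk, Matrix.rank_eq_finrank_span_cols, ← hsp, finrank_span_eq_card hli]
  let e : Fin m ≃ κ := (Fintype.equivFinOfCardEq hcard).symm
  refine ⟨a ∘ e, ha.comp e.injective, ?_⟩
  have h2 : LinearIndependent K ((A.submatrix id (a ∘ e)).col) := by
    have := hli.comp e e.injective
    exact this
  have h3 := Matrix.linearIndependent_cols_iff_isUnit.1 h2
  exact ((Matrix.isUnit_iff_isUnit_det _).1 h3).ne_zero

theorem main : StNull := by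
  intro K _ _ N l M hM
  set I : Ideal (MvPolynomial (Fin 3 ⊕ Fin N) K) :=
    Ideal.span {d | ∃ s : Fin (l + 1) → Fin N, Function.Injective s ∧
          d = Matrix.det (Matrix.of fun (j j' : Fin (l + 1)) =>
            ∑ i, (C (M j (s j') i) * X (Sum.inl i) : MvPolynomial (Fin 3 ⊕ Fin N) K))} with hI
  have key : ∀ i : Fin 3, (X (Sum.inl i) : MvPolynomial (Fin 3 ⊕ Fin N) K) ∈ I.radical := by
    intro i
    rw [← MvPolynomial.vanishingIdeal_zeroLocus_eq_radical (K := K) I]
    intro p hp
    rw [hI, MvPolynomial.zeroLocus_span] at hp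
    have hx : (fun i => p (Sum.inl i)) = (0 : Fin 3 → K) := by
      by_contra hne
      obtain ⟨s, hs, hdet⟩ := exists_minor
        (Matrix.of fun (j : Fin (l + 1)) (k : Fin N) => ∑ i, M j k i * p (Sum.inl i))
        (hM _ hne)
      apply hdet
      have := hp _ ⟨s, hs, rfl⟩
      rw [AlgHom.map_det] at this
      rw [← this]
      congr 1
      ext j j'
      simp
    simpa using congrFun hx i
  choose n hn using fun i => (Ideal.mem_radical_iff.1 (key i))
  refine ⟨∑ i, n i, fun i => ?_⟩
  have : n i ≤ ∑ i, n i := Finset.single_le_sum (fun _ _ => Nat.zero_le _) (Finset.mem_univ i)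
  obtain ⟨c, hc⟩ := Nat.exists_eq_add_of_le this
  rw [hc, pow_add]
  exact I.mul_mem_right _ (hn i)

end Pool.Agent.Helper93.NP.M_Null
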