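import Pool.Agent.Helper93.NP.St

/-! The intersection numbers of the bundle (MP_16deda_ag, module Numbers). -/

namespace Pool.Agent.Helper93.NP.M_Numbers

open MvPolynomial

theorem fM_mem {K : Type} [Field K] {a N : ℕ} (M : Fin a → Fin N → Fin 3 → K) (l : Fin a) :
    fM M l ∈ Comp K (tau N) (Pi.single 0 1 + Pi.single 1 1) := by
  unfold fM
  refine Submodule.sum_mem _ fun k _ => Submodule.sum_mem _ fun i _ => ?_
  rw [mul_assoc, ← smul_eq_C_mul]
  refine Submodule.smul_mem _ _ ?_
  exact (isWeightedHomogeneous_X K (wt (tau N)) (Sum.inl i)).mul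
    (isWeightedHomogeneous_X K (wt (tau N)) (Sum.inr k))

/-! ### Unshifting -/

theorem ev_unshift {ι : Type} [Fintype ι] {P : (ι → ℕ) → Prop} (δ : ι → ℕ)
    (h : Ev (fun α => P (α + δ))) : Ev P := by
  obtain ⟨n, hn⟩ := h
  refine ⟨n + ∑ i, δ i, fun α hα => ?_⟩
  have h1 : ∀ i, δ i ≤ ∑ i, δ i := fun i =>
    Finset.single_le_sum (fun _ _ => Nat.zero_le _) (Finset.mem_univ i)
  have h2 : (fun i => α i - δ i) + δ = α := by
    funext i
    have := hα i
    have := h1 i
    simp only [Pi.add_apply]
    omega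
  have h3 : P ((fun i => α i - δ i) + δ) := hn (fun i => α i - δ i) (fun i => by
    have := hα i
    have := h1 i
    omega)
  rw [h2] at h3
  exact h3

theorem hasC_unshift {ι : Type} [Fintype ι] [DecidableEq ι] {F : (ι → ℕ) → ℤ} (δ : ι → ℕ)
    {L : List ι} {c : ℤ} (h : HasC L (fun α => F (α + δ)) c) : HasC L F c := by
  refine ev_unshift δ (Ev.mono h fun α hα => ?_)
  rw [difs_shift] at hα
  exact hα

/-! ### The polynomial ring -/

/-- The `t`-th difference of `choose (x + r) r`. -/
def G (r t x : ℕ) : ℤ := if t ≤ r then ((x + r).choose (r - t) : ℤ) else 0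

theorem G_succ (r t x : ℕ) : G r t (x + 1) - G r t x = G r (t + 1) x := by
  unfold G
  by_cases h : t + 1 ≤ r
  · have h1 : t ≤ r := by omega
    rw [if_pos h1, if_pos h1, if_pos h]
    obtain ⟨u, hu⟩ : ∃ u, r - t = u + 1 := ⟨r - t - 1, by omega⟩
    have hu' : r - (t + 1) = u := by omega
    rw [hu, hu', show x + 1 + r = (x + r) + 1 by ring, Nat.choose_succ_succ]
    push_cast
    ring
  · rw [if_neg h]
    by_cases h1 : t ≤ r
    · have h2 : r - t = 0 := by omega
      rw [if_pos h1, if_pos h1, h2]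
      simp
    · rw [if_neg h1, if_neg h1, sub_zero]

theorem G_zero (r x : ℕ) : G r 0 x = ((x + r).choose r : ℤ) := by simp [G]

theorem difs_prod (r s : ℕ) (L : List (Fin 2)) :
    difs L (fun α : Fin 2 → ℕ => G r 0 (α 0) * G s 0 (α 1)) =
      fun α => G r (L.count 0) (α 0) * G s (L.count 1) (α 1) := by
  induction L with
  | nil => rfl
  | cons i L ih =>
    funext α
    rw [difs_cons, dif_apply, ih]
    fin_cases i
    · simp only [Fin.zero_eta, Fin.isValue, Pi.add_apply, Pi.single_eq_same, ne_eq,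
        one_ne_zero, not_false_eq_true, Pi.single_eq_of_ne, add_zero, List.count_cons_self]
      rw [← sub_mul, G_succ]
      simp
    · simp only [Fin.mk_one, Fin.isValue, Pi.add_apply, Pi.single_eq_same, ne_eq,
        zero_ne_one, not_false_eq_true, Pi.single_eq_of_ne, add_zero, List.count_cons_self]
      rw [← mul_sub, G_succ]
      simp

theorem count_add (L : List (Fin 2)) : L.count 0 + L.count 1 = L.length := by
  induction L with
  | nil => rfl
  | cons i L ih =>
    rw [List.length_cons, ← ih]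
    fin_cases i <;> simp <;> ring

/-- The top constants. -/
def cc (l i : ℕ) : ℤ := if i ≤ 2 then (l.choose (2 - i) : ℤ) else 0

theorem cc_succ (l i : ℕ) : cc l (i + 1) + cc l i = cc (l + 1) i := by
  unfold cc
  rcases i with _ | _ | _ | i
  · have : (l + 1).choose 2 = l.choose 1 + l.choose 2 := Nat.choose_succ_succ l 1
    simp [this]
  · simp
    ring
  · simp
  · simp

theorem base {K : Type} [Field K] (hb : StBot) (M : Fin 0 → Fin 15 → Fin 3 → K) :
    DegLT 17 (HF (tau 15) (IM M)) ∧ ∀ L : List (Fin 2), L.length = 16 →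
      HasC L (HF (tau 15) (IM M)) (cc 0 (L.count 0)) := by
  have h1 : IM M = ⊥ := by
    unfold IM
    rw [Set.range_eq_empty, Ideal.span_empty]
  have h2 : HF (tau 15) (IM M) = fun α : Fin 2 → ℕ => G 2 0 (α 0) * G 14 0 (α 1) := by
    funext α
    rw [h1, hb K 15 (by norm_num) α, G_zero, G_zero]
    push_cast
    rfl
  constructor
  · intro L hL
    refine Ev.of_forall fun α => ?_
    rw [h2, difs_prod]
    have h3 := count_add L
    rw [hL] at h3
    by_cases h4 : L.count 0 ≤ 2
    · have h5 : ¬ L.count 1 ≤ 14 := by omega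
      have : G 14 (L.count 1) (α 1) = 0 := by unfold G; rw [if_neg h5]
      simp [this]
    · have : G 2 (L.count 0) (α 0) = 0 := by unfold G; rw [if_neg h4]
      simp [this]
  · intro L hL
    refine Ev.of_forall fun α => ?_
    rw [h2, difs_prod]
    have h3 := count_add L
    rw [hL] at h3
    by_cases h4 : L.count 0 ≤ 2
    · by_cases h5 : L.count 1 ≤ 14
      · have h6 : L.count 0 = 2 := by omega
        have h7 : L.count 1 = 14 := by omega
        simp only [h6, h7]
        simp [G, cc]
      · have : G 14 (L.count 1) (α 1) = 0 := by unfold G; rw [if_neg h5]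
        have h8 : L.count 0 < 2 := by omega
        simp only [this, mul_zero]
        unfold cc
        rw [if_pos h4, Nat.choose_eq_zero_of_lt (by omega)]
        rfl
    · have : G 2 (L.count 0) (α 0) = 0 := by unfold G; rw [if_neg h4]
      simp only [this, zero_mul]
      unfold cc
      rw [if_neg h4]

theorem step {K : Type} [Field K] [IsAlgClosed K] (hR : StReg) (hE : StExact) (hO : StHomOps)
    (l : ℕ) (hl : l < 16) (M : Fin (l + 1) → Fin 15 → Fin 3 → K) (hM : IsBundle M)
    (ih : DegLT (17 - l) (HF (tau 15) (IM (fun j : Fin l => M j.castSucc))) ∧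
      ∀ L : List (Fin 2), L.length = 16 - l →
        HasC L (HF (tau 15) (IM (fun j : Fin l => M j.castSucc))) (cc l (L.count 0))) :
    DegLT (17 - (l + 1)) (HF (tau 15) (IM M)) ∧
      ∀ L : List (Fin 2), L.length = 16 - (l + 1) →
        HasC L (HF (tau 15) (IM M)) (cc (l + 1) (L.count 0)) := by
  obtain ⟨a0, ha0⟩ := hR K 15 l M hM
  obtain ⟨_, _, hspan, _, _⟩ := hO K (Fin 3 ⊕ Fin 15) (Fin 2) (tau 15)
  have hIH : IsHom (tau 15) (IM (fun j : Fin l => M j.castSucc)) := by
    apply hspan
    rintro f ⟨j, rfl⟩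
    exact ⟨_, fM_mem _ _⟩
  have hsup : IM (fun j : Fin l => M j.castSucc) ⊔ Ideal.span {fM M (Fin.last l)} = IM M := by
    unfold IM
    rw [← Ideal.span_union]
    congr 1
    ext f
    constructor
    · rintro (⟨j, rfl⟩ | hf)
      · exact ⟨j.castSucc, rfl⟩
      · rw [Set.mem_singleton_iff] at hf
        exact ⟨Fin.last l, hf.symm⟩
    · rintro ⟨j, rfl⟩
      refine Fin.lastCases ?_ (fun j => ?_) j
      · exact Or.inr rfl
      · exact Or.inl ⟨j, rfl⟩
  set δ : Fin 2 → ℕ := Pi.single 0 1 + Pi.single 1 1 with hδ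
  set F := HF (tau 15) (IM (fun j : Fin l => M j.castSucc)) with hF
  have hev : Ev (fun α : Fin 2 → ℕ => F (α + δ) - F α =
      (fun α => HF (tau 15) (IM M) (α + δ)) α) := by
    refine ⟨a0, fun α hα => ?_⟩
    have e1 := hE K (Fin 3 ⊕ Fin 15) (Fin 2) (tau 15) _ hIH (fM M (Fin.last l)) δ
      (fM_mem M (Fin.last l)) α
    rw [ha0 α (hα 0), hsup] at e1
    simp only [hF]
    linarith
  obtain ⟨d, hd⟩ : ∃ d, 17 - l = d + 1 := ⟨16 - l, by omega⟩
  have hd' : 17 - (l + 1) = d := by omega
  rw [hd] at ih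
  obtain ⟨k1, k2⟩ := ih.1.shift_sub δ
  rw [hd']
  constructor
  · intro L hL
    have h1 : HasC L (fun α => F (α + δ) - F α) 0 := k1 L hL
    exact hasC_unshift δ (h1.congr hev)
  · intro L hL
    have h1 := k2 L (by omega) (fun i => cc l ((i :: L).count 0))
      (fun i => ih.2 (i :: L) (by rw [List.length_cons]; omega))
    have h2 : ∑ i, ((δ i : ℕ) : ℤ) * cc l ((i :: L).count 0) = cc (l + 1) (L.count 0) := by
      rw [Fin.sum_univ_two, ← cc_succ]
      simp [hδ]
    rw [h2] at h1
    exact hasC_unshift δ (h1.congr hev)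

theorem all {K : Type} [Field K] [IsAlgClosed K] (hR : StReg) (hE : StExact) (hb : StBot)
    (hO : StHomOps) (l : ℕ) (hl : l ≤ 16) (M : Fin l → Fin 15 → Fin 3 → K)
    (hM : IsBundle M) :
    DegLT (17 - l) (HF (tau 15) (IM M)) ∧
      ∀ L : List (Fin 2), L.length = 16 - l →
        HasC L (HF (tau 15) (IM M)) (cc l (L.count 0)) := by
  induction l with
  | zero => exact base hb M
  | succ l ih =>
    refine step hR hE hO l (by omega) M hM (ih (by omega) _ fun x hx => ?_)
    exact (hM x hx).comp _ (Fin.castSucc_injective l)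

theorem main (hR : StReg) (hE : StExact) (hb : StBot) (hO : StHomOps) : StNumbers := by
  intro K _ _ M hM
  obtain ⟨h1, h2⟩ := all hR hE hb hO 10 (by norm_num) M hM
  refine ⟨h1, fun j hj => ?_⟩
  have h3 := h2 (List.replicate j 0 ++ List.replicate (6 - j) 1) (by
    rw [List.length_append, List.length_replicate, List.length_replicate]
    omega)
  have h4 : (List.replicate j (0 : Fin 2) ++ List.replicate (6 - j) 1).count 0 = j := by
    rw [List.count_append, List.count_replicate_self, List.count_replicate]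
    simp
  rw [h4] at h3
  have h5 : (if j = 0 then (45 : ℤ) else if j = 1 then 10 else if j = 2 then 1 else 0) =
      cc 10 j := by
    interval_cases j <;> rfl
  show HasC _ _ (if j = 0 then (45 : ℤ) else if j = 1 then 10 else if j = 2 then 1 else 0)
  rw [h5]
  exact h3

end Pool.Agent.Helper93.NP.M_Numbers
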