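import Pool.Agent.Helper93.NP.St

/-! The numerical deduction. -/

set_option autoImplicit false

namespace Pool.Agent.Helper93.NP.M_Numeric

open Pool.Agent.Helper93.NP

theorem ev_unshift {ι : Type} [Fintype ι] {P : (ι → ℕ) → Prop} (δ : ι → ℕ)
    (h : Ev (fun α => P (α + δ))) : Ev P := by
  obtain ⟨n, hn⟩ := h
  refine ⟨n + ∑ i, δ i, fun α hα => ?_⟩
  have h1 : ∀ i, δ i ≤ ∑ j, δ j := fun i =>
    Finset.single_le_sum (fun j _ => Nat.zero_le _) (Finset.mem_univ i)
  have h2 := hn (α - δ) fun i => by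
    have h3 := h1 i
    have h4 := hα i
    rw [Pi.sub_apply]
    omega
  have h5 : α - δ + δ = α := by
    funext i
    have h3 := h1 i
    have h4 := hα i
    rw [Pi.add_apply, Pi.sub_apply]
    omega
  change P (α - δ + δ) at h2
  rwa [h5] at h2

theorem degLT_unshift {ι : Type} [Fintype ι] [DecidableEq ι] {d : ℕ} {F : (ι → ℕ) → ℤ}
    (δ : ι → ℕ) (h : DegLT d (fun α => F (α + δ))) : DegLT d F := by
  intro l hl
  have h1 := h l hl
  rw [difs_shift] at h1
  exact ev_unshift δ h1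

/-- The slices. -/
def slice (F : (Fin 3 → ℕ) → ℤ) (m : ℕ) : (Fin 2 → ℕ) → ℤ := fun β => F ![β 0, β 1, m]

theorem difs_slice (F : (Fin 3 → ℕ) → ℤ) (m : ℕ) (l : List (Fin 2)) (β : Fin 2 → ℕ) :
    difs (l.map Fin.castSucc) F ![β 0, β 1, m] = difs l (slice F m) β := by
  induction l generalizing β with
  | nil => rfl
  | cons i l ih =>
    rw [List.map_cons, difs_cons, difs_cons, dif_apply, dif_apply, ← ih, ← ih]
    congr 2
    funext j
    fin_cases i <;> fin_cases j <;> rfl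

theorem exists_map_castSucc (l : List (Fin 3)) (h : l.count 2 = 0) :
    ∃ l' : List (Fin 2), l = l'.map Fin.castSucc := by
  induction l with
  | nil => exact ⟨[], rfl⟩
  | cons i l ih =>
    rw [List.count_cons] at h
    obtain ⟨l', rfl⟩ := ih (by omega)
    have hi : i ≠ 2 := by
      rintro rfl
      simp at h
    have h3 : ∃ i' : Fin 2, i = i'.castSucc := by
      fin_cases i
      · exact ⟨0, rfl⟩
      · exact ⟨1, rfl⟩
      · exact absurd rfl hi
    obtain ⟨i', rfl⟩ := h3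
    exact ⟨i' :: l', rfl⟩

theorem slice_degLT {F : (Fin 3 → ℕ) → ℤ} {H : (Fin 2 → ℕ) → ℤ} (hH : DegLT 5 H)
    (h0 : ∀ a b : ℕ, F ![a, b, 0] = H ![a, b]) {a₀ : ℕ}
    (hrec : ∀ a b m : ℕ, a₀ ≤ a →
      F ![a + 3, b, m + 1] = F ![a, b + 1, m] + H ![a + 3 + 5 * (m + 1), b]) (m : ℕ) :
    DegLT 5 (slice F m) := by
  induction m with
  | zero =>
    have h1 : slice F 0 = H := by
      funext β
      rw [slice, h0]
      congr 1
      funext j
      fin_cases j <;> rfl
    rw [h1]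
    exact hH
  | succ m ih =>
    refine degLT_unshift ![3, 0] ?_
    have h1 := (ih.shift ![0, 1]).add (hH.shift ![3 + 5 * (m + 1), 0])
    refine h1.congr ⟨a₀, fun β hβ => ?_⟩
    have h2 := hrec (β 0) (β 1) m (hβ 0)
    have e1 : (β + ![0, 1] : Fin 2 → ℕ) 0 = β 0 := rfl
    have e2 : (β + ![0, 1] : Fin 2 → ℕ) 1 = β 1 + 1 := rfl
    have e3 : (β + ![3, 0] : Fin 2 → ℕ) 0 = β 0 + 3 := rfl
    have e4 : (β + ![3, 0] : Fin 2 → ℕ) 1 = β 1 := rfl
    have e5 : (β + ![3 + 5 * (m + 1), 0] : Fin 2 → ℕ) = ![β 0 + 3 + 5 * (m + 1), β 1] := by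
      funext j
      fin_cases j
      · change β 0 + (3 + 5 * (m + 1)) = β 0 + 3 + 5 * (m + 1)
        ring
      · rfl
    change slice F m (β + ![0, 1]) + H (β + ![3 + 5 * (m + 1), 0]) = slice F (m + 1) (β + ![3, 0])
    rw [slice, slice, e1, e2, e3, e4, e5, h2]

theorem const_zero {F : (Fin 3 → ℕ) → ℤ} {H : (Fin 2 → ℕ) → ℤ} (hH : DegLT 5 H)
    (h0 : ∀ a b : ℕ, F ![a, b, 0] = H ![a, b]) {a₀ : ℕ}
    (hrec : ∀ a b m : ℕ, a₀ ≤ a →
      F ![a + 3, b, m + 1] = F ![a, b + 1, m] + H ![a + 3 + 5 * (m + 1), b])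
    (l : List (Fin 3)) (hl : 5 ≤ l.length) (h2 : l.count 2 = 0) (c : ℤ) (hc : HasC l F c) :
    c = 0 := by
  obtain ⟨l', rfl⟩ := exists_map_castSucc l h2
  obtain ⟨n, hn⟩ := hc
  rw [List.length_map] at hl
  obtain ⟨n', hn'⟩ := (slice_degLT hH h0 hrec n).mono hl l' rfl
  have h3 := hn ![n + n', n + n', n] (fun i => by fin_cases i <;> simp)
  have h4 := hn' ![n + n', n + n'] (fun i => by fin_cases i <;> simp)
  have h5 := difs_slice F n l' ![n + n', n + n']
  rw [← h3, ← h4, ← h5]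
  rfl

/-- The pull back. -/
def pb (H : (Fin 2 → ℕ) → ℤ) : (Fin 3 → ℕ) → ℤ := fun α => H ![α 0 + 8 + 5 * α 2, α 1]

theorem pb_dif0 (H : (Fin 2 → ℕ) → ℤ) : dif 0 (pb H) = pb (dif 0 H) := by
  funext α
  rw [dif_apply, pb, pb, pb, dif_apply]
  congr 2
  funext j
  fin_cases j
  · change α 0 + 1 + 8 + 5 * (α 2 + 0) = α 0 + 8 + 5 * α 2 + 1
    ring
  · rfl

theorem pb_dif1 (H : (Fin 2 → ℕ) → ℤ) : dif 1 (pb H) = pb (dif 1 H) := by
  funext α
  rw [dif_apply, pb, pb, pb, dif_apply]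
  congr 2
  funext j
  fin_cases j
  · rfl
  · rfl

theorem pb_dif2 (H : (Fin 2 → ℕ) → ℤ) :
    dif 2 (pb H) = pb (fun β => H (β + ![5, 0]) - H β) := by
  funext α
  rw [dif_apply, pb, pb, pb]
  congr 2
  funext j
  fin_cases j
  · change α 0 + 0 + 8 + 5 * (α 2 + 1) = α 0 + 8 + 5 * α 2 + 5
    ring
  · rfl

theorem pb_ev {P : (Fin 2 → ℕ) → Prop} (h : Ev P) :
    Ev (fun α : Fin 3 → ℕ => P ![α 0 + 8 + 5 * α 2, α 1]) := by
  obtain ⟨n, hn⟩ := h
  refine ⟨n, fun α hα => hn _ fun i => ?_⟩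
  have h0 := hα 0
  have h1 := hα 1
  fin_cases i
  · change n ≤ α 0 + 8 + 5 * α 2
    omega
  · exact h1

theorem pb_degLT (d : ℕ) : ∀ H : (Fin 2 → ℕ) → ℤ, DegLT d H → DegLT d (pb H) := by
  induction d with
  | zero =>
    intro H hH l hl
    rw [List.length_eq_zero_iff] at hl
    subst hl
    exact pb_ev (hH [] rfl)
  | succ d ih =>
    intro H hH
    refine DegLT.of_dif fun i => ?_
    fin_cases i
    · change DegLT d (dif 0 (pb H))
      rw [pb_dif0]
      exact ih _ (hH.dif 0)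
    · change DegLT d (dif 1 (pb H))
      rw [pb_dif1]
      exact ih _ (hH.dif 1)
    · change DegLT d (dif 2 (pb H))
      rw [pb_dif2]
      exact ih _ (hH.shift_sub ![5, 0]).1

/-- The direction `2` of the pull back becomes the direction `0`. -/
def pr (i : Fin 3) : Fin 2 := if i = 1 then 1 else 0

theorem pb_hasC (l : List (Fin 3)) : ∀ H : (Fin 2 → ℕ) → ℤ, DegLT (l.length + 1) H →
    ∀ c, HasC (l.map pr) H c → HasC l (pb H) (5 ^ l.count 2 * c) := by
  induction l with
  | nil =>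
    intro H _ c hc
    rw [List.count_nil, pow_zero, one_mul]
    exact pb_ev hc
  | cons i l ih =>
    intro H hH c hc
    rw [List.map_cons] at hc
    rw [List.length_cons] at hH
    rw [← hasC_dif, List.count_cons]
    fin_cases i
    · change HasC l (dif 0 (pb H)) (5 ^ (l.count 2 + 0) * c)
      rw [pb_dif0, add_zero]
      exact ih _ (hH.dif 0) _ (hasC_dif.2 hc)
    · change HasC l (dif 1 (pb H)) (5 ^ (l.count 2 + 0) * c)
      rw [pb_dif1, add_zero]
      exact ih _ (hH.dif 1) _ (hasC_dif.2 hc)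
    · change HasC l (dif 2 (pb H)) (5 ^ (l.count 2 + 1) * c)
      have hc' : HasC (0 :: l.map pr) H c := hc
      obtain ⟨c1, hc1⟩ := hH.hasC (l := 1 :: l.map pr) (by simp)
      have h1 := hH.shift_sub ![5, 0]
      have h2 := h1.2 (l.map pr) (by simp) ![c, c1] (fun j => by
        fin_cases j
        · exact hc'
        · exact hc1)
      rw [Fin.sum_univ_two] at h2
      have h3 : ((![5, 0] : Fin 2 → ℕ) 0 : ℤ) * (![c, c1] : Fin 2 → ℤ) 0 +
          ((![5, 0] : Fin 2 → ℕ) 1 : ℤ) * (![c, c1] : Fin 2 → ℤ) 1 = 5 * c := by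
        change (5 : ℤ) * c + ((0 : ℕ) : ℤ) * c1 = 5 * c
        push_cast
        ring
      rw [h3] at h2
      rw [pb_dif2, pow_succ, mul_assoc]
      exact ih _ h1.1 _ h2

/-- The relation between the constants. -/
theorem rel {F : (Fin 3 → ℕ) → ℤ} {H : (Fin 2 → ℕ) → ℤ} {a₀ : ℕ}
    (hrec : ∀ a b m : ℕ, a₀ ≤ a →
      F ![a + 3, b, m + 1] = F ![a, b + 1, m] + H ![a + 3 + 5 * (m + 1), b])
    {d : ℕ} (hF : DegLT (d + 1) F) (l : List (Fin 3)) (hl : l.length + 1 = d) (c0 c1 c2 g : ℤ)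
    (h0 : HasC (0 :: l) F c0) (h1 : HasC (1 :: l) F c1) (h2 : HasC (2 :: l) F c2)
    (hg : HasC l (pb H) g) : c2 = c1 - 3 * c0 + g := by
  have hC : ∀ i : Fin 3, HasC (i :: l) F ((![c0, c1, c2] : Fin 3 → ℤ) i) := by
    intro i
    fin_cases i
    · exact h0
    · exact h1
    · exact h2
  have k1 := (hF.shift_sub ![3, 0, 1]).2 l hl ![c0, c1, c2] hC
  have k2 := (hF.shift_sub ![0, 1, 0]).2 l hl ![c0, c1, c2] hC
  rw [Fin.sum_univ_three] at k1 k2
  have e1 : ((![3, 0, 1] : Fin 3 → ℕ) 0 : ℤ) * (![c0, c1, c2] : Fin 3 → ℤ) 0 +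
      ((![3, 0, 1] : Fin 3 → ℕ) 1 : ℤ) * (![c0, c1, c2] : Fin 3 → ℤ) 1 +
      ((![3, 0, 1] : Fin 3 → ℕ) 2 : ℤ) * (![c0, c1, c2] : Fin 3 → ℤ) 2 = 3 * c0 + c2 := by
    change ((3 : ℕ) : ℤ) * c0 + ((0 : ℕ) : ℤ) * c1 + ((1 : ℕ) : ℤ) * c2 = 3 * c0 + c2
    push_cast
    ring
  have e2 : ((![0, 1, 0] : Fin 3 → ℕ) 0 : ℤ) * (![c0, c1, c2] : Fin 3 → ℤ) 0 +
      ((![0, 1, 0] : Fin 3 → ℕ) 1 : ℤ) * (![c0, c1, c2] : Fin 3 → ℤ) 1 +
      ((![0, 1, 0] : Fin 3 → ℕ) 2 : ℤ) * (![c0, c1, c2] : Fin 3 → ℤ) 2 = c1 := by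
    change ((0 : ℕ) : ℤ) * c0 + ((1 : ℕ) : ℤ) * c1 + ((0 : ℕ) : ℤ) * c2 = c1
    push_cast
    ring
  rw [e1] at k1
  rw [e2] at k2
  have k3 := k1.sub k2
  have k4 : HasC l (pb H) (3 * c0 + c2 - c1) := by
    refine k3.congr ⟨a₀, fun α hα => ?_⟩
    have h3 := hrec (α 0) (α 1) (α 2) (hα 0)
    have f1 : α + ![3, 0, 1] = ![α 0 + 3, α 1, α 2 + 1] := by
      funext j
      fin_cases j <;> rfl
    have f2 : α + ![0, 1, 0] = ![α 0, α 1 + 1, α 2] := by
      funext j
      fin_cases j <;> rfl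
    have f3 : α 0 + 3 + 5 * (α 2 + 1) = α 0 + 8 + 5 * α 2 := by ring
    rw [f3] at h3
    simp only [Pi.sub_apply]
    rw [f1, f2, h3, pb]
    ring
  have h4 := k4.unique hg
  linarith

theorem degLT_six {F : (Fin 3 → ℕ) → ℤ} {H : (Fin 2 → ℕ) → ℤ} (hH : DegLT 5 H)
    (h0 : ∀ a b : ℕ, F ![a, b, 0] = H ![a, b]) {a₀ : ℕ}
    (hrec : ∀ a b m : ℕ, a₀ ≤ a →
      F ![a + 3, b, m + 1] = F ![a, b + 1, m] + H ![a + 3 + 5 * (m + 1), b])
    (hF : ∃ m, DegLT m F) : DegLT 6 F := by
  obtain ⟨m, hm⟩ := hF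
  have hm' : DegLT (6 + m) F := hm.mono (by omega)
  clear hm
  induction m with
  | zero => exact hm'
  | succ m ih =>
    refine ih ?_
    have hF' : DegLT (6 + m + 1) F := hm'
    have key : ∀ k : ℕ, ∀ l : List (Fin 3), l.length = 6 + m → l.count 2 = k → HasC l F 0 := by
      intro k
      induction k with
      | zero =>
        intro l hl hk
        obtain ⟨c, hc⟩ := hF'.hasC hl
        rw [const_zero hH h0 hrec l (by omega) hk c hc] at hc
        exact hc
      | succ k ihk =>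
        intro l hl hk
        have hmem : (2 : Fin 3) ∈ l := List.count_pos_iff.1 (by omega)
        have hperm : l.Perm (2 :: l.erase 2) := List.perm_cons_erase hmem
        have hlen : (l.erase 2).length + 1 = 6 + m := by
          rw [List.length_erase_of_mem hmem]
          omega
        have hcnt : (l.erase 2).count 2 = k := by
          rw [List.count_erase_self]
          omega
        obtain ⟨c, hc⟩ := hF'.hasC (l := 2 :: l.erase 2) (by simpa using hlen)
        have h1 := ihk (1 :: l.erase 2) (by simpa using hlen) (by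
          rw [List.count_cons]
          simpa using hcnt)
        have h2 := ihk (0 :: l.erase 2) (by simpa using hlen) (by
          rw [List.count_cons]
          simpa using hcnt)
        have hg : HasC (l.erase 2) (pb H) 0 :=
          (pb_degLT 5 H hH).mono (d' := (l.erase 2).length) (by omega) _ rfl
        have h3 := rel hrec hF' (l.erase 2) hlen 0 0 c 0 h2 h1 hc hg
        have h4 : c = 0 := by linarith
        rw [h4] at hc
        exact hc.perm hperm.symm
    exact fun l hl => key _ l hl rfl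

/-- The canonical lists. -/
def can (k i : ℕ) : List (Fin 3) :=
  List.replicate k 2 ++ (List.replicate (5 - i - k) 1 ++ List.replicate i 0)

theorem main : StNumeric := by
  intro F H hF hpos hH hH3 h0 ⟨a₀, hrec⟩
  have h6 := degLT_six hH h0 hrec hF
  -- the constants of `H`
  have hD : ∀ r : ℕ, ∃ c, r ≤ 4 → HasC (List.replicate (4 - r) 1 ++ List.replicate r 0) H c := by
    intro r
    by_cases hr : r ≤ 4
    · obtain ⟨c, hc⟩ := hH.hasC (d := 4) (l := List.replicate (4 - r) 1 ++ List.replicate r 0)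
        (by simp; omega)
      exact ⟨c, fun _ => hc⟩
    · exact ⟨0, fun h => absurd h hr⟩
  choose D hD using hD
  -- the constants of `F`
  have hU : ∀ k i : ℕ, ∃ c, k + i ≤ 5 → HasC (can k i) F c := by
    intro k i
    by_cases hr : k + i ≤ 5
    · obtain ⟨c, hc⟩ := h6.hasC (d := 5) (l := can k i) (by simp [can]; omega)
      exact ⟨c, fun _ => hc⟩
    · exact ⟨0, fun h => absurd h hr⟩
  choose U hU using hU
  have hU0 : ∀ i, i ≤ 5 → U 0 i = 0 := fun i hi =>
    const_zero hH h0 hrec (can 0 i) (by simp [can]; omega)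
      (by simp [can, List.count_append, List.count_replicate]) _ (hU 0 i (by omega))
  have hrel : ∀ k i, k + i ≤ 4 → U (k + 1) i = U k i - 3 * U k (i + 1) + 5 ^ k * D (i + k) := by
    intro k i hki
    set l : List (Fin 3) :=
      List.replicate k 2 ++ (List.replicate (4 - i - k) 1 ++ List.replicate i 0) with hl
    have hlen : l.length + 1 = 5 := by
      rw [hl]
      simp
      omega
    have hcnt : l.count 2 = k := by
      rw [hl]
      simp [List.count_append, List.count_replicate]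
    -- the constant of the pull back
    have hg : HasC l (pb H) (5 ^ k * D (i + k)) := by
      have h1 := pb_hasC l H (by
        rw [hlen]
        exact hH) (D (i + k)) ((hD (i + k) (by omega)).perm ?_)
      · rw [hcnt] at h1
        exact h1
      · rw [hl, List.map_append, List.map_append, List.map_replicate, List.map_replicate,
          List.map_replicate]
        change (List.replicate (4 - (i + k)) (1 : Fin 2) ++ List.replicate (i + k) 0).Perm
          (List.replicate k 0 ++ (List.replicate (4 - i - k) 1 ++ List.replicate i 0))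
        rw [Nat.sub_sub, List.replicate_add]
        refine List.perm_iff_count.2 fun x => ?_
        simp only [List.count_append]
        omega
    have h2 : can (k + 1) i = 2 :: l := by
      rw [can, hl, List.replicate_succ, show 5 - i - (k + 1) = 4 - i - k by omega]
      rfl
    have h1 : (can k i).Perm (1 :: l) := by
      rw [can, hl, show 5 - i - k = 4 - i - k + 1 by omega, List.replicate_succ]
      exact List.perm_middle
    have h0' : (can k (i + 1)).Perm (0 :: l) := by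
      rw [can, hl, show 5 - (i + 1) - k = 4 - i - k by omega, List.replicate_succ]
      refine List.perm_iff_count.2 fun x => ?_
      simp only [List.count_append, List.count_cons]
      omega
    refine rel hrec h6 l hlen (U k (i + 1)) (U k i) (U (k + 1) i) _
      ((hU k (i + 1) (by omega)).perm h0') ((hU k i (by omega)).perm h1) ?_ hg
    rw [← h2]
    exact hU (k + 1) i (by omega)
  have hD3 : D 3 = 0 := hH3 _ _ (hD 3 (by norm_num)) (by decide)
  have hD4 : D 4 = 0 := hH3 _ _ (hD 4 (by norm_num)) (by decide)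
  have r1 := fun i (h : i ≤ 4) => hrel 0 i (by omega)
  have r2 := fun i (h : i ≤ 3) => hrel 1 i (by omega)
  have r3 := fun i (h : i ≤ 2) => hrel 2 i (by omega)
  have r4 := fun i (h : i ≤ 1) => hrel 3 i (by omega)
  have r5 := hrel 4 0 (by omega)
  have a0 := hU0 0 (by norm_num)
  have a1 := hU0 1 (by norm_num)
  have a2 := hU0 2 (by norm_num)
  have a3 := hU0 3 (by norm_num)
  have a4 := hU0 4 (by norm_num)
  have a5 := hU0 5 (by norm_num)
  have b0 := r1 0 (by norm_num)
  have b1 := r1 1 (by norm_num)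
  have b2 := r1 2 (by norm_num)
  have b3 := r1 3 (by norm_num)
  have b4 := r1 4 (by norm_num)
  have c0 := r2 0 (by norm_num)
  have c1 := r2 1 (by norm_num)
  have c2 := r2 2 (by norm_num)
  have c3 := r2 3 (by norm_num)
  have d0 := r3 0 (by norm_num)
  have d1 := r3 1 (by norm_num)
  have d2 := r3 2 (by norm_num)
  have e0 := r4 0 (by norm_num)
  have e1 := r4 1 (by norm_num)
  norm_num at a0 a1 a2 a3 a4 a5 b0 b1 b2 b3 b4 c0 c1 c2 c3 d0 d1 d2 e0 e1 r5
  have hfin : U 5 0 = D 0 - 7 * D 1 + 34 * D 2 := by linarith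
  have hnn : 0 ≤ U 5 0 := hpos 5 h6 (can 5 0) rfl _ (hU 5 0 (by norm_num))
  have g0 : HasC [1, 1, 1, 1] H (D 0) := hD 0 (by norm_num)
  have g1 : HasC [0, 1, 1, 1] H (D 1) := (hD 1 (by norm_num)).perm (by decide)
  have g2 : HasC [0, 0, 1, 1] H (D 2) := (hD 2 (by norm_num)).perm (by decide)
  refine (Ev.and3 g0 g1 g2).mono fun α hα => ?_
  obtain ⟨x0, x1, x2⟩ := hα
  simp only [app, List.map_cons, List.map_nil, List.sum_cons, List.sum_nil, x0, x1, x2]
  linarith

end Pool.Agent.Helper93.NP.M_Numeric
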