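import Pool.Agent.Helper93.NP.St
import Pool.Agent.Helper93.NP.M_HFBasic

/-!
Part I: `h ξ - 4 h²` is nonnegative on surfaces in the bundle of the catalecticant matrix.
-/

namespace Pool.Agent.Helper93.NP.M_PartI

open MvPolynomial Module

/-! ### General lemmas -/

theorem ev_unshift {ι : Type} [Fintype ι] {P : (ι → ℕ) → Prop} (δ : ι → ℕ)
    (h : Ev (fun α => P (α + δ))) : Ev P := by
  obtain ⟨n, hn⟩ := h
  refine ⟨n + ∑ i, δ i, fun β hβ => ?_⟩
  have h1 : ∀ i, δ i ≤ ∑ j, δ j := fun i =>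
    Finset.single_le_sum (fun _ _ => Nat.zero_le _) (Finset.mem_univ i)
  have h2 := hn (β - δ) (fun i => by
    have h3 := hβ i
    have h4 := h1 i
    simp only [Pi.sub_apply]
    omega)
  have h3 : β - δ + δ = β := by
    funext i
    have h3 := hβ i
    have h4 := h1 i
    simp only [Pi.add_apply, Pi.sub_apply]
    omega
  have h4 : P (β - δ + δ) := h2
  rwa [h3] at h4

theorem hasC_unshift {ι : Type} [Fintype ι] [DecidableEq ι] {l : List ι} {F : (ι → ℕ) → ℤ}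
    {c : ℤ} (δ : ι → ℕ) (h : HasC l (fun α => F (α + δ)) c) : HasC l F c := by
  unfold HasC at *
  rw [difs_shift] at h
  exact ev_unshift (P := fun α => difs l F α = c) δ h

theorem degLT_unshift {ι : Type} [Fintype ι] [DecidableEq ι] {d : ℕ} {F : (ι → ℕ) → ℤ}
    (δ : ι → ℕ) (h : DegLT d (fun α => F (α + δ))) : DegLT d F :=
  fun l hl => hasC_unshift δ (h l hl)

theorem qt_eq {R : Type} [CommRing R] {P : Ideal R} (hP : P.IsPrime) {f : R} (hf : f ∉ P) :
    qt P f = P := by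
  ext g
  rw [mem_qt]
  constructor
  · intro h
    exact (hP.mem_or_mem h).resolve_left hf
  · intro h
    exact P.mul_mem_left _ h

/-- Cutting a prime ideal with a homogeneous element. -/
theorem cut (hEx : StExact) {K σ ι : Type} [Field K] [Fintype σ] [Fintype ι] [DecidableEq ι]
    (τ : σ → ι) {P : Ideal (MvPolynomial σ K)} (hP : P.IsPrime) (hH : IsHom τ P)
    {f : MvPolynomial σ K} {δ : ι → ℕ} (hf : f ∈ Comp K τ δ) (hfP : f ∉ P) (α : ι → ℕ) :
    HF τ (P ⊔ Ideal.span {f}) (α + δ) = HF τ P (α + δ) - HF τ P α := by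
  have h1 := hEx K σ ι τ P hH f δ hf α
  rw [qt_eq hP hfP] at h1
  linarith

theorem cut_deg (hEx : StExact) {K σ ι : Type} [Field K] [Fintype σ] [Fintype ι] [DecidableEq ι]
    (τ : σ → ι) {P : Ideal (MvPolynomial σ K)} (hP : P.IsPrime) (hH : IsHom τ P)
    {f : MvPolynomial σ K} {δ : ι → ℕ} (hf : f ∈ Comp K τ δ) (hfP : f ∉ P) {d : ℕ}
    (hd : DegLT (d + 1) (HF τ P)) :
    DegLT d (HF τ (P ⊔ Ideal.span {f})) ∧
      ∀ l : List ι, l.length + 1 = d → ∀ C : ι → ℤ, (∀ i, HasC (i :: l) (HF τ P) (C i)) →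
        HasC l (HF τ (P ⊔ Ideal.span {f})) (∑ i, (δ i : ℤ) * C i) := by
  have h1 := hd.shift_sub δ
  have h2 : (fun α => HF τ P (α + δ) - HF τ P α) =
      fun α => HF τ (P ⊔ Ideal.span {f}) (α + δ) := by
    funext α
    exact (cut hEx τ hP hH hf hfP α).symm
  rw [h2] at h1
  exact ⟨degLT_unshift δ h1.1, fun l hl C hC => hasC_unshift δ (h1.2 l hl C hC)⟩

theorem isHom_sup_span (hHO : StHomOps) {K σ ι : Type} [Field K] [Fintype σ] [Fintype ι]
    [DecidableEq ι] (τ : σ → ι) {P : Ideal (MvPolynomial σ K)} (hH : IsHom τ P)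
    {f : MvPolynomial σ K} {δ : ι → ℕ} (hf : f ∈ Comp K τ δ) :
    IsHom τ (P ⊔ Ideal.span {f}) := by
  obtain ⟨-, -, h3, h4, -⟩ := hHO K σ ι τ
  refine h4 _ _ hH (h3 {f} fun g hg => ?_)
  rw [Set.mem_singleton_iff] at hg
  exact ⟨δ, by rw [hg]; exact hf⟩

/-! ### Forms in `x` and in `y` -/

theorem wt_inl (N : ℕ) (i : Fin 3) : wt (tau N) (Sum.inl i) = ![1, 0] := by
  funext j
  rw [wt]
  fin_cases j <;> simp [tau]

theorem wt_inr (N : ℕ) (k : Fin N) : wt (tau N) (Sum.inr k) = ![0, 1] := by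
  funext j
  rw [wt]
  fin_cases j <;> simp [tau]

theorem X_inl_mem {K : Type} [Field K] (N : ℕ) (i : Fin 3) :
    (X (Sum.inl i) : MvPolynomial (Fin 3 ⊕ Fin N) K) ∈ Comp K (tau N) ![1, 0] := by
  have h := isWeightedHomogeneous_X K (wt (tau N)) (Sum.inl i)
  rw [wt_inl] at h
  exact h

theorem X_inr_mem {K : Type} [Field K] (N : ℕ) (k : Fin N) :
    (X (Sum.inr k) : MvPolynomial (Fin 3 ⊕ Fin N) K) ∈ Comp K (tau N) ![0, 1] := by
  have h := isWeightedHomogeneous_X K (wt (tau N)) (Sum.inr k)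
  rw [wt_inr] at h
  exact h

theorem C_mul_mem {K σ ι : Type} [Field K] [DecidableEq ι] (τ : σ → ι) {d : ι → ℕ} (c : K)
    {f : MvPolynomial σ K} (hf : f ∈ Comp K τ d) : C c * f ∈ Comp K τ d := by
  rw [C_mul']
  exact Submodule.smul_mem _ _ hf

theorem lam_mem {K : Type} [Field K] (N : ℕ) (u v : Fin 3 → K) :
    (lam u v : MvPolynomial (Fin 3 ⊕ Fin N) K) ∈ Comp K (tau N) ![1, 0] := by
  unfold lam
  exact Submodule.add_mem _ (Submodule.add_mem _ (C_mul_mem _ _ (X_inl_mem N 0))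
    (C_mul_mem _ _ (X_inl_mem N 1))) (C_mul_mem _ _ (X_inl_mem N 2))

theorem Gq_mem {K : Type} [Field K] (u : Fin 3 → K) : Gq u ∈ Comp K (tau 15) ![0, 1] := by
  unfold Gq
  exact Submodule.sum_mem _ fun a _ => Submodule.sum_mem _ fun b _ =>
    Submodule.sum_mem _ fun c _ => Submodule.sum_mem _ fun d _ =>
      C_mul_mem _ _ (X_inr_mem 15 _)

theorem Gq_zero {K : Type} [Field K] : Gq (0 : Fin 3 → K) = 0 := by
  unfold Gq
  simp

theorem Xpow_mem {K : Type} [Field K] (N : ℕ) (k : Fin N) (n : ℕ) :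
    (X (Sum.inr k) ^ n : MvPolynomial (Fin 3 ⊕ Fin N) K) ∈ Comp K (tau N) ![0, n] := by
  have h := (isWeightedHomogeneous_X K (wt (tau N)) (Sum.inr k)).pow n
  rw [wt_inr] at h
  have h2 : n • (![0, 1] : Fin 2 → ℕ) = ![0, n] := by
    funext j
    fin_cases j <;> simp
  rw [h2] at h
  exact h

/-- Forms of degree p in x alone do not depend on `y`. -/
theorem eval_indep {K : Type} [Field K] (N : ℕ) {p : ℕ} {F : MvPolynomial (Fin 3 ⊕ Fin N) K}
    (hF : F ∈ Comp K (tau N) ![p, 0]) (w : Fin 3 ⊕ Fin N → K) :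
    eval w F = eval (Sum.elim (fun i => w (Sum.inl i)) 0) F := by
  rw [MvPolynomial.eval_eq, MvPolynomial.eval_eq]
  refine Finset.sum_congr rfl fun d hd => ?_
  congr 1
  refine Finset.prod_congr rfl fun s hs => ?_
  rcases s with i | k
  · rfl
  · exfalso
    have h1 := hF (mem_support_iff.1 hd)
    have h2 := M_HFBasic.le_weight (tau N) d (Sum.inr k)
    rw [h1] at h2
    have h3 : d (Sum.inr k) ≤ 0 := h2
    exact (Finsupp.mem_support_iff.1 hs) (Nat.le_zero.1 h3)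

theorem lam_eval {K : Type} [Field K] (N : ℕ) (u v : Fin 3 → K) (w : Fin 3 ⊕ Fin N → K) :
    eval w (lam u v : MvPolynomial (Fin 3 ⊕ Fin N) K) =
      (u 1 * v 2 - u 2 * v 1) * w (Sum.inl 0) + (u 2 * v 0 - u 0 * v 2) * w (Sum.inl 1) +
        (u 0 * v 1 - u 1 * v 0) * w (Sum.inl 2) := by
  simp [lam]

theorem lam_ne_zero {K : Type} [Field K] (N : ℕ) (u v : Fin 3 → K) (i j : Fin 3)
    (h : u i * v j - u j * v i ≠ 0) : (lam u v : MvPolynomial (Fin 3 ⊕ Fin N) K) ≠ 0 := by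
  intro h0
  have h1 : ∀ w : Fin 3 ⊕ Fin N → K, (u 1 * v 2 - u 2 * v 1) * w (Sum.inl 0) +
      (u 2 * v 0 - u 0 * v 2) * w (Sum.inl 1) + (u 0 * v 1 - u 1 * v 0) * w (Sum.inl 2) = 0 := by
    intro w
    rw [← lam_eval, h0, map_zero]
  have h2 := h1 (Sum.elim ![1, 0, 0] 0)
  have h3 := h1 (Sum.elim ![0, 1, 0] 0)
  have h4 := h1 (Sum.elim ![0, 0, 1] 0)
  have h5 : u 1 * v 2 - u 2 * v 1 = 0 := by simpa using h2
  have h6 : u 2 * v 0 - u 0 * v 2 = 0 := by simpa using h3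
  have h7 : u 0 * v 1 - u 1 * v 0 = 0 := by simpa using h4
  apply h
  fin_cases i <;> fin_cases j <;> simp only [Fin.isValue, Fin.mk_one, Fin.zero_eta,
    Fin.reduceFinMk]
  · ring
  · linear_combination h7
  · linear_combination -h6
  · linear_combination -h7
  · ring
  · linear_combination h5
  · linear_combination h6
  · linear_combination -h5
  · ring

theorem linInd {K : Type} [Field K] (u v : Fin 3 → K) (i j : Fin 3)
    (h : u i * v j - u j * v i ≠ 0) : LinearIndependent K ![u, v] := by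
  rw [LinearIndependent.pair_iff]
  intro s t hst
  have hi : s * u i + t * v i = 0 := by simpa using congrFun hst i
  have hj : s * u j + t * v j = 0 := by simpa using congrFun hst j
  constructor
  · have h1 : s * (u i * v j - u j * v i) = 0 := by linear_combination v j * hi - v i * hj
    exact (mul_eq_zero.1 h1).resolve_right h
  · have h1 : t * (u i * v j - u j * v i) = 0 := by linear_combination u i * hj - u j * hi
    exact (mul_eq_zero.1 h1).resolve_right h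

/-- Choice of the second point. -/
theorem choose_v {K : Type} [Field K] [CharZero K] (N : ℕ) {p : ℕ}
    {F : MvPolynomial (Fin 3 ⊕ Fin N) K} (hF : F ∈ Comp K (tau N) ![p, 0]) (hF0 : F ≠ 0)
    {u : Fin 3 → K} (hu : u ≠ 0) : ∃ (v : Fin 3 → K) (i j : Fin 3),
      u i * v j - u j * v i ≠ 0 ∧ eval (Sum.elim v 0) F ≠ 0 := by
  obtain ⟨i, hi⟩ : ∃ i, u i ≠ 0 := by
    by_contra hno
    push Not at hno
    exact hu (funext hno)
  have hij : i ≠ i + 1 := by fin_cases i <;> decide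
  have hinf : Infinite K := CharZero.infinite K
  set L : MvPolynomial (Fin 3 ⊕ Fin N) K :=
    C (u i) * X (Sum.inl (i + 1)) - C (u (i + 1)) * X (Sum.inl i) with hL
  have hL0 : L ≠ 0 := by
    intro h0
    have h1 : eval (Sum.elim (Pi.single (i + 1) 1) 0 : Fin 3 ⊕ Fin N → K) L = 0 := by
      rw [h0, map_zero]
    rw [hL] at h1
    simp only [map_sub, map_mul, eval_C, eval_X, Sum.elim_inl, Pi.single_eq_same, mul_one,
      Pi.single_eq_of_ne hij, mul_zero, sub_zero] at h1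
    exact hi h1
  have hFL : F * L ≠ 0 := mul_ne_zero hF0 hL0
  obtain ⟨w, hw⟩ : ∃ w : Fin 3 ⊕ Fin N → K, eval w (F * L) ≠ 0 := by
    by_contra hno
    push Not at hno
    exact hFL (MvPolynomial.funext fun x => by rw [hno x, map_zero])
  rw [map_mul] at hw
  have hw1 := left_ne_zero_of_mul hw
  have hw2 := right_ne_zero_of_mul hw
  refine ⟨fun i => w (Sum.inl i), i, i + 1, ?_, ?_⟩
  · rw [hL] at hw2
    simpa using hw2
  · rw [eval_indep N hF w] at hw1
    exact hw1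

/-! ### The main argument -/

theorem app2 (H : (Fin 2 → ℕ) → ℤ) (l l' : List (Fin 2)) {c c' : ℤ} (h : HasC l H c)
    (h' : HasC l' H c') (hc : 0 ≤ c - 4 * c') :
    Ev (fun α => 0 ≤ app [(1, l), (-4, l')] H α) := by
  refine (Ev.and h h').mono fun α hα => ?_
  have e : app [(1, l), (-4, l')] H α = 1 * difs l H α + (-4 * difs l' H α + 0) := by
    simp [app]
  rw [e, hα.1, hα.2]
  linarith

theorem app2_conv (H : (Fin 2 → ℕ) → ℤ) (l l' : List (Fin 2)) {c c' : ℤ} (h : HasC l H c)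
    (h' : HasC l' H c') (hE : Ev (fun α => 0 ≤ app [(1, l), (-4, l')] H α)) :
    0 ≤ c - 4 * c' := by
  obtain ⟨α, h1, h2, h3⟩ := (Ev.and3 h h' hE).exists
  have e : app [(1, l), (-4, l')] H α = 1 * difs l H α + (-4 * difs l' H α + 0) := by
    simp [app]
  rw [e, h1, h2] at h3
  linarith

/-- Ideals containing all `y` have Hilbert function zero. -/
theorem exists_y (hHF : StHFBasic) {K : Type} [Field K]
    {P : Ideal (MvPolynomial (Fin 3 ⊕ Fin 15) K)} {l : List (Fin 2)} {c : ℤ}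
    (h : HasC l (HF (tau 15) P) c) (hc : c ≠ 0) : ∃ k, X (Sum.inr k) ∉ P := by
  by_contra hno
  push Not at hno
  obtain ⟨-, -, -, h4, -⟩ := hHF K (Fin 3 ⊕ Fin 15) (Fin 2) (tau 15)
  have h5 : ∀ α : Fin 2 → ℕ, 1 ≤ α 1 → HF (tau 15) P α = 0 := by
    refine h4 P 1 fun s hs => ?_
    rcases s with i | k
    · exact absurd hs (by simp [tau])
    · exact hno k
  have h6 : Ev (fun α => (0 : (Fin 2 → ℕ) → ℤ) α = HF (tau 15) P α) :=
    ⟨1, fun α hα => (h5 α (hα 1)).symm⟩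
  have h7 : HasC l (0 : (Fin 2 → ℕ) → ℤ) 0 := Ev.of_forall fun α => by
    rw [difs_zero]
    rfl
  exact hc (h.unique (h7.congr h6))

/-- The curve case. -/
theorem curve (hHF : StHFBasic) (hNN : StNN) (hG1 : StG1) (hR : StRatio) {K : Type} [Field K]
    {Q : Ideal (MvPolynomial (Fin 3 ⊕ Fin 15) K)} (hQ : Q.IsPrime) (hH : IsHom (tau 15) Q)
    (hM : IM (M0K K) ≤ Q) (hd : DegLT 2 (HF (tau 15) Q)) {u v : Fin 3 → K}
    (huv : LinearIndependent K ![u, v]) (hlam : lam u v ∈ Q) {p n : ℕ}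
    {F : MvPolynomial (Fin 3 ⊕ Fin 15) K} (hF : F ∈ Comp K (tau 15) ![p, 0])
    (hFv : eval (Sum.elim v 0) F ≠ 0)
    (hFQ : Gq u ∈ Q → ∀ g ∈ Comp K (tau 15) ![0, n], F * g ∈ Q) :
    Ev (fun α => 0 ≤ app [(1, [1]), (-4, [0])] (HF (tau 15) Q) α) := by
  obtain ⟨q0, hq0⟩ := hd.hasC (l := [0]) rfl
  obtain ⟨q1, hq1⟩ := hd.hasC (l := [1]) rfl
  have hq1n : 0 ≤ q1 := hNN K (Fin 3 ⊕ Fin 15) (Fin 2) (tau 15) Q hH 1 hd [1] rfl q1 hq1
  by_cases h0 : q0 = 0
  · refine app2 _ _ _ hq1 hq0 ?_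
    rw [h0]
    linarith
  · obtain ⟨k, hk⟩ := exists_y hHF hq0 h0
    have hu : Gq u ∉ Q := by
      intro hu
      have h1 := hFQ hu _ (Xpow_mem 15 k n)
      have h2 : F ∈ Q := by
        rcases hQ.mem_or_mem h1 with h | h
        · exact h
        · exact absurd (hQ.mem_of_pow_mem n h) hk
      exact h0 (hG1 K 15 Q u v huv hlam p F hF h2 hFv [0] q0 hq0 (by simp))
    have h3 := hR K Q hQ hH hM u v huv hlam hu
    have h4 := (hd.shift_sub ![0, 1]).2 [] rfl ![q0, q1] (fun i => by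
      fin_cases i
      · exact hq0
      · exact hq1)
    have h5 := (hd.shift_sub ![4, 0]).2 [] rfl ![q0, q1] (fun i => by
      fin_cases i
      · exact hq0
      · exact hq1)
    refine app2 _ _ _ hq1 hq0 ?_
    obtain ⟨α, h6, h7⟩ := (Ev.and h4 h5).exists
    rw [difs_nil] at h6 h7
    have h8 := h3 (α 0) (α 1)
    have e1 : α + ![0, 1] = ![α 0, α 1 + 1] := by
      funext j
      fin_cases j <;> simp
    have e2 : α + ![4, 0] = ![α 0 + 4, α 1] := by
      funext j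
      fin_cases j <;> simp
    rw [e1] at h6
    rw [e2] at h7
    simp only [Fin.sum_univ_two, Matrix.cons_val_zero, Matrix.cons_val_one] at h6 h7
    push_cast at h6 h7
    linarith

theorem main (hHO : StHomOps) (hHF : StHFBasic) (hEx : StExact) (hNN : StNN) (hDV : StDV)
    (hG2 : StG2) (hG1 : StG1) (hTor : StTor) (hGq : StGq) (hR : StRatio) : StPartI := by
  intro K _ _ J hJ hMJ hdJ
  refine hDV K (Fin 3 ⊕ Fin 15) (Fin 2) (tau 15) (IM (M0K K)) 2 [(1, [0, 1]), (-4, [0, 0])]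
    (by simp) ?_ J hJ hMJ hdJ
  intro P hP hH hM hd
  obtain ⟨D2, hD2⟩ := hd.hasC (l := [0, 0]) rfl
  obtain ⟨D1, hD1⟩ := hd.hasC (l := [0, 1]) rfl
  have hD1n : 0 ≤ D1 := hNN K (Fin 3 ⊕ Fin 15) (Fin 2) (tau 15) P hH 2 hd [0, 1] rfl D1 hD1
  refine app2 _ _ _ hD1 hD2 ?_
  by_cases h0 : D2 = 0
  · rw [h0]
    linarith
  -- no nonzero form in `x` in `P`
  have hx : ∀ (p : ℕ) (F : MvPolynomial (Fin 3 ⊕ Fin 15) K), F ∈ Comp K (tau 15) ![p, 0] →
      F ≠ 0 → F ∉ P := by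
    intro p F hF hF0 hFP
    exact h0 (hG2 K 15 P p F hF hF0 hFP [0, 0] D2 hD2 (by simp))
  obtain ⟨u, hu⟩ : ∃ u : Fin 3 → K, Gq u ∉ P := by
    by_contra hno
    push Not at hno
    obtain ⟨k, hk⟩ := exists_y hHF hD2 h0
    exact hk (hGq K P hno k)
  have hu0 : u ≠ 0 := by
    rintro rfl
    rw [Gq_zero] at hu
    exact hu P.zero_mem
  have hK1 := cut_deg hEx (tau 15) hP hH (Gq_mem u) hu hd
  obtain ⟨p, F, hF, hF0, n, hFn⟩ := hTor K 15 (P ⊔ Ideal.span {Gq u})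
    (isHom_sup_span hHO (tau 15) hH (Gq_mem u)) hK1.1
  obtain ⟨v, i, j, hij, hFv⟩ := choose_v 15 hF hF0 hu0
  have huv := linInd u v i j hij
  have hlam : (lam u v : MvPolynomial (Fin 3 ⊕ Fin 15) K) ∉ P :=
    hx 1 _ (lam_mem 15 u v) (lam_ne_zero 15 u v i j hij)
  have hL := cut_deg hEx (tau 15) hP hH (lam_mem 15 u v) hlam hd
  have hL0 : HasC [0] (HF (tau 15) (P ⊔ Ideal.span {lam u v})) D2 := by
    have h1 := hL.2 [0] rfl ![D2, D1] (fun i => by
      fin_cases i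
      · exact hD2
      · exact hD1.perm (List.Perm.swap _ _ _))
    simpa using h1
  have hL1 : HasC [1] (HF (tau 15) (P ⊔ Ideal.span {lam u v})) D1 := by
    obtain ⟨D0, hD0⟩ := hd.hasC (l := [1, 1]) rfl
    have h1 := hL.2 [1] rfl ![D1, D0] (fun i => by
      fin_cases i
      · exact hD1
      · exact hD0)
    simpa using h1
  refine app2_conv _ [1] [0] hL1 hL0 ?_
  refine hDV K (Fin 3 ⊕ Fin 15) (Fin 2) (tau 15) (P ⊔ Ideal.span {lam u v}) 1
    [(1, [1]), (-4, [0])] (by simp) ?_ _ (isHom_sup_span hHO (tau 15) hH (lam_mem 15 u v))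
    le_rfl hL.1
  intro Q hQ hHQ hLQ hdQ
  have hPQ : P ≤ Q := le_sup_left.trans hLQ
  refine curve hHF hNN hG1 hR hQ hHQ (hM.trans hPQ) hdQ huv
    (hLQ (Ideal.mem_sup_right (Ideal.mem_span_singleton_self _))) hF hFv (n := n) ?_
  intro hG g hg
  have h1 : P ⊔ Ideal.span {Gq u} ≤ Q :=
    sup_le hPQ ((Ideal.span_singleton_le_iff_mem Q).2 hG)
  exact h1 (hFn g hg)

end Pool.Agent.Helper93.NP.M_PartI
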