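import Pool.Agent.Helper93.NP.St

/-! Module PartII (MP_16deda_ag): assembly of Part II. -/

namespace Pool.Agent.Helper93.NP.M_PartII

open MvPolynomial

variable {K : Type} [Field K]

/-- forms of degree `n` in `x` -/
def Px (n : ℕ) (f : MvPolynomial (Fin 3 ⊕ Fin 15) K) : Prop := f ∈ Comp K (tau 15) ![n, 0]

theorem px_X (i : Fin 3) : Px 1 (X (Sum.inl i) : MvPolynomial (Fin 3 ⊕ Fin 15) K) := by
  have h := isWeightedHomogeneous_X K (wt (tau 15)) (Sum.inl i)
  have e : wt (tau 15) (Sum.inl i) = ![1, 0] := by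
    funext j
    fin_cases j <;> simp [wt, tau]
  rw [e] at h
  exact h

theorem px_mul {m n : ℕ} {f g : MvPolynomial (Fin 3 ⊕ Fin 15) K} (hf : Px m f) (hg : Px n g) :
    Px (m + n) (f * g) := by
  have h := IsWeightedHomogeneous.mul (w := wt (tau 15)) hf hg
  have e : (![m, 0] + ![n, 0] : Fin 2 → ℕ) = ![m + n, 0] := by
    funext j
    fin_cases j <;> simp
  rw [e] at h
  exact h

theorem px_pow {m : ℕ} {f : MvPolynomial (Fin 3 ⊕ Fin 15) K} (hf : Px m f) (k : ℕ) :
    Px (k * m) (f ^ k) := by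
  induction k with
  | zero =>
    have h := isWeightedHomogeneous_one K (wt (tau 15))
    rw [pow_zero, Nat.zero_mul]
    have e : (0 : Fin 2 → ℕ) = ![0, 0] := by
      funext j
      fin_cases j <;> simp
    rw [e] at h
    exact h
  | succ k ih =>
    rw [pow_succ, Nat.succ_mul]
    exact px_mul ih hf

theorem px_add {m : ℕ} {f g : MvPolynomial (Fin 3 ⊕ Fin 15) K} (hf : Px m f) (hg : Px m g) :
    Px m (f + g) := Submodule.add_mem _ hf hg

theorem px_gx (j : Fin 6) : Px 5 (gx K j) := by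
  have h : ∀ (i : Fin 3) (k : ℕ), Px k ((X (Sum.inl i) : MvPolynomial (Fin 3 ⊕ Fin 15) K) ^ k) := by
    intro i k
    have := px_pow (px_X (K := K) i) k
    rwa [Nat.mul_one] at this
  fin_cases j
  · exact h 0 5
  · exact h 1 5
  · exact h 2 5
  · exact px_add (px_mul (h 0 3) (h 2 2)) (px_mul (px_X 1) (h 2 4))
  · exact px_add (px_mul (h 0 2) (h 1 3)) (px_mul (h 0 4) (px_X 2))
  · exact px_add (px_mul (h 1 2) (h 2 3)) (px_mul (px_X 0) (h 1 4))

/-- functions which vanish for large arguments -/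
theorem app_zero (W : List (ℤ × List (Fin 2))) {F : (Fin 2 → ℕ) → ℤ}
    (h : Ev (fun α => F α = 0)) : Ev (fun α => 0 ≤ app W F α) := by
  have key : Ev (fun α => app W F α = 0) := by
    induction W with
    | nil => exact Ev.of_forall fun α => rfl
    | cons p W ih =>
      have h1 : Ev (fun α => difs p.2 F α = difs p.2 (0 : (Fin 2 → ℕ) → ℤ) α) :=
        difs_congr p.2 h
      refine (h1.and ih).mono fun α hα => ?_
      have e : app (p :: W) F α = p.1 * difs p.2 F α + app W F α := rfl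
      rw [e, hα.1, hα.2, difs_zero]
      simp
  exact key.mono fun α hα => hα.ge

theorem main (hDV : StDV) (hHS : StHS) (hNN : StNN) (hG3 : StG3) (hLift : StLift)
    (hCone : StCone) (hC1 : StCone1) (hC2 : StCone2) (hC3 : StCone3) (hNum : StNumeric)
    (hBas : StHFBasic) : StPartII := by
  intro K _ _ J hJ hM hD
  refine hDV K _ _ (tau 15) (IM (M1K K)) 4
    [(1, [1, 1, 1, 1]), (-7, [0, 1, 1, 1]), (34, [0, 0, 1, 1])] ?_ ?_ J hJ hM hD
  · intro p hp
    simp only [List.mem_cons, List.not_mem_nil, or_false] at hp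
    rcases hp with rfl | rfl | rfl <;> rfl
  intro P hP hPh hMP hPD
  by_cases hx : ∃ i, X (Sum.inl i) ∉ P
  · by_cases hy : ∃ k, X (Sum.inr k) ∉ P
    · obtain ⟨T⟩ := hLift K P hP hPh hMP hx hy
      have hv : ∀ j, T.e * gx K j ∈ Comp K (tau 15) ![T.p + 5, T.q + 1] := by
        intro j
        have h := IsWeightedHomogeneous.mul (w := wt (tau 15)) T.he (px_gx (K := K) j)
        have e : (![T.p, T.q + 1] + ![5, 0] : Fin 2 → ℕ) = ![T.p + 5, T.q + 1] := by
          funext j
          fin_cases j <;> simp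
        rw [e] at h
        exact h
      obtain ⟨_, hhom, h0⟩ := hCone K P hP hPh (T.p + 5) (T.q + 1) T.n
        (fun j => T.e * gx K j) T.hn hv
      obtain ⟨a₀, ha₀⟩ := hC2 K P hP hPh T
      refine hNum (HF tau3 (coneP P T.n (fun j => T.e * gx K j))) (HF (tau 15) P)
        (hHS K _ _ tau3 _ hhom) (hNN K _ _ tau3 _ hhom) hPD (hG3 K 15 P) h0 ⟨a₀, ?_⟩
      intro a b m ha
      rw [hC1 K P hP hPh T a b m, ha₀ (a + 3) b (m + 1) (by omega),
        hC3 K P hP hPh (a + 3) b (m + 1) (by omega)]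
    · push Not at hy
      refine app_zero _ ⟨1, fun α hα => ?_⟩
      refine (hBas K _ _ (tau 15)).2.2.2.1 P 1 ?_ α (hα 1)
      rintro (i | k) hs
      · simp [tau] at hs
      · exact hy k
  · push Not at hx
    refine app_zero _ ⟨1, fun α hα => ?_⟩
    refine (hBas K _ _ (tau 15)).2.2.2.1 P 0 ?_ α (hα 0)
    rintro (i | k) hs
    · exact hx i
    · simp [tau] at hs

end Pool.Agent.Helper93.NP.M_PartII
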