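import Pool.Agent.Helper93.NP.St

/-! Exactness at the points of the plane. -/

namespace Pool.Agent.Helper93.NP.M_Point

open Pool.Agent.Helper93.NP

theorem row1_sub {A : Type} [CommRing A] (x : Fin 3 → A) (y z : Fin 15 → A) (l : Fin 10) :
    row1 x (y - z) l = row1 x y l - row1 x z l := by
  rw [← M1_form, ← M1_form, ← M1_form, ← Finset.sum_sub_distrib]
  refine Finset.sum_congr rfl fun k _ => ?_
  rw [← Finset.sum_sub_distrib]
  refine Finset.sum_congr rfl fun i _ => ?_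
  simp only [Pi.sub_apply]
  ring

theorem row1_Y {A : Type} [CommRing A] (x : Fin 3 → A) (c : Fin 6 → A) (l : Fin 10) :
    row1 x (fun k => ∑ j, Yv x k j * c j) l = 0 := by
  rw [← M1_form]
  have h : ∀ j, ∑ k, ∑ i, (M1 l k i : A) * x i * Yv x k j = 0 := fun j => by
    rw [M1_form]
    exact MY x j l
  calc ∑ k, ∑ i, (M1 l k i : A) * x i * ∑ j, Yv x k j * c j
      = ∑ k, ∑ i, ∑ j, (M1 l k i : A) * x i * Yv x k j * c j := by
        refine Finset.sum_congr rfl fun k _ => Finset.sum_congr rfl fun i _ => ?_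
        rw [Finset.mul_sum]
        exact Finset.sum_congr rfl fun j _ => by ring
    _ = ∑ j, (∑ k, ∑ i, (M1 l k i : A) * x i * Yv x k j) * c j := by
        simp only [Finset.sum_mul]
        rw [Finset.sum_comm]
        rw [Finset.sum_congr rfl fun i _ => Finset.sum_comm]
        rw [Finset.sum_comm]
        exact Finset.sum_congr rfl fun j _ => Finset.sum_comm
    _ = 0 := by simp [h]

/-- It is enough that five coordinates agree. -/
theorem reduce {L : Type} [Field L] (x : Fin 3 → L) (y : Fin 15 → L) (S : Finset (Fin 15))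
    (hS : ∀ z : Fin 15 → L, (∀ l, row1 x z l = 0) → (∀ k ∈ S, z k = 0) → ∀ k, z k = 0)
    (hy : ∀ l, row1 x y l = 0) (c : Fin 6 → L) (hc : ∀ k ∈ S, y k = ∑ j, Yv x k j * c j) :
    ∀ k, y k = ∑ j, Yv x k j * c j := by
  have := hS (y - fun k => ∑ j, Yv x k j * c j) (fun l => by
    rw [row1_sub, hy, row1_Y, sub_zero]) (fun k hk => by
    simp only [Pi.sub_apply, sub_eq_zero]
    exact hc k hk)
  intro k
  have h := this k
  simp only [Pi.sub_apply, sub_eq_zero] at h
  exact h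

theorem all15 {L : Type} [Field L] (z : Fin 15 → L) (a0 : z 0 = 0) (a1 : z 1 = 0)
    (a2 : z 2 = 0) (a3 : z 3 = 0) (a4 : z 4 = 0) (a5 : z 5 = 0) (a6 : z 6 = 0) (a7 : z 7 = 0)
    (a8 : z 8 = 0) (a9 : z 9 = 0) (a10 : z 10 = 0) (a11 : z 11 = 0) (a12 : z 12 = 0)
    (a13 : z 13 = 0) (a14 : z 14 = 0) : ∀ k, z k = 0 := by
  intro k
  fin_cases k <;> assumption

theorem main : StPoint := by
  intro L _ _ x hx y hy
  by_cases h0 : x 0 = 0
  · by_cases h1 : x 1 = 0
    · have h2 : x 2 ≠ 0 := by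
        intro h2
        apply hx
        funext i
        fin_cases i <;> assumption
      refine ⟨![-y 0 / x 2 ^ 3, -y 11 / x 2 ^ 3, 0, y 2 / x 2 ^ 3, -y 7 / x 2 ^ 3,
        y 14 / x 2 ^ 3], reduce x y {0, 2, 7, 11, 14} ?_ hy _ ?_⟩
      · intro z hz hzS
        have z0 : z 0 = 0 := hzS 0 (by decide)
        have z2 : z 2 = 0 := hzS 2 (by decide)
        have z7 : z 7 = 0 := hzS 7 (by decide)
        have z11 : z 11 = 0 := hzS 11 (by decide)
        have z14 : z 14 = 0 := hzS 14 (by decide)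
        have e0 := hz 0
        have e1 := hz 1
        have e2 := hz 2
        have e3 := hz 3
        have e4 := hz 4
        have e5 := hz 5
        have e6 := hz 6
        have e7 := hz 7
        have e8 := hz 8
        have e9 := hz 9
        simp [row1, h0, h1, h2, z0, z2, z7, z11, z14] at e0 e1 e2 e3 e4 e5 e6 e7 e8 e9
        exact all15 z z0 e0 z2 e1 e3 e5 e2 z7 e4 e6 e8 z11 e7 e9 z14
      · intro k hk
        fin_cases hk <;> simp [Yv, Fin.sum_univ_succ, h0, h1] <;> field_simp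
    · refine ⟨![-y 3 / x 1 ^ 3, 0,
        (y 6 + x 1 ^ 2 * x 2 * ((-(x 2 ^ 3 * (-y 3 / x 1 ^ 3)) +
          x 1 ^ 2 * x 2 * (y 11 / x 1 ^ 3) - y 12) / x 1 ^ 3)) / x 1 ^ 3,
        (-(x 2 ^ 3 * (-y 3 / x 1 ^ 3)) + x 1 ^ 2 * x 2 * (y 11 / x 1 ^ 3) - y 12) / x 1 ^ 3,
        y 5 / x 1 ^ 3, y 11 / x 1 ^ 3], reduce x y {3, 5, 6, 11, 12} ?_ hy _ ?_⟩
      · intro z hz hzS
        have z3 : z 3 = 0 := hzS 3 (by decide)
        have z5 : z 5 = 0 := hzS 5 (by decide)
        have z6 : z 6 = 0 := hzS 6 (by decide)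
        have z11 : z 11 = 0 := hzS 11 (by decide)
        have z12 : z 12 = 0 := hzS 12 (by decide)
        have e0 := hz 0
        have e1 := hz 1
        have e2 := hz 2
        have e3 := hz 3
        have e4 := hz 4
        have e5 := hz 5
        have e6 := hz 6
        have e7 := hz 7
        have e8 := hz 8
        have e9 := hz 9
        simp [row1, h0, h1, z3, z5, z6, z11, z12] at e1 e2 e5
        simp [row1, h0, h1, e1, e2] at e0 e3
        simp [row1, h0, h1, e3] at e4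
        simp [row1, h0, h1, e5] at e6
        simp [row1, h0, h1, z6, z12, e4] at e7
        simp [row1, h0, h1, e6] at e8
        simp [row1, h0, h1, e7] at e9
        exact all15 z e4 e2 e0 z3 e1 z5 z6 e8 e3 e5 e6 z11 z12 e7 e9
      · intro k hk
        fin_cases hk <;> simp [Yv, Fin.sum_univ_succ, h0] <;> field_simp <;> ring
  · refine ⟨![0, (x 0 * x 1 ^ 2 * (y 3 / x 0 ^ 3) - y 4) / x 0 ^ 3,
      (y 1 * x 2 ^ 3 - (-(x 0 ^ 3) + x 1 * x 2 ^ 2) * y 2) / (-(x 0 ^ 6)),
      (-(x 1 ^ 2 * x 2) * y 2 + (x 0 ^ 3 + x 1 * x 2 ^ 2) * y 1) / (-(x 0 ^ 6)),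
      y 3 / x 0 ^ 3,
      (y 6 - x 1 ^ 3 * ((y 1 * x 2 ^ 3 - (-(x 0 ^ 3) + x 1 * x 2 ^ 2) * y 2) / (-(x 0 ^ 6))) +
        x 1 ^ 2 * x 2 * ((-(x 1 ^ 2 * x 2) * y 2 + (x 0 ^ 3 + x 1 * x 2 ^ 2) * y 1) /
          (-(x 0 ^ 6))) + x 0 ^ 2 * x 1 * (y 3 / x 0 ^ 3)) / x 0 ^ 3],
      reduce x y {1, 2, 3, 4, 6} ?_ hy _ ?_⟩
    · intro z hz hzS
      have z1 : z 1 = 0 := hzS 1 (by decide)
      have z2 : z 2 = 0 := hzS 2 (by decide)
      have z3 : z 3 = 0 := hzS 3 (by decide)
      have z4 : z 4 = 0 := hzS 4 (by decide)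
      have z6 : z 6 = 0 := hzS 6 (by decide)
      have e0 := hz 0
      have e1 := hz 1
      have e2 := hz 2
      have e3 := hz 3
      have e4 := hz 4
      have e5 := hz 5
      have e6 := hz 6
      have e7 := hz 7
      have e8 := hz 8
      have e9 := hz 9
      simp [row1, h0, z1, z2, z3, z4, z6] at e0 e1 e2
      simp [row1, h0, e2, z4] at e3
      simp [row1, h0, e0, e2] at e4
      simp [row1, h0, e1, e3] at e5
      simp [row1, h0, e3, e4] at e6
      simp [row1, h0, e0, z4, z6, e5, e6] at e7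
      simp [row1, h0, e7, e4] at e8
      simp [row1, h0, e6, e8] at e9
      exact all15 z e0 z1 z2 z3 z4 e1 z6 e7 e2 e3 e4 e9 e5 e6 e8
    · intro k hk
      fin_cases hk <;> simp [Yv, Fin.sum_univ_succ] <;> field_simp <;> ring

end Pool.Agent.Helper93.NP.M_Point
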