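import Pool.Agent.Helper93.NP.M_HomOps

/-! Homogeneous ideals that are prime for homogeneous elements are prime. -/

namespace Pool.Agent.Helper93.NP.M_Prime

open MvPolynomial

variable {K σ ι : Type} [Field K] [DecidableEq ι] (τ : σ → ι)

/-- a linear order on multidegrees -/
noncomputable def key [Fintype ι] (d : ι → ℕ) : Lex (Fin (Fintype.card ι) → ℕ) :=
  toLex (fun k => d ((Fintype.equivFin ι).symm k))

theorem key_add [Fintype ι] (d e : ι → ℕ) : key (d + e) = key d + key e := rfl

theorem key_inj [Fintype ι] {d e : ι → ℕ} (h : key d = key e) : d = e := by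
  funext i
  have h1 : (fun k => d ((Fintype.equivFin ι).symm k)) = fun k => e ((Fintype.equivFin ι).symm k) :=
    toLex.injective h
  have h2 := congrFun h1 (Fintype.equivFin ι i)
  simpa using h2

theorem fin_Dg (f : MvPolynomial σ K) :
    (Function.support fun m => weightedHomogeneousComponent (wt τ) m f).Finite :=
  weightedHomogeneousComponent_finsupp (w := wt τ) f

/-- the support in degrees -/
noncomputable def Dg (f : MvPolynomial σ K) : Finset (ι → ℕ) := (fin_Dg τ f).toFinset

theorem mem_Dg {f : MvPolynomial σ K} {d : ι → ℕ} :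
    d ∈ Dg τ f ↔ weightedHomogeneousComponent (wt τ) d f ≠ 0 := by
  unfold Dg
  rw [Set.Finite.mem_toFinset, Function.mem_support]

theorem sum_Dg (f : MvPolynomial σ K) :
    ∑ d ∈ Dg τ f, weightedHomogeneousComponent (wt τ) d f = f := by
  have h := sum_weightedHomogeneousComponent (wt τ) f
  rw [finsum_eq_sum _ (fin_Dg τ f)] at h
  exact h

theorem exists_max [Fintype ι] (J : Ideal (MvPolynomial σ K)) {f : MvPolynomial σ K}
    (hf : f ∉ J) : ∃ d ∈ Dg τ f, weightedHomogeneousComponent (wt τ) d f ∉ J ∧
      ∀ e ∈ Dg τ f, weightedHomogeneousComponent (wt τ) e f ∉ J → key e ≤ key d := by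
  classical
  have hne : ((Dg τ f).filter fun d => weightedHomogeneousComponent (wt τ) d f ∉ J).Nonempty := by
    by_contra h
    rw [Finset.not_nonempty_iff_eq_empty, Finset.filter_eq_empty_iff] at h
    apply hf
    rw [← sum_Dg τ f]
    exact Ideal.sum_mem _ fun d hd => not_not.1 (h hd)
  obtain ⟨d, hd, hmax⟩ := Finset.exists_max_image _ key hne
  rw [Finset.mem_filter] at hd
  exact ⟨d, hd.1, hd.2, fun e he heJ => hmax e (Finset.mem_filter.2 ⟨he, heJ⟩)⟩

theorem comp_prod [DecidableEq (ι → ℕ)] (f g : MvPolynomial σ K) (n : ι → ℕ) :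
    weightedHomogeneousComponent (wt τ) n (f * g) =
      ∑ d ∈ Dg τ f, ∑ e ∈ Dg τ g, if d + e = n then
        weightedHomogeneousComponent (wt τ) d f * weightedHomogeneousComponent (wt τ) e g
        else 0 := by
  conv_lhs => rw [← sum_Dg τ f, ← sum_Dg τ g, Finset.sum_mul_sum, map_sum]
  refine Finset.sum_congr rfl fun d _ => ?_
  rw [map_sum]
  refine Finset.sum_congr rfl fun e _ => ?_
  have h1 : IsWeightedHomogeneous (wt τ) (weightedHomogeneousComponent (wt τ) d f *
      weightedHomogeneousComponent (wt τ) e g) (d + e) :=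
    (weightedHomogeneousComponent_isWeightedHomogeneous _ _).mul
      (weightedHomogeneousComponent_isWeightedHomogeneous _ _)
  split_ifs with h
  · rw [← h, h1.weightedHomogeneousComponent_same]
  · exact h1.weightedHomogeneousComponent_ne n (fun h2 => h h2.symm)

theorem main : StPrime := by
  intro K σ ι _ _ _ _ τ J hJ hne hpr
  refine ⟨hne, ?_⟩
  intro f g hfg
  by_contra hcon
  push Not at hcon
  obtain ⟨hf, hg⟩ := hcon
  obtain ⟨d0, hd0, hd0J, hd0m⟩ := exists_max τ J hf
  obtain ⟨e0, he0, he0J, he0m⟩ := exists_max τ J hg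
  have h1 := hJ _ hfg (d0 + e0)
  rw [comp_prod] at h1
  have h2 : (∑ d ∈ Dg τ f, ∑ e ∈ Dg τ g, if d + e = d0 + e0 then
        weightedHomogeneousComponent (wt τ) d f * weightedHomogeneousComponent (wt τ) e g
        else 0) - weightedHomogeneousComponent (wt τ) d0 f *
          weightedHomogeneousComponent (wt τ) e0 g ∈ J := by
    have key1 : ∀ d ∈ Dg τ f, ∀ e ∈ Dg τ g, ¬ (d = d0 ∧ e = e0) →
        (if d + e = d0 + e0 then
        weightedHomogeneousComponent (wt τ) d f * weightedHomogeneousComponent (wt τ) e g
        else 0) ∈ J := by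
      intro d hd e he hn
      split_ifs with h
      · by_cases hdJ : weightedHomogeneousComponent (wt τ) d f ∈ J
        · exact J.mul_mem_right _ hdJ
        · by_cases heJ : weightedHomogeneousComponent (wt τ) e g ∈ J
          · exact J.mul_mem_left _ heJ
          · exfalso
            apply hn
            have k1 := hd0m d hd hdJ
            have k2 := he0m e he heJ
            have k3 : key d + key e = key d0 + key e0 := by
              rw [← key_add, ← key_add, h]
            have k4 := (add_eq_add_iff_eq_and_eq k1 k2).1 k3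
            exact ⟨key_inj k4.1, key_inj k4.2⟩
      · exact J.zero_mem
    rw [← Finset.add_sum_erase _ _ hd0]
    rw [← Finset.add_sum_erase (Dg τ g) _ he0]
    rw [if_pos rfl]
    have : ∀ a b c : MvPolynomial σ K, a + b + c - a = b + c := fun a b c => by ring
    rw [this]
    refine J.add_mem (Ideal.sum_mem _ fun e he => ?_) (Ideal.sum_mem _ fun d hd =>
      Ideal.sum_mem _ fun e he => ?_)
    · exact key1 d0 hd0 e (Finset.mem_of_mem_erase he) fun h => (Finset.ne_of_mem_erase he) h.2
    · exact key1 d (Finset.mem_of_mem_erase hd) e he fun h => (Finset.ne_of_mem_erase hd) h.1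
  have h3 : weightedHomogeneousComponent (wt τ) d0 f *
          weightedHomogeneousComponent (wt τ) e0 g ∈ J := by
    have := J.sub_mem h1 h2
    simpa using this
  rcases hpr d0 e0 _ _ (weightedHomogeneousComponent_mem _ _ _)
    (weightedHomogeneousComponent_mem _ _ _) h3 with h | h
  · exact hd0J h
  · exact he0J h

end Pool.Agent.Helper93.NP.M_Prime
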