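import Pool.Agent.Helper93.NP.St
import Pool.Agent.Helper93.NP.M_HFBasic

/-! The basic inequality over a line. -/

namespace Pool.Agent.Helper93.NP.M_Ratio

open Pool.Agent.Helper93.NP MvPolynomial

/-- the ring -/
abbrev Rg (K : Type) [Field K] : Type := MvPolynomial (Fin 3 ⊕ Fin 15) K

variable {K : Type} [Field K]

theorem ix_swap34 : ∀ a b c d : Fin 3, ix a b c d = ix a b d c := by decide
theorem ix_swap23 : ∀ a b c d : Fin 3, ix a b c d = ix a c b d := by decide
theorem ix_swap12 : ∀ a b c d : Fin 3, ix a b c d = ix b a c d := by decide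

/-- the symmetric form with polynomial arguments -/
noncomputable def T (p q r s : Fin 3 → Rg K) : Rg K :=
  ∑ a, ∑ b, ∑ c, ∑ d, p a * q b * r c * (s d * X (Sum.inr (ix a b c d)))

theorem T_swap34 (p q r s : Fin 3 → Rg K) : T p q r s = T p q s r := by
  unfold T
  refine Finset.sum_congr rfl fun a _ => Finset.sum_congr rfl fun b _ => ?_
  rw [Finset.sum_comm]
  refine Finset.sum_congr rfl fun c _ => Finset.sum_congr rfl fun d _ => ?_
  rw [ix_swap34]
  ring

theorem T_swap23 (p q r s : Fin 3 → Rg K) : T p q r s = T p r q s := by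
  unfold T
  refine Finset.sum_congr rfl fun a _ => ?_
  rw [Finset.sum_comm]
  refine Finset.sum_congr rfl fun b _ => Finset.sum_congr rfl fun c _ =>
    Finset.sum_congr rfl fun d _ => ?_
  rw [ix_swap23]
  ring

theorem T_swap12 (p q r s : Fin 3 → Rg K) : T p q r s = T q p r s := by
  unfold T
  rw [Finset.sum_comm]
  refine Finset.sum_congr rfl fun a _ => Finset.sum_congr rfl fun b _ =>
    Finset.sum_congr rfl fun c _ => Finset.sum_congr rfl fun d _ => ?_
  rw [ix_swap12]
  ring

theorem T_lin (p q r u v w : Fin 3 → Rg K) (al be ga : Rg K) :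
    T p q r (fun d => al * u d + be * v d + ga * w d) =
      al * T p q r u + be * T p q r v + ga * T p q r w := by
  unfold T
  simp only [Finset.mul_sum, ← Finset.sum_add_distrib]
  refine Finset.sum_congr rfl fun a _ => Finset.sum_congr rfl fun b _ =>
    Finset.sum_congr rfl fun c _ => Finset.sum_congr rfl fun d _ => ?_
  ring

/-- the relations -/
theorem rel_mem {Q : Ideal (Rg K)} (hQ : IM (M0K K) ≤ Q) (l : Fin 10) :
    ∑ d, (X (Sum.inl d) : Rg K) * X (Sum.inr (tb l d)) ∈ Q := by
  have h1 : fM (M0K K) l ∈ Q := hQ (Ideal.subset_span ⟨l, rfl⟩)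
  have h2 : fM (M0K K) l = ∑ d, (X (Sum.inl d) : Rg K) * X (Sum.inr (tb l d)) := by
    rw [fM, Finset.sum_comm]
    refine Finset.sum_congr rfl fun i _ => ?_
    rw [Finset.sum_eq_single (tb l i)]
    · simp [M0K, M0]
    · intro k _ hk
      simp [M0K, M0, hk]
    · simp
  rwa [← h2]

theorem T_x_mem {Q : Ideal (Rg K)} (hQ : IM (M0K K) ≤ Q) (p q r : Fin 3 → Rg K) :
    T p q r (fun d => X (Sum.inl d)) ∈ Q := by
  unfold T
  refine Q.sum_mem fun a _ => Q.sum_mem fun b _ => Q.sum_mem fun c _ => ?_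
  rw [← Finset.mul_sum]
  exact Q.mul_mem_left _ (rel_mem hQ (ix3 a b c))

theorem exists_w {u v : Fin 3 → K} (huv : LinearIndependent K ![u, v]) :
    ∃ w : Fin 3 → K, (u 1 * v 2 - u 2 * v 1) * w 0 + (u 2 * v 0 - u 0 * v 2) * w 1 +
      (u 0 * v 1 - u 1 * v 0) * w 2 ≠ 0 := by
  by_contra hno
  push Not at hno
  have h0 := hno ![1, 0, 0]
  have h1 := hno ![0, 1, 0]
  have h2 := hno ![0, 0, 1]
  simp at h0 h1 h2
  rw [LinearIndependent.pair_iff] at huv
  have h : ∀ i, v i = 0 := by
    intro i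
    have h3 := huv (v i) (-(u i)) (by
      funext j
      simp only [Pi.add_apply, Pi.smul_apply, smul_eq_mul, Pi.zero_apply]
      fin_cases i <;> fin_cases j <;> simp <;> first
        | ring1
        | linear_combination h0
        | linear_combination -h0
        | linear_combination h1
        | linear_combination -h1
        | linear_combination h2
        | linear_combination -h2)
    exact h3.1
  have h4 := huv 0 1 (by
    funext j
    simp [h j])
  exact one_ne_zero h4.2



/-! ### Degrees -/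

theorem X_inl_comp (d : Fin 3) : (X (Sum.inl d) : Rg K) ∈ Comp K (tau 15) ![1, 0] := by
  have h := isWeightedHomogeneous_X K (wt (tau 15)) (Sum.inl d : Fin 3 ⊕ Fin 15)
  have e : wt (tau 15) (Sum.inl d : Fin 3 ⊕ Fin 15) = ![1, 0] := by
    funext j
    fin_cases j <;> simp [wt, tau]
  rw [e] at h
  exact h

theorem X_inr_comp (k : Fin 15) : (X (Sum.inr k) : Rg K) ∈ Comp K (tau 15) ![0, 1] := by
  have h := isWeightedHomogeneous_X K (wt (tau 15)) (Sum.inr k : Fin 3 ⊕ Fin 15)
  have e : wt (tau 15) (Sum.inr k : Fin 3 ⊕ Fin 15) = ![0, 1] := by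
    funext j
    fin_cases j <;> simp [wt, tau]
  rw [e] at h
  exact h

theorem mul_comp {f g : Rg K} {δ ε η : Fin 2 → ℕ} (hf : f ∈ Comp K (tau 15) δ)
    (hg : g ∈ Comp K (tau 15) ε) (h : δ + ε = η) : f * g ∈ Comp K (tau 15) η := by
  rw [← h]
  exact IsWeightedHomogeneous.mul hf hg

theorem T_comp (p q r s : Fin 3 → K) :
    T (fun i => C (p i)) (fun i => C (q i)) (fun i => C (r i)) (fun i => C (s i)) ∈
      Comp K (tau 15) ![0, 1] := by
  unfold T
  refine Submodule.sum_mem _ fun a _ => Submodule.sum_mem _ fun b _ =>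
    Submodule.sum_mem _ fun c _ => Submodule.sum_mem _ fun d _ => ?_
  have h : (C (p a) * C (q b) * C (r c) * (C (s d) * X (Sum.inr (ix a b c d))) : Rg K) =
      (p a * q b * r c * s d) • X (Sum.inr (ix a b c d)) := by
    rw [smul_eq_C_mul]
    simp only [map_mul]
    ring
  rw [h]
  exact Submodule.smul_mem _ _ (X_inr_comp _)

/-- polynomials of positive degree in `x` are combinations of the `x_d` -/
theorem decomp {m b : ℕ} {f : Rg K} (hf : f ∈ Comp K (tau 15) ![m + 1, b]) :
    ∃ g : Fin 3 → Rg K, (∀ d, g d ∈ Comp K (tau 15) ![m, b]) ∧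
      f = ∑ d, X (Sum.inl d) * g d := by
  have hf' : IsWeightedHomogeneous (wt (tau 15)) f ![m + 1, b] := hf
  rw [f.as_sum]
  have key : ∀ s : Finset ((Fin 3 ⊕ Fin 15) →₀ ℕ), s ⊆ f.support →
      ∃ g : Fin 3 → Rg K, (∀ d, g d ∈ Comp K (tau 15) ![m, b]) ∧
      ∑ v ∈ s, monomial v (coeff v f) = ∑ d, X (Sum.inl d) * g d := by
    intro s
    induction s using Finset.induction_on with
    | empty =>
      intro _
      exact ⟨fun _ => 0, fun _ => Submodule.zero_mem _, by simp⟩
    | insert μ s hμ ih =>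
      intro hs
      obtain ⟨g, hg, he⟩ := ih fun x hx => hs (Finset.mem_insert_of_mem hx)
      have h1 := hf' (mem_support_iff.1 (hs (Finset.mem_insert_self _ _)))
      have h2 := M_HFBasic.weight_apply (tau 15) μ 0
      rw [h1] at h2
      have h3 : ∃ d : Fin 3, 1 ≤ μ (Sum.inl d) := by
        by_contra hno
        push Not at hno
        rw [Fintype.sum_sum_type] at h2
        have h4 : ∀ d : Fin 3, μ (Sum.inl d) = 0 := fun d => by
          have := hno d
          omega
        simp [h4, tau] at h2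
      obtain ⟨d, hd⟩ := h3
      have h5 : μ - Finsupp.single (Sum.inl d) 1 + Finsupp.single (Sum.inl d) 1 = μ := by
        refine tsub_add_cancel_of_le ?_
        rw [Finsupp.single_le_iff]
        exact hd
      have h6 : Finsupp.weight (wt (tau 15)) (μ - Finsupp.single (Sum.inl d) 1) = ![m, b] := by
        have h7 := congrArg (Finsupp.weight (wt (tau 15))) h5
        rw [map_add, h1, Finsupp.weight_single, one_smul] at h7
        have e : wt (tau 15) (Sum.inl d : Fin 3 ⊕ Fin 15) = ![1, 0] := by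
          funext j
          fin_cases j <;> simp [wt, tau]
        rw [e] at h7
        funext j
        have h8 := congrFun h7 j
        fin_cases j
        · simp at h8 ⊢
          omega
        · simp at h8 ⊢
          omega
      refine ⟨fun d' => g d' + if d' = d then
        monomial (μ - Finsupp.single (Sum.inl d) 1) (coeff μ f) else 0, fun d' => ?_, ?_⟩
      · refine Submodule.add_mem _ (hg d') ?_
        split_ifs with h
        · exact isWeightedHomogeneous_monomial _ _ _ h6
        · exact Submodule.zero_mem _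
      · rw [Finset.sum_insert hμ, he]
        simp only [mul_add, Finset.sum_add_distrib]
        rw [add_comm]
        congr 1
        simp only [mul_ite, mul_zero, Finset.sum_ite_eq', Finset.mem_univ, if_true]
        rw [X, monomial_mul, one_mul, add_comm (Finsupp.single (Sum.inl d) 1), h5]
  exact key f.support (Finset.Subset.refl _)

/-- the forms `B_j` -/
noncomputable def B (u v : Fin 3 → K) (j : ℕ) : Rg K :=
  T (fun i => C (if j ≤ 3 then u i else v i)) (fun i => C (if j ≤ 2 then u i else v i))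
    (fun i => C (if j ≤ 1 then u i else v i)) (fun i => C (if j ≤ 0 then u i else v i))

theorem B_rel {Q : Ideal (Rg K)} (hQ : IM (M0K K) ≤ Q) {u v w : Fin 3 → K} {al be ga : Rg K}
    (hga : ga ∈ Q) (hx : ∀ d, (X (Sum.inl d) : Rg K) = al * C (u d) + be * C (v d) + ga * C (w d))
    (B : ℕ → Rg K)
    (h0 : B 0 = T (fun i => C (u i)) (fun i => C (u i)) (fun i => C (u i)) (fun i => C (u i)))
    (h1 : B 1 = T (fun i => C (u i)) (fun i => C (u i)) (fun i => C (u i)) (fun i => C (v i)))
    (h2 : B 2 = T (fun i => C (u i)) (fun i => C (u i)) (fun i => C (v i)) (fun i => C (v i)))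
    (h3 : B 3 = T (fun i => C (u i)) (fun i => C (v i)) (fun i => C (v i)) (fun i => C (v i)))
    (h4 : B 4 = T (fun i => C (v i)) (fun i => C (v i)) (fun i => C (v i)) (fun i => C (v i)))
    (j : ℕ) (hj : j < 4) : al * B j + be * B (j + 1) ∈ Q := by
  have key : ∀ p q r : Fin 3 → Rg K, al * T p q r (fun i => C (u i)) +
      be * T p q r (fun i => C (v i)) ∈ Q := by
    intro p q r
    have h5 := T_x_mem hQ p q r
    have h6 : (fun d => (X (Sum.inl d) : Rg K)) =
        fun d => al * C (u d) + be * C (v d) + ga * C (w d) := funext hx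
    rw [h6, T_lin] at h5
    exact (Q.add_mem_iff_left (Q.mul_mem_right _ hga)).1 h5
  interval_cases j
  · rw [h0, h1]
    exact key _ _ _
  · rw [h1, h2, T_swap34 (fun i => C (u i)) (fun i => C (u i)) (fun i => C (u i))]
    exact key _ _ _
  · rw [h2, h3, T_swap23 (fun i => C (u i)) (fun i => C (u i)), T_swap34 _ _ (fun i => C (u i))]
    exact key _ _ _
  · rw [h3, h4, T_swap12 (fun i => C (u i)), T_swap23 _ (fun i => C (u i)),
      T_swap34 _ _ (fun i => C (u i))]
    exact key _ _ _

/-- the first step -/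
theorem step {Q : Ideal (Rg K)} {u v w : Fin 3 → K} {al be ga : Rg K}
    (hga : ga ∈ Q) (hx : ∀ d, (X (Sum.inl d) : Rg K) = al * C (u d) + be * C (v d) + ga * C (w d))
    {B : ℕ → Rg K} (hB : ∀ j, B j ∈ Comp K (tau 15) ![0, 1])
    (hrel : ∀ j, j < 4 → al * B j + be * B (j + 1) ∈ Q) (b : ℕ) :
    ∀ m j, j + m ≤ 4 → ∀ f ∈ Comp K (tau 15) ![m, b], ∃ g ∈ Comp K (tau 15) ![0, b + 1],
      B j * f - be ^ m * g ∈ Q := by
  intro m
  induction m with
  | zero =>
    intro j _ f hf
    refine ⟨B j * f, mul_comp (hB j) hf ?_, ?_⟩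
    · funext i
      fin_cases i <;> simp [add_comm]
    · rw [pow_zero, one_mul, sub_self]
      exact Q.zero_mem
  | succ m ih =>
    intro j hj f hf
    obtain ⟨g, hg, rfl⟩ := decomp hf
    choose g1 hg1 hg1' using fun d => ih j (by omega) (g d) (hg d)
    choose g2 hg2 hg2' using fun d => ih (j + 1) (by omega) (g d) (hg d)
    refine ⟨∑ d, (v d • g1 d - u d • g2 d), Submodule.sum_mem _ fun d _ =>
      Submodule.sub_mem _ (Submodule.smul_mem _ _ (hg1 d)) (Submodule.smul_mem _ _ (hg2 d)), ?_⟩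
    rw [Finset.mul_sum, Finset.mul_sum, ← Finset.sum_sub_distrib]
    refine Q.sum_mem fun d _ => ?_
    have h1 : B j * (X (Sum.inl d) * g d) - be ^ (m + 1) * (v d • g1 d - u d • g2 d) =
        (C (u d) * g d) * (al * B j + be * B (j + 1)) + (C (w d) * B j * g d) * ga
        + (be * C (v d)) * (B j * g d - be ^ m * g1 d)
        - (be * C (u d)) * (B (j + 1) * g d - be ^ m * g2 d) := by
      rw [hx d, smul_eq_C_mul, smul_eq_C_mul]
      ring
    rw [h1]
    refine Q.sub_mem (Q.add_mem (Q.add_mem ?_ ?_) ?_) ?_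
    · exact Q.mul_mem_left _ (hrel j (by omega))
    · exact Q.mul_mem_left _ hga
    · exact Q.mul_mem_left _ (hg1' d)
    · exact Q.mul_mem_left _ (hg2' d)

theorem step2 {Q : Ideal (Rg K)} {B0 be : Rg K} {b : ℕ}
    (h : ∀ f ∈ Comp K (tau 15) ![4, b], ∃ g ∈ Comp K (tau 15) ![0, b + 1],
      B0 * f - be ^ 4 * g ∈ Q) :
    ∀ a, ∀ f ∈ Comp K (tau 15) ![a + 4, b], ∃ g ∈ Comp K (tau 15) ![a, b + 1],
      B0 * f - be ^ 4 * g ∈ Q := by
  intro a
  induction a with
  | zero =>
    intro f hf
    rw [zero_add] at hf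
    exact h f hf
  | succ a ih =>
    intro f hf
    rw [show a + 1 + 4 = a + 4 + 1 by ring] at hf
    obtain ⟨g, hg, rfl⟩ := decomp hf
    choose g1 hg1 hg1' using fun d => ih (g d) (hg d)
    refine ⟨∑ d, X (Sum.inl d) * g1 d, Submodule.sum_mem _ fun d _ =>
      mul_comp (X_inl_comp d) (hg1 d) ?_, ?_⟩
    · funext i
      fin_cases i <;> simp [add_comm]
    · rw [Finset.mul_sum, Finset.mul_sum, ← Finset.sum_sub_distrib]
      refine Q.sum_mem fun d _ => ?_
      have h1 : B0 * (X (Sum.inl d) * g d) - be ^ 4 * (X (Sum.inl d) * g1 d) =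
          X (Sum.inl d) * (B0 * g d - be ^ 4 * g1 d) := by ring
      rw [h1]
      exact Q.mul_mem_left _ (hg1' d)

theorem main : StRatio := by
  intro K _ Q hQp hQh hQ u v huv hlam hG a b
  obtain ⟨w, hw⟩ := exists_w huv
  set D := (u 1 * v 2 - u 2 * v 1) * w 0 + (u 2 * v 0 - u 0 * v 2) * w 1 +
      (u 0 * v 1 - u 1 * v 0) * w 2 with hD
  have hDC : (C D⁻¹ * C D : Rg K) = 1 := by
    rw [← map_mul, inv_mul_cancel₀ hw, map_one]
  have hx : ∀ d, (X (Sum.inl d) : Rg K) = (C D⁻¹ * lam v w) * C (u d) +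
      (C D⁻¹ * lam w u) * C (v d) + (C D⁻¹ * lam u v) * C (w d) := by
    intro d
    have h1 : (C D * X (Sum.inl d) : Rg K) = lam v w * C (u d) + lam w u * C (v d) +
        lam u v * C (w d) := by
      rw [hD]
      unfold lam
      obtain rfl | rfl | rfl : d = 0 ∨ d = 1 ∨ d = 2 := by
        revert d
        decide
      all_goals
        simp only [map_add, map_sub, map_mul]
        ring
    calc (X (Sum.inl d) : Rg K) = C D⁻¹ * C D * X (Sum.inl d) := by rw [hDC, one_mul]
      _ = C D⁻¹ * (C D * X (Sum.inl d)) := by ring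
      _ = _ := by
        rw [h1]
        ring
  have hga : C D⁻¹ * lam u v ∈ Q := Q.mul_mem_left _ hlam
  have hB : ∀ j, B u v j ∈ Comp K (tau 15) ![0, 1] := fun j => T_comp _ _ _ _
  have hrel := B_rel hQ hga hx (B u v) (by simp [B]) (by simp [B]) (by simp [B]) (by simp [B])
    (by simp [B])
  have hG' : B u v 0 ∉ Q := by
    have h1 : B u v 0 = Gq u := by
      have h0 : B u v 0 = T (fun i => C (u i)) (fun i => C (u i)) (fun i => C (u i))
        (fun i => C (u i)) := by simp [B]
      rw [h0]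
      unfold T Gq
      refine Finset.sum_congr rfl fun a _ => Finset.sum_congr rfl fun b _ =>
        Finset.sum_congr rfl fun c _ => Finset.sum_congr rfl fun d _ => ?_
      simp only [map_mul]
      ring
    rwa [h1]
  have h5 := step2 (step hga hx hB hrel b 4 0 le_rfl) a
  have := M_HFBasic.fin_comp (K := K) (tau 15) ![a + 4, b]
  have := M_HFBasic.fin_comp (K := K) (tau 15) ![a, b + 1]
  have hdom : IsDomain (Rg K ⧸ Q) := (Ideal.Quotient.isDomain_iff_prime Q).2 hQp
  set mk : Rg K →ₗ[K] (Rg K ⧸ Q) := (Ideal.Quotient.mkₐ K Q).toLinearMap with hmk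
  have mk0 : ∀ f, mk f = 0 ↔ f ∈ Q := fun f => Ideal.Quotient.eq_zero_iff_mem
  have mkm : ∀ f g, mk (f * g) = mk f * mk g := fun f g => map_mul (Ideal.Quotient.mkₐ K Q) f g
  have hne : mk (B u v 0) ≠ 0 := fun h => hG' ((mk0 _).1 h)
  have hinj : Function.Injective (LinearMap.mulLeft K (mk (B u v 0))) := fun x y h =>
    mul_left_cancel₀ hne h
  have hle : ((Comp K (tau 15) ![a + 4, b]).map mk).map (LinearMap.mulLeft K (mk (B u v 0))) ≤
      ((Comp K (tau 15) ![a, b + 1]).map mk).map
        (LinearMap.mulLeft K (mk ((C D⁻¹ * lam w u) ^ 4))) := by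
    rintro _ ⟨_, ⟨f, hf, rfl⟩, rfl⟩
    obtain ⟨g, hg, hfg⟩ := h5 f hf
    refine ⟨mk g, ⟨g, hg, rfl⟩, ?_⟩
    rw [LinearMap.mulLeft_apply, LinearMap.mulLeft_apply, ← mkm, ← mkm, eq_comm, ← sub_eq_zero,
      ← map_sub, mk0]
    exact hfg
  have h6 : Module.finrank K ((Comp K (tau 15) ![a + 4, b]).map mk) ≤
      Module.finrank K ((Comp K (tau 15) ![a, b + 1]).map mk) := by
    rw [(Submodule.equivMapOfInjective _ hinj ((Comp K (tau 15) ![a + 4, b]).map mk)).finrank_eq]
    exact (Submodule.finrank_mono hle).trans (Submodule.finrank_map_le _ _)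
  rw [HF, HF]
  exact_mod_cast h6

end Pool.Agent.Helper93.NP.M_Ratio
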