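import Pool.Agent.Helper93.NP.St

set_option autoImplicit false

namespace Pool.Agent.Helper93.NP.M_Red

open Module

/-- Cutting a subspace with a coordinate hyperplane. -/
lemma finrank_cut {F : Type} [Field F] {n : Type} [Fintype n] (W : Submodule F (n → F)) (i : n)
    (u : n → F) (hu : u ∈ W) (hi : u i = 1) :
    finrank F W = finrank F (W ⊓ LinearMap.ker (LinearMap.proj i : (n → F) →ₗ[F] F) :
      Submodule F (n → F)) + 1 := by
  set f : W →ₗ[F] F := (LinearMap.proj i : (n → F) →ₗ[F] F).comp W.subtype with hf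
  have h1 := f.finrank_range_add_finrank_ker
  have h2 : LinearMap.range f = ⊤ := by
    rw [LinearMap.range_eq_top]
    intro c
    refine ⟨c • ⟨u, hu⟩, ?_⟩
    rw [map_smul, hf]
    simp [hi]
  have h3 : finrank F (LinearMap.ker f) =
      finrank F (W ⊓ LinearMap.ker (LinearMap.proj i : (n → F) →ₗ[F] F) :
        Submodule F (n → F)) := by
    have h4 : (LinearMap.ker f).map W.subtype =
        W ⊓ LinearMap.ker (LinearMap.proj i : (n → F) →ₗ[F] F) := by
      ext w
      simp only [Submodule.mem_map, LinearMap.mem_ker, Submodule.mem_inf, Submodule.subtype_apply,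
        Subtype.exists, exists_and_right, exists_eq_right, LinearMap.proj_apply, hf,
        LinearMap.comp_apply]
      constructor
      · rintro ⟨hw, h⟩
        exact ⟨hw, h⟩
      · rintro ⟨hw, h⟩
        exact ⟨hw, h⟩
    rw [← h4]
    exact (LinearEquiv.finrank_eq (Submodule.equivMapOfInjective _ W.subtype_injective _))
  rw [h2, finrank_top, Module.finrank_self, h3] at h1
  omega

/-- A nonzero vector has a coordinate of largest valuation. -/
lemma exists_coord {K : Type} [Field K] (V : ValuationSubring K) {n : Type} [Fintype n]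
    (u : n → K) (hu : u ≠ 0) : ∃ i, u i ≠ 0 ∧ ∀ j, u j / u i ∈ V := by
  obtain ⟨i₀, hi₀⟩ := Function.ne_iff.1 hu
  obtain ⟨i, -, hi⟩ := Finset.exists_max_image Finset.univ (fun i => V.valuation (u i))
    ⟨i₀, Finset.mem_univ i₀⟩
  have h0 : u i ≠ 0 := by
    intro h
    have h1 := hi i₀ (Finset.mem_univ i₀)
    rw [h, map_zero] at h1
    exact hi₀ ((Valuation.zero_iff _).1 (le_zero_iff.1 h1))
  refine ⟨i, h0, fun j => ?_⟩
  rw [← V.valuation_le_one_iff, map_div₀]
  have h2 : 0 < V.valuation (u i) := zero_lt_iff.2 fun h => h0 ((Valuation.zero_iff _).1 h)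
  exact (div_le_one₀ h2).2 (hi j (Finset.mem_univ j))

variable {K : Type} [Field K] (V : ValuationSubring K) {n : Type} [Fintype n]

/-- The reduction of a subspace. -/
def Rd (U : Submodule K (n → K)) : Submodule (IsLocalRing.ResidueField V)
    (n → IsLocalRing.ResidueField V) where
  carrier := {w | ∃ u : n → V, (fun i => ((u i : V) : K)) ∈ U ∧
    ∀ i, IsLocalRing.residue V (u i) = w i}
  zero_mem' := ⟨0, by
    have h : (fun i => (((0 : n → V) i : V) : K)) = 0 := by
      funext i
      simp
    rw [h]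
    exact U.zero_mem, fun i => by simp⟩
  add_mem' := by
    rintro w w' ⟨u, hu, hw⟩ ⟨u', hu', hw'⟩
    refine ⟨u + u', ?_, fun i => ?_⟩
    · have h : (fun i => (((u + u') i : V) : K)) =
          (fun i => ((u i : V) : K)) + fun i => ((u' i : V) : K) := by
        funext i
        simp
      rw [h]
      exact U.add_mem hu hu'
    · rw [Pi.add_apply, map_add, hw, hw', Pi.add_apply]
  smul_mem' := by
    rintro c w ⟨u, hu, hw⟩
    obtain ⟨c, rfl⟩ := IsLocalRing.residue_surjective c
    refine ⟨fun i => c * u i, ?_, fun i => ?_⟩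
    · have h : (fun i => ((c * u i : V) : K)) = (c : K) • fun i => ((u i : V) : K) := by
        funext i
        simp
      rw [h]
      exact U.smul_mem _ hu
    · rw [map_mul, hw, Pi.smul_apply, smul_eq_mul]

lemma mem_Rd {U : Submodule K (n → K)} {w : n → IsLocalRing.ResidueField V} :
    w ∈ Rd V U ↔ ∃ u : n → V, (fun i => ((u i : V) : K)) ∈ U ∧
      ∀ i, IsLocalRing.residue V (u i) = w i := Iff.rfl

/-- The reduction of the intersection with a coordinate hyperplane. -/
lemma Rd_cut (U : Submodule K (n → K)) (i : n) (u : n → V)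
    (hu : (fun i => ((u i : V) : K)) ∈ U) (hi : u i = 1) :
    Rd V U ⊓ LinearMap.ker (LinearMap.proj i : (n → IsLocalRing.ResidueField V) →ₗ[
      IsLocalRing.ResidueField V] IsLocalRing.ResidueField V) =
    Rd V (U ⊓ LinearMap.ker (LinearMap.proj i : (n → K) →ₗ[K] K)) := by
  ext w
  constructor
  · rintro ⟨h1, h2⟩
    obtain ⟨u', hu', hw⟩ := (mem_Rd V).1 h1
    have h3 : w i = 0 := h2
    refine (mem_Rd V).2 ⟨fun j => u' j - u' i * u j, ⟨?_, ?_⟩, fun j => ?_⟩
    · have h : (fun j => ((u' j - u' i * u j : V) : K)) =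
          (fun j => ((u' j : V) : K)) - ((u' i : V) : K) • fun j => ((u j : V) : K) := by
        funext j
        simp
      rw [h]
      exact U.sub_mem hu' (U.smul_mem _ hu)
    · change ((u' i - u' i * u i : V) : K) = 0
      rw [hi, mul_one, sub_self]
      rfl
    · rw [map_sub, map_mul, hw, hw, h3, zero_mul, sub_zero]
  · intro h
    obtain ⟨u', ⟨hu', h0⟩, hw⟩ := (mem_Rd V).1 h
    refine ⟨(mem_Rd V).2 ⟨u', hu', hw⟩, ?_⟩
    change w i = 0
    have h1 : ((u' i : V) : K) = 0 := h0
    have h2 : u' i = 0 := by exact_mod_cast h1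
    rw [← hw, h2, map_zero]

lemma finrank_Rd (d : ℕ) : ∀ U : Submodule K (n → K), finrank K U = d →
    finrank (IsLocalRing.ResidueField V) (Rd V U) = d := by
  induction d with
  | zero =>
    intro U hU
    rw [Submodule.finrank_eq_zero] at hU
    rw [Submodule.finrank_eq_zero, Submodule.eq_bot_iff]
    intro w hw
    obtain ⟨u, hu, hw⟩ := (mem_Rd V).1 hw
    rw [hU, Submodule.mem_bot] at hu
    funext i
    have h1 : ((u i : V) : K) = 0 := congrFun hu i
    have h2 : u i = 0 := by exact_mod_cast h1
    rw [← hw, h2, map_zero]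
    rfl
  | succ d ih =>
    intro U hU
    have h0 : U ≠ ⊥ := by
      rintro rfl
      rw [finrank_bot] at hU
      omega
    obtain ⟨v, hv, hv0⟩ := U.exists_mem_ne_zero_of_ne_bot h0
    obtain ⟨i, hi, hj⟩ := exists_coord V v hv0
    set u : n → V := fun j => ⟨v j / v i, hj j⟩ with hu
    have hui : u i = 1 := by
      apply Subtype.ext
      rw [hu]
      exact div_self hi
    have huU : (fun j => ((u j : V) : K)) ∈ U := by
      have h : (fun j => ((u j : V) : K)) = (v i)⁻¹ • v := by
        funext j
        rw [Pi.smul_apply, smul_eq_mul, ← div_eq_inv_mul]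
      rw [h]
      exact U.smul_mem _ hv
    have h1 := finrank_cut U i (fun j => ((u j : V) : K)) huU (by
      change ((u i : V) : K) = 1
      rw [hui]
      rfl)
    have h2 := finrank_cut (Rd V U) i (fun j => IsLocalRing.residue V (u j))
      ((mem_Rd V).2 ⟨u, huU, fun _ => rfl⟩) (by
        change IsLocalRing.residue V (u i) = 1
        rw [hui, map_one])
    have h3 := ih (U ⊓ LinearMap.ker (LinearMap.proj i : (n → K) →ₗ[K] K)) (by omega)
    rw [Rd_cut V U i u huU hui, h3] at h2
    exact h2

theorem main : StRed := by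
  intro K _ V n _ U
  have h : Submodule.span (IsLocalRing.ResidueField V)
      {w : n → IsLocalRing.ResidueField V | ∃ u : n → V, (fun i => ((u i : V) : K)) ∈ U ∧
        ∀ i, IsLocalRing.residue V (u i) = w i} = Rd V U := Submodule.span_eq (Rd V U)
  rw [h]
  exact finrank_Rd V _ U rfl

end Pool.Agent.Helper93.NP.M_Red
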