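import Pool.Agent.Helper93.NP.St

/-! The linear forms of a bundle are a regular sequence in large `x`-degrees
(MP_16deda_ag, module Reg). -/

namespace Pool.Agent.Helper93.NP.M_Reg

open MvPolynomial

theorem fM_mem {K : Type} [Field K] {a N : ℕ} (M : Fin a → Fin N → Fin 3 → K) (l : Fin a) :
    fM M l ∈ Comp K (tau N) (Pi.single 0 1 + Pi.single 1 1) := by
  unfold fM
  refine Submodule.sum_mem _ fun k _ => Submodule.sum_mem _ fun i _ => ?_
  rw [mul_assoc, ← smul_eq_C_mul]
  refine Submodule.smul_mem _ _ ?_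
  exact (isWeightedHomogeneous_X K (wt (tau N)) (Sum.inl i)).mul
    (isWeightedHomogeneous_X K (wt (tau N)) (Sum.inr k))

theorem main (h1 : StMinor) (h2 : StNull) (h3 : StSat) (h4 : StHomOps) : StReg := by
  intro K _ _ N l M hM
  obtain ⟨n0, hn0⟩ := h2 K N l M hM
  obtain ⟨_, _, hspan, _, hqt⟩ := h4 K (Fin 3 ⊕ Fin N) (Fin 2) (tau N)
  have hIH : IsHom (tau N) (IM (fun j : Fin l => M j.castSucc)) := by
    apply hspan
    rintro f ⟨j, rfl⟩
    exact ⟨_, fM_mem _ _⟩
  have hJH : IsHom (tau N) (qt (IM (fun j : Fin l => M j.castSucc)) (fM M (Fin.last l))) :=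
    hqt _ _ _ hIH (fM_mem M (Fin.last l))
  refine h3 K (Fin 3 ⊕ Fin N) (Fin 2) (tau N) 0 _ _ hIH hJH ?_ ?_
  · intro g hg
    exact mem_qt.2 (Ideal.mul_mem_left _ _ hg)
  · intro d g hg hgJ
    have hgI := mem_qt.1 hgJ
    -- every maximal minor is in the radical of `(I : g)`
    have hrad : Ideal.span {D | ∃ s : Fin (l + 1) → Fin N, Function.Injective s ∧
          D = Matrix.det (Matrix.of fun (j j' : Fin (l + 1)) =>
            ∑ i, (C (M j (s j') i) * X (Sum.inl i) : MvPolynomial (Fin 3 ⊕ Fin N) K))} ≤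
        (qt (IM (fun j : Fin l => M j.castSucc)) g).radical := by
      rw [Ideal.span_le]
      rintro D ⟨s, hs, hD⟩
      refine ⟨d 1 + 1, ?_⟩
      rw [mem_qt]
      by_cases h0 : D = 0
      · rw [h0, zero_pow (Nat.succ_ne_zero _), mul_zero]
        exact Submodule.zero_mem _
      · have h5 := h1 K N l M s hs d g hg hgI (by rw [← hD]; exact h0)
        rw [← hD] at h5
        have h6 : g * D ^ (d 1 + 1) = D * (D ^ (d 1) * g) := by ring
        rw [h6]
        exact Ideal.mul_mem_left _ _ h5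
    have hX : ∀ i : Fin 3, ∃ m : ℕ,
        (X (Sum.inl i) : MvPolynomial (Fin 3 ⊕ Fin N) K) ^ m * g ∈
          IM (fun j : Fin l => M j.castSucc) := by
      intro i
      obtain ⟨m, hm⟩ := hrad (hn0 i)
      refine ⟨n0 * m, ?_⟩
      rw [← pow_mul, mem_qt, mul_comm] at hm
      exact hm
    choose m hm using hX
    refine ⟨∑ i, m i, fun s hs => ?_⟩
    rcases s with i | k
    · have h7 : m i ≤ ∑ i, m i :=
        Finset.single_le_sum (fun _ _ => Nat.zero_le _) (Finset.mem_univ i)
      obtain ⟨r, hr⟩ := Nat.exists_eq_add_of_le h7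
      rw [hr, add_comm, pow_add, mul_assoc]
      exact Ideal.mul_mem_left _ _ (hm i)
    · exact absurd hs (by simp [tau])

end Pool.Agent.Helper93.NP.M_Reg
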