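import Pool.Agent.Helper93.NP.M_HomOps

/-! Two ideals which agree up to powers of the variables of one type agree in large degrees. -/

namespace Pool.Agent.Helper93.NP.M_Sat

open MvPolynomial

variable {K σ ι : Type} [Field K] [Fintype σ] [DecidableEq ι] {τ : σ → ι}

theorem weight_apply_coord (m : σ →₀ ℕ) (i : ι) :
    Finsupp.weight (wt τ) m i = ∑ s, if τ s = i then m s else 0 := by
  rw [Finsupp.weight_apply, Finsupp.sum_fintype _ _ (fun s => by simp), Finset.sum_apply]
  refine Finset.sum_congr rfl fun s _ => ?_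
  simp only [wt, Pi.smul_apply, smul_eq_mul]
  by_cases h : τ s = i
  · subst h
    simp
  · rw [if_neg h, Pi.single_eq_of_ne (fun h' => h h'.symm), mul_zero]

theorem mul_mem_of_large {I : Ideal (MvPolynomial σ K)} {i : ι} {N : ℕ}
    {g h : MvPolynomial σ K} (hg : ∀ s, τ s = i → X s ^ N * g ∈ I) {β : ι → ℕ}
    (hh : h ∈ Comp K τ β) (hβ : Fintype.card σ * N + 1 ≤ β i) : h * g ∈ I := by
  have hh' : IsWeightedHomogeneous (wt τ) h β := hh
  rw [h.as_sum, Finset.sum_mul]
  refine Ideal.sum_mem _ fun m hm => ?_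
  have h1 := hh' (mem_support_iff.1 hm)
  have h2 := weight_apply_coord (τ := τ) m i
  rw [h1] at h2
  have h3 : ∃ s, τ s = i ∧ N ≤ m s := by
    by_contra hcon
    push Not at hcon
    have h4 : (∑ s, if τ s = i then m s else 0) ≤ ∑ _s : σ, N := by
      refine Finset.sum_le_sum fun s _ => ?_
      split_ifs with hs
      · exact (hcon s hs).le
      · exact Nat.zero_le _
    rw [Finset.sum_const, Finset.card_univ, smul_eq_mul] at h4
    omega
  obtain ⟨s, hs, hN⟩ := h3
  have h5 : (monomial m (coeff m h) : MvPolynomial σ K) =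
      monomial (m - Finsupp.single s N) (coeff m h) * X s ^ N := by
    rw [X_pow_eq_monomial, monomial_mul, mul_one]
    have h6 : Finsupp.single s N ≤ m := by
      rw [Finsupp.single_le_iff]
      exact hN
    rw [tsub_add_cancel_of_le h6]
  rw [h5, mul_assoc]
  exact I.mul_mem_left _ (hg s hs)

theorem agree {I J : Ideal (MvPolynomial σ K)} (hJ : IsHom τ J) (i : ι)
    (hsat : ∀ (d : ι → ℕ) (f : MvPolynomial σ K), f ∈ Comp K τ d → f ∈ J →
      ∃ n : ℕ, ∀ s, τ s = i → X s ^ n * f ∈ I) :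
    ∃ a₀ : ℕ, ∀ α : ι → ℕ, a₀ ≤ α i → ∀ f ∈ Comp K τ α, f ∈ J → f ∈ I := by
  classical
  obtain ⟨T, hT⟩ := (isNoetherianRing_iff_ideal_fg (MvPolynomial σ K)).1 inferInstance J
  -- homogeneous generators
  let T' : Finset ((ι → ℕ) × MvPolynomial σ K) := T.biUnion fun g =>
    (g.support.image (Finsupp.weight (wt τ))).image fun d =>
      (d, weightedHomogeneousComponent (wt τ) d g)
  have hT'1 : ∀ p ∈ T', p.2 ∈ Comp K τ p.1 ∧ p.2 ∈ J := by
    intro p hp
    obtain ⟨g, hg, hp⟩ := Finset.mem_biUnion.1 hp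
    obtain ⟨d, _, rfl⟩ := Finset.mem_image.1 hp
    refine ⟨weightedHomogeneousComponent_mem _ _ _, hJ g ?_ d⟩
    rw [← hT]
    exact Ideal.subset_span hg
  have hT'2 : J ≤ Ideal.span (Prod.snd '' (T' : Set ((ι → ℕ) × MvPolynomial σ K))) := by
    rw [← hT, Ideal.span_le]
    intro g hg
    have h1 : g = ∑ d ∈ g.support.image (Finsupp.weight (wt τ)),
        weightedHomogeneousComponent (wt τ) d g := by
      ext m
      rw [coeff_sum]
      by_cases hm : coeff m g = 0
      · rw [hm]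
        refine (Finset.sum_eq_zero fun d _ => ?_).symm
        rw [coeff_weightedHomogeneousComponent, hm, ite_self]
      · rw [Finset.sum_eq_single (Finsupp.weight (wt τ) m)]
        · rw [coeff_weightedHomogeneousComponent, if_pos rfl]
        · intro d _ hd
          rw [coeff_weightedHomogeneousComponent, if_neg (fun h => hd h.symm)]
        · intro h
          exact absurd (Finset.mem_image_of_mem _ (mem_support_iff.2 hm)) h
    rw [h1]
    refine Ideal.sum_mem _ fun d hd => Ideal.subset_span ⟨(d, _), ?_, rfl⟩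
    rw [Finset.mem_coe]
    exact Finset.mem_biUnion.2 ⟨g, hg, Finset.mem_image.2 ⟨d, hd, rfl⟩⟩
  have hn : ∀ p : (ι → ℕ) × MvPolynomial σ K, ∃ n : ℕ, p ∈ T' →
      ∀ s, τ s = i → X s ^ n * p.2 ∈ I := by
    intro p
    by_cases hp : p ∈ T'
    · obtain ⟨n, hn⟩ := hsat p.1 p.2 (hT'1 p hp).1 (hT'1 p hp).2
      exact ⟨n, fun _ => hn⟩
    · exact ⟨0, fun h => absurd h hp⟩
  choose n hn using hn
  let N := ∑ p ∈ T', n p
  let D := ∑ p ∈ T', p.1 i
  have hN : ∀ p ∈ T', ∀ s, τ s = i → X s ^ N * p.2 ∈ I := by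
    intro p hp s hs
    have h1 : n p ≤ N := Finset.single_le_sum (f := n) (fun _ _ => Nat.zero_le _) hp
    rw [← Nat.sub_add_cancel h1, pow_add, mul_assoc]
    exact I.mul_mem_left _ (hn p hp s hs)
  refine ⟨D + Fintype.card σ * N + 1, fun α hα f hf hfJ => ?_⟩
  have hf1 := hT'2 hfJ
  have hf' : IsWeightedHomogeneous (wt τ) f α := hf
  have hf2 : f ∈ Submodule.span (MvPolynomial σ K)
      ((T'.image Prod.snd : Finset (MvPolynomial σ K)) : Set (MvPolynomial σ K)) := by
    rw [Finset.coe_image]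
    exact hf1
  obtain ⟨c, -, hc⟩ := Submodule.mem_span_finset.1 hf2
  have h1 : weightedHomogeneousComponent (wt τ) α f = f := hf'.weightedHomogeneousComponent_same
  rw [← h1, ← hc, map_sum]
  refine Ideal.sum_mem _ fun g hg => ?_
  obtain ⟨p, hp, rfl⟩ := Finset.mem_image.1 hg
  rw [smul_eq_mul, mul_comm]
  by_cases hd : ∃ d, α = d + p.1
  · obtain ⟨d, rfl⟩ := hd
    rw [M_HomOps.comp_mul τ (hT'1 p hp).1, mul_comm]
    have h3 : p.1 i ≤ D :=
      Finset.single_le_sum (f := fun p : (ι → ℕ) × MvPolynomial σ K => p.1 i)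
        (fun _ _ => Nat.zero_le _) hp
    refine mul_mem_of_large (hN p hp) (weightedHomogeneousComponent_mem _ _ _) ?_
    rw [Pi.add_apply] at hα
    omega
  · push Not at hd
    rw [M_HomOps.comp_mul_ne τ (hT'1 p hp).1 _ _ hd]
    exact I.zero_mem

theorem main (hHF : StHFBasic) : StSat := by
  intro K σ ι _ _ _ _ τ i I J hI hJ hIJ hsat
  obtain ⟨a₀, h⟩ := agree hJ i hsat
  refine ⟨a₀, fun α hα => ?_⟩
  exact (hHF K σ ι τ).2.2.1 J I α fun f hf => ⟨h α hα f hf, fun h => hIJ h⟩

end Pool.Agent.Helper93.NP.M_Sat
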