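import Pool.Agent.Helper93.NP.St
import Pool.Agent.Helper93.NP.M_HFBasic

/-!
Specialisation of a homogeneous ideal over a valuation ring preserves the Hilbert function.
-/

namespace Pool.Agent.Helper93.NP.M_Spec

open MvPolynomial Module

section

variable {σ ι : Type} [DecidableEq ι] (τ : σ → ι)

/-- The coefficients at the monomials of degree `d`. -/
noncomputable def cf (K : Type) [Field K] (d : ι → ℕ) :
    MvPolynomial σ K →ₗ[K] ({m : σ →₀ ℕ // Finsupp.weight (wt τ) m = d} → K) :=
  LinearMap.pi fun m => lcoeff K m.1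

theorem cf_apply (K : Type) [Field K] (d : ι → ℕ) (f : MvPolynomial σ K)
    (m : {m : σ →₀ ℕ // Finsupp.weight (wt τ) m = d}) : cf τ K d f m = coeff m.1 f := rfl

theorem cf_inj (K : Type) [Field K] (d : ι → ℕ) {f g : MvPolynomial σ K}
    (hf : f ∈ Comp K τ d) (hg : g ∈ Comp K τ d) (h : cf τ K d f = cf τ K d g) : f = g := by
  ext m
  by_cases hm : Finsupp.weight (wt τ) m = d
  · exact congrFun h ⟨m, hm⟩
  · rw [Comp, mem_weightedHomogeneousSubmodule] at hf hg
    rw [hf.coeff_eq_zero m hm, hg.coeff_eq_zero m hm]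

theorem finrank_map (K : Type) [Field K] (d : ι → ℕ) (W : Submodule K (MvPolynomial σ K))
    (hW : W ≤ Comp K τ d) : finrank K (W.map (cf τ K d)) = finrank K W := by
  have h1 : Function.Injective ((cf τ K d).domRestrict W) := by
    intro f g h
    apply Subtype.ext
    exact cf_inj τ K d (hW f.2) (hW g.2) h
  have h2 := LinearMap.finrank_range_of_inj h1
  rw [LinearMap.range_domRestrict] at h2
  exact h2

theorem map_top (K : Type) [Field K] (d : ι → ℕ)
    [Fintype {m : σ →₀ ℕ // Finsupp.weight (wt τ) m = d}] :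
    (Comp K τ d).map (cf τ K d) = ⊤ := by
  classical
  rw [eq_top_iff]
  intro u _
  refine ⟨∑ m, monomial m.1 (u m), ?_, ?_⟩
  · refine Submodule.sum_mem _ fun m _ => ?_
    rw [Comp, mem_weightedHomogeneousSubmodule]
    exact isWeightedHomogeneous_monomial _ _ _ m.2
  · funext m
    rw [cf_apply, coeff_sum, Finset.sum_eq_single m]
    · rw [coeff_monomial, if_pos rfl]
    · intro m' _ hm
      rw [coeff_monomial, if_neg]
      intro h
      exact hm (Subtype.ext h)
    · intro h
      exact absurd (Finset.mem_univ _) h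

theorem finrank_comp (K : Type) [Field K] (d : ι → ℕ)
    [Fintype {m : σ →₀ ℕ // Finsupp.weight (wt τ) m = d}] :
    finrank K (Comp K τ d) = Fintype.card {m : σ →₀ ℕ // Finsupp.weight (wt τ) m = d} := by
  rw [← finrank_map τ K d _ le_rfl, map_top, finrank_top, finrank_fintype_fun_eq_card]

/-- Components commute with base change. -/
theorem comp_map {R S : Type} [CommRing R] [CommRing S] (φ : R →+* S) (d : ι → ℕ)
    (g : MvPolynomial σ R) : MvPolynomial.map φ (weightedHomogeneousComponent (wt τ) d g) =
      weightedHomogeneousComponent (wt τ) d (MvPolynomial.map φ g) := by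
  classical
  ext m
  rw [coeff_map, coeff_weightedHomogeneousComponent, coeff_weightedHomogeneousComponent,
    coeff_map]
  split_ifs
  · rfl
  · exact map_zero φ

theorem mem_spec {K : Type} [Field K] (V : ValuationSubring K)
    (P : Ideal (MvPolynomial σ K)) (f : MvPolynomial σ (IsLocalRing.ResidueField V)) :
    f ∈ spec V P ↔ ∃ g : MvPolynomial σ V, MvPolynomial.map V.subtype g ∈ P ∧
      MvPolynomial.map (IsLocalRing.residue V) g = f := by
  have hs : Function.Surjective (MvPolynomial.map (σ := σ) (IsLocalRing.residue V)) :=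
    map_surjective _ IsLocalRing.residue_surjective
  rw [spec, Ideal.mem_map_iff_of_surjective _ hs]
  rfl

theorem isHom_spec {K : Type} [Field K] (V : ValuationSubring K)
    (P : Ideal (MvPolynomial σ K)) (hP : IsHom τ P) : IsHom τ (spec V P) := by
  intro f hf d
  rw [mem_spec] at hf ⊢
  obtain ⟨g, hg, rfl⟩ := hf
  refine ⟨weightedHomogeneousComponent (wt τ) d g, ?_, ?_⟩
  · rw [comp_map]
    exact hP _ hg d
  · rw [comp_map]

theorem set_eq {K : Type} [Field K] (V : ValuationSubring K)
    (P : Ideal (MvPolynomial σ K)) (hP : IsHom τ P) (d : ι → ℕ)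
    [Fintype {m : σ →₀ ℕ // Finsupp.weight (wt τ) m = d}] :
    {w : {m : σ →₀ ℕ // Finsupp.weight (wt τ) m = d} → IsLocalRing.ResidueField V |
      ∃ u : {m : σ →₀ ℕ // Finsupp.weight (wt τ) m = d} → V,
        (fun i => ((u i : V) : K)) ∈
          (Comp K τ d ⊓ P.restrictScalars K : Submodule K (MvPolynomial σ K)).map (cf τ K d) ∧
        ∀ i, IsLocalRing.residue V (u i) = w i} =
    ((Comp (IsLocalRing.ResidueField V) τ d ⊓
      (spec V P).restrictScalars (IsLocalRing.ResidueField V) : Submodule _ _).map
        (cf τ (IsLocalRing.ResidueField V) d) : Set _) := by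
  classical
  ext w
  constructor
  · rintro ⟨u, ⟨f, ⟨hf, hfP⟩, hfu⟩, huw⟩
    set g : MvPolynomial σ V := ∑ m : {m : σ →₀ ℕ // Finsupp.weight (wt τ) m = d},
      monomial m.1 (u m) with hg
    have hgc : ∀ m : {m : σ →₀ ℕ // Finsupp.weight (wt τ) m = d}, coeff m.1 g = u m := by
      intro m
      rw [hg, coeff_sum, Finset.sum_eq_single m]
      · rw [coeff_monomial, if_pos rfl]
      · intro m' _ hm
        rw [coeff_monomial, if_neg]
        intro h
        exact hm (Subtype.ext h)
      · intro h
        exact absurd (Finset.mem_univ _) h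
    have hgH : IsWeightedHomogeneous (wt τ) g d := by
      rw [← mem_weightedHomogeneousSubmodule]
      refine Submodule.sum_mem _ fun m _ => ?_
      rw [mem_weightedHomogeneousSubmodule]
      exact isWeightedHomogeneous_monomial _ _ _ m.2
    have hgm : ∀ {S : Type} [CommRing S] (φ : V →+* S),
        IsWeightedHomogeneous (wt τ) (MvPolynomial.map φ g) d := by
      intro S _ φ m hm
      rw [coeff_map] at hm
      refine hgH (fun h => hm ?_)
      rw [h, map_zero]
    have hgf : MvPolynomial.map V.subtype g = f := by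
      refine cf_inj τ K d (hgm _) hf ?_
      rw [hfu]
      funext m
      rw [cf_apply, coeff_map, hgc]
      rfl
    refine ⟨MvPolynomial.map (IsLocalRing.residue V) g, ⟨hgm _, ?_⟩, ?_⟩
    · have h3 : MvPolynomial.map (IsLocalRing.residue V) g ∈ spec V P :=
        (mem_spec V P _).2 ⟨g, by rw [hgf]; exact hfP, rfl⟩
      exact h3
    · funext m
      rw [cf_apply, coeff_map, hgc]
      exact huw m
  · rintro ⟨f, ⟨hf, hfP⟩, hfw⟩
    have hfP' : f ∈ spec V P := hfP
    rw [mem_spec] at hfP'
    obtain ⟨g, hg, hgf⟩ := hfP'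
    set g' := weightedHomogeneousComponent (wt τ) d g with hg'
    refine ⟨fun m => coeff m.1 g', ?_, ?_⟩
    · refine ⟨MvPolynomial.map V.subtype g', ⟨?_, ?_⟩, ?_⟩
      · rw [hg', comp_map]
        exact weightedHomogeneousComponent_mem _ _ _
      · have h3 : MvPolynomial.map V.subtype g' ∈ P := by
          rw [hg', comp_map]
          exact hP _ hg d
        exact h3
      · funext m
        rw [cf_apply, coeff_map]
        rfl
    · intro m
      rw [← hfw, cf_apply, ← coeff_map, hg', comp_map, hgf,
        weightedHomogeneousComponent_of_mem (m := d) (n := d) hf, if_pos rfl]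

end

theorem main (h : StRed) : StSpec := by
  intro K σ ι _ _ _ _ τ V P hP
  refine ⟨isHom_spec τ V P hP, fun d => ?_⟩
  have : Fintype {m : σ →₀ ℕ // Finsupp.weight (wt τ) m = d} :=
    (M_HFBasic.finite_monomials τ d).fintype
  have h1 := h K V {m : σ →₀ ℕ // Finsupp.weight (wt τ) m = d}
    ((Comp K τ d ⊓ P.restrictScalars K : Submodule K (MvPolynomial σ K)).map (cf τ K d))
  rw [set_eq τ V P hP d, Submodule.span_eq, finrank_map τ _ _ _ inf_le_left,
    finrank_map τ _ _ _ inf_le_left] at h1
  have h2 := M_HFBasic.rank_nullity τ P d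
  have h3 := M_HFBasic.rank_nullity τ (spec V P) d
  rw [finrank_comp] at h2 h3
  rw [h1] at h3
  linarith

end Pool.Agent.Helper93.NP.M_Spec
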