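import Pool.Agent.Helper93.NP.St

/-! Specialisation of the ideal and of the bundle condition (MP_16deda_ag). -/

namespace Pool.Agent.Helper93.NP.M_SpecIM

open MvPolynomial Pool.Agent.Helper93.NP

theorem main : StSpecIM := by
  intro K _ V a N M P hP
  unfold IM
  rw [Ideal.span_le]
  rintro _ ⟨l, rfl⟩
  set g : MvPolynomial (Fin 3 ⊕ Fin N) V :=
    ∑ k, ∑ i, C (M l k i) * X (Sum.inl i) * X (Sum.inr k) with hg
  have h1 : MvPolynomial.map (IsLocalRing.residue V) g =
      fM (fun l k i => IsLocalRing.residue V (M l k i)) l := by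
    simp [hg, fM, map_sum]
  have h2 : MvPolynomial.map (V.subtype) g = fM (fun l k i => ((M l k i : V) : K)) l := by
    simp [hg, fM, map_sum]
  rw [← h1]
  refine Ideal.mem_map_of_mem _ ?_
  rw [Ideal.mem_comap, h2]
  exact hP (Ideal.subset_span ⟨l, rfl⟩)

theorem scale {K : Type} [Field K] (V : ValuationSubring K) {n : ℕ} (x : Fin n → K)
    (hx : x ≠ 0) : ∃ (c : K) (y : Fin n → V), c ≠ 0 ∧ (∀ i, ((y i : V) : K) = c * x i) ∧
      ∃ i, y i = 1 := by
  obtain ⟨j, hj⟩ := Function.ne_iff.mp hx
  have hne : (Finset.univ : Finset (Fin n)).Nonempty := ⟨j, Finset.mem_univ _⟩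
  obtain ⟨i, -, hi⟩ := Finset.exists_max_image Finset.univ (fun i => V.valuation (x i)) hne
  have hi0 : x i ≠ 0 := by
    intro h0
    have := hi j (Finset.mem_univ _)
    simp only [h0, map_zero] at this
    have h2 : V.valuation (x j) = 0 := le_antisymm this zero_le
    exact hj (by simpa using h2)
  have hmem : ∀ k, (x i)⁻¹ * x k ∈ V := by
    intro k
    rw [← ValuationSubring.valuation_le_one_iff, map_mul, map_inv₀]
    have hk := hi k (Finset.mem_univ _)
    have hv : V.valuation (x i) ≠ 0 := by simpa using hi0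
    calc (V.valuation (x i))⁻¹ * V.valuation (x k)
        ≤ (V.valuation (x i))⁻¹ * V.valuation (x i) := by gcongr
      _ = 1 := inv_mul_cancel₀ hv
  refine ⟨(x i)⁻¹, fun k => ⟨(x i)⁻¹ * x k, hmem k⟩, inv_ne_zero hi0, fun k => rfl, i, ?_⟩
  apply Subtype.ext
  simp [inv_mul_cancel₀ hi0]

theorem main2 : StSpecBundle := by
  intro K _ V a N M hB x hx
  rw [Fintype.linearIndependent_iff]
  intro v hv
  by_contra hne
  have hv0 : v ≠ 0 := fun h => hne (fun i => congrFun h i)
  obtain ⟨c, y, hc, hy, i0, hi0⟩ := scale V x hx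
  obtain ⟨d, w, hd, hw, j0, hj0⟩ := scale V v hv0
  have hrel : ∀ k, ∑ l, w l * ∑ i, M l k i * y i = 0 := by
    intro k
    apply Subtype.ext
    have h1 := congrFun hv k
    simp only [Finset.sum_apply, Pi.smul_apply, smul_eq_mul, Pi.zero_apply] at h1
    have h2 : ((∑ l, w l * ∑ i, M l k i * y i : V) : K) =
        d * c * ∑ l, v l * ∑ i, ((M l k i : V) : K) * x i := by
      push_cast
      rw [Finset.mul_sum]
      refine Finset.sum_congr rfl fun l _ => ?_
      rw [hw, Finset.mul_sum, Finset.mul_sum, Finset.mul_sum]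
      refine Finset.sum_congr rfl fun i _ => ?_
      rw [hy]
      ring
    rw [h2, h1]
    simp
  have hy0 : (fun i => IsLocalRing.residue V (y i)) ≠ 0 := by
    intro h
    have := congrFun h i0
    simp [hi0] at this
  have hli := hB _ hy0
  rw [Fintype.linearIndependent_iff] at hli
  have := hli (fun l => IsLocalRing.residue V (w l)) (by
    funext k
    simp only [Finset.sum_apply, Pi.smul_apply, smul_eq_mul, Pi.zero_apply]
    have h3 := congrArg (IsLocalRing.residue V) (hrel k)
    simpa [map_sum, map_mul] using h3) j0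
  simp [hj0] at this

end Pool.Agent.Helper93.NP.M_SpecIM
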