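import Pool.Agent.Helper93.NP.St

/-! Forms of degree seven are combinations of the six quintics. -/

namespace Pool.Agent.Helper93.NP.M_Sur

open MvPolynomial Pool.Agent.Helper93.NP

/-- The quadratic monomials. -/
def qm {A : Type} [CommRing A] (x : Fin 3 → A) : Fin 6 → A :=
  ![x 0 ^ 2, x 0 * x 1, x 0 * x 2, x 1 ^ 2, x 1 * x 2, x 2 ^ 2]

/-- Combination of the quintics with quadratic coefficients. -/
def comb {A : Type} [CommRing A] (x : Fin 3 → A) (c : Fin 6 → Fin 6 → ℤ) : A :=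
  ∑ j, (∑ m, (c j m : A) * qm x m) * gv x j

theorem s_7_0_0 {A : Type} [CommRing A] (x : Fin 3 → A) :
    2 * (x 0 ^ 7 * x 1 ^ 0 * x 2 ^ 0) = comb x (![![2, 0, 0, 0, 0, 0], ![0, 0, 0, 0, 0, 0], ![0, 0, 0, 0, 0, 0], ![0, 0, 0, 0, 0, 0], ![0, 0, 0, 0, 0, 0], ![0, 0, 0, 0, 0, 0]]) := by
  simp [comb, gv, qm, Fin.sum_univ_succ]
  try ring

theorem s_6_1_0 {A : Type} [CommRing A] (x : Fin 3 → A) :
    2 * (x 0 ^ 6 * x 1 ^ 1 * x 2 ^ 0) = comb x (![![0, 2, 0, 0, 0, 0], ![0, 0, 0, 0, 0, 0], ![0, 0, 0, 0, 0, 0], ![0, 0, 0, 0, 0, 0], ![0, 0, 0, 0, 0, 0], ![0, 0, 0, 0, 0, 0]]) := by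
  simp [comb, gv, qm, Fin.sum_univ_succ]
  try ring

theorem s_6_0_1 {A : Type} [CommRing A] (x : Fin 3 → A) :
    2 * (x 0 ^ 6 * x 1 ^ 0 * x 2 ^ 1) = comb x (![![0, 0, 2, 0, 0, 0], ![0, 0, 0, 0, 0, 0], ![0, 0, 0, 0, 0, 0], ![0, 0, 0, 0, 0, 0], ![0, 0, 0, 0, 0, 0], ![0, 0, 0, 0, 0, 0]]) := by
  simp [comb, gv, qm, Fin.sum_univ_succ]
  try ring

theorem s_5_2_0 {A : Type} [CommRing A] (x : Fin 3 → A) :
    2 * (x 0 ^ 5 * x 1 ^ 2 * x 2 ^ 0) = comb x (![![0, 0, 0, 2, 0, 0], ![0, 0, 0, 0, 0, 0], ![0, 0, 0, 0, 0, 0], ![0, 0, 0, 0, 0, 0], ![0, 0, 0, 0, 0, 0], ![0, 0, 0, 0, 0, 0]]) := by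
  simp [comb, gv, qm, Fin.sum_univ_succ]
  try ring

theorem s_5_1_1 {A : Type} [CommRing A] (x : Fin 3 → A) :
    2 * (x 0 ^ 5 * x 1 ^ 1 * x 2 ^ 1) = comb x (![![0, 0, 0, 0, 2, 0], ![0, 0, 0, 0, 0, 0], ![0, 0, 0, 0, 0, 0], ![0, 0, 0, 0, 0, 0], ![0, 0, 0, 0, 0, 0], ![0, 0, 0, 0, 0, 0]]) := by
  simp [comb, gv, qm, Fin.sum_univ_succ]
  try ring

theorem s_5_0_2 {A : Type} [CommRing A] (x : Fin 3 → A) :
    2 * (x 0 ^ 5 * x 1 ^ 0 * x 2 ^ 2) = comb x (![![0, 0, 0, 0, 0, 2], ![0, 0, 0, 0, 0, 0], ![0, 0, 0, 0, 0, 0], ![0, 0, 0, 0, 0, 0], ![0, 0, 0, 0, 0, 0], ![0, 0, 0, 0, 0, 0]]) := by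
  simp [comb, gv, qm, Fin.sum_univ_succ]
  try ring

theorem s_4_3_0 {A : Type} [CommRing A] (x : Fin 3 → A) :
    2 * (x 0 ^ 4 * x 1 ^ 3 * x 2 ^ 0) = comb x (![![0, 0, -2, 0, 0, 0], ![0, 0, 0, 0, 0, 0], ![0, 0, 0, 0, 0, 0], ![0, 0, 0, 0, 0, 0], ![2, 0, 0, 0, 0, 0], ![0, 0, 0, 0, 0, 0]]) := by
  simp [comb, gv, qm, Fin.sum_univ_succ]
  try ring

theorem s_4_2_1 {A : Type} [CommRing A] (x : Fin 3 → A) :
    2 * (x 0 ^ 4 * x 1 ^ 2 * x 2 ^ 1) = comb x (![![0, 0, 0, 0, 0, 0], ![-2, 0, 0, 0, 0, 0], ![0, 0, 0, 0, 0, 0], ![0, 0, 0, 0, 0, 0], ![0, 0, 0, 2, 0, 0], ![0, 0, 0, 0, 0, 0]]) := by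
  simp [comb, gv, qm, Fin.sum_univ_succ]
  try ring

theorem s_4_1_2 {A : Type} [CommRing A] (x : Fin 3 → A) :
    2 * (x 0 ^ 4 * x 1 ^ 1 * x 2 ^ 2) = comb x (![![0, 0, 0, 0, 0, 0], ![0, 0, 0, 0, 0, 0], ![0, 0, 0, 0, 0, 0], ![0, 1, 0, 0, 0, 0], ![0, 0, 0, 0, 1, 0], ![0, 0, -1, 0, 0, 0]]) := by
  simp [comb, gv, qm, Fin.sum_univ_succ]
  try ring

theorem s_4_0_3 {A : Type} [CommRing A] (x : Fin 3 → A) :
    2 * (x 0 ^ 4 * x 1 ^ 0 * x 2 ^ 3) = comb x (![![0, 0, 0, 0, 0, 0], ![0, 0, 0, 0, 0, 0], ![0, -2, 0, 0, 0, 0], ![0, 0, 2, 0, 0, 0], ![0, 0, 0, 0, 0, 0], ![0, 0, 0, 0, 0, 0]]) := by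
  simp [comb, gv, qm, Fin.sum_univ_succ]
  try ring

theorem s_3_4_0 {A : Type} [CommRing A] (x : Fin 3 → A) :
    2 * (x 0 ^ 3 * x 1 ^ 4 * x 2 ^ 0) = comb x (![![0, 0, 0, 0, -2, 0], ![0, 0, 0, 0, 0, 0], ![0, 0, 0, 0, 0, 0], ![0, 0, 0, 0, 0, 0], ![0, 2, 0, 0, 0, 0], ![0, 0, 0, 0, 0, 0]]) := by
  simp [comb, gv, qm, Fin.sum_univ_succ]
  try ring

theorem s_3_3_1 {A : Type} [CommRing A] (x : Fin 3 → A) :
    2 * (x 0 ^ 3 * x 1 ^ 3 * x 2 ^ 1) = comb x (![![0, 0, 0, 0, 0, -2], ![0, 0, 0, 0, 0, 0], ![0, 0, 0, 0, 0, 0], ![0, 0, 0, 0, 0, 0], ![0, 0, 2, 0, 0, 0], ![0, 0, 0, 0, 0, 0]]) := by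
  simp [comb, gv, qm, Fin.sum_univ_succ]
  try ring

theorem s_3_2_2 {A : Type} [CommRing A] (x : Fin 3 → A) :
    2 * (x 0 ^ 3 * x 1 ^ 2 * x 2 ^ 2) = comb x (![![0, 0, 0, 0, 0, 0], ![0, 0, 2, 0, 0, 0], ![0, 0, 0, 0, 0, 0], ![0, 0, 0, 2, 0, 0], ![0, 0, 0, 0, 0, 0], ![0, 0, 0, 0, -2, 0]]) := by
  simp [comb, gv, qm, Fin.sum_univ_succ]
  try ring

theorem s_3_1_3 {A : Type} [CommRing A] (x : Fin 3 → A) :
    2 * (x 0 ^ 3 * x 1 ^ 1 * x 2 ^ 3) = comb x (![![0, 0, 0, 0, 0, 0], ![0, 0, 0, 0, 0, 0], ![0, 0, 0, -2, 0, 0], ![0, 0, 0, 0, 2, 0], ![0, 0, 0, 0, 0, 0], ![0, 0, 0, 0, 0, 0]]) := by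
  simp [comb, gv, qm, Fin.sum_univ_succ]
  try ring

theorem s_3_0_4 {A : Type} [CommRing A] (x : Fin 3 → A) :
    2 * (x 0 ^ 3 * x 1 ^ 0 * x 2 ^ 4) = comb x (![![0, 0, 0, 0, 0, 0], ![0, 0, 0, 0, 0, 0], ![0, 0, 0, 0, -2, 0], ![0, 0, 0, 0, 0, 2], ![0, 0, 0, 0, 0, 0], ![0, 0, 0, 0, 0, 0]]) := by
  simp [comb, gv, qm, Fin.sum_univ_succ]
  try ring

theorem s_2_5_0 {A : Type} [CommRing A] (x : Fin 3 → A) :
    2 * (x 0 ^ 2 * x 1 ^ 5 * x 2 ^ 0) = comb x (![![0, 0, 0, 0, 0, 0], ![2, 0, 0, 0, 0, 0], ![0, 0, 0, 0, 0, 0], ![0, 0, 0, 0, 0, 0], ![0, 0, 0, 0, 0, 0], ![0, 0, 0, 0, 0, 0]]) := by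
  simp [comb, gv, qm, Fin.sum_univ_succ]
  try ring

theorem s_2_4_1 {A : Type} [CommRing A] (x : Fin 3 → A) :
    2 * (x 0 ^ 2 * x 1 ^ 4 * x 2 ^ 1) = comb x (![![0, 0, 0, 0, 0, 0], ![0, 0, 0, 0, 0, 0], ![0, 0, 0, 0, 0, 0], ![0, -1, 0, 0, 0, 0], ![0, 0, 0, 0, 1, 0], ![0, 0, 1, 0, 0, 0]]) := by
  simp [comb, gv, qm, Fin.sum_univ_succ]
  try ring

theorem s_2_3_2 {A : Type} [CommRing A] (x : Fin 3 → A) :
    2 * (x 0 ^ 2 * x 1 ^ 3 * x 2 ^ 2) = comb x (![![0, 0, 0, 0, 0, 0], ![0, 0, 0, 0, 0, 0], ![0, 2, 0, 0, 0, 0], ![0, 0, -2, 0, 0, 0], ![0, 0, 0, 0, 0, 2], ![0, 0, 0, 0, 0, 0]]) := by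
  simp [comb, gv, qm, Fin.sum_univ_succ]
  try ring

theorem s_2_2_3 {A : Type} [CommRing A] (x : Fin 3 → A) :
    2 * (x 0 ^ 2 * x 1 ^ 2 * x 2 ^ 3) = comb x (![![0, 0, 0, 0, 2, 0], ![0, 0, 0, 0, 0, 0], ![0, 0, 0, 0, 0, 0], ![0, 0, 0, 0, 0, 0], ![0, -2, 0, 0, 0, 0], ![2, 0, 0, 0, 0, 0]]) := by
  simp [comb, gv, qm, Fin.sum_univ_succ]
  try ring

theorem s_2_1_4 {A : Type} [CommRing A] (x : Fin 3 → A) :
    2 * (x 0 ^ 2 * x 1 ^ 1 * x 2 ^ 4) = comb x (![![0, 0, 0, 0, 0, -2], ![0, 0, 0, 0, 0, 0], ![0, 0, 0, 0, 0, 0], ![2, 0, 0, 0, 0, 0], ![0, 0, 0, 0, 0, 0], ![0, 0, 0, 0, 0, 0]]) := by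
  simp [comb, gv, qm, Fin.sum_univ_succ]
  try ring

theorem s_2_0_5 {A : Type} [CommRing A] (x : Fin 3 → A) :
    2 * (x 0 ^ 2 * x 1 ^ 0 * x 2 ^ 5) = comb x (![![0, 0, 0, 0, 0, 0], ![0, 0, 0, 0, 0, 0], ![2, 0, 0, 0, 0, 0], ![0, 0, 0, 0, 0, 0], ![0, 0, 0, 0, 0, 0], ![0, 0, 0, 0, 0, 0]]) := by
  simp [comb, gv, qm, Fin.sum_univ_succ]
  try ring

theorem s_1_6_0 {A : Type} [CommRing A] (x : Fin 3 → A) :
    2 * (x 0 ^ 1 * x 1 ^ 6 * x 2 ^ 0) = comb x (![![0, 0, 0, 0, 0, 0], ![0, 2, 0, 0, 0, 0], ![0, 0, 0, 0, 0, 0], ![0, 0, 0, 0, 0, 0], ![0, 0, 0, 0, 0, 0], ![0, 0, 0, 0, 0, 0]]) := by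
  simp [comb, gv, qm, Fin.sum_univ_succ]
  try ring

theorem s_1_5_1 {A : Type} [CommRing A] (x : Fin 3 → A) :
    2 * (x 0 ^ 1 * x 1 ^ 5 * x 2 ^ 1) = comb x (![![0, 0, 0, 0, 0, 0], ![0, 0, 2, 0, 0, 0], ![0, 0, 0, 0, 0, 0], ![0, 0, 0, 0, 0, 0], ![0, 0, 0, 0, 0, 0], ![0, 0, 0, 0, 0, 0]]) := by
  simp [comb, gv, qm, Fin.sum_univ_succ]
  try ring

theorem s_1_4_2 {A : Type} [CommRing A] (x : Fin 3 → A) :
    2 * (x 0 ^ 1 * x 1 ^ 4 * x 2 ^ 2) = comb x (![![0, 0, 0, 0, 0, 0], ![0, 0, 0, 0, 0, 0], ![0, 0, 0, -2, 0, 0], ![0, 0, 0, 0, 0, 0], ![0, 0, 0, 0, 0, 0], ![0, 0, 0, 0, 0, 2]]) := by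
  simp [comb, gv, qm, Fin.sum_univ_succ]
  try ring

theorem s_1_3_3 {A : Type} [CommRing A] (x : Fin 3 → A) :
    2 * (x 0 ^ 1 * x 1 ^ 3 * x 2 ^ 3) = comb x (![![0, 0, 0, 0, 0, 0], ![-2, 0, 0, 0, 0, 0], ![0, 0, 0, 0, 0, 0], ![0, 0, 0, 0, 0, 0], ![0, 0, 0, 0, 0, 0], ![0, 2, 0, 0, 0, 0]]) := by
  simp [comb, gv, qm, Fin.sum_univ_succ]
  try ring

theorem s_1_2_4 {A : Type} [CommRing A] (x : Fin 3 → A) :
    2 * (x 0 ^ 1 * x 1 ^ 2 * x 2 ^ 4) = comb x (![![0, 0, 0, 0, 0, 0], ![0, 0, 0, 0, 0, 0], ![0, 0, 0, 0, 0, 0], ![0, 1, 0, 0, 0, 0], ![0, 0, 0, 0, -1, 0], ![0, 0, 1, 0, 0, 0]]) := by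
  simp [comb, gv, qm, Fin.sum_univ_succ]
  try ring

theorem s_1_1_5 {A : Type} [CommRing A] (x : Fin 3 → A) :
    2 * (x 0 ^ 1 * x 1 ^ 1 * x 2 ^ 5) = comb x (![![0, 0, 0, 0, 0, 0], ![0, 0, 0, 0, 0, 0], ![0, 2, 0, 0, 0, 0], ![0, 0, 0, 0, 0, 0], ![0, 0, 0, 0, 0, 0], ![0, 0, 0, 0, 0, 0]]) := by
  simp [comb, gv, qm, Fin.sum_univ_succ]
  try ring

theorem s_1_0_6 {A : Type} [CommRing A] (x : Fin 3 → A) :
    2 * (x 0 ^ 1 * x 1 ^ 0 * x 2 ^ 6) = comb x (![![0, 0, 0, 0, 0, 0], ![0, 0, 0, 0, 0, 0], ![0, 0, 2, 0, 0, 0], ![0, 0, 0, 0, 0, 0], ![0, 0, 0, 0, 0, 0], ![0, 0, 0, 0, 0, 0]]) := by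
  simp [comb, gv, qm, Fin.sum_univ_succ]
  try ring

theorem s_0_7_0 {A : Type} [CommRing A] (x : Fin 3 → A) :
    2 * (x 0 ^ 0 * x 1 ^ 7 * x 2 ^ 0) = comb x (![![0, 0, 0, 0, 0, 0], ![0, 0, 0, 2, 0, 0], ![0, 0, 0, 0, 0, 0], ![0, 0, 0, 0, 0, 0], ![0, 0, 0, 0, 0, 0], ![0, 0, 0, 0, 0, 0]]) := by
  simp [comb, gv, qm, Fin.sum_univ_succ]
  try ring

theorem s_0_6_1 {A : Type} [CommRing A] (x : Fin 3 → A) :
    2 * (x 0 ^ 0 * x 1 ^ 6 * x 2 ^ 1) = comb x (![![0, 0, 0, 0, 0, 0], ![0, 0, 0, 0, 2, 0], ![0, 0, 0, 0, 0, 0], ![0, 0, 0, 0, 0, 0], ![0, 0, 0, 0, 0, 0], ![0, 0, 0, 0, 0, 0]]) := by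
  simp [comb, gv, qm, Fin.sum_univ_succ]
  try ring

theorem s_0_5_2 {A : Type} [CommRing A] (x : Fin 3 → A) :
    2 * (x 0 ^ 0 * x 1 ^ 5 * x 2 ^ 2) = comb x (![![0, 0, 0, 0, 0, 0], ![0, 0, 0, 0, 0, 2], ![0, 0, 0, 0, 0, 0], ![0, 0, 0, 0, 0, 0], ![0, 0, 0, 0, 0, 0], ![0, 0, 0, 0, 0, 0]]) := by
  simp [comb, gv, qm, Fin.sum_univ_succ]
  try ring

theorem s_0_4_3 {A : Type} [CommRing A] (x : Fin 3 → A) :
    2 * (x 0 ^ 0 * x 1 ^ 4 * x 2 ^ 3) = comb x (![![0, 0, 0, 0, 0, 0], ![0, -2, 0, 0, 0, 0], ![0, 0, 0, 0, 0, 0], ![0, 0, 0, 0, 0, 0], ![0, 0, 0, 0, 0, 0], ![0, 0, 0, 2, 0, 0]]) := by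
  simp [comb, gv, qm, Fin.sum_univ_succ]
  try ring

theorem s_0_3_4 {A : Type} [CommRing A] (x : Fin 3 → A) :
    2 * (x 0 ^ 0 * x 1 ^ 3 * x 2 ^ 4) = comb x (![![0, 0, 0, 0, 0, 0], ![0, 0, -2, 0, 0, 0], ![0, 0, 0, 0, 0, 0], ![0, 0, 0, 0, 0, 0], ![0, 0, 0, 0, 0, 0], ![0, 0, 0, 0, 2, 0]]) := by
  simp [comb, gv, qm, Fin.sum_univ_succ]
  try ring

theorem s_0_2_5 {A : Type} [CommRing A] (x : Fin 3 → A) :
    2 * (x 0 ^ 0 * x 1 ^ 2 * x 2 ^ 5) = comb x (![![0, 0, 0, 0, 0, 0], ![0, 0, 0, 0, 0, 0], ![0, 0, 0, 2, 0, 0], ![0, 0, 0, 0, 0, 0], ![0, 0, 0, 0, 0, 0], ![0, 0, 0, 0, 0, 0]]) := by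
  simp [comb, gv, qm, Fin.sum_univ_succ]
  try ring

theorem s_0_1_6 {A : Type} [CommRing A] (x : Fin 3 → A) :
    2 * (x 0 ^ 0 * x 1 ^ 1 * x 2 ^ 6) = comb x (![![0, 0, 0, 0, 0, 0], ![0, 0, 0, 0, 0, 0], ![0, 0, 0, 0, 2, 0], ![0, 0, 0, 0, 0, 0], ![0, 0, 0, 0, 0, 0], ![0, 0, 0, 0, 0, 0]]) := by
  simp [comb, gv, qm, Fin.sum_univ_succ]
  try ring

theorem s_0_0_7 {A : Type} [CommRing A] (x : Fin 3 → A) :
    2 * (x 0 ^ 0 * x 1 ^ 0 * x 2 ^ 7) = comb x (![![0, 0, 0, 0, 0, 0], ![0, 0, 0, 0, 0, 0], ![0, 0, 0, 0, 0, 2], ![0, 0, 0, 0, 0, 0], ![0, 0, 0, 0, 0, 0], ![0, 0, 0, 0, 0, 0]]) := by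
  simp [comb, gv, qm, Fin.sum_univ_succ]
  try ring

theorem sur7 {A : Type} [CommRing A] (x : Fin 3 → A) (i j k : ℕ) (h : i + j + k = 7) :
    ∃ c : Fin 6 → Fin 6 → ℤ, 2 * (x 0 ^ i * x 1 ^ j * x 2 ^ k) = comb x c := by
  obtain rfl : k = 7 - i - j := by omega
  have hi : i ≤ 7 := by omega
  have hj : j ≤ 7 - i := by omega
  interval_cases i <;> interval_cases j <;> first
    | exact ⟨_, s_7_0_0 x⟩
    | exact ⟨_, s_6_1_0 x⟩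
    | exact ⟨_, s_6_0_1 x⟩
    | exact ⟨_, s_5_2_0 x⟩
    | exact ⟨_, s_5_1_1 x⟩
    | exact ⟨_, s_5_0_2 x⟩
    | exact ⟨_, s_4_3_0 x⟩
    | exact ⟨_, s_4_2_1 x⟩
    | exact ⟨_, s_4_1_2 x⟩
    | exact ⟨_, s_4_0_3 x⟩
    | exact ⟨_, s_3_4_0 x⟩
    | exact ⟨_, s_3_3_1 x⟩
    | exact ⟨_, s_3_2_2 x⟩
    | exact ⟨_, s_3_1_3 x⟩
    | exact ⟨_, s_3_0_4 x⟩
    | exact ⟨_, s_2_5_0 x⟩
    | exact ⟨_, s_2_4_1 x⟩
    | exact ⟨_, s_2_3_2 x⟩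
    | exact ⟨_, s_2_2_3 x⟩
    | exact ⟨_, s_2_1_4 x⟩
    | exact ⟨_, s_2_0_5 x⟩
    | exact ⟨_, s_1_6_0 x⟩
    | exact ⟨_, s_1_5_1 x⟩
    | exact ⟨_, s_1_4_2 x⟩
    | exact ⟨_, s_1_3_3 x⟩
    | exact ⟨_, s_1_2_4 x⟩
    | exact ⟨_, s_1_1_5 x⟩
    | exact ⟨_, s_1_0_6 x⟩
    | exact ⟨_, s_0_7_0 x⟩
    | exact ⟨_, s_0_6_1 x⟩
    | exact ⟨_, s_0_5_2 x⟩
    | exact ⟨_, s_0_4_3 x⟩
    | exact ⟨_, s_0_3_4 x⟩
    | exact ⟨_, s_0_2_5 x⟩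
    | exact ⟨_, s_0_1_6 x⟩
    | exact ⟨_, s_0_0_7 x⟩

theorem comp_mul {K : Type} [Field K] {N : ℕ} {d e g : Fin 2 → ℕ}
    {f h : MvPolynomial (Fin 3 ⊕ Fin N) K} (hf : f ∈ Comp K (tau N) d)
    (hh : h ∈ Comp K (tau N) e) (hde : d + e = g) : f * h ∈ Comp K (tau N) g := by
  subst hde
  exact IsWeightedHomogeneous.mul hf hh

theorem x_mem {K : Type} [Field K] {N : ℕ} (i : Fin 3) :
    (X (Sum.inl i) : MvPolynomial (Fin 3 ⊕ Fin N) K) ∈ Comp K (tau N) ![1, 0] := by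
  have h := isWeightedHomogeneous_X K (wt (tau N)) (Sum.inl i)
  have e : wt (tau N) (Sum.inl i) = ![1, 0] := by
    funext j
    fin_cases j <;> simp [wt, tau]
  rw [e] at h
  exact h

theorem qm_mem {K : Type} [Field K] {N : ℕ} (m : Fin 6) :
    qm (fun i => (X (Sum.inl i) : MvPolynomial (Fin 3 ⊕ Fin N) K)) m ∈
      Comp K (tau N) ![2, 0] := by
  have h2 : ∀ i j : Fin 3, (X (Sum.inl i) * X (Sum.inl j) : MvPolynomial (Fin 3 ⊕ Fin N) K) ∈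
      Comp K (tau N) ![2, 0] := fun i j => comp_mul (x_mem i) (x_mem j) (by
        funext k; fin_cases k <;> simp)
  fin_cases m
  · simpa [qm, pow_two] using h2 0 0
  · simpa [qm, pow_two] using h2 0 1
  · simpa [qm, pow_two] using h2 0 2
  · simpa [qm, pow_two] using h2 1 1
  · simpa [qm, pow_two] using h2 1 2
  · simpa [qm, pow_two] using h2 2 2

theorem weight_tau {N : ℕ} (d : Fin 3 ⊕ Fin N →₀ ℕ) :
    Finsupp.weight (wt (tau N)) d = ![∑ i : Fin 3, d (Sum.inl i), ∑ k, d (Sum.inr k)] := by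
  rw [Finsupp.weight_eq_sum, Fintype.sum_sum_type]
  funext j
  fin_cases j
  · simp [wt, tau]
  · simp [wt, tau]

theorem main : StSur := by
  intro K _ _ a b ha f hf
  have hf' : f.IsWeightedHomogeneous (wt (tau 15)) ![a + 5, b] := hf
  refine IsWeightedHomogeneous.induction_on (R := K) (w := wt (tau 15))
    (motive := fun f _ => ∃ h : Fin 6 → MvPolynomial (Fin 3 ⊕ Fin 15) K,
      (∀ j, h j ∈ Comp K (tau 15) ![a, b]) ∧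
      f = ∑ j, h j * gv (fun i => X (Sum.inl i)) j) ?_ ?_ ?_ hf'
  · exact ⟨0, fun j => Submodule.zero_mem _, by simp⟩
  · rintro p q _ _ ⟨h1, h1m, h1e⟩ ⟨h2, h2m, h2e⟩
    refine ⟨h1 + h2, fun j => Submodule.add_mem _ (h1m j) (h2m j), ?_⟩
    rw [h1e, h2e]
    simp only [Pi.add_apply, add_mul, Finset.sum_add_distrib]
  · intro d r hd
    rw [weight_tau] at hd
    have hd0 : ∑ i : Fin 3, d (Sum.inl i) = a + 5 := congrFun hd 0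
    have hd1 : ∑ k, d (Sum.inr k) = b := congrFun hd 1
    rw [Fin.sum_univ_three] at hd0
    obtain ⟨i, j, k, hi, hj, hk, hijk⟩ : ∃ i j k : ℕ, i ≤ d (Sum.inl 0) ∧ j ≤ d (Sum.inl 1) ∧
        k ≤ d (Sum.inl 2) ∧ i + j + k = 7 := by
      refine ⟨min 7 (d (Sum.inl 0)), min (7 - min 7 (d (Sum.inl 0))) (d (Sum.inl 1)),
        7 - min 7 (d (Sum.inl 0)) - min (7 - min 7 (d (Sum.inl 0))) (d (Sum.inl 1)), ?_, ?_,
        ?_, ?_⟩ <;> omega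
    obtain ⟨c, hc⟩ := sur7 (fun i => (X (Sum.inl i) : MvPolynomial (Fin 3 ⊕ Fin 15) K)) i j k hijk
    let e : Fin 3 ⊕ Fin 15 →₀ ℕ := Finsupp.single (Sum.inl 0) i + Finsupp.single (Sum.inl 1) j +
      Finsupp.single (Sum.inl 2) k
    have he : e ≤ d := by
      intro s
      rcases s with s | s
      · fin_cases s
        · simpa [e, Finsupp.single_apply] using hi
        · simpa [e, Finsupp.single_apply] using hj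
        · simpa [e, Finsupp.single_apply] using hk
      · simp [e, Finsupp.single_apply]
    obtain ⟨d', hd'⟩ := exists_add_of_le he
    have hmon : monomial d r = monomial d' r * (X (Sum.inl 0) ^ i * X (Sum.inl 1) ^ j *
        X (Sum.inl 2) ^ k) := by
      rw [hd', add_comm e d']
      simp only [X_pow_eq_monomial, monomial_mul, mul_one]
      rfl
    have hd'w : Finsupp.weight (wt (tau 15)) d' = ![a - 2, b] := by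
      rw [weight_tau]
      have h0 : ∑ i : Fin 3, d (Sum.inl i) = ∑ i : Fin 3, e (Sum.inl i) +
          ∑ i : Fin 3, d' (Sum.inl i) := by
        rw [hd', ← Finset.sum_add_distrib]
        rfl
      have h1 : ∑ i : Fin 15, d (Sum.inr i) = ∑ i : Fin 15, e (Sum.inr i) +
          ∑ i : Fin 15, d' (Sum.inr i) := by
        rw [hd', ← Finset.sum_add_distrib]
        rfl
      have h2 : ∑ i : Fin 3, e (Sum.inl i) = 7 := by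
        rw [Fin.sum_univ_three]
        simp [e, Finsupp.single_apply, hijk]
      have h3 : ∑ i : Fin 15, e (Sum.inr i) = 0 := by
        simp [e, Finsupp.single_apply]
      rw [Fin.sum_univ_three] at h0
      funext t
      fin_cases t
      · show ∑ i : Fin 3, d' (Sum.inl i) = a - 2
        omega
      · show ∑ i : Fin 15, d' (Sum.inr i) = b
        omega
    refine ⟨fun t => (C (1 / 2) * monomial d' r) * (∑ m, (c t m : MvPolynomial _ K) *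
      qm (fun i => X (Sum.inl i)) m), fun t => ?_, ?_⟩
    · refine comp_mul (d := ![a - 2, b]) (e := ![2, 0]) ?_ ?_ ?_
      · rw [← smul_eq_C_mul]
        refine Submodule.smul_mem _ _ ?_
        exact isWeightedHomogeneous_monomial _ _ _ hd'w
      · refine Submodule.sum_mem _ fun m _ => ?_
        have hcm : (c t m : MvPolynomial (Fin 3 ⊕ Fin 15) K) = C (c t m : K) := by simp
        rw [hcm, ← smul_eq_C_mul]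
        exact Submodule.smul_mem _ _ (qm_mem m)
      · funext t
        fin_cases t
        · show a - 2 + 2 = a
          omega
        · simp
    · have h2 : (C (1 / 2) : MvPolynomial (Fin 3 ⊕ Fin 15) K) * 2 = 1 := by
        rw [show (2 : MvPolynomial (Fin 3 ⊕ Fin 15) K) = C 2 from (map_ofNat C 2).symm, ← C_mul]
        simp
      simp only [mul_assoc (C (1 / 2) * monomial d' r), ← Finset.mul_sum]
      rw [show (∑ t, (∑ m, (c t m : MvPolynomial (Fin 3 ⊕ Fin 15) K) *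
        qm (fun i => X (Sum.inl i)) m) * gv (fun i => X (Sum.inl i)) t) =
        comb (fun i => X (Sum.inl i)) c from rfl, ← hc, hmon]
      linear_combination (-(monomial d' r * (X (Sum.inl 0) ^ i * X (Sum.inl 1) ^ j *
        X (Sum.inl 2) ^ k))) * h2

end Pool.Agent.Helper93.NP.M_Sur
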