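import Pool.Agent.Helper93.NP.St

set_option autoImplicit false

namespace Pool.Agent.Helper93.NP.M_Val

open Polynomial

theorem main : StVal := by
  intro t ht c
  have hinj : Function.Injective (Polynomial.aeval (R := ℚ) t) :=
    transcendental_iff_injective.mp ht
  let P : Ideal ℚ[X] := RingHom.ker (Polynomial.evalRingHom (c : ℚ))
  have hP : P.IsPrime := RingHom.ker_isPrime _
  let g : ℚ[X] →+* ℂ := (Polynomial.aeval (R := ℚ) t).toRingHom
  have hg : ∀ y : P.primeCompl, IsUnit (g y) := by
    intro y
    have hy : (y : ℚ[X]) ≠ 0 := by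
      intro h0
      apply y.2
      rw [h0]
      exact P.zero_mem
    refine IsUnit.mk0 _ ?_
    intro h0
    apply hy
    apply hinj
    rw [map_zero]
    exact h0
  let f : Localization.AtPrime P →+* ℂ := IsLocalization.lift hg
  have hf : ∀ q : ℚ[X], f (algebraMap _ _ q) = Polynomial.aeval t q := fun q =>
    IsLocalization.lift_eq hg q
  obtain ⟨A, hA, hloc⟩ := IsLocalRing.exists_factor_valuationRing f
  let φ : Localization.AtPrime P →+* A.toSubring := f.codRestrict A.toSubring hA
  have hφ : IsLocalHom φ := hloc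
  have htA : t ∈ A := by
    have h1 := hA (algebraMap _ _ (X : ℚ[X]))
    rw [hf, aeval_X] at h1
    exact h1
  refine ⟨A, ?_, ⟨t, htA⟩, rfl, ?_⟩
  · let ψ : ℚ →+* IsLocalRing.ResidueField A :=
      (IsLocalRing.residue A).comp (φ.comp ((algebraMap ℚ[X] (Localization.AtPrime P)).comp C))
    let _ := ψ.toAlgebra
    exact algebraRat.charZero _
  · have h1 : (c : IsLocalRing.ResidueField A) = IsLocalRing.residue A (c : A) := by
      rw [map_intCast]
    rw [h1, ← sub_eq_zero, ← map_sub, IsLocalRing.residue_eq_zero_iff, IsLocalRing.mem_maximalIdeal,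
      mem_nonunits_iff]
    intro hu
    have h2 : φ (algebraMap _ _ (X - C (c : ℚ))) = ((⟨t, htA⟩ : A) - (c : A)) := by
      apply Subtype.ext
      show f (algebraMap _ _ (X - C (c : ℚ))) = _
      rw [hf]
      simp
    have h3 : IsUnit (algebraMap ℚ[X] (Localization.AtPrime P) (X - C (c : ℚ))) := by
      apply hφ.map_nonunit
      rw [h2]
      exact hu
    have h4 := (IsLocalization.AtPrime.isUnit_to_map_iff (Localization.AtPrime P) P _).mp h3
    apply h4
    show X - C (c : ℚ) ∈ RingHom.ker (Polynomial.evalRingHom (c : ℚ))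
    rw [RingHom.mem_ker]
    simp

end Pool.Agent.Helper93.NP.M_Val
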