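import Pool.Agent.Helper93.NP.Asm
import Pool.Agent.Helper93.NP.M_HomOps
import Pool.Agent.Helper93.NP.M_HFBasic
import Pool.Agent.Helper93.NP.M_Exact
import Pool.Agent.Helper93.NP.M_Prime
import Pool.Agent.Helper93.NP.M_Ind
import Pool.Agent.Helper93.NP.M_HS
import Pool.Agent.Helper93.NP.M_NN
import Pool.Agent.Helper93.NP.M_DV
import Pool.Agent.Helper93.NP.M_Grow
import Pool.Agent.Helper93.NP.M_Bot
import Pool.Agent.Helper93.NP.M_G32
import Pool.Agent.Helper93.NP.M_G1
import Pool.Agent.Helper93.NP.M_Tor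
import Pool.Agent.Helper93.NP.M_Gq
import Pool.Agent.Helper93.NP.M_Ratio
import Pool.Agent.Helper93.NP.M_PartI
import Pool.Agent.Helper93.NP.M_Bundle0
import Pool.Agent.Helper93.NP.M_Sur
import Pool.Agent.Helper93.NP.M_Point
import Pool.Agent.Helper93.NP.M_Lift
import Pool.Agent.Helper93.NP.M_Comap
import Pool.Agent.Helper93.NP.M_HFComap
import Pool.Agent.Helper93.NP.M_Ext
import Pool.Agent.Helper93.NP.M_Cone
import Pool.Agent.Helper93.NP.M_Cone1
import Pool.Agent.Helper93.NP.M_Cone2
import Pool.Agent.Helper93.NP.M_Cone3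
import Pool.Agent.Helper93.NP.M_Numeric
import Pool.Agent.Helper93.NP.M_PartII
import Pool.Agent.Helper93.NP.M_Val
import Pool.Agent.Helper93.NP.M_Red
import Pool.Agent.Helper93.NP.M_Spec
import Pool.Agent.Helper93.NP.M_SpecIM
import Pool.Agent.Helper93.NP.M_Minor
import Pool.Agent.Helper93.NP.M_Null
import Pool.Agent.Helper93.NP.M_Sat
import Pool.Agent.Helper93.NP.M_Reg
import Pool.Agent.Helper93.NP.M_Numbers

/-! All modules together. -/

namespace Pool.Agent.Helper93.NP

theorem all :
    ∃ M : Fin 10 → Fin 15 → Fin 3 → ℂ, IsBundle M ∧ (∃ s, HasNumbers (IM M) 6 s) ∧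
      IsNef M 2 ![0, 1, -4] ∧ ¬ IsPsef M 6 2 ![0, 1, -4] := by
  have hHom := M_HomOps.main
  have hBas := M_HFBasic.main
  have hEx := M_Exact.main
  have hPr := M_Prime.main
  have hInd := M_Ind.main hPr hHom
  have hHS := M_HS.main hInd hEx hBas hHom
  have hNN := M_NN.main hInd hEx hBas hHom hHS
  have hNC := M_NN.main2 hInd hEx hBas hHom hHS
  have hDV := M_DV.main hInd hEx hNC hBas
  have hGrow := M_Grow.main
  have hBot := M_Bot.main
  have hG3 := M_G32.main hGrow hBot hBas
  have hG2 := M_G32.main2 hGrow hBot hEx hBas hHom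
  have hG1 := M_G1.main hGrow
  have hTor := M_Tor.main hBas hBot
  have hGq := M_Gq.main
  have hRatio := M_Ratio.main
  have hPI := M_PartI.main hHom hBas hEx hNN hDV hG2 hG1 hTor hGq hRatio
  have hB0 := M_Bundle0.main
  have hSur := M_Sur.main
  have hPoint := M_Point.main
  have hLift := M_Lift.main hPoint
  have hCom := M_Comap.main
  have hHFC := M_HFComap.main
  have hExt := M_Ext.main
  have hCone := M_Cone.main hCom hExt
  have hC1 := M_Cone1.main hHFC hExt hCone
  have hSat := M_Sat.main hBas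
  have hC2 := M_Cone2.main hHom hExt hCone hSur hSat
  have hC3 := M_Cone3.main hHFC hExt hSur
  have hNumc := M_Numeric.main
  have hPII := M_PartII.main hDV hHS hNN hG3 hLift hCone hC1 hC2 hC3 hNumc hBas
  have hVal := M_Val.main
  have hSpec := M_Spec.main M_Red.main
  have hReg := M_Reg.main M_Minor.main M_Null.main hSat hHom
  have hNumbers := M_Numbers.main hReg hEx hBot hHom
  exact final hPI hPII hB0 hVal hSpec M_SpecIM.main M_SpecIM.main2 hNumbers

end Pool.Agent.Helper93.NP
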