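import Pool.Agent.Helper93.NP.Data

/-! The Koszul syzygies of the quintics are combinations of the cubic ones. -/

namespace Pool.Agent.Helper93.NP

theorem kos_0_1 {A : Type} [CommRing A] (x : Fin 3 → A) (h : Fin 6) :
    ∑ k, ((![0, 0, 0, -(x 1 ^ 2), x 0 ^ 2, 0, 0, 0, 0, 0, 0, 0, 0, 0, 0] : Fin 15 → A) k) * Yv x k h =
      (if h = 0 then gv x 1 else 0) - (if h = 1 then gv x 0 else 0) := by
  fin_cases h <;> simp [Yv, gv, Fin.sum_univ_succ] <;> ring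

theorem kos_0_2 {A : Type} [CommRing A] (x : Fin 3 → A) (h : Fin 6) :
    ∑ k, ((![-(x 2 ^ 2), 0, x 0 ^ 2, 0, 0, 0, 0, 0, 0, 0, 0, 0, 0, 0, 0] : Fin 15 → A) k) * Yv x k h =
      (if h = 0 then gv x 2 else 0) - (if h = 2 then gv x 0 else 0) := by
  fin_cases h <;> simp [Yv, gv, Fin.sum_univ_succ] <;> ring

theorem kos_0_3 {A : Type} [CommRing A] (x : Fin 3 → A) (h : Fin 6) :
    ∑ k, ((![-(x 1 * x 2), x 0 ^ 2, 0, 0, 0, 0, 0, 0, 0, 0, 0, 0, 0, 0, 0] : Fin 15 → A) k) * Yv x k h =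
      (if h = 0 then gv x 3 else 0) - (if h = 3 then gv x 0 else 0) := by
  fin_cases h <;> simp [Yv, gv, Fin.sum_univ_succ] <;> ring

theorem kos_0_4 {A : Type} [CommRing A] (x : Fin 3 → A) (h : Fin 6) :
    ∑ k, ((![0, 0, 0, -(x 0 ^ 2), 0, 0, 0, 0, 0, 0, 0, 0, 0, 0, 0] : Fin 15 → A) k) * Yv x k h =
      (if h = 0 then gv x 4 else 0) - (if h = 4 then gv x 0 else 0) := by
  fin_cases h <;> simp [Yv, gv, Fin.sum_univ_succ] <;> ring

theorem kos_0_5 {A : Type} [CommRing A] (x : Fin 3 → A) (h : Fin 6) :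
    ∑ k, ((![-(x 1 ^ 2), 0, 0, -(x 0 * x 1), 0, 0, -(x 0 ^ 2), 0, 0, 0, 0, 0, 0, 0, 0] : Fin 15 → A) k) * Yv x k h =
      (if h = 0 then gv x 5 else 0) - (if h = 5 then gv x 0 else 0) := by
  fin_cases h <;> simp [Yv, gv, Fin.sum_univ_succ] <;> ring

theorem kos_1_2 {A : Type} [CommRing A] (x : Fin 3 → A) (h : Fin 6) :
    ∑ k, ((![-(x 1 * x 2), 0, 0, 0, -(x 0 * x 1), 0, -(x 1 ^ 2), x 0 * x 1, 0, 0, 0, -(x 2 ^ 2), x 1 * x 2, 0, 0] : Fin 15 → A) k) * Yv x k h =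
      (if h = 1 then gv x 2 else 0) - (if h = 2 then gv x 1 else 0) := by
  fin_cases h <;> simp [Yv, gv, Fin.sum_univ_succ] <;> ring

theorem kos_1_3 {A : Type} [CommRing A] (x : Fin 3 → A) (h : Fin 6) :
    ∑ k, ((![0, 0, 0, 0, -(x 2 ^ 2), 0, 0, 0, 0, 0, 0, -(x 1 * x 2), x 1 ^ 2, 0, 0] : Fin 15 → A) k) * Yv x k h =
      (if h = 1 then gv x 3 else 0) - (if h = 3 then gv x 1 else 0) := by
  fin_cases h <;> simp [Yv, gv, Fin.sum_univ_succ] <;> ring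

theorem kos_1_4 {A : Type} [CommRing A] (x : Fin 3 → A) (h : Fin 6) :
    ∑ k, ((![0, 0, 0, 0, -(x 0 * x 2), -(x 1 ^ 2), 0, 0, 0, 0, 0, 0, 0, 0, 0] : Fin 15 → A) k) * Yv x k h =
      (if h = 1 then gv x 4 else 0) - (if h = 4 then gv x 1 else 0) := by
  fin_cases h <;> simp [Yv, gv, Fin.sum_univ_succ] <;> ring

theorem kos_1_5 {A : Type} [CommRing A] (x : Fin 3 → A) (h : Fin 6) :
    ∑ k, ((![0, 0, 0, 0, 0, 0, 0, 0, 0, 0, 0, -(x 1 ^ 2), 0, 0, 0] : Fin 15 → A) k) * Yv x k h =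
      (if h = 1 then gv x 5 else 0) - (if h = 5 then gv x 1 else 0) := by
  fin_cases h <;> simp [Yv, gv, Fin.sum_univ_succ] <;> ring

theorem kos_2_3 {A : Type} [CommRing A] (x : Fin 3 → A) (h : Fin 6) :
    ∑ k, ((![0, 0, -(x 2 ^ 2), 0, 0, 0, 0, 0, 0, 0, 0, 0, 0, 0, 0] : Fin 15 → A) k) * Yv x k h =
      (if h = 2 then gv x 3 else 0) - (if h = 3 then gv x 2 else 0) := by
  fin_cases h <;> simp [Yv, gv, Fin.sum_univ_succ] <;> ring

theorem kos_2_4 {A : Type} [CommRing A] (x : Fin 3 → A) (h : Fin 6) :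
    ∑ k, ((![-(x 1 ^ 2), 0, -(x 0 * x 2), 0, -(x 2 ^ 2), 0, 0, x 2 ^ 2, -(x 1 * x 2), 0, 0, 0, 0, 0, 0] : Fin 15 → A) k) * Yv x k h =
      (if h = 2 then gv x 4 else 0) - (if h = 4 then gv x 2 else 0) := by
  fin_cases h <;> simp [Yv, gv, Fin.sum_univ_succ] <;> ring

theorem kos_2_5 {A : Type} [CommRing A] (x : Fin 3 → A) (h : Fin 6) :
    ∑ k, ((![x 0 * x 2, 0, 0, 0, x 0 ^ 2, x 2 ^ 2, x 0 * x 1, -(x 0 ^ 2), 0, -(x 1 * x 2), 0, 0, 0, 0, -(x 2 ^ 2)] : Fin 15 → A) k) * Yv x k h =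
      (if h = 2 then gv x 5 else 0) - (if h = 5 then gv x 2 else 0) := by
  fin_cases h <;> simp [Yv, gv, Fin.sum_univ_succ] <;> ring

theorem kos_3_4 {A : Type} [CommRing A] (x : Fin 3 → A) (h : Fin 6) :
    ∑ k, ((![0, -(x 0 * x 2), 0, -(x 2 ^ 2), -(x 1 * x 2), 0, 0, x 1 * x 2, -(x 1 ^ 2), 0, 0, 0, 0, 0, 0] : Fin 15 → A) k) * Yv x k h =
      (if h = 3 then gv x 4 else 0) - (if h = 4 then gv x 3 else 0) := by
  fin_cases h <;> simp [Yv, gv, Fin.sum_univ_succ] <;> ring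

theorem kos_3_5 {A : Type} [CommRing A] (x : Fin 3 → A) (h : Fin 6) :
    ∑ k, ((![0, 0, 0, 0, 0, x 1 * x 2, -(x 2 ^ 2), 0, 0, -(x 1 ^ 2), 0, x 0 * x 2, 0, -(x 2 ^ 2), 0] : Fin 15 → A) k) * Yv x k h =
      (if h = 3 then gv x 5 else 0) - (if h = 5 then gv x 3 else 0) := by
  fin_cases h <;> simp [Yv, gv, Fin.sum_univ_succ] <;> ring

theorem kos_4_5 {A : Type} [CommRing A] (x : Fin 3 → A) (h : Fin 6) :
    ∑ k, ((![0, 0, 0, -(x 1 * x 2), x 1 ^ 2, 0, -(x 0 * x 2), -(x 1 ^ 2), 0, 0, 0, 0, 0, 0, 0] : Fin 15 → A) k) * Yv x k h =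
      (if h = 4 then gv x 5 else 0) - (if h = 5 then gv x 4 else 0) := by
  fin_cases h <;> simp [Yv, gv, Fin.sum_univ_succ] <;> ring

theorem kos {A : Type} [CommRing A] (x : Fin 3 → A) (i j : Fin 6) :
    ∃ q : Fin 15 → A, ∀ h : Fin 6, ∑ k, q k * Yv x k h =
      (if h = i then gv x j else 0) - (if h = j then gv x i else 0) := by
  have main : ∀ i j : Fin 6, i < j → ∃ q : Fin 15 → A, ∀ h : Fin 6, ∑ k, q k * Yv x k h =
      (if h = i then gv x j else 0) - (if h = j then gv x i else 0) := by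
    intro i j hij
    fin_cases i <;> fin_cases j <;> first
      | exact absurd hij (by decide)
      | exact ⟨_, kos_0_1 x⟩
      | exact ⟨_, kos_0_2 x⟩
      | exact ⟨_, kos_0_3 x⟩
      | exact ⟨_, kos_0_4 x⟩
      | exact ⟨_, kos_0_5 x⟩
      | exact ⟨_, kos_1_2 x⟩
      | exact ⟨_, kos_1_3 x⟩
      | exact ⟨_, kos_1_4 x⟩
      | exact ⟨_, kos_1_5 x⟩
      | exact ⟨_, kos_2_3 x⟩
      | exact ⟨_, kos_2_4 x⟩
      | exact ⟨_, kos_2_5 x⟩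
      | exact ⟨_, kos_3_4 x⟩
      | exact ⟨_, kos_3_5 x⟩
      | exact ⟨_, kos_4_5 x⟩
  rcases lt_trichotomy i j with h | h | h
  · exact main i j h
  · subst h
    exact ⟨0, fun h => by simp⟩
  · obtain ⟨q, hq⟩ := main j i h
    refine ⟨-q, fun h => ?_⟩
    have := hq h
    simp only [Pi.neg_apply, neg_mul, Finset.sum_neg_distrib, this]
    ring

end Pool.Agent.Helper93.NP
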