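import Pool.Agent.Helper93.NP.St

set_option autoImplicit false

namespace Pool.Agent.Helper93.NP.M_Cone3

open MvPolynomial Module

/-- Substitutions respect gradings. -/
lemma aeval_mem {K σ σ' ι ι' : Type} [Field K] [DecidableEq ι] [DecidableEq ι'] (τ : σ → ι)
    (τ' : σ' → ι') (ψ : (ι → ℕ) →+ (ι' → ℕ)) (g : σ → MvPolynomial σ' K)
    (hg : ∀ s, g s ∈ Comp K τ' (ψ (wt τ s))) (d : ι → ℕ) (f : MvPolynomial σ K)
    (hf : f ∈ Comp K τ d) : aeval g f ∈ Comp K τ' (ψ d) := by
  rw [Comp, mem_weightedHomogeneousSubmodule] at hf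
  rw [f.as_sum, map_sum]
  refine Submodule.sum_mem _ fun m hm => ?_
  have h1 : Finsupp.weight (wt τ) m = d := hf (mem_support_iff.1 hm)
  rw [aeval_monomial, ← h1, Finsupp.weight_apply, Finsupp.sum, map_sum, Finsupp.prod, Comp,
    mem_weightedHomogeneousSubmodule, algebraMap_eq]
  have h2 : IsWeightedHomogeneous (wt τ') (∏ i ∈ m.support, g i ^ m i)
      (∑ i ∈ m.support, ψ (m i • wt τ i)) := by
    refine IsWeightedHomogeneous.prod _ _ _ fun i _ => ?_
    rw [map_nsmul]
    exact IsWeightedHomogeneous.pow ((mem_weightedHomogeneousSubmodule _ _ _ _).1 (hg i)) (m i)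
  have h3 := (isWeightedHomogeneous_C (wt τ') (coeff m f)).mul h2
  rwa [zero_add] at h3

lemma finrank_map_eq {K V W W' : Type} [Field K] [AddCommGroup V] [Module K V] [AddCommGroup W]
    [Module K W] [AddCommGroup W'] [Module K W'] (U : Submodule K V) (f : V →ₗ[K] W)
    (g : V →ₗ[K] W') (h : ∀ x ∈ U, f x = 0 ↔ g x = 0) :
    finrank K (U.map f) = finrank K (U.map g) := by
  have hk : LinearMap.ker (f.domRestrict U) = LinearMap.ker (g.domRestrict U) := by
    ext x
    rw [LinearMap.mem_ker, LinearMap.mem_ker, LinearMap.domRestrict_apply,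
      LinearMap.domRestrict_apply]
    exact h x x.2
  have h1 := (f.domRestrict U).quotKerEquivRange.finrank_eq
  have h2 := (g.domRestrict U).quotKerEquivRange.finrank_eq
  rw [LinearMap.range_domRestrict] at h1 h2
  rw [← h1, ← h2, hk]

/-- The degree map. -/
def psi : (Fin 3 → ℕ) →+ (Fin 2 → ℕ) where
  toFun d := ![d 0 + 5 * d 2, d 1]
  map_zero' := by
    funext i
    fin_cases i <;> rfl
  map_add' d d' := by
    funext i
    fin_cases i
    · simp
      ring
    · simp

lemma psi_apply (a b m : ℕ) : psi ![a, b, m] = ![a + 5 * m, b] := rfl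

section

variable (K : Type) [Field K]

/-- The substitution `c_j ↦ g_j`. -/
noncomputable def theta : MvPolynomial ((Fin 3 ⊕ Fin 15) ⊕ Fin 6) K →ₐ[K]
    MvPolynomial (Fin 3 ⊕ Fin 15) K :=
  aeval (Sum.elim X (gx K))

lemma mono_mem (a b c : ℕ) : (X (Sum.inl 0) ^ a * X (Sum.inl 1) ^ b * X (Sum.inl 2) ^ c :
    MvPolynomial (Fin 3 ⊕ Fin 15) K) ∈ Comp K (tau 15) ![a + b + c, 0] := by
  rw [Comp, mem_weightedHomogeneousSubmodule]
  have h := (((isWeightedHomogeneous_X K (wt (tau 15)) (Sum.inl 0)).pow a).mul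
    ((isWeightedHomogeneous_X K (wt (tau 15)) (Sum.inl 1)).pow b)).mul
    ((isWeightedHomogeneous_X K (wt (tau 15)) (Sum.inl 2)).pow c)
  have h2 : a • wt (tau 15) (Sum.inl 0) + b • wt (tau 15) (Sum.inl 1) +
      c • wt (tau 15) (Sum.inl 2) = ![a + b + c, 0] := by
    funext i
    fin_cases i <;> simp [wt, tau]
  rw [← h2]
  exact h

lemma gx_mem (j : Fin 6) : gx K j ∈ Comp K (tau 15) ![5, 0] := by
  fin_cases j
  · have h := mono_mem K 5 0 0
    simpa [gx, gv] using h
  · have h := mono_mem K 0 5 0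
    simpa [gx, gv] using h
  · have h := mono_mem K 0 0 5
    simpa [gx, gv] using h
  · have h := Submodule.add_mem _ (mono_mem K 3 0 2) (mono_mem K 0 1 4)
    simpa [gx, gv] using h
  · have h := Submodule.add_mem _ (mono_mem K 2 3 0) (mono_mem K 4 0 1)
    simpa [gx, gv] using h
  · have h := Submodule.add_mem _ (mono_mem K 0 2 3) (mono_mem K 1 4 0)
    simpa [gx, gv] using h

lemma theta_mem (a b m : ℕ) (f : MvPolynomial ((Fin 3 ⊕ Fin 15) ⊕ Fin 6) K)
    (hf : f ∈ Comp K tau3 ![a, b, m]) : theta K f ∈ Comp K (tau 15) ![a + 5 * m, b] := by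
  rw [← psi_apply]
  refine aeval_mem tau3 (tau 15) psi _ (fun s => ?_) _ f hf
  rcases s with s | j
  · have h1 : psi (wt tau3 (Sum.inl s)) = wt (tau 15) s := by
      rcases s with i | k
      · funext i
        fin_cases i <;> simp [wt, tau3, tau, psi]
      · funext i
        fin_cases i <;> simp [wt, tau3, tau, psi]
    rw [h1]
    exact isWeightedHomogeneous_X K (wt (tau 15)) s
  · have h1 : psi (wt tau3 (Sum.inr j)) = ![5, 0] := by
      funext i
      fin_cases i <;> simp [wt, tau3, psi]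
    rw [h1]
    exact gx_mem K j

/-- `phi` in terms of the substitution. -/
lemma phi_X (v : (Fin 3 ⊕ Fin 15) ⊕ Fin 6) :
    phi 0 (gx K) (X v) = X (Sum.inr 1) ^ (wt tau3 v 2) *
      rename Sum.inl (theta K (X v)) := by
  rcases v with s | j
  · rw [phi, aeval_X, theta, aeval_X, Sum.elim_inl, Sum.elim_inl, rename_X]
    have h : wt tau3 (Sum.inl s : (Fin 3 ⊕ Fin 15) ⊕ Fin 6) 2 = 0 := by
      rcases s with i | k <;> simp [wt, tau3]
    rw [h, pow_zero, one_mul]
  · rw [phi, aeval_X, theta, aeval_X, Sum.elim_inr, Sum.elim_inr]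
    have h : wt tau3 (Sum.inr j : (Fin 3 ⊕ Fin 15) ⊕ Fin 6) 2 = 1 := by
      simp [wt, tau3]
    rw [h, pow_one, Pi.zero_apply, map_zero, mul_zero, zero_add]

lemma phi_eq (d : Fin 3 → ℕ) (f : MvPolynomial ((Fin 3 ⊕ Fin 15) ⊕ Fin 6) K)
    (hf : f ∈ Comp K tau3 d) :
    phi 0 (gx K) f = X (Sum.inr 1) ^ (d 2) * rename Sum.inl (theta K f) := by
  rw [Comp, mem_weightedHomogeneousSubmodule] at hf
  conv_lhs => rw [f.as_sum]
  conv_rhs => rw [f.as_sum]
  rw [map_sum, map_sum, map_sum, Finset.mul_sum]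
  refine Finset.sum_congr rfl fun m hm => ?_
  have h1 : Finsupp.weight (wt tau3) m = d := hf (mem_support_iff.1 hm)
  rw [monomial_eq, map_mul, map_mul, map_mul, Finsupp.prod, map_prod, map_prod, map_prod]
  have h2 : phi 0 (gx K) (C (coeff m f)) = C (coeff m f) := AlgHom.commutes _ _
  have h3 : rename Sum.inl (theta K (C (coeff m f))) =
      (C (coeff m f) : MvPolynomial ((Fin 3 ⊕ Fin 15) ⊕ Fin 2) K) := by
    have h4 : theta K (C (coeff m f)) = C (coeff m f) := AlgHom.commutes _ _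
    rw [h4, rename_C]
  rw [h2, h3]
  have h5 : ∏ v ∈ m.support, phi 0 (gx K) (X v ^ m v) =
      X (Sum.inr 1) ^ (d 2) * ∏ v ∈ m.support, rename Sum.inl (theta K (X v ^ m v)) := by
    have h6 : d 2 = ∑ v ∈ m.support, wt tau3 v 2 * m v := by
      rw [← h1, Finsupp.weight_apply, Finsupp.sum, Finset.sum_apply]
      refine Finset.sum_congr rfl fun v _ => ?_
      rw [Pi.smul_apply, smul_eq_mul, mul_comm]
    rw [h6, ← Finset.prod_pow_eq_pow_sum, ← Finset.prod_mul_distrib]
    refine Finset.prod_congr rfl fun v _ => ?_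
    rw [map_pow, phi_X, map_pow, map_pow, mul_pow, pow_mul]
  rw [h5]
  ring

end

/-- The substitution is onto in large degrees. -/
lemma theta_surj (hS : StSur) (K : Type) [Field K] [CharZero K] (a b : ℕ) (ha : 2 ≤ a) (m : ℕ) :
    ∀ f ∈ Comp K (tau 15) ![a + 5 * m, b], ∃ F ∈ Comp K tau3 ![a, b, m], theta K F = f := by
  induction m with
  | zero =>
    intro f hf
    refine ⟨rename Sum.inl f, ?_, ?_⟩
    · have h := aeval_mem (tau 15) tau3
        { toFun := fun d : Fin 2 → ℕ => ![d 0, d 1, 0]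
          map_zero' := by
            funext i
            fin_cases i <;> rfl
          map_add' := fun d d' => by
            funext i
            fin_cases i <;> simp } (fun s => (X (Sum.inl s) :
              MvPolynomial ((Fin 3 ⊕ Fin 15) ⊕ Fin 6) K)) (fun s => by
            have h1 : (![wt (tau 15) s 0, wt (tau 15) s 1, 0] : Fin 3 → ℕ) =
                wt tau3 (Sum.inl s) := by
              rcases s with i | k
              · funext i
                fin_cases i <;> simp [wt, tau3, tau]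
              · funext i
                fin_cases i <;> simp [wt, tau3, tau]
            change X (Sum.inl s) ∈ Comp K tau3 ![wt (tau 15) s 0, wt (tau 15) s 1, 0]
            rw [h1]
            exact isWeightedHomogeneous_X K (wt tau3) (Sum.inl s)) _ f hf
      have h2 : (rename (Sum.inl : Fin 3 ⊕ Fin 15 → (Fin 3 ⊕ Fin 15) ⊕ Fin 6) :
          MvPolynomial (Fin 3 ⊕ Fin 15) K →ₐ[K] _) =
          aeval (fun s => (X (Sum.inl s) : MvPolynomial ((Fin 3 ⊕ Fin 15) ⊕ Fin 6) K)) := by
        apply algHom_ext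
        intro s
        rw [rename_X, aeval_X]
      rw [h2]
      exact h
    · rw [theta, aeval_rename]
      have h3 : (Sum.elim X (gx K) ∘ Sum.inl : Fin 3 ⊕ Fin 15 → MvPolynomial _ K) = X := by
        funext s
        rfl
      rw [h3, aeval_X_left_apply]
  | succ m ih =>
    intro f hf
    have h1 : (![a + 5 * (m + 1), b] : Fin 2 → ℕ) = ![a + 5 * m + 5, b] := by
      rw [mul_add, mul_one, add_assoc]
    rw [h1] at hf
    obtain ⟨h, hh, hf2⟩ := hS K (a + 5 * m) b (by omega) f hf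
    choose F hF hF2 using fun j => ih (h j) (hh j)
    refine ⟨∑ j, F j * X (Sum.inr j), ?_, ?_⟩
    · refine Submodule.sum_mem _ fun j _ => ?_
      have h2 := ((mem_weightedHomogeneousSubmodule _ _ _ _).1 (hF j)).mul
        (isWeightedHomogeneous_X K (wt tau3) (Sum.inr j))
      have h3 : (![a, b, m] : Fin 3 → ℕ) + wt tau3 (Sum.inr j) = ![a, b, m + 1] := by
        funext i
        fin_cases i <;> simp [wt, tau3]
      rw [h3] at h2
      exact h2
    · rw [map_sum, hf2]
      refine Finset.sum_congr rfl fun j _ => ?_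
      rw [map_mul, hF2]
      congr 1
      rw [theta, aeval_X]
      rfl

theorem main (h1 : StHFComap) (h2 : StExt) (h3 : StSur) : StCone3 := by
  intro K _ _ P hP hhom a b m ha
  obtain ⟨-, -, h4, h5, -, -⟩ := h2 K P hP hhom
  rw [coneP, h1, HF, Nat.cast_inj]
  have h6 : (Comp K tau3 ![a, b, m]).map ((Ideal.Quotient.mkₐ K (extP P)).toLinearMap ∘ₗ
      (phi 0 (gx K)).toLinearMap) = (Comp K (tau 15) ![a + 5 * m, b]).map
      ((Ideal.Quotient.mkₐ K (extP P)).toLinearMap ∘ₗ
        LinearMap.mulLeft K (X (Sum.inr 1) ^ m) ∘ₗ (rename Sum.inl).toLinearMap) := by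
    apply le_antisymm
    · rintro z ⟨f, hf, rfl⟩
      refine ⟨theta K f, theta_mem K a b m f hf, ?_⟩
      change Ideal.Quotient.mk (extP P) (X (Sum.inr 1) ^ m * rename Sum.inl (theta K f)) =
        Ideal.Quotient.mk (extP P) (phi 0 (gx K) f)
      rw [phi_eq K _ f hf]
      rfl
    · rintro z ⟨f, hf, rfl⟩
      obtain ⟨F, hF, rfl⟩ := theta_surj h3 K a b ha m f hf
      refine ⟨F, hF, ?_⟩
      change Ideal.Quotient.mk (extP P) (phi 0 (gx K) F) =
        Ideal.Quotient.mk (extP P) (X (Sum.inr 1) ^ m * rename Sum.inl (theta K F))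
      rw [phi_eq K _ F hF]
      rfl
  rw [h6]
  refine finrank_map_eq _ _ _ fun f _ => ?_
  change Ideal.Quotient.mk (extP P) (X (Sum.inr 1) ^ m * rename Sum.inl f) = 0 ↔
    Ideal.Quotient.mk P f = 0
  rw [Ideal.Quotient.eq_zero_iff_mem, Ideal.Quotient.eq_zero_iff_mem]
  exact ⟨h5 m f, fun h => Ideal.mul_mem_left _ _ ((h4 f).2 h)⟩

end Pool.Agent.Helper93.NP.M_Cone3
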