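import Pool.Agent.Helper93.NP.M_HFBasic

/-!
A subscheme of small dimension is killed by a form on the plane.
-/

namespace Pool.Agent.Helper93.NP.M_Tor

open MvPolynomial Module

/-- A sequence whose second differences vanish eventually is eventually affine. -/
theorem affine {f : ℕ → ℤ} {n : ℕ} (h : ∀ a, n ≤ a → f (a + 2) - f (a + 1) - (f (a + 1) - f a) = 0)
    (k : ℕ) : f (n + k) = f n + k * (f (n + 1) - f n) ∧
      f (n + (k + 1)) = f n + (k + 1) * (f (n + 1) - f n) := by
  induction k with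
  | zero => simp
  | succ k ih =>
    obtain ⟨h1, h2⟩ := ih
    refine ⟨by push_cast; exact h2, ?_⟩
    have h3 := h (n + k) (Nat.le_add_right _ _)
    have e1 : n + k + 2 = n + (k + 1 + 1) := by ring
    have e2 : n + k + 1 = n + (k + 1) := by ring
    rw [e1, e2, h1, h2] at h3
    push_cast
    linarith

/-- Eventually affine sequences are smaller than binomial coefficients somewhere. -/
theorem small {f : ℕ → ℤ} {n : ℕ}
    (h : ∀ a, n ≤ a → f (a + 2) - f (a + 1) - (f (a + 1) - f a) = 0) :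
    ∃ a, n ≤ a ∧ f a < (((a + 2).choose 2 : ℕ) : ℤ) := by
  set C : ℕ := (f n).natAbs + (f (n + 1) - f n).natAbs with hC
  refine ⟨n + 2 * C, Nat.le_add_right _ _, ?_⟩
  rw [(affine h (2 * C)).1]
  have h1 : f n ≤ C := by
    have := Int.le_natAbs (a := f n)
    rw [hC]
    push_cast
    have h2 : (0 : ℤ) ≤ |f (n + 1) - f n| := abs_nonneg _
    have h3 : f n ≤ |f n| := le_abs_self _
    linarith
  have h2 : f (n + 1) - f n ≤ C := by
    rw [hC]
    push_cast
    have h2 : (0 : ℤ) ≤ |f n| := abs_nonneg _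
    have h3 : f (n + 1) - f n ≤ |f (n + 1) - f n| := le_abs_self _
    linarith
  have h3 : (2 * C + 2) * (2 * C + 1) ≤ 2 * (n + 2 * C + 2).choose 2 := by
    have e : 2 * (n + 2 * C + 2).choose 2 = (n + 2 * C + 2) * (n + 2 * C + 1) := by
      rw [Nat.choose_two_right, mul_comm 2, Nat.div_mul_cancel]
      · rfl
      · exact even_iff_two_dvd.1 (Nat.even_mul_pred_self _)
    rw [e]
    gcongr <;> omega
  have h4 : ((2 * C + 2) * (2 * C + 1) : ℤ) ≤ 2 * (((n + 2 * C + 2).choose 2 : ℕ) : ℤ) := by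
    exact_mod_cast h3
  have h5 : (0 : ℤ) ≤ C := Int.natCast_nonneg _
  push_cast
  nlinarith [mul_le_mul_of_nonneg_left h2 h5]

section

variable {K : Type} [Field K]

theorem comp_zero {g : MvPolynomial (Fin 3 ⊕ Fin 0) K} (hg : g ∈ Comp K (tau 0) ![0, 1]) :
    g = 0 := by
  by_contra hne
  obtain ⟨m, hm⟩ := support_nonempty.2 hne
  have h1 := (show IsWeightedHomogeneous (wt (tau 0)) g ![0, 1] from hg) (mem_support_iff.1 hm)
  have h2 := M_HFBasic.weight_apply (tau 0) m 1
  rw [h1, Finset.sum_eq_zero] at h2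
  · exact absurd h2 (by decide)
  · rintro (s | s) -
    · rw [if_neg, mul_zero]
      show ¬ (1 : Fin 2) = 0
      decide
    · exact s.elim0

theorem finrank_comp (h2 : StBot) (N : ℕ) (hN : 1 ≤ N) (a : ℕ) :
    finrank K (Comp K (tau N) ![a, 0]) = (a + 2).choose 2 := by
  have h3 := M_HFBasic.rank_nullity (tau N) (⊥ : Ideal (MvPolynomial (Fin 3 ⊕ Fin N) K)) ![a, 0]
  rw [h2 K N hN] at h3
  have e : (Comp K (tau N) ![a, 0] ⊓
      (⊥ : Ideal (MvPolynomial (Fin 3 ⊕ Fin N) K)).restrictScalars K) = ⊥ := by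
    rw [Submodule.restrictScalars_bot, inf_bot_eq]
  rw [e, finrank_bot] at h3
  simp only [Matrix.cons_val_zero, Matrix.cons_val_one, Nat.zero_add, Nat.choose_self, mul_one,
    Nat.cast_zero, add_zero] at h3
  exact_mod_cast h3.symm

/-- One element is killed by a form. -/
theorem one {N : ℕ} {J : Ideal (MvPolynomial (Fin 3 ⊕ Fin N) K)} {a n : ℕ}
    (h : HF (tau N) J ![a, n] < (finrank K (Comp K (tau N) ![a, 0]) : ℤ))
    {g : MvPolynomial (Fin 3 ⊕ Fin N) K} (hg : g ∈ Comp K (tau N) ![0, n]) :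
    ∃ F ∈ Comp K (tau N) ![a, 0], F ≠ 0 ∧ F * g ∈ J := by
  have hf1 := M_HFBasic.fin_comp (K := K) (tau N) ![a, 0]
  have hf2 := M_HFBasic.fin_comp (K := K) (tau N) ![a, n]
  set M : Submodule K (MvPolynomial (Fin 3 ⊕ Fin N) K ⧸ J) :=
    (Comp K (tau N) ![a, n]).map (Ideal.Quotient.mkₐ K J).toLinearMap with hM
  have hM1 : HF (tau N) J ![a, n] = (finrank K M : ℤ) := rfl
  have hM2 : finrank K M < finrank K (Comp K (tau N) ![a, 0]) := by
    rw [hM1] at h
    exact_mod_cast h
  set L : Comp K (tau N) ![a, 0] →ₗ[K] (MvPolynomial (Fin 3 ⊕ Fin N) K ⧸ J) :=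
    ((Ideal.Quotient.mkₐ K J).toLinearMap ∘ₗ LinearMap.mulRight K g).domRestrict
      (Comp K (tau N) ![a, 0]) with hL
  have hLM : ∀ x, L x ∈ M := by
    intro x
    refine ⟨(x : MvPolynomial (Fin 3 ⊕ Fin N) K) * g, ?_, rfl⟩
    have h1 := IsWeightedHomogeneous.mul (show IsWeightedHomogeneous (wt (tau N))
      (x : MvPolynomial (Fin 3 ⊕ Fin N) K) ![a, 0] from x.2)
      (show IsWeightedHomogeneous (wt (tau N)) g ![0, n] from hg)
    have e : ![a, 0] + ![0, n] = ![a, n] := by
      funext i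
      fin_cases i <;> simp
    rw [e] at h1
    exact h1
  have hk : LinearMap.ker (L.codRestrict M hLM) ≠ ⊥ := LinearMap.ker_ne_bot_of_finrank_lt hM2
  obtain ⟨x, hx, hx0⟩ := Submodule.exists_mem_ne_zero_of_ne_bot hk
  refine ⟨x, x.2, fun h0 => hx0 (Subtype.ext h0), ?_⟩
  rw [LinearMap.mem_ker] at hx
  have h1 : L x = 0 := congrArg Subtype.val hx
  exact Ideal.Quotient.eq_zero_iff_mem.1 h1

end

theorem main (_ : StHFBasic) (h2 : StBot) : StTor := by
  intro K _ N J _ hD
  rcases Nat.eq_zero_or_pos N with rfl | hN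
  · refine ⟨0, 1, ?_, one_ne_zero, 1, fun g hg => ?_⟩
    · have h1 := isWeightedHomogeneous_one K (wt (tau 0))
      have e : (0 : Fin 2 → ℕ) = ![0, 0] := by
        funext i
        fin_cases i <;> rfl
      rw [e] at h1
      exact h1
    · rw [comp_zero hg, mul_zero]
      exact J.zero_mem
  · obtain ⟨n, hn⟩ := hD [0, 0] rfl
    have h3 : ∀ a, n ≤ a → HF (tau N) J ![a + 2, n] - HF (tau N) J ![a + 1, n] -
        (HF (tau N) J ![a + 1, n] - HF (tau N) J ![a, n]) = 0 := by
      intro a ha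
      have h4 := hn ![a, n] (by
        intro i
        fin_cases i
        · exact ha
        · exact le_rfl)
      simp only [difs_cons, difs_nil, dif_apply] at h4
      have e1 : ![a, n] + Pi.single 0 1 + Pi.single 0 1 = ![a + 2, n] := by
        funext i
        fin_cases i <;> rfl
      have e2 : ![a, n] + Pi.single 0 1 = ![a + 1, n] := by
        funext i
        fin_cases i <;> rfl
      rw [e1, e2] at h4
      exact h4
    obtain ⟨a, ha, hlt⟩ := small (f := fun a => HF (tau N) J ![a, n]) h3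
    rw [← finrank_comp (K := K) h2 N hN a] at hlt
    have h5 : ∀ g ∈ Comp K (tau N) ![0, n],
        ∃ F ∈ Comp K (tau N) ![a, 0], F ≠ 0 ∧ F * g ∈ J := fun g hg => one hlt hg
    choose! f hf using h5
    have hfg := M_HFBasic.fin_comp (K := K) (tau N) ![0, n]
    obtain ⟨S, hS⟩ := (Submodule.fg_iff_finiteDimensional _).2 hfg
    have hSm : ∀ g ∈ S, g ∈ Comp K (tau N) ![0, n] := fun g hg => by
      rw [← hS]
      exact Submodule.subset_span hg
    refine ⟨S.card * a, ∏ g ∈ S, f g, ?_, ?_, n, fun g hg => ?_⟩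
    · have h6 := IsWeightedHomogeneous.prod S f (fun _ => ![a, 0]) (w := wt (tau N))
        (fun g hg => (hf g (hSm g hg)).1)
      have e : ∑ _g ∈ S, (![a, 0] : Fin 2 → ℕ) = ![S.card * a, 0] := by
        rw [Finset.sum_const]
        funext i
        fin_cases i <;> simp
      rw [e] at h6
      exact h6
    · exact Finset.prod_ne_zero_iff.2 fun g hg => (hf g (hSm g hg)).2.1
    · rw [← hS] at hg
      induction hg using Submodule.span_induction with
      | mem x hx =>
        obtain ⟨c, hc⟩ := Finset.dvd_prod_of_mem f (Finset.mem_coe.1 hx)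
        rw [hc, mul_right_comm]
        exact J.mul_mem_right _ (hf x (hSm x hx)).2.2
      | zero =>
        rw [mul_zero]
        exact J.zero_mem
      | add x y _ _ hx hy =>
        rw [mul_add]
        exact J.add_mem hx hy
      | smul c x _ hx =>
        rw [mul_smul_comm, smul_eq_C_mul]
        exact J.mul_mem_left _ hx

end Pool.Agent.Helper93.NP.M_Tor
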