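import Pool.Agent.Helper93.NP.Defs

/-! Nef and pseudo-effective classes on the projective bundle `P(E)` over the plane,
`E = coker (O(-1)^a → O^N)`. -/

namespace Pool.Agent.Helper93.NP

open MvPolynomial

/-- `P` is the bihomogeneous prime ideal of a `d`-dimensional closed subvariety of the projective
bundle of `M`, with intersection numbers `∫ h^j ξ^(d-j) = D j`. -/
structure IsSubvariety {a N : ℕ} (M : Fin a → Fin N → Fin 3 → ℂ) (d : ℕ)
    (P : Ideal (MvPolynomial (Fin 3 ⊕ Fin N) ℂ)) (D : ℕ → ℤ) : Prop where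
  prime : P.IsPrime
  hom : IsHom (tau N) P
  le : IM M ≤ P
  x_notMem : ∃ i, X (Sum.inl i) ∉ P
  y_notMem : ∃ k, X (Sum.inr k) ∉ P
  numbers : HasNumbers P d D
  dim : ∃ j ≤ d, D j ≠ 0

/-- The class `∑ α j ξ^(k-j) h^j` of codimension `k` is nef: it is nonnegative on every
`k`-dimensional subvariety. -/
def IsNef {a N : ℕ} (M : Fin a → Fin N → Fin 3 → ℂ) (k : ℕ) (α : Fin 3 → ℝ) : Prop :=
  ∀ (P : Ideal (MvPolynomial (Fin 3 ⊕ Fin N) ℂ)) (D : ℕ → ℤ), IsSubvariety M k P D →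
    0 ≤ ∑ j : Fin 3, α j * (D j : ℝ)

/-- The classes of the `d`-dimensional subvarieties: the vectors of the intersection numbers with
`ξ^d`, `h ξ^(d-1)`, `h² ξ^(d-2)`. -/
def subvarietyClasses {a N : ℕ} (M : Fin a → Fin N → Fin 3 → ℂ) (d : ℕ) : Set (Fin 3 → ℝ) :=
  {v | ∃ (P : Ideal (MvPolynomial (Fin 3 ⊕ Fin N) ℂ)) (D : ℕ → ℤ), IsSubvariety M d P D ∧
    ∀ i : Fin 3, v i = (D i : ℝ)}

/-- The pseudo-effective cone of `d`-dimensional cycles: the closure of the convex cone spanned by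
the classes of the `d`-dimensional subvarieties. -/
def psefCone {a N : ℕ} (M : Fin a → Fin N → Fin 3 → ℂ) (d : ℕ) : Set (Fin 3 → ℝ) :=
  closure (Submodule.span NNReal (subvarietyClasses M d) : Set (Fin 3 → ℝ))

/-- The class `∑ α j ξ^(k-j) h^j` of codimension `k` on the `n`-dimensional projective bundle of
`M` is pseudo-effective: the vector of its intersection numbers with `ξ^(n-k)`, `h ξ^(n-k-1)`,
`h² ξ^(n-k-2)` lies in the pseudo-effective cone. Here `s i` is the number `∫ h^i ξ^(n-i)` on the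
bundle. -/
def IsPsef {a N : ℕ} (M : Fin a → Fin N → Fin 3 → ℂ) (n k : ℕ) (α : Fin 3 → ℝ) : Prop :=
  ∃ s : ℕ → ℤ, HasNumbers (IM M) n s ∧
    (fun i : Fin 3 => ∑ j : Fin 3, α j * (s ((i : ℕ) + (j : ℕ)) : ℝ)) ∈ psefCone M (n - k)

end Pool.Agent.Helper93.NP
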